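import Pool.Agent.OLD57.Credit

/-!
# Module OLD57/Balance

The sum of all credits is the sum of all debits.

PROOF. `∑ z, cr z = ∑ z, ∑ l ∈ lns z, crl z l = ∑ l, ∑ z ∈ pts l, crl z l` (`mem_iff`). For a fixed
line `l`: `∑ z ∈ pts l, ∑ p ∈ pts l \ z, ∑ q ∈ pts l \ z, [K p q] gw p q`: every ordered pair
`p ≠ q` of points of `l` occurs for exactly one `z` (the third point), so this is
`∑ p ∈ pts l, ∑ q ∈ pts l, [K p q] gw p q` (`K p p` is false). Hence
`∑ z, cr z = (1/2) ∑ p, ∑ q, [K p q] gw p q * #{l | p, q ∈ pts l}` and for `K p q` the number of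
common lines is `(lns p ∩ lns q).card = 2`. So it is `∑ p, ∑ q, [K p q] gw p q = ∑ p, deb p`.
-/

set_option autoImplicit false

namespace Pool.Agent.OLD57

open Finset

namespace Inc

variable {P L : Type*} [Fintype P] [DecidableEq P] [Fintype L] [DecidableEq L]
variable (H : Inc P L)

omit [Fintype P] in
private theorem three_sum (g : P → P → ℝ) (hg : ∀ x, g x x = 0) (A : Finset P)
    (hA : A.card = 3) : ∑ z ∈ A, ∑ p ∈ A.erase z, ∑ q ∈ A.erase z, g p q =
      ∑ p ∈ A, ∑ q ∈ A, g p q := by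
  obtain ⟨a, b, c, hab, hac, hbc, rfl⟩ := card_eq_three.1 hA
  have e1 : ({a, b, c} : Finset P).erase a = {b, c} := by
    rw [erase_insert]; simp [hab, hac]
  have e2 : ({a, b, c} : Finset P).erase b = {a, c} := by
    rw [insert_comm, erase_insert]; simp [hab.symm, hbc]
  have e3 : ({a, b, c} : Finset P).erase c = {a, b} := by
    ext x
    simp only [mem_erase, mem_insert, mem_singleton]
    constructor
    · rintro ⟨h1, h2 | h2 | h2⟩
      · exact Or.inl h2
      · exact Or.inr h2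
      · exact absurd h2 h1
    · rintro (h1 | h1)
      · exact ⟨h1 ▸ hac, Or.inl h1⟩
      · exact ⟨h1 ▸ hbc, Or.inr (Or.inl h1)⟩
  have h3 : ∀ f : P → ℝ, ∑ x ∈ ({a, b, c} : Finset P), f x = f a + (f b + f c) := by
    intro f
    rw [sum_insert (by simp [hab, hac]), sum_insert (by simp [hbc]), sum_singleton]
  have h2 : ∀ (u v : P), u ≠ v → ∀ f : P → ℝ, ∑ x ∈ ({u, v} : Finset P), f x = f u + f v := by
    intro u v huv f
    rw [sum_pair huv]
  rw [h3, e1, e2, e3, h2 b c hbc, h2 a c hac, h2 a b hab, h2 b c hbc, h2 b c hbc, h2 a c hac,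
    h2 a c hac, h2 a b hab, h2 a b hab, h3, h3, h3, h3]
  rw [hg a, hg b, hg c]
  ring

theorem sum_cr_eq_sum_deb : ∑ z : P, H.cr z = ∑ z : P, H.deb z := by
  set g : P → P → ℝ := fun p q => if H.K p q then H.gw p q else 0 with hgdef
  have hg : ∀ x, g x x = 0 := by
    intro x
    rw [hgdef]
    exact if_neg (fun h => h.1 rfl)
  have h1 : ∑ z : P, H.cr z = ∑ l : L, ∑ z ∈ H.pts l, H.crl z l := by
    unfold cr
    apply sum_comm'
    intro x y
    simp only [mem_univ, true_and, and_true]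
    exact (H.mem_iff x y).symm
  have h2 : ∀ l : L, ∑ z ∈ H.pts l, H.crl z l = (∑ p ∈ H.pts l, ∑ q ∈ H.pts l, g p q) / 2 := by
    intro l
    rw [← three_sum g hg (H.pts l) (H.card_pts l), sum_div]
    rfl
  have h3 : ∑ l : L, ∑ p ∈ H.pts l, ∑ q ∈ H.pts l, g p q =
      ∑ p : P, ∑ l ∈ H.lns p, ∑ q ∈ H.pts l, g p q := by
    apply sum_comm'
    intro x y
    simp only [mem_univ, true_and, and_true]
    exact H.mem_iff y x
  have h4 : ∀ p : P, ∑ l ∈ H.lns p, ∑ q ∈ H.pts l, g p q =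
      ∑ q : P, ∑ l ∈ H.lns p ∩ H.lns q, g p q := by
    intro p
    apply sum_comm'
    intro x y
    simp only [mem_univ, and_true, mem_inter, H.mem_iff]
  have h5 : ∀ p q : P, ∑ l ∈ H.lns p ∩ H.lns q, g p q = 2 * g p q := by
    intro p q
    rw [sum_const, nsmul_eq_mul]
    by_cases hK : H.K p q
    · rw [hK.2]; norm_num
    · have : g p q = 0 := by rw [hgdef]; exact if_neg hK
      rw [this]; ring
  rw [h1, sum_congr rfl fun l _ => h2 l, ← sum_div, h3, sum_congr rfl fun p _ => h4 p,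
    sum_congr rfl fun p _ => sum_congr rfl fun q _ => h5 p q]
  unfold deb
  simp only [← mul_sum]
  ring

end Inc

end Pool.Agent.OLD57
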