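import Pool.Agent.OLD57.FBasic

/-!
# Module OLD57/Indep

Independence of coordinates under the uniform measure on `P → Fin T`.

PROOF. `Pr_indep`: `(P → Fin T) ≃ ({y // y ∈ S} → Fin T) × ({y // y ∉ S} → Fin T)`
(`Equiv.piEquivPiSubtypeProd`). `Q` depends only on the first factor, `R` only on the second, so the
number of `ω` with `Q ∧ R` is `q * r`, the number with `Q` is `q * T ^ (n - s)`, the number with `R`
is `T ^ s * r`. Divide by powers of `T`. (To turn `Q ω` into a condition on the first factor extend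
a partial function by an arbitrary fixed function; `T > 0`.)
`Pr_eq_const`: `Pr (ω x = i) = 1/T`, from the bijections `ω ↦ Function.update ω x j`, or
`Fintype.piFinset` cardinality. `Pr_mono`, `Pr_nonneg`: counting.
`Pr_sum_fiber`: the `ω` with `Q ω` are partitioned according to the value `ω x`.
-/

set_option autoImplicit false

namespace Pool.Agent.OLD57

open Finset

variable {P : Type*} [Fintype P] [DecidableEq P]

theorem Pr_nonneg (T : ℕ) (Q : (P → Fin T) → Prop) : 0 ≤ Pr T Q := by
  unfold Pr
  positivity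

theorem Pr_mono {T : ℕ} {Q R : (P → Fin T) → Prop} (h : ∀ ω, Q ω → R ω) : Pr T Q ≤ Pr T R := by
  classical
  unfold Pr
  apply div_le_div_of_nonneg_right _ (by positivity)
  exact_mod_cast card_le_card (monotone_filter_right _ (fun ω _ hω => h ω hω))

theorem Pr_true {T : ℕ} (hT : 0 < T) : Pr T (fun _ : P → Fin T => True) = 1 := by
  classical
  have hT' : (T : ℝ) ≠ 0 := by positivity
  unfold Pr
  rw [filter_true, card_univ, Fintype.card_fun, Fintype.card_fin]
  push_cast
  exact div_self (pow_ne_zero _ hT')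

/-- `Q` depends only on the coordinates in `S`, `R` only on the coordinates outside `S`. -/
theorem Pr_indep {T : ℕ} (hT : 0 < T) (S : Finset P) (Q R : (P → Fin T) → Prop)
    (hQ : ∀ ω ω', (∀ y ∈ S, ω y = ω' y) → (Q ω ↔ Q ω'))
    (hR : ∀ ω ω', (∀ y, y ∉ S → ω y = ω' y) → (R ω ↔ R ω')) :
    Pr T (fun ω => Q ω ∧ R ω) = Pr T Q * Pr T R := by
  classical
  have hT' : (T : ℝ) ≠ 0 := by positivity
  have key : ((univ.filter fun ω : P → Fin T => Q ω) ×ˢ (univ.filter fun ω : P → Fin T => R ω)).card =
      ((univ.filter fun ω : P → Fin T => Q ω ∧ R ω) ×ˢ (univ : Finset (P → Fin T))).card := by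
    refine card_bij'
      (fun p _ => ((fun y => if y ∈ S then p.1 y else p.2 y), fun y => if y ∈ S then p.2 y else p.1 y))
      (fun p _ => ((fun y => if y ∈ S then p.1 y else p.2 y), fun y => if y ∈ S then p.2 y else p.1 y))
      ?_ ?_ ?_ ?_
    · rintro ⟨ω, ω'⟩ h
      simp only [mem_product, mem_filter, mem_univ, true_and, and_true] at h ⊢
      refine ⟨(hQ _ _ fun y hy => ?_).1 h.1, (hR _ _ fun y hy => ?_).1 h.2⟩
      · rw [if_pos hy]
      · rw [if_neg hy]
    · rintro ⟨ω, ω'⟩ h
      simp only [mem_product, mem_filter, mem_univ, true_and, and_true] at h ⊢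
      refine ⟨(hQ _ _ fun y hy => ?_).1 h.1, (hR _ _ fun y hy => ?_).1 h.2⟩
      · rw [if_pos hy]
      · rw [if_neg hy]
    · rintro ⟨ω, ω'⟩ h
      ext y <;> dsimp only <;> split_ifs <;> rfl
    · rintro ⟨ω, ω'⟩ h
      ext y <;> dsimp only <;> split_ifs <;> rfl
  rw [card_product, card_product, card_univ, Fintype.card_fun, Fintype.card_fin] at key
  have key' : ((univ.filter fun ω : P → Fin T => Q ω).card : ℝ) *
      (univ.filter fun ω : P → Fin T => R ω).card =
      (univ.filter fun ω : P → Fin T => Q ω ∧ R ω).card * (T : ℝ) ^ Fintype.card P := by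
    exact_mod_cast key
  have hp : (T : ℝ) ^ Fintype.card P ≠ 0 := pow_ne_zero _ hT'
  unfold Pr
  rw [div_mul_div_comm, key', mul_div_mul_right _ _ hp]
  congr!

private theorem Pr_sum_fiber' {T : ℕ} (x : P) (Q : (P → Fin T) → Prop) :
    Pr T Q = ∑ i : Fin T, Pr T (fun ω => ω x = i ∧ Q ω) := by
  classical
  unfold Pr
  rw [← sum_div]
  congr 1
  rw [card_eq_sum_card_fiberwise (f := fun ω : P → Fin T => ω x) (t := univ)
    (fun _ _ => mem_univ _)]
  push_cast
  refine sum_congr rfl fun i _ => ?_
  congr 2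
  ext ω
  simp only [mem_filter, mem_univ, true_and]
  exact and_comm

theorem Pr_eq_const {T : ℕ} (hT : 0 < T) (x : P) (i : Fin T) :
    Pr T (fun ω : P → Fin T => ω x = i) = 1 / T := by
  classical
  have hT' : (T : ℝ) ≠ 0 := by positivity
  have h1 : ∀ j : Fin T, Pr T (fun ω : P → Fin T => ω x = j) =
      Pr T (fun ω : P → Fin T => ω x = i) := by
    intro j
    unfold Pr
    congr 2
    refine card_bij' (fun ω _ y => Equiv.swap i j (ω y)) (fun ω _ y => Equiv.swap i j (ω y))
      ?_ ?_ ?_ ?_
    · intro ω h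
      simp only [mem_filter, mem_univ, true_and] at h ⊢
      rw [h, Equiv.swap_apply_right]
    · intro ω h
      simp only [mem_filter, mem_univ, true_and] at h ⊢
      rw [h, Equiv.swap_apply_left]
    · intro ω h
      funext y
      exact Equiv.swap_apply_self _ _ _
    · intro ω h
      funext y
      exact Equiv.swap_apply_self _ _ _
  have h2 := Pr_sum_fiber' x (fun _ : P → Fin T => True)
  rw [Pr_true hT] at h2
  simp only [and_true] at h2
  rw [sum_congr rfl fun j _ => h1 j, sum_const, card_univ, Fintype.card_fin, nsmul_eq_mul] at h2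
  rw [eq_div_iff hT', mul_comm]
  exact h2.symm

theorem Pr_sum_fiber {T : ℕ} (x : P) (Q : (P → Fin T) → Prop) :
    Pr T Q = ∑ i : Fin T, Pr T (fun ω => ω x = i ∧ Q ω) :=
  Pr_sum_fiber' x Q

end Pool.Agent.OLD57
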