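import Pool.Agent.OLD57.ValidRC
import Pool.Agent.OLD57.Balance
import Pool.Agent.OLD57.Indep

/-!
# Module OLD57/Assemble

From the components to the whole.

PROOF. For every component `C` (finset in the image of `comp`) choose `ρ_C` by `CompOK` and let
`U ω = univ.filter fun x => Good (comp x) (ρ (comp x)) x ω`.
(1) `U ω` is valid: by `valid_of_RC` suppose `RC B`, `B ⊆ U ω`; `B` is nonempty (`card_RC`); let
`x ∈ B` with `ω x` maximal (`Finset.exists_max_image`). `x` is good. `B ∩ comp x ⊆ ρ (comp x) ω`: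
for `y ∈ B ∩ comp x` we have `y ∈ U ω`, so `y ∈ ρ (comp y) ω`, and `comp y = comp x`. So there is
`y ∈ B` with `ω x < ω y`, a contradiction.
(2) `∑ ω, (U ω).card = T ^ n * ∑ x, Pr T (Good (comp x) (ρ (comp x)) x)` (exchange sums).
(3) `∑ x, Pr ... = ∑ x, (Pr ... + cr x - deb x)` (`sum_cr_eq_sum_deb`)
`= ∑ C ∈ univ.image comp, ∑ x ∈ C, (...) ≥ ∑ C, (2/7) C.card = (2/7) n`
(`Finset.sum_fiberwise_of_maps_to`: the fiber of `C` under `comp` is `C`, since `y ∈ comp x` iff
`comp y = comp x`, by symmetry and transitivity of `Reachable`).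
(4) Hence some `ω` has `(U ω).card ≥ (2/7) n` (`Finset.exists_le_of_sum_le` or by contradiction;
there are `T ^ n > 0` functions `ω`). Cast to `ℕ`.
-/

set_option autoImplicit false

namespace Pool.Agent.OLD57

open Finset

namespace Inc

variable {P L : Type*} [Fintype P] [DecidableEq P] [Fintype L] [DecidableEq L]
variable (H : Inc P L)

theorem mem_comp {x y : P} : y ∈ H.comp x ↔ H.KG.Reachable x y := by
  simp [comp]

theorem comp_eq_comp {x y : P} (h : y ∈ H.comp x) : H.comp y = H.comp x := by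
  rw [mem_comp] at h
  ext z
  rw [mem_comp, mem_comp]
  exact ⟨fun h' => h.trans h', fun h' => h.symm.trans h'⟩

private theorem assemble_fib (z : P) : (univ.filter fun x => H.comp x = H.comp z) = H.comp z := by
  ext y
  rw [mem_filter]
  constructor
  · rintro ⟨_, h⟩
    rw [← h]
    exact (H.mem_comp).2 (SimpleGraph.Reachable.refl y)
  · intro h
    exact ⟨mem_univ _, H.comp_eq_comp h⟩

theorem assemble {T : ℕ} (hT : 0 < T) (h : ∀ x, H.CompOK T (H.comp x)) :
    ∃ U : Finset P, H.Valid U ∧ 2 * Fintype.card P ≤ 7 * U.card := by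
  classical
  have h' : ∀ C : Finset P, ∃ ρ : (P → Fin T) → Finset P, (∃ x, H.comp x = C) →
      (2 / 7 : ℝ) * C.card ≤ ∑ x ∈ C, (Pr T (H.Good C ρ x) + H.cr x - H.deb x) := by
    intro C
    by_cases hC : ∃ x, H.comp x = C
    · obtain ⟨x, rfl⟩ := hC
      obtain ⟨ρ, hρ⟩ := h x
      exact ⟨ρ, fun _ => hρ⟩
    · exact ⟨fun _ => ∅, fun h => absurd h hC⟩
  choose ρ hρ using h'
  have hvalid : ∀ ω : P → Fin T,
      H.Valid (univ.filter fun x => H.Good (H.comp x) (ρ (H.comp x)) x ω) := by
    intro ω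
    refine H.valid_of_RC fun B hB hBU => ?_
    have hne : B.Nonempty := by
      rw [← card_pos]
      have := H.card_RC hB
      omega
    obtain ⟨x, hx, hmax⟩ := exists_max_image B ω hne
    have hgood := (mem_filter.1 (hBU hx)).2
    obtain ⟨y, hy, hlt⟩ := hgood.2 B hB hx (by
      intro y hy
      rw [mem_inter] at hy
      have h1 := (mem_filter.1 (hBU hy.1)).2.1
      rwa [H.comp_eq_comp hy.2] at h1)
    exact absurd (hmax y hy) (not_le.2 hlt)
  have key : (2 / 7 : ℝ) * Fintype.card P ≤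
      ∑ x, (Pr T (H.Good (H.comp x) (ρ (H.comp x)) x) + H.cr x - H.deb x) := by
    rw [← sum_fiberwise_of_maps_to (s := univ) (t := univ.image H.comp) (g := H.comp)
      (fun x _ => mem_image_of_mem _ (mem_univ x))]
    have hcard : (Fintype.card P : ℝ) =
        ∑ C ∈ univ.image H.comp, ((univ.filter fun x => H.comp x = C).card : ℝ) := by
      rw [← card_univ, card_eq_sum_card_image H.comp univ]
      push_cast
      rfl
    rw [hcard, mul_sum]
    refine sum_le_sum fun C hC => ?_
    obtain ⟨z, _, rfl⟩ := mem_image.1 hC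
    rw [H.assemble_fib z]
    refine (hρ _ ⟨z, rfl⟩).trans (le_of_eq (sum_congr rfl fun x hx => ?_))
    rw [H.comp_eq_comp hx]
  have hsum : ∑ x, (Pr T (H.Good (H.comp x) (ρ (H.comp x)) x) + H.cr x - H.deb x) =
      ∑ x, Pr T (H.Good (H.comp x) (ρ (H.comp x)) x) := by
    rw [sum_sub_distrib, sum_add_distrib, H.sum_cr_eq_sum_deb]
    ring
  rw [hsum] at key
  have hTn : (0 : ℝ) < (T : ℝ) ^ Fintype.card P := by positivity
  have hex : ∑ x, Pr T (H.Good (H.comp x) (ρ (H.comp x)) x) =
      (∑ ω : P → Fin T,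
        ((univ.filter fun x => H.Good (H.comp x) (ρ (H.comp x)) x ω).card : ℝ)) /
          (T : ℝ) ^ Fintype.card P := by
    unfold Pr
    rw [← sum_div]
    congr 1
    simp only [card_filter, Nat.cast_sum]
    exact sum_comm
  rw [hex, le_div_iff₀ hTn] at key
  by_contra hcon
  push Not at hcon
  have hlt : ∀ ω : P → Fin T,
      ((univ.filter fun x => H.Good (H.comp x) (ρ (H.comp x)) x ω).card : ℝ) <
        2 / 7 * Fintype.card P := by
    intro ω
    have h1 := hcon _ (hvalid ω)
    have h2 : (7 : ℝ) * ((univ.filter fun x => H.Good (H.comp x) (ρ (H.comp x)) x ω).card : ℝ) <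
        2 * Fintype.card P := by exact_mod_cast h1
    linarith
  haveI : Nonempty (Fin T) := ⟨⟨0, hT⟩⟩
  have hlt2 : ∑ ω : P → Fin T,
      ((univ.filter fun x => H.Good (H.comp x) (ρ (H.comp x)) x ω).card : ℝ) <
        ∑ _ω : P → Fin T, (2 / 7 : ℝ) * Fintype.card P :=
    sum_lt_sum_of_nonempty univ_nonempty fun ω _ => hlt ω
  rw [sum_const, card_univ, Fintype.card_fun, Fintype.card_fin, nsmul_eq_mul] at hlt2
  push_cast at hlt2
  linarith

end Inc

end Pool.Agent.OLD57
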