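import Pool.Agent.OLD57.Defs

/-!
# Module OLD57/CompDefs (complete, do not edit)

The inequality for a component with a constant `c`, and the list of the numerical facts.
-/

set_option autoImplicit false

namespace Pool.Agent.OLD57

open Finset

namespace Inc

variable {P L : Type*} [Fintype P] [DecidableEq P] [Fintype L] [DecidableEq L]
variable (H : Inc P L)

/-- The inequality for one component, with the constant `c`. -/
def CompOKc (T : ℕ) (c : ℝ) (C : Finset P) : Prop :=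
  ∃ ρ : (P → Fin T) → Finset P,
    c * C.card ≤ ∑ x ∈ C, (Pr T (H.Good C ρ x) + H.cr x - H.deb x)

theorem CompOKc.mono {T : ℕ} {c c' : ℝ} {C : Finset P} (hc : c' ≤ c) (h : H.CompOKc T c C) :
    H.CompOKc T c' C := by
  obtain ⟨ρ, hρ⟩ := h
  exact ⟨ρ, le_trans (mul_le_mul_of_nonneg_right hc (Nat.cast_nonneg _)) hρ⟩

/-- Constant activity rule with lower bounds `v`. -/
theorem compOKc_const {T : ℕ} {c : ℝ} {C : Finset P} (D : Finset P) (v : P → ℝ)
    (h : ∀ x ∈ C, v x ≤ Pr T (H.Good C (fun _ : P → Fin T => D) x) + H.cr x - H.deb x)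
    (hs : c * C.card ≤ ∑ x ∈ C, v x) : H.CompOKc T c C :=
  ⟨fun _ => D, hs.trans (Finset.sum_le_sum h)⟩

end Inc

/-- The numerical facts. -/
structure NumOK (T : ℕ) : Prop where
  pos : 0 < T
  NNN : 286 / 1000 ≤ avg T (fun t => fN t * fN t * fN t)
  MNN : 256 / 1000 ≤ avg T (fun t => fM t * fN t * fN t)
  MMN : 226 / 1000 ≤ avg T (fun t => fM t * fM t * fN t)
  MMM : 196 / 1000 ≤ avg T (fun t => fM t * fM t * fM t)
  G2N : 322 / 1000 ≤ avg T (fun t => fG2 t * fN t)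
  G2M : 292 / 1000 ≤ avg T (fun t => fG2 t * fM t)
  G33N : 303 / 1000 ≤ avg T (fun t => fG33 t * fN t)
  G33M : 248 / 1000 ≤ avg T (fun t => fG33 t * fM t)
  Mid : 4005 / 10000 ≤ avg T (fun t => fMid t)
  G32N : 3058 / 10000 ≤ avg T (fun t => fG32 t * fN t)
  G32M : 2498 / 10000 ≤ avg T (fun t => fG32 t * fM t)
  G32M' : 25389 / 100000 ≤ avg T (fun t => fG32 t * fM' t)
  In : 31813 / 100000 ≤ avg T (fun t => fIn t)
  Six : 474 / 1000 ≤ avg T (fun t => (1 - t ^ 3) ^ 6)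
  LeafN : 262 / 1000 ≤ avg T (fun t => fLeaf t * fN t)
  LeafM : 2179 / 10000 ≤ avg T (fun t => fLeaf t * fM t)
  Tri : 3252 / 10000 ≤ avg T (fun t => fTri t)
  PawX : 4498 / 10000 ≤ avg T (fun t => (1 - t) * (1 - t ^ 3))
  Cube : 7498 / 10000 ≤ avg T (fun t => 1 - t ^ 3)
  EndN : 36 / 100 ≤ avg T (fun t => (1 - t) * fN t)
  EndM : 2855 / 10000 ≤ avg T (fun t => (1 - t) * fM t)
  Half : 4998 / 10000 ≤ ((T : ℝ) - 1) / (2 * T)
  HalfSq : 2498 / 10000 ≤ (((T : ℝ) - 1) / (2 * T)) ^ 2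
  Two : 333 / 1000 ≤ ((T : ℝ) - 1) / (2 * T) * avg T (fun p => 1 - p ^ 2)

end Pool.Agent.OLD57
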