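import Pool.Agent.OLD57.Defs

/-!
# Module OLD57/AvgBasic

PROOF. `avg_mono`: termwise; for `i < T` the point `(i + 1)/T` is in `[0, 1]`. `avg_const`: the sum
is `T * c`. `avg_mul_const`: `Finset.mul_sum`.
-/

set_option autoImplicit false

namespace Pool.Agent.OLD57

open Finset

private theorem AvgBasic_pt {T : ℕ} {i : ℕ} (hi : i ∈ range T) :
    0 ≤ ((i : ℝ) + 1) / T ∧ ((i : ℝ) + 1) / T ≤ 1 := by
  rw [mem_range] at hi
  have hT : (0 : ℝ) < T := by
    have : 0 < T := by omega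
    exact_mod_cast this
  have h1 : ((i : ℝ) + 1) ≤ T := by
    have : i + 1 ≤ T := hi
    exact_mod_cast this
  constructor
  · positivity
  · rw [div_le_one hT]
    exact h1

theorem avg_mono {T : ℕ} (hT : 0 < T) {f g : ℝ → ℝ} (h : ∀ p, 0 ≤ p → p ≤ 1 → f p ≤ g p) :
    avg T f ≤ avg T g := by
  unfold avg
  have hT' : (0 : ℝ) ≤ T := Nat.cast_nonneg T
  apply div_le_div_of_nonneg_right _ hT'
  apply sum_le_sum
  intro i hi
  obtain ⟨h1, h2⟩ := AvgBasic_pt hi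
  exact h _ h1 h2

theorem avg_const {T : ℕ} (hT : 0 < T) (c : ℝ) : avg T (fun _ => c) = c := by
  unfold avg
  have hT' : (T : ℝ) ≠ 0 := by
    have : T ≠ 0 := by omega
    exact_mod_cast this
  rw [sum_const, card_range, nsmul_eq_mul]
  field_simp

theorem avg_nonneg {T : ℕ} {f : ℝ → ℝ} (h : ∀ p, 0 ≤ p → p ≤ 1 → 0 ≤ f p) : 0 ≤ avg T f := by
  unfold avg
  apply div_nonneg _ (Nat.cast_nonneg T)
  apply sum_nonneg
  intro i hi
  obtain ⟨h1, h2⟩ := AvgBasic_pt hi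
  exact h _ h1 h2

end Pool.Agent.OLD57
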