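import Pool.Agent.OLD57.Defs

/-!
# Module OLD57/Basic

Elementary facts about incidences.

PROOF. `inter_pts_le`: `card = 3` would give `pts l = pts m` (both have 3 elements,
`Finset.eq_of_subset_of_card_le`). `inter_lns_le` dually. `K_iff_two`: `card ≥ 2` and `≤ 2`.
`exists_pts`: `Finset.card_eq_three` for `pts l`, move `x` to the front. `exists_pts2`: the same with
two known points. `inter_eq`: `{x, y} ⊆ pts l ∩ pts m`, which has at most two elements.
`lns_common`: if `x ≠ y` are on `l ≠ m` and on `k` then `k = l ∨ k = m` (`inter_lns_le`).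
`card_mate`: `|pts l| = |pts m| = 3`, intersection 2, so the symmetric difference has
`1 + 1 = 2` elements; `card_quad`: `2 + 2 = 4`.
`card_RC`: cases. `mate_of_two`: if `pts l = {p, q, x}`, `pts m = {p, q, y}`, all four different, then
`{x, y}` is a mate pair (intersection `{p, q}`).
`mate_eq_of_RC`: `RC C`, `Mate M`, `M ⊆ C` imply `Mate C` (second alternative excluded), both have
two elements, so `C = M`.
-/

set_option autoImplicit false

namespace Pool.Agent.OLD57

open Finset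

namespace Inc

variable {P L : Type*} [Fintype P] [DecidableEq P] [Fintype L] [DecidableEq L]
variable (H : Inc P L)

private theorem aux3 {α : Type*} [DecidableEq α] {s : Finset α} (hs : s.card = 3) {x : α}
    (h : x ∈ s) : ∃ p q, x ≠ p ∧ x ≠ q ∧ p ≠ q ∧ s = {x, p, q} := by
  have h1 : (s.erase x).card = 2 := by rw [Finset.card_erase_of_mem h, hs]
  obtain ⟨p, q, hpq, he⟩ := Finset.card_eq_two.mp h1
  have hp : p ∈ s.erase x := by rw [he]; simp
  have hq : q ∈ s.erase x := by rw [he]; simp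
  refine ⟨p, q, (Finset.ne_of_mem_erase hp).symm, (Finset.ne_of_mem_erase hq).symm, hpq, ?_⟩
  rw [← he, Finset.insert_erase h]

private theorem aux32 {α : Type*} [DecidableEq α] {s : Finset α} (hs : s.card = 3) {x y : α}
    (hxy : x ≠ y) (hx : x ∈ s) (hy : y ∈ s) : ∃ z, z ≠ x ∧ z ≠ y ∧ s = {x, y, z} := by
  obtain ⟨p, q, hp, hq, hpq, he⟩ := aux3 hs hx
  rw [he, mem_insert, mem_insert, mem_singleton] at hy
  rcases hy with h | h | h
  · exact absurd h.symm hxy
  · subst h
    exact ⟨q, hq.symm, hpq.symm, he⟩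
  · subst h
    exact ⟨p, hp.symm, hpq, by rw [he, Finset.pair_comm]⟩

private theorem aux_inter {α : Type*} [DecidableEq α] {s t : Finset α} (hs : s.card = 3)
    (ht : t.card = 3) (hst : s ≠ t) : (s ∩ t).card ≤ 2 := by
  by_contra hc
  push Not at hc
  have hl : s ∩ t = s := Finset.eq_of_subset_of_card_le inter_subset_left (by omega)
  have hm : s ∩ t = t := Finset.eq_of_subset_of_card_le inter_subset_right (by omega)
  exact hst (hl.symm.trans hm)

private theorem card_sd {α : Type*} [DecidableEq α] (A B : Finset α) :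
    (symmDiff A B).card + 2 * (A ∩ B).card = A.card + B.card := by
  have h1 := Finset.card_sdiff_add_card_inter A B
  have h2 := Finset.card_sdiff_add_card_inter B A
  rw [Finset.inter_comm B A] at h2
  have h3 : (symmDiff A B).card = (A \ B).card + (B \ A).card := by
    rw [symmDiff_def, Finset.sup_eq_union, Finset.card_union_of_disjoint]
    exact disjoint_sdiff_sdiff
  omega

omit [Fintype P] [Fintype L] in
private theorem inter_pts_le' {l m : L} (h : l ≠ m) : (H.pts l ∩ H.pts m).card ≤ 2 :=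
  aux_inter (H.card_pts l) (H.card_pts m) fun he => h (H.pts_inj l m he)

omit [Fintype P] [Fintype L] in
private theorem inter_lns_le' {x y : P} (h : x ≠ y) : (H.lns x ∩ H.lns y).card ≤ 2 :=
  aux_inter (H.card_lns x) (H.card_lns y) fun he => h (H.lns_inj x y he)

theorem inter_pts_le {l m : L} (h : l ≠ m) : (H.pts l ∩ H.pts m).card ≤ 2 :=
  H.inter_pts_le' h

theorem inter_lns_le {x y : P} (h : x ≠ y) : (H.lns x ∩ H.lns y).card ≤ 2 :=
  H.inter_lns_le' h

theorem K_iff_two {x y : P} : H.K x y ↔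
    x ≠ y ∧ ∃ l m, l ≠ m ∧ x ∈ H.pts l ∧ y ∈ H.pts l ∧ x ∈ H.pts m ∧ y ∈ H.pts m := by
  constructor
  · rintro ⟨h, h2⟩
    refine ⟨h, ?_⟩
    obtain ⟨l, m, hlm, he⟩ := Finset.card_eq_two.mp h2
    have hl : l ∈ H.lns x ∩ H.lns y := by rw [he]; simp
    have hm : m ∈ H.lns x ∩ H.lns y := by rw [he]; simp
    rw [mem_inter] at hl hm
    exact ⟨l, m, hlm, (H.mem_iff _ _).2 hl.1, (H.mem_iff _ _).2 hl.2, (H.mem_iff _ _).2 hm.1,
      (H.mem_iff _ _).2 hm.2⟩
  · rintro ⟨h, l, m, hlm, h1, h2, h3, h4⟩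
    refine ⟨h, le_antisymm (H.inter_lns_le h) ?_⟩
    have h0 : ({l, m} : Finset L) ⊆ H.lns x ∩ H.lns y := by
      intro k hk
      rw [mem_insert, mem_singleton] at hk
      rw [mem_inter]
      rcases hk with rfl | rfl
      · exact ⟨(H.mem_iff _ _).1 h1, (H.mem_iff _ _).1 h2⟩
      · exact ⟨(H.mem_iff _ _).1 h3, (H.mem_iff _ _).1 h4⟩
    have h5 := Finset.card_le_card h0
    rw [Finset.card_pair hlm] at h5
    exact h5

theorem K_of {x y : P} (hxy : x ≠ y) {l m : L} (hlm : l ≠ m) (h1 : x ∈ H.pts l)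
    (h2 : y ∈ H.pts l) (h3 : x ∈ H.pts m) (h4 : y ∈ H.pts m) : H.K x y :=
  H.K_iff_two.2 ⟨hxy, l, m, hlm, h1, h2, h3, h4⟩

theorem exists_pts {x : P} {l : L} (h : x ∈ H.pts l) :
    ∃ p q, x ≠ p ∧ x ≠ q ∧ p ≠ q ∧ H.pts l = {x, p, q} :=
  aux3 (H.card_pts l) h

theorem exists_pts2 {x y : P} (hxy : x ≠ y) {l : L} (hx : x ∈ H.pts l) (hy : y ∈ H.pts l) :
    ∃ z, z ≠ x ∧ z ≠ y ∧ H.pts l = {x, y, z} :=
  aux32 (H.card_pts l) hxy hx hy

theorem exists_lns {x : P} {l : L} (h : l ∈ H.lns x) :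
    ∃ m k, l ≠ m ∧ l ≠ k ∧ m ≠ k ∧ H.lns x = {l, m, k} :=
  aux3 (H.card_lns x) h

theorem exists_lns2 {x : P} {l m : L} (hlm : l ≠ m) (hl : l ∈ H.lns x) (hm : m ∈ H.lns x) :
    ∃ k, k ≠ l ∧ k ≠ m ∧ H.lns x = {l, m, k} :=
  aux32 (H.card_lns x) hlm hl hm

theorem inter_eq {x y : P} (hxy : x ≠ y) {l m : L} (hlm : l ≠ m) (h1 : x ∈ H.pts l)
    (h2 : y ∈ H.pts l) (h3 : x ∈ H.pts m) (h4 : y ∈ H.pts m) :
    H.pts l ∩ H.pts m = {x, y} := by
  symm
  apply Finset.eq_of_subset_of_card_le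
  · intro z hz
    rw [mem_insert, mem_singleton] at hz
    rw [mem_inter]
    rcases hz with rfl | rfl
    · exact ⟨h1, h3⟩
    · exact ⟨h2, h4⟩
  · rw [Finset.card_pair hxy]
    exact H.inter_pts_le hlm

theorem lns_common {x y : P} (hxy : x ≠ y) {l m k : L} (hlm : l ≠ m) (h1 : x ∈ H.pts l)
    (h2 : y ∈ H.pts l) (h3 : x ∈ H.pts m) (h4 : y ∈ H.pts m) (h5 : x ∈ H.pts k)
    (h6 : y ∈ H.pts k) : k = l ∨ k = m := by
  have h0 : ({l, m} : Finset L) = H.lns x ∩ H.lns y := by
    apply Finset.eq_of_subset_of_card_le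
    · intro z hz
      rw [mem_insert, mem_singleton] at hz
      rw [mem_inter]
      rcases hz with rfl | rfl
      · exact ⟨(H.mem_iff _ _).1 h1, (H.mem_iff _ _).1 h2⟩
      · exact ⟨(H.mem_iff _ _).1 h3, (H.mem_iff _ _).1 h4⟩
    · rw [Finset.card_pair hlm]
      exact H.inter_lns_le hxy
  have h7 : k ∈ ({l, m} : Finset L) := by
    rw [h0, mem_inter]
    exact ⟨(H.mem_iff _ _).1 h5, (H.mem_iff _ _).1 h6⟩
  rw [mem_insert, mem_singleton] at h7
  exact h7

theorem card_mate {M : Finset P} (h : H.Mate M) : M.card = 2 := by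
  obtain ⟨l, m, hc, he⟩ := h
  have h1 := card_sd (H.pts l) (H.pts m)
  rw [hc, H.card_pts, H.card_pts, ← he] at h1
  omega

theorem card_quad {C : Finset P} (h : H.Quad C) : C.card = 4 := by
  obtain ⟨l, m, hc, he⟩ := h
  have h1 := card_sd (H.pts l) (H.pts m)
  rw [hc, H.card_pts, H.card_pts, ← he] at h1
  omega

theorem card_RC {C : Finset P} (h : H.RC C) : C.card = 2 ∨ C.card = 3 ∨ C.card = 4 := by
  rcases h with h | ⟨⟨l, h⟩ | h, _⟩
  · exact Or.inl (H.card_mate h)
  · right; left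
    rw [h]
    exact H.card_pts l
  · exact Or.inr (Or.inr (H.card_quad h))

theorem mate_of_two {x y p q : P} {l m : L} (hl : H.pts l = {p, q, x}) (hm : H.pts m = {p, q, y})
    (hpq : p ≠ q) (hpx : p ≠ x) (hqx : q ≠ x) (hpy : p ≠ y) (hqy : q ≠ y) (hxy : x ≠ y) :
    H.Mate {x, y} := by
  refine ⟨l, m, ?_, ?_⟩
  · have h0 : H.pts l ∩ H.pts m = {p, q} := by
      rw [hl, hm]
      ext z
      simp only [mem_inter, mem_insert, mem_singleton]
      constructor
      · rintro ⟨h1 | h1 | h1, h2⟩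
        · exact Or.inl h1
        · exact Or.inr h1
        · subst h1
          rcases h2 with h | h | h
          · exact absurd h.symm hpx
          · exact absurd h.symm hqx
          · exact absurd h hxy
      · rintro (h | h)
        · exact ⟨Or.inl h, Or.inl h⟩
        · exact ⟨Or.inr (Or.inl h), Or.inr (Or.inl h)⟩
    rw [h0, Finset.card_pair hpq]
  · ext z
    rw [Finset.mem_symmDiff, hl, hm]
    simp only [mem_insert, mem_singleton]
    constructor
    · rintro (rfl | rfl)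
      · left
        refine ⟨Or.inr (Or.inr rfl), ?_⟩
        rintro (h | h | h)
        · exact hpx h.symm
        · exact hqx h.symm
        · exact hxy h
      · right
        refine ⟨Or.inr (Or.inr rfl), ?_⟩
        rintro (h | h | h)
        · exact hpy h.symm
        · exact hqy h.symm
        · exact hxy h.symm
    · rintro (⟨h1 | h1 | h1, h2⟩ | ⟨h1 | h1 | h1, h2⟩)
      · exact absurd (Or.inl h1) h2
      · exact absurd (Or.inr (Or.inl h1)) h2
      · exact Or.inl h1
      · exact absurd (Or.inl h1) h2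
      · exact absurd (Or.inr (Or.inl h1)) h2
      · exact Or.inr h1

theorem mate_eq_of_RC {C M : Finset P} (hC : H.RC C) (hM : H.Mate M) (h : M ⊆ C) : C = M := by
  rcases hC with hC | ⟨_, hC⟩
  · symm
    apply Finset.eq_of_subset_of_card_le h
    rw [H.card_mate hC, H.card_mate hM]
  · exact absurd h (hC M hM)

end Inc

end Pool.Agent.OLD57
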