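import Pool.Agent.OLD57.LongPath

/-!
# Module OLD57/Classify

If no point of the component of `x` has three different K-neighbours, then the component is a single
point, a path or a cycle.

PROOF. Take a longest path `y 0, ..., y (r-1)` (`lp_exists`). Hypothesis `hd`: for `u` in the
component there are no three different K-neighbours.
`r = 1`: by `lp_begin` every K-neighbour of `y 0` is `y 0` itself, impossible; so `y 0` has no
K-neighbour, `comp (y 0) = {y 0}` (`comp_eq_single`), `x ∈ comp (y 0)` (symmetry), `x = y 0`.
`r ≥ 2`. (a) `1 ≤ i`, `i + 1 < r`: `K (y i) z ↔ z = y (i-1) ∨ z = y (i+1)` (two different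
K-neighbours, a third one is excluded by `hd`, `lp_reach`). (b) `K (y 0) z`: by `lp_begin` `z = y j`,
`j ≠ 0`. If `1 ≤ j`, `j + 1 < r`: by (a) at `j`: `y 0 = y (j-1)` or `y (j+1)`, so `j = 1`. So `j = 1`
or `j = r - 1`. (c) Similarly `K (y (r-1)) z` implies `z = y (r-2)` or `z = y 0`.
If `r ≥ 3` and `K (y 0) (y (r-1))`: cycle: `k = r`, `x' i = y ((i % r).toNat)`; `K (y 0) z ↔ z = y 1 ∨
z = y (r-1)`, `K (y (r-1)) z ↔ z = y (r-2) ∨ z = y 0`, and (a); `KCyc`: `eq_iff` by
`Int.emod_emod_of_dvd`/`Int.emod_eq_emod_iff_emod_sub_eq_zero` and injectivity; `K_iff` for `i` with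
`i % r = 0`, `= r - 1`, or between. Otherwise (`r = 2` or `¬ K (y 0) (y (r-1))`): `KPath H r y`:
`K_iff` from (a), (b), (c).
In both cases `comp x = comp (y 0)` because `y 0 ∈ comp x` (reachability is symmetric and
transitive), and `KPath.comp_eq`, `KCyc.comp_eq`.
-/

set_option autoImplicit false

namespace Pool.Agent.OLD57

open Finset

namespace Inc

variable {P L : Type*} [Fintype P] [DecidableEq P] [Fintype L] [DecidableEq L]
variable (H : Inc P L)

private theorem Classify_mem {x y : P} : y ∈ H.comp x ↔ H.KG.Reachable x y := by
  simp [comp]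

theorem comp_eq_of_mem {x y : P} (h : y ∈ H.comp x) : H.comp x = H.comp y := by
  have h1 : H.KG.Reachable x y := (Classify_mem H).1 h
  ext z
  rw [Classify_mem, Classify_mem]
  exact ⟨fun h2 => h1.symm.trans h2, fun h2 => h1.trans h2⟩

theorem classify {x : P}
    (hd : ∀ u ∈ H.comp x, ∀ a b c, a ≠ b → a ≠ c → b ≠ c → H.K u a → H.K u b → H.K u c → False) :
    ((∀ y, ¬ H.K x y) ∧ H.comp x = {x}) ∨
    (∃ r y, KPath H r y ∧ H.comp x = (range r).image y) ∨
    (∃ k, ∃ z : ℤ → P, KCyc H k z ∧ H.comp x = (range k).image fun j : ℕ => z (j : ℤ)) := by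
  obtain ⟨r, y, hLP, hmax⟩ := H.lp_exists x
  have hcomp0 : H.comp x = H.comp (y 0) := H.comp_eq_of_mem hLP.mem
  have hd' : ∀ i < r, ∀ a b c, a ≠ b → a ≠ c → b ≠ c → H.K (y i) a → H.K (y i) b →
      H.K (y i) c → False := fun i hi => hd (y i) (H.lp_reach hLP hi)
  have hne : ∀ u, ¬ H.K u u := fun u h => h.1 rfl
  have hadj : ∀ i, 1 ≤ i → i < r → H.K (y i) (y (i - 1)) := by
    intro i h1 h2
    have h3 := hLP.adj (i - 1) (by omega)
    rw [show i - 1 + 1 = i by omega] at h3
    exact H.K_symm h3
  have hmid : ∀ i, 1 ≤ i → i + 1 < r → ∀ z, H.K (y i) z ↔ z = y (i - 1) ∨ z = y (i + 1) := by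
    intro i h1 h2 z
    constructor
    · intro hz
      by_contra hcon
      rw [not_or] at hcon
      refine hd' i (by omega) z (y (i - 1)) (y (i + 1)) hcon.1 hcon.2 ?_ hz
        (hadj i h1 (by omega)) (hLP.adj i h2)
      intro h3
      have := hLP.inj (i - 1) (by omega) (i + 1) h2 h3
      omega
    · rintro (h3 | h3)
      · rw [h3]; exact hadj i h1 (by omega)
      · rw [h3]; exact hLP.adj i h2
  have hbeg : 2 ≤ r → ∀ z, H.K (y 0) z → z = y 1 ∨ z = y (r - 1) := by
    intro hr z hz
    obtain ⟨j, hj, rfl⟩ := H.lp_begin hLP hmax hz
    rcases Nat.eq_zero_or_pos j with h0 | h0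
    · subst h0
      exact absurd hz (hne _)
    · by_cases h1 : j = r - 1
      · right; rw [h1]
      · left
        have h2 := (hmid j h0 (by omega) (y 0)).1 (H.K_symm hz)
        rcases h2 with h2 | h2
        · have := hLP.inj 0 (by omega) (j - 1) (by omega) h2
          rw [show j = 1 by omega]
        · have := hLP.inj 0 (by omega) (j + 1) (by omega) h2
          omega
  have hend : 2 ≤ r → ∀ z, H.K (y (r - 1)) z → z = y (r - 2) ∨ z = y 0 := by
    intro hr z hz
    obtain ⟨j, hj, rfl⟩ := H.lp_end hLP hmax hz
    by_cases h0 : j = r - 1
    · rw [h0] at hz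
      exact absurd hz (hne _)
    · rcases Nat.eq_zero_or_pos j with h1 | h1
      · right; rw [h1]
      · left
        have h2 := (hmid j h1 (by omega) (y (r - 1))).1 (H.K_symm hz)
        rcases h2 with h2 | h2
        · have := hLP.inj (r - 1) (by omega) (j - 1) (by omega) h2
          omega
        · have := hLP.inj (r - 1) (by omega) (j + 1) (by omega) h2
          rw [show j = r - 2 by omega]
  rcases Nat.lt_or_ge r 2 with hr | hr
  · left
    have hr1 : r = 1 := by have := hLP.pos; omega
    have hno : ∀ z, ¬ H.K (y 0) z := by
      intro z hz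
      obtain ⟨j, hj, rfl⟩ := H.lp_begin hLP hmax hz
      have : j = 0 := by omega
      subst this
      exact hne _ hz
    have hc : H.comp (y 0) = {y 0} := H.comp_eq_single hno
    have hxx : x ∈ H.comp x := (Classify_mem H).2 (SimpleGraph.Reachable.refl x)
    rw [hcomp0, hc, mem_singleton] at hxx
    refine ⟨fun z hz => hno z (by rw [← hxx]; exact hz), ?_⟩
    rw [hcomp0, hc, ← hxx]
  · by_cases hcyc : 3 ≤ r ∧ H.K (y 0) (y (r - 1))
    · right; right
      obtain ⟨hr3, hK⟩ := hcyc
      have hrpos : (0 : ℤ) < (r : ℤ) := by exact_mod_cast (by omega : 0 < r)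
      have hz : ∀ (i : ℤ) (n : ℕ), n < r → (r : ℤ) ∣ i - n → y ((i % r).toNat) = y n := by
        intro i n hn hdvd
        have h1 : i % (r : ℤ) = (n : ℤ) := by
          rw [Int.emod_eq_emod_iff_emod_sub_eq_zero.2 (Int.emod_eq_zero_of_dvd hdvd)]
          exact Int.emod_eq_of_lt (Int.natCast_nonneg n) (by exact_mod_cast hn)
        rw [h1, Int.toNat_natCast]
      have hcyc' : KCyc H r (fun i : ℤ => y ((i % r).toNat)) := by
        refine ⟨hr3, fun i j => ?_, fun i w => ?_⟩
        · have hi0 := Int.emod_nonneg i hrpos.ne'
          have hj0 := Int.emod_nonneg j hrpos.ne'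
          have hi1 := Int.emod_lt_of_pos i hrpos
          have hj1 := Int.emod_lt_of_pos j hrpos
          constructor
          · intro h
            have h1 := hLP.inj _ (by omega) _ (by omega) h
            apply Int.dvd_of_emod_eq_zero
            rw [← Int.emod_eq_emod_iff_emod_sub_eq_zero]
            omega
          · intro h
            have h1 : i % (r : ℤ) = j % (r : ℤ) :=
              Int.emod_eq_emod_iff_emod_sub_eq_zero.2 (Int.emod_eq_zero_of_dvd h)
            simp only [h1]
        · have hi0 := Int.emod_nonneg i hrpos.ne'
          have hi1 := Int.emod_lt_of_pos i hrpos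
          obtain ⟨m, hm⟩ := Int.eq_ofNat_of_zero_le hi0
          have hmr : m < r := by omega
          have hdvd : (r : ℤ) ∣ i - m := by
            rw [← hm, Int.emod_def]
            exact ⟨i / r, by ring⟩
          have e0 : y ((i % r).toNat) = y m := hz i m hmr hdvd
          simp only [e0]
          rcases Nat.eq_zero_or_pos m with h0 | h0
          · subst h0
            have e1 : y (((i - 1) % r).toNat) = y (r - 1) := by
              apply hz _ _ (by omega)
              rw [Nat.cast_sub (by omega)]
              have : i - 1 - ((r : ℤ) - (1 : ℕ)) = (i - (0 : ℕ)) - r := by push_cast; ring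
              rw [this]
              exact dvd_sub hdvd (dvd_refl _)
            have e2 : y (((i + 1) % r).toNat) = y 1 := by
              apply hz _ _ (by omega)
              have : i + 1 - ((1 : ℕ) : ℤ) = i - (0 : ℕ) := by push_cast; ring
              rw [this]
              exact hdvd
            rw [e1, e2]
            constructor
            · intro h
              exact (hbeg hr w h).symm
            · rintro (h | h)
              · rw [h]; exact hK
              · rw [h]; exact hLP.adj 0 (by omega)
          · have e1 : y (((i - 1) % r).toNat) = y (m - 1) := by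
              apply hz _ _ (by omega)
              rw [Nat.cast_sub (by omega)]
              have : i - 1 - ((m : ℤ) - (1 : ℕ)) = i - m := by push_cast; ring
              rw [this]
              exact hdvd
            rw [e1]
            by_cases h1 : m = r - 1
            · have e2 : y (((i + 1) % r).toNat) = y 0 := by
                apply hz _ _ (by omega)
                have : i + 1 - ((0 : ℕ) : ℤ) = (i - (m : ℤ)) + r := by
                  rw [h1, Nat.cast_sub (by omega)]; push_cast; ring
                rw [this]
                exact dvd_add hdvd (dvd_refl _)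
              rw [e2, h1, show r - 1 - 1 = r - 2 by omega]
              constructor
              · intro h
                exact hend hr w h
              · rintro (h | h)
                · rw [h]
                  have := hadj (r - 1) (by omega) (by omega)
                  rwa [show r - 1 - 1 = r - 2 by omega] at this
                · rw [h]; exact H.K_symm hK
            · have e2 : y (((i + 1) % r).toNat) = y (m + 1) := by
                apply hz _ _ (by omega)
                have : i + 1 - ((m + 1 : ℕ) : ℤ) = i - m := by push_cast; ring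
                rw [this]
                exact hdvd
              rw [e2]
              exact hmid m h0 (by omega) w
      refine ⟨r, _, hcyc', ?_⟩
      have h0 := hcyc'.comp_eq H 0
      have h1 : y (((0 : ℤ) % r).toNat) = y 0 := by simp
      simp only [h1] at h0
      rw [hcomp0]
      exact h0
    · right; left
      have hpath : KPath H r y := by
        refine ⟨hr, hLP.inj, fun i hi w => ?_⟩
        constructor
        · intro h
          rcases Nat.eq_zero_or_pos i with h0 | h0
          · subst h0
            rcases hbeg hr w h with h1 | h1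
            · exact ⟨1, by omega, Or.inl rfl, h1⟩
            · by_cases h2 : r = 2
              · exact ⟨1, by omega, Or.inl rfl, by rw [h1, h2]⟩
              · exact absurd ⟨by omega, by rw [← h1]; exact h⟩ hcyc
          · by_cases h1 : i = r - 1
            · subst h1
              rcases hend hr w h with h2 | h2
              · exact ⟨r - 2, by omega, Or.inr (by omega), h2⟩
              · by_cases h3 : r = 2
                · exact ⟨0, by omega, Or.inr (by omega), h2⟩
                · exact absurd ⟨by omega, by rw [← h2]; exact H.K_symm h⟩ hcyc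
            · rcases (hmid i h0 (by omega) w).1 h with h2 | h2
              · exact ⟨i - 1, by omega, Or.inr (by omega), h2⟩
              · exact ⟨i + 1, by omega, Or.inl rfl, h2⟩
        · rintro ⟨j, hj, h1 | h1, rfl⟩
          · subst h1
            exact hLP.adj i hj
          · subst h1
            exact H.K_symm (hLP.adj j hi)
      refine ⟨r, y, hpath, ?_⟩
      rw [hcomp0]
      exact hpath.comp_eq H (by omega)

end Inc

end Pool.Agent.OLD57
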