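import Pool.Agent.OLD57.CycFacts

/-!
# Module OLD57/CompCyc

A cycle component. `C = {x 0, ..., x (k-1)}`.

PROOF. `k` even (so `k ≥ 6`): `cyc_sum` with `D = ((range k).filter (j % 2 = 0)).image x`; by
`KCyc.eq_mod` and `eq_iff`, `x i ∈ D ↔ i % 2 = 0` (`k` is even), `D.card = k / 2 ≥ 0.286 k`.
`k` odd, `k ≥ 7`: `D = ((range k).filter (j % 2 = 1 ∧ j + 4 ≤ k)).image x`: `x i ∈ D` iff
`(i % k) % 2 = 1` and `i % k + 4 ≤ k`. Then `(i + 1) % k = i % k + 1` and `(i + 3) % k = i % k + 3` are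
even. `D.card = (k - 3) / 2` and `(k - 3) / 2 ≥ 2 k / 7` for `k ≥ 7`, `≥ 0.286 k` for `k ≥ 9`
(`D` is in bijection with `range ((k - 3) / 2)` by `m ↦ x (2 m + 1)`; only `≥` is needed:
`Finset.card_le_card_of_injOn`).
`k = 5`: `ρ` constant `D = {x 0, x 1}` (`compOKc_const`): `Pr_good_one` with `cyc5_bl0`, `cyc5_bl1`,
`cyc_net`, `Pr_good_nonneg`: the sum is `≥ 2 ≥ 5 * 0.286`.
`comp_cyc'`: combine; `comp_cyc`: `k = 7` with `c = 2/7`, the others by `CompOKc.mono`.
-/

set_option autoImplicit false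

namespace Pool.Agent.OLD57

open Finset

namespace Inc

variable {P L : Type*} [Fintype P] [DecidableEq P] [Fintype L] [DecidableEq L]
variable (H : Inc P L)

variable {k : ℕ} {x : ℤ → P} {l : ℤ → L}

private theorem CompCyc_nodvd {k : ℕ} {a : ℤ} (h : (k : ℤ) ∣ a) (h1 : a < k) (h2 : -(k : ℤ) < a) :
    a = 0 := by
  obtain ⟨c, rfl⟩ := h
  have hk : (0 : ℤ) < k ∨ (k : ℤ) = 0 := by omega
  rcases hk with hk | hk
  · have c1 : c < 1 := by
      by_contra hc
      push Not at hc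
      nlinarith
    have c2 : -1 < c := by
      by_contra hc
      push Not at hc
      nlinarith
    have : c = 0 := by omega
    simp [this]
  · simp [hk]

theorem comp_cyc_even {T : ℕ} (hT : 0 < T) (h : CycCfg H k x l) (hk : k % 2 = 0) :
    H.CompOKc T (143 / 500) ((range k).image fun j : ℕ => x (j : ℤ)) := by
  have hpar : ∀ i i' : ℤ, x i ∈ ((range (k / 2)).image fun m : ℕ => x ((2 * m : ℕ) : ℤ)) →
      x i' ∈ ((range (k / 2)).image fun m : ℕ => x ((2 * m : ℕ) : ℤ)) → (i - i') % 2 = 0 := by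
    intro i i' hi hi'
    obtain ⟨m, hm, hm'⟩ := mem_image.1 hi
    obtain ⟨n, hn, hn'⟩ := mem_image.1 hi'
    obtain ⟨a, ha⟩ := (h.toKCyc.eq_iff _ _).1 hm'
    obtain ⟨b, hb⟩ := (h.toKCyc.eq_iff _ _).1 hn'
    obtain ⟨q, hq⟩ : ∃ q : ℕ, k = 2 * q := ⟨k / 2, by omega⟩
    subst hq
    push_cast at ha hb
    have e1 : i = 2 * m - 2 * (q * a) := by linarith
    have e2 : i' = 2 * n - 2 * (q * b) := by linarith
    omega
  refine H.cyc_sum hT h (D := (range (k / 2)).image fun m : ℕ => x ((2 * m : ℕ) : ℤ)) ?_ ?_ ?_ ?_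
  · intro y hy
    obtain ⟨m, hm, rfl⟩ := mem_image.1 hy
    exact mem_image.2 ⟨2 * m, by rw [mem_range] at hm ⊢; omega, rfl⟩
  · intro i hi hi'
    have := hpar _ _ hi hi'
    omega
  · intro i hi hi'
    have := hpar _ _ hi hi'
    omega
  · have hc : ((range (k / 2)).image fun m : ℕ => x ((2 * m : ℕ) : ℤ)).card = k / 2 := by
      rw [card_image_of_injOn, card_range]
      intro m hm n hn hmn
      rw [coe_range, Set.mem_Iio] at hm hn
      have h0 := CompCyc_nodvd ((h.toKCyc.eq_iff _ _).1 hmn) (by push_cast; omega)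
        (by push_cast; omega)
      push_cast at h0
      omega
    rw [hc]
    obtain ⟨q, hq⟩ : ∃ q : ℕ, k = 2 * q := ⟨k / 2, by omega⟩
    subst hq
    rw [show 2 * q / 2 = q by omega]
    push_cast
    have : (0 : ℝ) ≤ q := Nat.cast_nonneg _
    linarith

theorem comp_cyc_odd {T : ℕ} (hT : 0 < T) (h : CycCfg H k x l) (hk : k % 2 = 1) (h7 : 7 ≤ k)
    {c : ℝ} (hc : 2 * (c * k) ≤ (k : ℝ) - 3) :
    H.CompOKc T c ((range k).image fun j : ℕ => x (j : ℤ)) := by
  have hpar : ∀ i i' : ℤ, x i ∈ ((range ((k - 3) / 2)).image fun m : ℕ => x ((2 * m + 1 : ℕ) : ℤ)) →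
      x i' ∈ ((range ((k - 3) / 2)).image fun m : ℕ => x ((2 * m + 1 : ℕ) : ℤ)) →
      ∃ m n : ℤ, 0 ≤ m ∧ 0 ≤ n ∧ 2 * m ≤ k - 5 ∧ 2 * n ≤ k - 5 ∧ (k : ℤ) ∣ 2 * m - 2 * n - (i - i') := by
    intro i i' hi hi'
    obtain ⟨m, hm, hm'⟩ := mem_image.1 hi
    obtain ⟨n, hn, hn'⟩ := mem_image.1 hi'
    rw [mem_range] at hm hn
    have ha := (h.toKCyc.eq_iff _ _).1 hm'
    have hb := (h.toKCyc.eq_iff _ _).1 hn'
    refine ⟨m, n, by omega, by omega, by omega, by omega, ?_⟩
    have hd := dvd_sub ha hb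
    have e : (2 * (m : ℤ) - 2 * (n : ℤ) - (i - i')) =
        (((2 * m + 1 : ℕ) : ℤ) - i) - (((2 * n + 1 : ℕ) : ℤ) - i') := by
      push_cast
      ring
    rw [e]
    exact hd
  refine H.cyc_sum hT h (D := (range ((k - 3) / 2)).image fun m : ℕ => x ((2 * m + 1 : ℕ) : ℤ))
    ?_ ?_ ?_ ?_
  · intro y hy
    obtain ⟨m, hm, rfl⟩ := mem_image.1 hy
    exact mem_image.2 ⟨2 * m + 1, by rw [mem_range] at hm ⊢; omega, rfl⟩
  · intro i hi hi'
    obtain ⟨m, n, h1, h2, h3, h4, h5⟩ := hpar _ _ hi hi'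
    have h0 := CompCyc_nodvd h5 (by omega) (by omega)
    omega
  · intro i hi hi'
    obtain ⟨m, n, h1, h2, h3, h4, h5⟩ := hpar _ _ hi hi'
    have h0 := CompCyc_nodvd h5 (by omega) (by omega)
    omega
  · have hcard : ((range ((k - 3) / 2)).image fun m : ℕ => x ((2 * m + 1 : ℕ) : ℤ)).card
        = (k - 3) / 2 := by
      rw [card_image_of_injOn, card_range]
      intro m hm n hn hmn
      rw [coe_range, Set.mem_Iio] at hm hn
      have h0 := CompCyc_nodvd ((h.toKCyc.eq_iff _ _).1 hmn) (by push_cast; omega)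
        (by push_cast; omega)
      push_cast at h0
      omega
    rw [hcard]
    obtain ⟨q, hq⟩ : ∃ q : ℕ, k = 2 * q + 3 := ⟨(k - 3) / 2, by omega⟩
    subst hq
    rw [show (2 * q + 3 - 3) / 2 = q by omega]
    push_cast at hc ⊢
    linarith

theorem comp_cyc_five {T : ℕ} (hT : 0 < T) (h : CycCfg H 5 x l) :
    H.CompOKc T (143 / 500) ((range 5).image fun j : ℕ => x (j : ℤ)) := by
  have hC : ∀ i, x i ∈ (range 5).image fun j : ℕ => x (j : ℤ) := fun i =>
    KCyc.mem_image H h.toKCyc i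
  have h01 : x 0 ≠ x 1 := by
    intro h0
    have := (h.toKCyc.eq_iff 0 1).1 h0
    norm_num at this
  refine H.compOKc_const ({x 0, x 1} : Finset P)
    (fun y => if y ∈ ({x 0, x 1} : Finset P) then (1 : ℝ) else 0) ?_ ?_
  · intro y hy
    obtain ⟨j, hj, rfl⟩ := mem_image.1 hy
    have hnet := H.cyc_net h (j : ℤ)
    by_cases hD : x (j : ℤ) ∈ ({x 0, x 1} : Finset P)
    · have h1 : Pr T (H.Good ((range 5).image fun j : ℕ => x (j : ℤ))
          (fun _ : P → Fin T => ({x 0, x 1} : Finset P)) (x (j : ℤ))) = 1 := by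
        apply H.Pr_good_one hT hD
        rcases mem_insert.1 hD with e | e
        · rw [e]
          exact H.cyc5_bl0 h hC
        · rw [mem_singleton] at e
          rw [e]
          exact H.cyc5_bl1 h hC
      simp only [hD, if_true]
      rw [h1]
      linarith
    · simp only [hD, if_false]
      have := H.Pr_good_nonneg (T := T) ((range 5).image fun j : ℕ => x (j : ℤ))
        (fun _ : P → Fin T => ({x 0, x 1} : Finset P)) (x (j : ℤ))
      linarith
  · rw [KCyc.card_image H h.toKCyc, Finset.sum_ite_mem, Finset.sum_const, nsmul_eq_mul, mul_one]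
    have hsub : ({x 0, x 1} : Finset P) ⊆
        ((range 5).image fun j : ℕ => x (j : ℤ)) ∩ {x 0, x 1} := by
      intro y hy
      rw [mem_inter]
      refine ⟨?_, hy⟩
      rcases mem_insert.1 hy with e | e
      · rw [e]; exact hC 0
      · rw [mem_singleton] at e
        rw [e]; exact hC 1
    have h2 := card_le_card hsub
    rw [card_pair h01] at h2
    have h3 : (2 : ℝ) ≤ ((((range 5).image fun j : ℕ => x (j : ℤ)) ∩ {x 0, x 1}).card : ℝ) := by
      exact_mod_cast h2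
    push_cast
    linarith

theorem comp_cyc {T : ℕ} (hT : 0 < T) (h : CycCfg H k x l) :
    H.CompOKc T (2 / 7) ((range k).image fun j : ℕ => x (j : ℤ)) := by
  have h5 := h.five_le
  rcases Nat.even_or_odd k with he | ho
  · exact CompOKc.mono H (by norm_num) (H.comp_cyc_even hT h (Nat.even_iff.1 he))
  · have hk := Nat.odd_iff.1 ho
    by_cases h7 : 7 ≤ k
    · refine H.comp_cyc_odd hT h hk h7 ?_
      have : (7 : ℝ) ≤ k := by exact_mod_cast h7
      linarith
    · have : k = 5 := by omega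
      subst this
      exact CompOKc.mono H (by norm_num) (H.comp_cyc_five hT h)

theorem comp_cyc' {T : ℕ} (hT : 0 < T) (h : CycCfg H k x l) (h7 : k ≠ 7) :
    H.CompOKc T (143 / 500) ((range k).image fun j : ℕ => x (j : ℤ)) := by
  have h5 := h.five_le
  rcases Nat.even_or_odd k with he | ho
  · exact H.comp_cyc_even hT h (Nat.even_iff.1 he)
  · have hk := Nat.odd_iff.1 ho
    by_cases h9 : 9 ≤ k
    · refine H.comp_cyc_odd hT h hk (by omega) ?_
      have : (9 : ℝ) ≤ k := by exact_mod_cast h9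
      linarith
    · have : k = 5 := by omega
      subst this
      exact H.comp_cyc_five hT h

end Inc

end Pool.Agent.OLD57
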