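import Pool.Agent.OLD57.Basic

/-!
# Module OLD57/PathFacts

Elementary consequences of a path configuration.

PROOF. `K_succ`: `K_iff`. `not_K`: `K_iff` and injectivity. `l_ne`: if `l i = l j`, `i < j < r`, then
the point sets would be equal; `x j` is in `pts (l j)`; if `1 ≤ i`: `x (i-1)` is the point of
smallest index of `l i`, ...: simplest: `x i ∈ pts (l i)`, `x j ∈ pts (l j)` and compare with the
explicit sets using injectivity (the set of all `k < r` with `x k ∈ pts (l i)` is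
`{i-1, i, i+1} ∩ [0, r)` up to the point `e` resp. `f`; use only that `l (i) , l (i+1)` are different
elements of the three-element sets `lns0`, `lnsi`, `lnsr`). For `e_ne0`, ...: `pts (l 0)` has three
elements. `n0_ne`: `lns (x 0)` has three elements. `K0`: `K (x 0) y ↔ y = x 1`.
`e_ne2`: `r ≥ 3`; if `e = x 2` then `pts (l 0) = pts (l 1)`, so `l 0 = l 1`, but `lns (x 0)` has
three elements. `x1_not_n0`: `r ≥ 3`: `lns (x 1) = {l 0, l 1, l 2}`; if `x 1 ∈ pts n0` then
`n0 = l 2` and `x 0 ∈ pts (l 2)`, so `K (x 0) y` for ... directly: `x 0, x 1` are then on the three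
lines `l 0, l 1, n0`, contradiction to `lns_common`. (For `r = 2` the same.)

`e_not_n0`: otherwise `e`, `x 0` are on `l 0 ≠ n0`, so `K (x 0) e`, `e = x 1`, contradiction.
`rev`: reverse all indices; `K_iff` for the reversed path by `j ↦ r - 1 - j`; `pts0` from `ptsr`
(`{x (r-2), x (r-1), f} = {f, x (r-1), x (r-2)}` as sets), `ptsi` from `ptsi` at `r - 1 - i`, `lns`
similarly.
-/

set_option autoImplicit false

namespace Pool.Agent.OLD57

open Finset

namespace Inc

variable {P L : Type*} [Fintype P] [DecidableEq P] [Fintype L] [DecidableEq L]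
variable (H : Inc P L)

variable {r : ℕ} {x : ℕ → P} {l : ℕ → L} {e f : P} {n0 n1 : L}

theorem KPath.K_succ (h : KPath H r x) {i : ℕ} (hi : i + 1 < r) : H.K (x i) (x (i + 1)) :=
  (h.K_iff i (by omega) (x (i + 1))).2 ⟨i + 1, hi, Or.inl rfl, rfl⟩

theorem KPath.ne (h : KPath H r x) {i j : ℕ} (hi : i < r) (hj : j < r) (hij : i ≠ j) :
    x i ≠ x j :=
  fun e => hij (h.inj i hi j hj e)

theorem KPath.not_K (h : KPath H r x) {i j : ℕ} (hi : i < r) (hj : j < r) (h1 : j ≠ i + 1)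
    (h2 : i ≠ j + 1) : ¬ H.K (x i) (x j) := by
  intro hK
  obtain ⟨k, hk, hkk, he⟩ := (h.K_iff i hi _).1 hK
  have h3 := h.inj j hj k hk he
  subst h3
  omega

theorem KPath.K0 (h : KPath H r x) (y : P) : H.K (x 0) y ↔ y = x 1 := by
  have h2 := h.two_le
  rw [h.K_iff 0 (by omega) y]
  constructor
  · rintro ⟨j, hj, hjj, he⟩
    have h3 : j = 1 := by omega
    rw [he, h3]
  · rintro he
    exact ⟨1, by omega, Or.inl rfl, he⟩

theorem KPath.Ki (h : KPath H r x) {i : ℕ} (h1 : 1 ≤ i) (h2 : i + 1 < r) (y : P) :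
    H.K (x i) y ↔ y = x (i - 1) ∨ y = x (i + 1) := by
  rw [h.K_iff i (by omega) y]
  constructor
  · rintro ⟨j, hj, hjj, he⟩
    rcases hjj with hjj | hjj
    · right; rw [he, hjj]
    · left
      have h3 : j = i - 1 := by omega
      rw [he, h3]
  · rintro (he | he)
    · exact ⟨i - 1, by omega, Or.inr (by omega), he⟩
    · exact ⟨i + 1, h2, Or.inl rfl, he⟩

theorem KPath.kap0 (h : KPath H r x) : H.kap (x 0) = 1 := by
  unfold kap
  have h1 : (univ.filter fun y => H.K (x 0) y) = {x 1} := by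
    ext y
    rw [mem_filter, mem_singleton, h.K0]
    simp
  rw [h1, card_singleton]

theorem KPath.kapi (h : KPath H r x) {i : ℕ} (h1 : 1 ≤ i) (h2 : i + 1 < r) :
    H.kap (x i) = 2 := by
  unfold kap
  have h3 : (univ.filter fun y => H.K (x i) y) = {x (i - 1), x (i + 1)} := by
    ext y
    rw [mem_filter, mem_insert, mem_singleton, h.Ki H h1 h2]
    simp
  rw [h3, card_pair (h.ne H (by omega) h2 (by omega))]

private theorem three_ne {α : Type*} [DecidableEq α] {a b c : α}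
    (h : ({a, b, c} : Finset α).card = 3) : a ≠ b ∧ a ≠ c ∧ b ≠ c := by
  refine ⟨?_, ?_, ?_⟩
  · rintro rfl
    have h1 : ({a, a, c} : Finset α) = {a, c} := by ext x; simp
    have := card_le_two (a := a) (b := c)
    rw [h1] at h
    omega
  · rintro rfl
    have h1 : ({a, b, a} : Finset α) = {a, b} := by ext x; simp; tauto
    have := card_le_two (a := a) (b := b)
    rw [h1] at h
    omega
  · rintro rfl
    have h1 : ({a, b, b} : Finset α) = {a, b} := by ext x; simp
    have := card_le_two (a := a) (b := b)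
    rw [h1] at h
    omega

theorem PathCfg.ne0 (h : PathCfg H r x l e f n0 n1) :
    e ≠ x 0 ∧ e ≠ x 1 ∧ x 0 ≠ x 1 ∧ l 0 ≠ l 1 ∧ l 0 ≠ n0 ∧ l 1 ≠ n0 := by
  have h1 := H.card_pts (l 0)
  rw [h.pts0] at h1
  have h2 := H.card_lns (x 0)
  rw [h.lns0] at h2
  obtain ⟨a1, a2, a3⟩ := three_ne h1
  obtain ⟨b1, b2, b3⟩ := three_ne h2
  exact ⟨a1, a2, a3, b1, b2, b3⟩

private theorem PathCfg.x1_l1 (h : PathCfg H r x l e f n0 n1) : x 1 ∈ H.pts (l 1) := by
  rw [H.mem_iff]
  have h2 := h.two_le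
  rcases Nat.eq_or_lt_of_le h2 with hr | hr
  · have h3 := h.lnsr
    rw [← hr] at h3
    have h4 : H.lns (x 1) = {l 0, l 1, n1} := h3
    rw [h4]
    simp
  · have h4 : H.lns (x 1) = {l 0, l 1, l 2} := h.lnsi 1 le_rfl (by omega)
    rw [h4]
    simp

private theorem PathCfg.x0_mem (h : PathCfg H r x l e f n0 n1) :
    x 0 ∈ H.pts (l 0) ∧ x 0 ∈ H.pts (l 1) ∧ x 0 ∈ H.pts n0 := by
  rw [H.mem_iff, H.mem_iff, H.mem_iff, h.lns0]
  simp

theorem PathCfg.x1_not_n0 (h : PathCfg H r x l e f n0 n1) : x 1 ∉ H.pts n0 := by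
  intro h1
  obtain ⟨a1, a2, a3, a4, a5, a6⟩ := h.ne0 H
  obtain ⟨b1, b2, b3⟩ := h.x0_mem H
  have c1 : x 1 ∈ H.pts (l 0) := by rw [h.pts0]; simp
  have c2 := h.x1_l1 H
  rcases H.lns_common a3 a4 b1 c1 b2 c2 b3 h1 with hh | hh
  · exact a5 hh.symm
  · exact a6 hh.symm

theorem PathCfg.e_ne2 (h : PathCfg H r x l e f n0 n1) (hr : 3 ≤ r) : e ≠ x 2 := by
  intro he
  obtain ⟨a1, a2, a3, a4, a5, a6⟩ := h.ne0 H
  apply a4
  apply H.pts_inj
  have h1 : H.pts (l 1) = {x 0, x 1, x 2} := h.ptsi 1 le_rfl (by omega)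
  rw [h.pts0, h1, he]
  ext y
  simp only [mem_insert, mem_singleton]
  tauto

theorem PathCfg.e_not_n0 (h : PathCfg H r x l e f n0 n1) : e ∉ H.pts n0 := by
  intro h1
  obtain ⟨a1, a2, a3, a4, a5, a6⟩ := h.ne0 H
  obtain ⟨b1, b2, b3⟩ := h.x0_mem H
  have c1 : e ∈ H.pts (l 0) := by rw [h.pts0]; simp
  have hK := H.K_of a1.symm a5 b1 c1 b3 h1
  exact a2 ((h.toKPath.K0 H e).1 hK)

theorem PathCfg.rev (h : PathCfg H r x l e f n0 n1) :
    PathCfg H r (fun i => x (r - 1 - i)) (fun i => l (r - 1 - i)) f e n1 n0 := by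
  have h2 := h.two_le
  refine ⟨⟨h2, ?_, ?_⟩, ?_, ?_, ?_, ?_, ?_, ?_⟩
  · intro i hi j hj hij
    have := h.inj (r - 1 - i) (by omega) (r - 1 - j) (by omega) hij
    omega
  · intro i hi y
    rw [h.K_iff (r - 1 - i) (by omega) y]
    constructor
    · rintro ⟨j, hj, hjj, he⟩
      refine ⟨r - 1 - j, by omega, by omega, ?_⟩
      show y = x (r - 1 - (r - 1 - j))
      rw [he]
      congr 1
      omega
    · rintro ⟨j, hj, hjj, he⟩
      exact ⟨r - 1 - j, by omega, by omega, he⟩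
  · show H.pts (l (r - 1 - 0)) = {f, x (r - 1 - 0), x (r - 1 - 1)}
    rw [Nat.sub_zero, h.ptsr, show r - 1 - 1 = r - 2 by omega]
    ext y
    simp only [mem_insert, mem_singleton]
    tauto
  · intro i h1 h3
    show H.pts (l (r - 1 - i)) = {x (r - 1 - (i - 1)), x (r - 1 - i), x (r - 1 - (i + 1))}
    rw [h.ptsi (r - 1 - i) (by omega) (by omega), show r - 1 - (i - 1) = r - 1 - i + 1 by omega,
      show r - 1 - (i + 1) = r - 1 - i - 1 by omega]
    ext y
    simp only [mem_insert, mem_singleton]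
    tauto
  · show H.pts (l (r - 1 - (r - 1))) = {x (r - 1 - (r - 2)), x (r - 1 - (r - 1)), e}
    rw [show r - 1 - (r - 1) = 0 by omega, show r - 1 - (r - 2) = 1 by omega, h.pts0]
    ext y
    simp only [mem_insert, mem_singleton]
    tauto
  · show H.lns (x (r - 1 - 0)) = {l (r - 1 - 0), l (r - 1 - 1), n1}
    rw [Nat.sub_zero, h.lnsr, show r - 1 - 1 = r - 2 by omega]
    ext y
    simp only [mem_insert, mem_singleton]
    tauto
  · intro i h1 h3
    show H.lns (x (r - 1 - i)) = {l (r - 1 - (i - 1)), l (r - 1 - i), l (r - 1 - (i + 1))}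
    rw [h.lnsi (r - 1 - i) (by omega) (by omega), show r - 1 - (i - 1) = r - 1 - i + 1 by omega,
      show r - 1 - (i + 1) = r - 1 - i - 1 by omega]
    ext y
    simp only [mem_insert, mem_singleton]
    tauto
  · show H.lns (x (r - 1 - (r - 1))) = {l (r - 1 - (r - 2)), l (r - 1 - (r - 1)), n0}
    rw [show r - 1 - (r - 1) = 0 by omega, show r - 1 - (r - 2) = 1 by omega, h.lns0]
    ext y
    simp only [mem_insert, mem_singleton]
    tauto

end Inc

end Pool.Agent.OLD57
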