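import Pool.Agent.OLD57.Credit
import Pool.Agent.OLD57.PathFacts

/-!
# Module OLD57/CrPath

Net credits of the points of a path.

PROOF. `cr` is the sum of `crl` over the three lines (`cr_three` with `lns0`, `lnsi`), all `crl ≥ 0`
(`crl_nonneg`); `deb` by `deb_eq` with the K-neighbours (`KPath.K0`, `KPath.Ki`).
`net0_two`: `deb (x 0) = gw (x 0) (x 1) ≤ 9/250` (both values of `gw` are `≤ 9/250`).
`net0` (`r ≥ 3`): `deb (x 0) = gw (x 0) (x 1) = 3/100` (`gw_eq_of_ne`, `kap (x 1) = 2` by `kapi`);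
`crl (x 0) (l 1) ≥ 3/100` (`crl_ge`: `pts (l 1) = {x 0, x 1, x 2}`, `K (x 1) (x 2)`).
`net1_three`: `deb (x 1) = 6/100` (`kap (x 1) = 2`), `cr ≥ 0`.
`net1` (`r ≥ 4`): `deb (x 1) = 6/100`, `crl (x 1) (l 2) ≥ 3/100`: `pts (l 2) = {x 1, x 2, x 3}`.
`neti`: `deb (x i) = 6/100`; `crl (x i) (l (i-1)) ≥ 3/100`: `pts (l (i-1)) = {x (i-2), x (i-1), x i}`
(`i - 1 ≥ 1`) and `crl (x i) (l (i+1)) ≥ 3/100`: `pts (l (i+1)) = {x i, x (i+1), x (i+2)}`
(`i + 3 ≤ r`).
-/

set_option autoImplicit false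

namespace Pool.Agent.OLD57

open Finset

namespace Inc

variable {P L : Type*} [Fintype P] [DecidableEq P] [Fintype L] [DecidableEq L]
variable (H : Inc P L)

variable {r : ℕ} {x : ℕ → P} {l : ℕ → L} {e f : P} {n0 n1 : L}

omit [Fintype L] in
private theorem crp_gw_le (y z : P) : H.gw y z ≤ 9 / 250 := by
  unfold gw
  split_ifs <;> norm_num

private theorem PathCfg.crp_debi (h : PathCfg H r x l e f n0 n1) {i : ℕ} (h1 : 1 ≤ i)
    (h2 : i + 1 < r) : H.deb (x i) = 6 / 100 := by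
  have hk := h.toKPath.kapi H h1 h2
  have hS : ∀ y, H.K (x i) y ↔ y ∈ ({x (i - 1), x (i + 1)} : Finset P) := by
    intro y
    rw [h.toKPath.Ki H h1 h2, mem_insert, mem_singleton]
  rw [H.deb_eq hS, Finset.sum_pair (h.toKPath.ne H (by omega) h2 (by omega)),
    H.gw_eq_of_ne (Or.inl (by rw [hk]; norm_num)), H.gw_eq_of_ne (Or.inl (by rw [hk]; norm_num))]
  norm_num

private theorem PathCfg.crp_up (h : PathCfg H r x l e f n0 n1) {i : ℕ} (h2 : i + 2 < r) :
    3 / 100 ≤ H.crl (x i) (l (i + 1)) := by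
  have h3 := h.ptsi (i + 1) (by omega) (by omega)
  rw [show i + 1 - 1 = i by omega] at h3
  exact H.crl_ge h3 (h.toKPath.ne H (by omega) (by omega) (by omega))
    (h.toKPath.ne H (by omega) (by omega) (by omega))
    (h.toKPath.ne H (by omega) (by omega) (by omega)) (h.toKPath.K_succ H (by omega))

theorem PathCfg.net0_two (h : PathCfg H r x l e f n0 n1) :
    H.crl (x 0) n0 - 9 / 250 ≤ H.cr (x 0) - H.deb (x 0) := by
  have hS : ∀ y, H.K (x 0) y ↔ y ∈ ({x 1} : Finset P) := by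
    intro y
    rw [h.toKPath.K0 H, mem_singleton]
  rw [H.deb_eq hS, Finset.sum_singleton, H.cr_three h.lns0]
  have h1 := crp_gw_le H (x 0) (x 1)
  have h2 := H.crl_nonneg (x 0) (l 0)
  have h3 := H.crl_nonneg (x 0) (l 1)
  linarith

theorem PathCfg.net0 (h : PathCfg H r x l e f n0 n1) (hr : 3 ≤ r) :
    H.crl (x 0) n0 ≤ H.cr (x 0) - H.deb (x 0) := by
  have hS : ∀ y, H.K (x 0) y ↔ y ∈ ({x 1} : Finset P) := by
    intro y
    rw [h.toKPath.K0 H, mem_singleton]
  have hk : H.kap (x 1) = 2 := h.toKPath.kapi H le_rfl (by omega)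
  rw [H.deb_eq hS, Finset.sum_singleton, H.cr_three h.lns0,
    H.gw_eq_of_ne (Or.inr (by rw [hk]; norm_num))]
  have h2 := H.crl_nonneg (x 0) (l 0)
  have h3 := h.crp_up H (i := 0) (by omega)
  rw [zero_add] at h3
  linarith

theorem PathCfg.net1_three (h : PathCfg H r x l e f n0 n1) (hr : 3 ≤ r) :
    -(6 / 100) ≤ H.cr (x 1) - H.deb (x 1) := by
  rw [h.crp_debi H le_rfl (by omega)]
  have h1 := H.cr_nonneg (x 1)
  linarith

theorem PathCfg.net1 (h : PathCfg H r x l e f n0 n1) (hr : 4 ≤ r) :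
    -(3 / 100) ≤ H.cr (x 1) - H.deb (x 1) := by
  have h4 : H.lns (x 1) = {l 0, l 1, l 2} := h.lnsi 1 le_rfl (by omega)
  rw [h.crp_debi H le_rfl (by omega), H.cr_three h4]
  have h1 := H.crl_nonneg (x 1) (l 0)
  have h2 := H.crl_nonneg (x 1) (l 1)
  have h3 : 3 / 100 ≤ H.crl (x 1) (l 2) := h.crp_up H (i := 1) (by omega)
  linarith

theorem PathCfg.neti (h : PathCfg H r x l e f n0 n1) {i : ℕ} (hi : 2 ≤ i) (hr : i + 3 ≤ r) :
    0 ≤ H.cr (x i) - H.deb (x i) := by
  have h4 := h.lnsi i (by omega) (by omega)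
  rw [h.crp_debi H (by omega) (by omega), H.cr_three h4]
  have h1 := H.crl_nonneg (x i) (l i)
  have h3 := h.crp_up H (i := i) (by omega)
  have h5 := h.ptsi (i - 1) (by omega) (by omega)
  rw [show i - 1 - 1 = i - 2 by omega, show i - 1 + 1 = i by omega] at h5
  have h6 : H.pts (l (i - 1)) = {x i, x (i - 2), x (i - 1)} := by
    rw [h5]
    ext y
    simp only [mem_insert, mem_singleton]
    tauto
  have hK := h.toKPath.K_succ H (i := i - 2) (by omega)
  rw [show i - 2 + 1 = i - 1 by omega] at hK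
  have h7 := H.crl_ge h6 (h.toKPath.ne H (by omega) (by omega) (by omega))
    (h.toKPath.ne H (by omega) (by omega) (by omega))
    (h.toKPath.ne H (by omega) (by omega) (by omega)) hK
  linarith

end Inc

end Pool.Agent.OLD57
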