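import Pool.Agent.OLD57.FBasic

/-!
# Module OLD57/FCond

Conditioning on the point `b`.

PROOF. Split the sum over `E` into `b ∉ E` and `b ∈ E`; the map `E ↦ insert b E` is a bijection from
the first to the second kind. Let `w E = ∏ x ∈ univ.erase b, if x ∈ E then p else 1 - p`. For
`b ∉ E`: `wt p E = (1 - p) * w E`, `wt p (insert b E) = p * w E`. For `b ∉ E`: no `A ∈ 𝓕` is `⊆ E`
iff no `A ∈ 𝓕` with `b ∉ A` is `⊆ E`; no `A ∈ 𝓕` is `⊆ insert b E` iff no `A.erase b` is `⊆ E`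
(`Finset.subset_insert_iff`). For a family `𝓖` of sets that avoid `b` (both families on the right):
`F p 𝓖 = ∑_{b ∉ E} w E * [no A ∈ 𝓖 is ⊆ E]`, because `A ⊆ insert b E ↔ A ⊆ E` and
`(1 - p) + p = 1`. Add up.
-/

set_option autoImplicit false

namespace Pool.Agent.OLD57

open Finset

variable {P : Type*} [Fintype P] [DecidableEq P]

private lemma wt_split (p : ℝ) (b : P) {E : Finset P} (hE : b ∉ E) :
    wt p E = (1 - p) * ∏ x ∈ univ.erase b, (if x ∈ E then p else 1 - p) := by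
  unfold wt
  rw [← Finset.mul_prod_erase univ _ (mem_univ b)]
  simp [hE]

private lemma wt_split' (p : ℝ) (b : P) (E : Finset P) :
    wt p (insert b E) = p * ∏ x ∈ univ.erase b, (if x ∈ E then p else 1 - p) := by
  unfold wt
  rw [← Finset.mul_prod_erase univ _ (mem_univ b)]
  congr 1
  · simp
  · refine Finset.prod_congr rfl fun x hx => ?_
    have hxb : x ≠ b := Finset.ne_of_mem_erase hx
    simp [hxb]

private lemma F_split (p : ℝ) (b : P) (𝓕 : Finset (Finset P)) :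
    F p 𝓕 = ∑ E ∈ (univ.erase b).powerset,
      (∏ x ∈ univ.erase b, (if x ∈ E then p else 1 - p)) *
        ((1 - p) * (if (∀ A ∈ 𝓕, ¬ A ⊆ E) then 1 else 0)
          + p * (if (∀ A ∈ 𝓕, ¬ A ⊆ insert b E) then 1 else 0)) := by
  unfold F
  have h1 : (univ : Finset (Finset P)) = (insert b (univ.erase b)).powerset := by
    rw [Finset.insert_erase (mem_univ b), Finset.powerset_univ]
  rw [h1, Finset.sum_powerset_insert (Finset.notMem_erase b _), ← Finset.sum_add_distrib]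
  refine Finset.sum_congr rfl fun E hE => ?_
  have hb : b ∉ E := fun h => Finset.notMem_erase b univ (Finset.mem_powerset.1 hE h)
  rw [wt_split p b hb, wt_split' p b E]
  by_cases h2 : ∀ A ∈ 𝓕, ¬ A ⊆ E <;> by_cases h3 : ∀ A ∈ 𝓕, ¬ A ⊆ insert b E
  · rw [if_pos h2, if_pos h3, if_pos h2, if_pos h3]; ring
  · rw [if_pos h2, if_neg h3, if_pos h2, if_neg h3]; ring
  · rw [if_neg h2, if_pos h3, if_neg h2, if_pos h3]; ring
  · rw [if_neg h2, if_neg h3, if_neg h2, if_neg h3]; ring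

private lemma F_split_avoid (p : ℝ) (b : P) (𝓖 : Finset (Finset P)) (h : ∀ A ∈ 𝓖, b ∉ A) :
    F p 𝓖 = ∑ E ∈ (univ.erase b).powerset,
      (∏ x ∈ univ.erase b, (if x ∈ E then p else 1 - p)) *
        (if (∀ A ∈ 𝓖, ¬ A ⊆ E) then 1 else 0) := by
  rw [F_split p b]
  refine Finset.sum_congr rfl fun E hE => ?_
  have h3 : (∀ A ∈ 𝓖, ¬ A ⊆ insert b E) ↔ (∀ A ∈ 𝓖, ¬ A ⊆ E) := by
    refine forall₂_congr fun A hA => ?_
    rw [Finset.subset_insert_iff_of_notMem (h A hA)]
  by_cases h2 : ∀ A ∈ 𝓖, ¬ A ⊆ E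
  · rw [if_pos h2, if_pos (h3.2 h2)]; ring
  · rw [if_neg h2, if_neg (fun h4 => h2 (h3.1 h4))]; ring

theorem F_cond (p : ℝ) (b : P) (𝓕 : Finset (Finset P)) :
    F p 𝓕 = (1 - p) * F p (𝓕.filter fun A => b ∉ A) + p * F p (𝓕.image fun A => A.erase b) := by
  rw [F_split p b 𝓕, F_split_avoid p b (𝓕.filter fun A => b ∉ A)
      (fun A hA => (Finset.mem_filter.1 hA).2),
    F_split_avoid p b (𝓕.image fun A => A.erase b) (by
      intro A hA
      obtain ⟨B, -, rfl⟩ := Finset.mem_image.1 hA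
      exact Finset.notMem_erase b B), Finset.mul_sum, Finset.mul_sum, ← Finset.sum_add_distrib]
  refine Finset.sum_congr rfl fun E hE => ?_
  have hb : b ∉ E := fun h => Finset.notMem_erase b univ (Finset.mem_powerset.1 hE h)
  have e1 : (∀ A ∈ 𝓕.filter fun A => b ∉ A, ¬ A ⊆ E) ↔ (∀ A ∈ 𝓕, ¬ A ⊆ E) := by
    constructor
    · intro h A hA hAE
      exact h A (Finset.mem_filter.2 ⟨hA, fun hbA => hb (hAE hbA)⟩) hAE
    · intro h A hA
      exact h A (Finset.mem_filter.1 hA).1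
  have e2 : (∀ A ∈ 𝓕.image fun A => A.erase b, ¬ A ⊆ E) ↔ (∀ A ∈ 𝓕, ¬ A ⊆ insert b E) := by
    constructor
    · intro h A hA hAE
      exact h (A.erase b) (Finset.mem_image_of_mem _ hA) (Finset.subset_insert_iff.1 hAE)
    · intro h A hA
      obtain ⟨B, hB, rfl⟩ := Finset.mem_image.1 hA
      intro hs
      exact h B hB (Finset.subset_insert_iff.2 hs)
  simp only [e1, e2]
  ring

end Pool.Agent.OLD57
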