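import Pool.Agent.OLD57.FHarris
import Pool.Agent.OLD57.FCond

/-!
# Module OLD57/FIns

PROOF. `F_single`: induction on `A` (`Finset.induction_on`): `F p {∅} = 0` (`F_of_empty_mem`);
`F_cond` with `b` for `insert b A`, `b ∉ A`: the filtered family is empty (`F_empty`), the image is
`{A}`: `(1 - p) + p * (1 - p ^ k) = 1 - p ^ (k + 1)`.
`F_insert`: `F_mul_le` for `{A}` and `𝓖` and `insert A 𝓖 = {A} ∪ 𝓖`.
`F_cond_ge`: `F_cond` and `F_anti` for the two families on the right.
-/

set_option autoImplicit false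

namespace Pool.Agent.OLD57

open Finset

variable {P : Type*} [Fintype P] [DecidableEq P]

theorem F_single (p : ℝ) (A : Finset P) : F p {A} = 1 - p ^ A.card := by
  induction A using Finset.induction_on with
  | empty =>
    rw [F_of_empty_mem p (by simp)]
    simp
  | insert b A hb ih =>
    have h1 : (({insert b A} : Finset (Finset P)).filter fun B => b ∉ B) = ∅ := by
      rw [Finset.filter_singleton]
      simp
    have h2 : (({insert b A} : Finset (Finset P)).image fun B => B.erase b) = {A} := by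
      rw [Finset.image_singleton, Finset.erase_insert hb]
    rw [F_cond p b, h1, h2, F_empty, ih, Finset.card_insert_of_notMem hb]
    ring

theorem F_insert {p : ℝ} (h0 : 0 ≤ p) (h1 : p ≤ 1) (A : Finset P) (𝓖 : Finset (Finset P)) :
    (1 - p ^ A.card) * F p 𝓖 ≤ F p (insert A 𝓖) := by
  rw [← F_single, Finset.insert_eq]
  exact F_mul_le h0 h1 {A} 𝓖

/-- Conditioning in the form in which it is used: `𝓛` dominates the sets without `b`, `𝓔` dominates
the sets with `b` removed. -/
theorem F_cond_ge {p : ℝ} (h0 : 0 ≤ p) (h1 : p ≤ 1) (b : P) {𝓕 𝓛 𝓔 : Finset (Finset P)}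
    (hL : ∀ A ∈ 𝓕, b ∉ A → ∃ B ∈ 𝓛, B ⊆ A) (hE : ∀ A ∈ 𝓕, ∃ B ∈ 𝓔, B ⊆ A.erase b) :
    (1 - p) * F p 𝓛 + p * F p 𝓔 ≤ F p 𝓕 := by
  rw [F_cond p b 𝓕]
  refine add_le_add (mul_le_mul_of_nonneg_left ?_ (sub_nonneg.2 h1))
    (mul_le_mul_of_nonneg_left ?_ h0)
  · refine F_anti h0 h1 fun A hA => ?_
    rw [Finset.mem_filter] at hA
    exact hL A hA.1 hA.2
  · refine F_anti h0 h1 fun A hA => ?_
    rw [Finset.mem_image] at hA
    obtain ⟨A', hA', rfl⟩ := hA
    exact hE A' hA'

end Pool.Agent.OLD57
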