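import Pool.Agent.OLD57.Link
import Pool.Agent.OLD57.FIns

/-!
# Module OLD57/PrCmp

Comparisons of two coordinates.

PROOF. `Pr_lt`: `Pr_link` with `x = a`, `𝓕 = {{b}}` and `F_single` (in FIns; or directly):
`avg T (1 - p) = (T - 1) / (2 T)`; or count pairs. Alternatively use the symmetry `a ↔ b` and
`Pr (ω a = ω b) = 1/T`.
`Pr_lt_lt`: if `d ≠ b`: `Pr_indep` with `S = {a, b}` (`c, d ∉ S`) and `Pr_lt` twice. If `d = b`:
`ω a < ω b ∧ ω c < ω b`, by `Pr_sum_fiber` at `b` and independence the probability is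
`∑ j, (j / T)^2 / T = (T - 1) (2 T - 1) / (6 T^2) ≥ ((T - 1) / (2 T))^2`.
`Pr_lt_or`: `Pr_indep` with `S = {a, b}`, `Pr_lt`, and for `c`: `Pr_link` with `𝓕 = {{y, z}}`,
`F p {{y, z}} = 1 - p^2` (`F_single`).
-/

set_option autoImplicit false

namespace Pool.Agent.OLD57

open Finset

variable {P : Type*} [Fintype P] [DecidableEq P]

private theorem PrCmp_congr {T : ℕ} {Q R : (P → Fin T) → Prop} (h : ∀ ω, Q ω ↔ R ω) :
    Pr T Q = Pr T R :=
  le_antisymm (Pr_mono fun ω => (h ω).1) (Pr_mono fun ω => (h ω).2)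

private theorem PrCmp_zero {T : ℕ} {Q : (P → Fin T) → Prop} (h : ∀ ω, ¬ Q ω) : Pr T Q = 0 := by
  classical
  unfold Pr
  rw [filter_false_of_mem (fun ω _ => h ω), card_empty, Nat.cast_zero, zero_div]

private theorem PrCmp_sum_range (T : ℕ) : ∑ i ∈ range T, (i : ℝ) = T * ((T : ℝ) - 1) / 2 := by
  induction T with
  | zero => simp
  | succ n ih =>
    rw [sum_range_succ, ih]
    push_cast
    ring

private theorem PrCmp_sum_sq (T : ℕ) :
    ∑ i ∈ range T, (i : ℝ) ^ 2 = T * ((T : ℝ) - 1) * (2 * T - 1) / 6 := by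
  induction T with
  | zero => simp
  | succ n ih =>
    rw [sum_range_succ, ih]
    push_cast
    ring

/-- the probability that `ω a` is less than a fixed `j` -/
private theorem PrCmp_lt_const {T : ℕ} (hT : 0 < T) (a : P) (j : Fin T) :
    Pr T (fun ω : P → Fin T => ω a < j) = (j : ℕ) / T := by
  rw [Pr_sum_fiber a]
  have h1 : ∀ i : Fin T, Pr T (fun ω : P → Fin T => ω a = i ∧ ω a < j) =
      if i < j then 1 / (T : ℝ) else 0 := by
    intro i
    split_ifs with h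
    · rw [← Pr_eq_const hT a i]
      exact PrCmp_congr fun ω => ⟨fun h' => h'.1, fun h' => ⟨h', by rw [h']; exact h⟩⟩
    · exact PrCmp_zero fun ω h' => h (by rw [← h'.1]; exact h'.2)
  rw [sum_congr rfl fun i _ => h1 i, ← sum_filter, sum_const, nsmul_eq_mul]
  have h2 : (univ.filter fun i : Fin T => i < j) = Finset.Iio j := by
    ext i
    simp
  rw [h2, Fin.card_Iio]
  ring

private theorem PrCmp_fix {T : ℕ} (hT : 0 < T) (b : P) (j : Fin T) (S : Finset P)
    (R : (P → Fin T) → Prop) (hb : b ∉ S) (hR : ∀ ω ω', (∀ y ∈ S, ω y = ω' y) → (R ω ↔ R ω')) :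
    Pr T (fun ω : P → Fin T => ω b = j ∧ R ω) = 1 / T * Pr T R := by
  rw [← Pr_eq_const hT b j]
  refine Pr_indep hT {b} _ _ ?_ ?_
  · intro ω ω' h
    rw [h b (mem_singleton_self b)]
  · intro ω ω' h
    refine hR ω ω' fun y hy => h y fun hyb => hb ?_
    rw [mem_singleton.1 hyb] at hy
    exact hy

theorem Pr_lt {T : ℕ} (hT : 0 < T) {a b : P} (hab : a ≠ b) :
    Pr T (fun ω : P → Fin T => ω a < ω b) = ((T : ℝ) - 1) / (2 * T) := by
  have hT' : (T : ℝ) ≠ 0 := by positivity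
  rw [Pr_sum_fiber b]
  have h1 : ∀ j : Fin T, Pr T (fun ω : P → Fin T => ω b = j ∧ ω a < ω b) =
      1 / T * ((j : ℕ) / T) := by
    intro j
    rw [← PrCmp_lt_const hT a j, ← PrCmp_fix hT b j {a} (fun ω => ω a < j)
      (fun h => hab (mem_singleton.1 h).symm) (fun ω ω' h => by rw [h a (mem_singleton_self a)])]
    exact PrCmp_congr fun ω => ⟨fun h => ⟨h.1, by rw [← h.1]; exact h.2⟩,
      fun h => ⟨h.1, by rw [h.1]; exact h.2⟩⟩
  rw [sum_congr rfl fun j _ => h1 j, ← mul_sum, ← sum_div,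
    Fin.sum_univ_eq_sum_range (fun i => (i : ℝ)) T, PrCmp_sum_range]
  field_simp

theorem Pr_lt_lt {T : ℕ} (hT : 0 < T) {a b c d : P} (hab : a ≠ b) (hac : a ≠ c) (hbc : b ≠ c)
    (hda : d ≠ a) (hdc : d ≠ c) :
    (((T : ℝ) - 1) / (2 * T)) ^ 2 ≤ Pr T (fun ω : P → Fin T => ω a < ω b ∧ ω c < ω d) := by
  have hT' : (T : ℝ) ≠ 0 := by positivity
  have hT1 : (1 : ℝ) ≤ T := by exact_mod_cast hT
  by_cases hdb : d = b
  · subst hdb
    rw [Pr_sum_fiber d]
    have h1 : ∀ j : Fin T, Pr T (fun ω : P → Fin T => ω d = j ∧ ω a < ω d ∧ ω c < ω d) =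
        1 / T * (((j : ℕ) / T) * ((j : ℕ) / T)) := by
      intro j
      have h2 : Pr T (fun ω : P → Fin T => ω a < j ∧ ω c < j) =
          ((j : ℕ) / T) * ((j : ℕ) / T) := by
        rw [← PrCmp_lt_const hT a j]
        nth_rewrite 2 [PrCmp_lt_const hT a j]
        rw [← PrCmp_lt_const hT c j]
        refine Pr_indep hT {a} _ _ ?_ ?_
        · intro ω ω' h
          rw [h a (mem_singleton_self a)]
        · intro ω ω' h
          rw [h c (fun hc => hac (mem_singleton.1 hc).symm)]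
      rw [← h2, ← PrCmp_fix hT d j {a, c} (fun ω => ω a < j ∧ ω c < j)
        (fun h => by
          rw [mem_insert, mem_singleton] at h
          exact h.elim hda hdc)
        (fun ω ω' h => by
          rw [h a (by simp), h c (by simp)])]
      exact PrCmp_congr fun ω => ⟨fun h => ⟨h.1, by rw [← h.1]; exact h.2⟩,
        fun h => ⟨h.1, by rw [h.1]; exact h.2⟩⟩
    have h2 : ∑ j : Fin T, (1 : ℝ) / T * (((j : ℕ) / T) * ((j : ℕ) / T)) =
        ((T : ℝ) - 1) * (2 * T - 1) / (6 * T ^ 2) := by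
      have h3 : ∀ j : Fin T, (1 : ℝ) / T * (((j : ℕ) / T) * ((j : ℕ) / T)) =
          1 / T ^ 3 * ((j : ℕ) : ℝ) ^ 2 := by
        intro j
        field_simp
      rw [sum_congr rfl fun j _ => h3 j, ← mul_sum,
        Fin.sum_univ_eq_sum_range (fun i => (i : ℝ) ^ 2) T, PrCmp_sum_sq]
      field_simp
    rw [sum_congr rfl fun j _ => h1 j, h2, div_pow, div_le_div_iff₀ (by positivity) (by positivity)]
    have h4 : 0 ≤ (T : ℝ) - 1 := by linarith
    have h5 : 0 ≤ (T : ℝ) ^ 2 := by positivity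
    have h6 : 0 ≤ ((T : ℝ) - 1) * (T : ℝ) ^ 2 := mul_nonneg h4 h5
    have h7 : 0 ≤ ((T : ℝ) - 1) * (T : ℝ) ^ 2 * (2 * T + 2) := mul_nonneg h6 (by linarith)
    nlinarith
  · rw [sq, ← Pr_lt hT hab]
    nth_rewrite 2 [Pr_lt hT hab]
    rw [← Pr_lt hT (Ne.symm hdc)]
    refine le_of_eq (Pr_indep hT {a, b} _ _ ?_ ?_).symm
    · intro ω ω' h
      rw [h a (by simp), h b (by simp)]
    · intro ω ω' h
      rw [h c (by simp [hac.symm, hbc.symm]), h d (by simp [hda, hdb])]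

theorem Pr_lt_or {T : ℕ} (hT : 0 < T) {a b c y z : P} (hab : a ≠ b) (hac : a ≠ c)
    (hbc : b ≠ c) (hyz : y ≠ z) (hya : y ≠ a) (hyb : y ≠ b) (hyc : y ≠ c) (hza : z ≠ a)
    (hzb : z ≠ b) (hzc : z ≠ c) :
    ((T : ℝ) - 1) / (2 * T) * avg T (fun p => 1 - p ^ 2) ≤
      Pr T (fun ω : P → Fin T => ω a < ω b ∧ (ω c < ω y ∨ ω c < ω z)) := by
  have h1 : avg T (fun p => 1 - p ^ 2) = Pr T (fun ω : P → Fin T => ω c < ω y ∨ ω c < ω z) := by
    have h2 := Pr_link hT c ({{y, z}} : Finset (Finset P)) (by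
      intro A hA
      rw [mem_singleton.1 hA]
      simp [hyc.symm, hzc.symm])
    simp only [F_single, card_pair hyz] at h2
    rw [← h2]
    exact PrCmp_congr fun ω => by simp
  rw [h1, ← Pr_lt hT hab]
  refine le_of_eq (Pr_indep hT {a, b} _ _ ?_ ?_).symm
  · intro ω ω' h
    rw [h a (by simp), h b (by simp)]
  · intro ω ω' h
    rw [h c (by simp [hac.symm, hbc.symm]), h y (by simp [hya, hyb]), h z (by simp [hza, hzb])]

end Pool.Agent.OLD57
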