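import Pool.Agent.OLD57.EvDefs
import Pool.Agent.OLD57.PrCmp
import Pool.Agent.OLD57.AvgBasic

/-!
# Module OLD57/EvProb

Probabilities for a path with an even number `r ≥ 6` of points, `C = (range r).image x`, rule
`evR r x`.

PROOF. Always `Pr_mono` with `ev_good` (event `ω (x 0) < ω (x (r-1))` and a condition for the
blocking sets).
`ev_end`: `i = 0`: by `even_end` it is enough that `ω (x 0) < ω (x (r-1))` and every
`B ∈ thr (x 0) n0` has a point `y` with `ω (x 0) < ω y`: this is the event of `Pr_link` for `x 0` and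
the family `insert {x (r-1)} (thr (x 0) n0)` (no member contains `x 0`: `mem_thr`). Its `F` is
`≥ (1 - p) * F p (thr (x 0) n0) ≥ (1 - p) * g p` (`F_insert`, card 1). `avg_mono`.
`ev_two`: `i = 2`: by `even_two` the only possible blocking set is `{e}`: event
`ω (x 0) < ω (x (r-1)) ∧ ω (x 2) < ω e`; `Pr_lt_lt` with `a = x 0`, `b = x (r-1)`, `c = x 2`,
`d = e` (`e ≠ x 0`, `e ≠ x 2` by `ne0`, `e_ne2`; `b ≠ c` as `r ≥ 6`).
`ev_last`: `i = r - 2`: the only possible blocking set is `S = insert f ((pts n1).erase (x (r-1)))`.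
By `h.rev`: `f ≠ x (r-1)`, `x (r-2)` (`ne0`), `f ∉ pts n1` (`e_not_n0`), `x (r-2) ∉ pts n1`
(`x1_not_n0`). So `S` has three elements, none of them is `x (r-1)` or `x (r-2)`; take `y ≠ z` in
`S.erase (x 0)`. Event `ω (x 0) < ω (x (r-1)) ∧ (ω (x (r-2)) < ω y ∨ ω (x (r-2)) < ω z)`: `Pr_lt_or`.
`ev_int`: `bl = ∅` (`even_interior`): event `ω (x 0) < ω (x (r-1))`, `Pr_lt`.
-/

set_option autoImplicit false

namespace Pool.Agent.OLD57

open Finset

namespace Inc

variable {P L : Type*} [Fintype P] [DecidableEq P] [Fintype L] [DecidableEq L]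
variable (H : Inc P L)

variable {r : ℕ} {x : ℕ → P} {l : ℕ → L} {e f : P} {n0 n1 : L}

theorem ev_end {T : ℕ} (hT : 0 < T) (h : PathCfg H r x l e f n0 n1) (hr : 6 ≤ r)
    {g : ℝ → ℝ} (hg : ∀ t, 0 ≤ t → t ≤ 1 → g t ≤ F t (H.thr (x 0) n0)) :
    avg T (fun t => (1 - t) * g t) ≤ Pr T (H.Good ((range r).image x) (evR r x) (x 0)) := by
  have hp := h.toKPath
  have hne : x 0 ≠ x (r - 1) := hp.ne H (by omega) (by omega) (by omega)
  have h1 := Pr_link hT (x 0) (insert {x (r - 1)} (H.thr (x 0) n0)) (by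
    intro A hA
    rcases mem_insert.1 hA with rfl | hA
    · rw [mem_singleton]
      exact hne
    · exact (H.mem_thr.1 hA).1)
  have h2 : avg T (fun t => (1 - t) * g t) ≤
      avg T (fun p => F p (insert {x (r - 1)} (H.thr (x 0) n0))) := by
    refine avg_mono hT fun p h0 h1 => ?_
    have h3 := F_insert h0 h1 {x (r - 1)} (H.thr (x 0) n0)
    rw [card_singleton, pow_one] at h3
    exact (mul_le_mul_of_nonneg_left (hg p h0 h1) (by linarith)).trans h3
  rw [← h1] at h2
  refine h2.trans (Pr_mono fun ω hω => ?_)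
  obtain ⟨y, hy, hlt⟩ := hω _ (mem_insert_self _ _)
  rw [mem_singleton] at hy
  subst hy
  exact H.ev_good (by omega) (by omega) hlt fun B hB =>
    hω B (mem_insert_of_mem (H.even_end h hr hB))

theorem ev_two {T : ℕ} (hT : 0 < T) (h : PathCfg H r x l e f n0 n1) (hr : 6 ≤ r) :
    (((T : ℝ) - 1) / (2 * T)) ^ 2 ≤ Pr T (H.Good ((range r).image x) (evR r x) (x 2)) := by
  have hp := h.toKPath
  have ne := h.ne0 H
  refine (Pr_lt_lt hT (hp.ne H (i := 0) (j := r - 1) (by omega) (by omega) (by omega))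
    (hp.ne H (i := 0) (j := 2) (by omega) (by omega) (by omega))
    (hp.ne H (i := r - 1) (j := 2) (by omega) (by omega) (by omega))
    ne.1 (h.e_ne2 H (by omega))).trans (Pr_mono fun ω hω => ?_)
  refine H.ev_good (by omega) (by omega) hω.1 fun B hB => ⟨e, ?_, hω.2⟩
  rw [H.even_two h hr hB]
  exact mem_singleton_self e

theorem ev_last {T : ℕ} (hT : 0 < T) (h : PathCfg H r x l e f n0 n1) (hr : 6 ≤ r)
    (h2 : r % 2 = 0) :
    ((T : ℝ) - 1) / (2 * T) * avg T (fun p => 1 - p ^ 2) ≤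
      Pr T (H.Good ((range r).image x) (evR r x) (x (r - 2))) := by
  have hp := h.toKPath
  have h' := h.rev H
  have ne := h'.ne0 H
  have hf1 : f ≠ x (r - 1) := ne.1
  have hf2 : f ≠ x (r - 2) := ne.2.1
  have hfn : f ∉ H.pts n1 := h'.e_not_n0 H
  have hxn : x (r - 2) ∉ H.pts n1 := h'.x1_not_n0 H
  have hxm : x (r - 1) ∈ H.pts n1 := by
    rw [H.mem_iff, h.lnsr]
    simp
  have hcS : (insert f ((H.pts n1).erase (x (r - 1)))).card = 3 := by
    rw [card_insert_of_notMem (fun hc => hfn (mem_of_mem_erase hc)), card_erase_of_mem hxm,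
      H.card_pts]
  have hcS' : 1 < ((insert f ((H.pts n1).erase (x (r - 1)))).erase (x 0)).card := by
    have := pred_card_le_card_erase (s := insert f ((H.pts n1).erase (x (r - 1)))) (a := x 0)
    omega
  obtain ⟨y, hy, z, hz, hyz⟩ := one_lt_card.1 hcS'
  have key : ∀ w ∈ (insert f ((H.pts n1).erase (x (r - 1)))).erase (x 0),
      w ≠ x 0 ∧ w ≠ x (r - 1) ∧ w ≠ x (r - 2) := by
    intro w hw
    rw [mem_erase, mem_insert, mem_erase] at hw
    obtain ⟨hw0, hw⟩ := hw
    refine ⟨hw0, ?_⟩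
    rcases hw with hw | ⟨hw1, hw2⟩
    · rw [hw]
      exact ⟨hf1, hf2⟩
    · exact ⟨hw1, fun hc => hxn (by rw [← hc]; exact hw2)⟩
  obtain ⟨y0, y1, y2⟩ := key y hy
  obtain ⟨z0, z1, z2⟩ := key z hz
  refine (Pr_lt_or hT (hp.ne H (i := 0) (j := r - 1) (by omega) (by omega) (by omega))
    (hp.ne H (i := 0) (j := r - 2) (by omega) (by omega) (by omega))
    (hp.ne H (i := r - 1) (j := r - 2) (by omega) (by omega) (by omega))
    hyz y0 y1 y2 z0 z1 z2).trans (Pr_mono fun ω hω => ?_)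
  refine H.ev_good (by omega) (by omega) hω.1 fun B hB => ?_
  rw [H.even_last h hr h2 hB]
  rcases hω.2 with hlt | hlt
  · exact ⟨y, mem_of_mem_erase hy, hlt⟩
  · exact ⟨z, mem_of_mem_erase hz, hlt⟩

theorem ev_int {T : ℕ} (hT : 0 < T) (h : PathCfg H r x l e f n0 n1) {i : ℕ} (hi : i % 2 = 0)
    (h3 : 4 ≤ i) (h4 : i + 4 ≤ r) :
    ((T : ℝ) - 1) / (2 * T) ≤ Pr T (H.Good ((range r).image x) (evR r x) (x i)) := by
  have hp := h.toKPath
  refine (Pr_lt hT (hp.ne H (i := 0) (j := r - 1) (by omega) (by omega) (by omega))).ge.trans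
    (Pr_mono fun ω hω => ?_)
  refine H.ev_good (by omega) hi hω fun B hB => ?_
  rw [H.even_interior h hi h3 h4] at hB
  exact absurd hB (notMem_empty B)

end Inc

end Pool.Agent.OLD57
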