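import Pool.Agent.OLD57.FreeSum
import Pool.Agent.OLD57.PathFacts

/-!
# Module OLD57/FreePath

The free line `n0` of the first point of a path.

PROOF. `K (x 0) y ↔ y = x 1` (`KPath.K0`) and `x 1 ∉ pts n0` (`x1_not_n0`), so no point of `n0` is
K-adjacent to `x 0`. `n0 ∈ lns (x 0)` (`lns0`), i.e. `x 0 ∈ pts n0`. `free0`: `free_sum'`.
`free0'`: `exists_pts` for `n0` and `free_sum`. `free0_net`: `free0` and `crl_nonneg`.
-/

set_option autoImplicit false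

namespace Pool.Agent.OLD57

open Finset

namespace Inc

variable {P L : Type*} [Fintype P] [DecidableEq P] [Fintype L] [DecidableEq L]
variable (H : Inc P L)

variable {r : ℕ} {x : ℕ → P} {l : ℕ → L} {e f : P} {n0 n1 : L}

private theorem PathCfg.n0_mem (h : PathCfg H r x l e f n0 n1) : n0 ∈ H.lns (x 0) := by
  rw [h.lns0]; simp

private theorem PathCfg.n0_K (h : PathCfg H r x l e f n0 n1) :
    ∀ y ∈ H.pts n0, ¬ H.K (x 0) y := by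
  intro y hy hK
  have h1 : y = x 1 := (h.toKPath.K0 H y).1 hK
  rw [h1] at hy
  exact h.x1_not_n0 H hy

theorem PathCfg.free0 (h : PathCfg H r x l e f n0 n1) :
    (∀ t, 0 ≤ t → t ≤ 1 → fN t ≤ F t (H.thr (x 0) n0)) ∨
    (3 / 100 ≤ H.crl (x 0) n0 ∧ ∀ t, 0 ≤ t → t ≤ 1 → fM t ≤ F t (H.thr (x 0) n0)) :=
  H.free_sum' (h.n0_mem H) (h.n0_K H)

theorem PathCfg.free0' (h : PathCfg H r x l e f n0 n1) :
    (∀ t, 0 ≤ t → t ≤ 1 → fN t ≤ F t (H.thr (x 0) n0)) ∨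
    (9 / 250 ≤ H.crl (x 0) n0 ∧ ∀ t, 0 ≤ t → t ≤ 1 → fM t ≤ F t (H.thr (x 0) n0)) ∨
    (3 / 100 ≤ H.crl (x 0) n0 ∧ ∀ t, 0 ≤ t → t ≤ 1 → fM' t ≤ F t (H.thr (x 0) n0)) := by
  obtain ⟨p, q, hxp, hxq, hpq, hn⟩ := H.exists_pts ((H.mem_iff _ _).2 (h.n0_mem H))
  exact H.free_sum hn hxp hxq hpq (h.n0_K H p (by rw [hn]; simp)) (h.n0_K H q (by rw [hn]; simp))

end Inc

end Pool.Agent.OLD57
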