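import Pool.Agent.OLD57.CompDefs
import Pool.Agent.OLD57.CrPath
import Pool.Agent.OLD57.FreePath
import Pool.Agent.OLD57.EvProb

/-!
# Module OLD57/CompEven

A path component with an even number `r ≥ 6` of points.

PROOF. `ρ = evR r x`, `C = (range r).image x`. Put `g i = Pr (Good C ρ (x i)) + cr (x i) - deb (x i)`.
Claim `143/500 * r ≤ ∑ i ∈ range r, g i` (`KPath.sum_image`, `KPath.card_image`), `r = s + 4`,
`s ≥ 2` even, `sum_split`.
For the reversed path `h.rev` all lemmas of EvProb hold with `C` and `ρ` unchanged (`rev_image`,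
`ev_rev`, `funext`): they give bounds for `x (r - 1 - 0)`, `x (r - 1 - 2)`, `x (r - 1 - (r - 2)) = x 1`
and `x (r - 1 - i)`.
`even_g0`: `g 0 ≥ 0.3155`: `PathCfg.free0`, `ev_end`, `net0`: case N `EndN` `0.36`, case M `EndM`
`0.2855 + 0.03`.
`g (r-1) ≥ 0.3155` from `h.rev`. `g 1 ≥ 0.333 - 0.03`: `ev_last` for `h.rev`, `Two`, `net1`.
`g (r-2) ≥ 0.333 - 0.03` similarly (`ev_last` for `h`, `net1` for `h.rev`: `x (r - 1 - 1)`).
Middle terms `g (i + 2)`, `i < s`: `neti` gives `0 ≤ cr - deb`. `i = 0` and `i = s - 1`: `≥ 0.2498`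
(`ev_two` for `h` and `h.rev`, `HalfSq`); the others `≥ 0.4998` (`ev_int`: `i` even, `2 ≤ i`: position
`i + 2`; `i` odd, `i ≤ s - 3`: reversed position `r - 1 - (i + 2) = s + 1 - i`, which is even and
`≥ 4`; `Half`).
So the middle sum is at least `∑ i ∈ range s, (if i = 0 ∨ i = s - 1 then 0.2498 else 0.4998)
= 0.4996 + (s - 2) * 0.4998` (`s = m + 2`: `sum_range_succ`, `sum_range_succ'`).
Total `≥ 0.631 + 0.606 + 0.4996 + (s - 2) * 0.4998 ≥ 0.286 (s + 4)` for `s ≥ 2`.
-/

set_option autoImplicit false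

namespace Pool.Agent.OLD57

open Finset

namespace Inc

variable {P L : Type*} [Fintype P] [DecidableEq P] [Fintype L] [DecidableEq L]
variable (H : Inc P L)

variable {r : ℕ} {x : ℕ → P} {l : ℕ → L} {e f : P} {n0 n1 : L}

theorem even_g0 {T : ℕ} (hN : NumOK T) (h : PathCfg H r x l e f n0 n1) (hr : 6 ≤ r) :
    3155 / 10000 ≤
      Pr T (H.Good ((range r).image x) (evR r x) (x 0)) + H.cr (x 0) - H.deb (x 0) := by
  have h1 := h.net0 H (by omega)
  rcases h.free0 H with h2 | ⟨h3, h2⟩
  · have h4 := H.ev_end hN.pos h hr h2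
    have h5 := hN.EndN
    have h6 := H.crl_nonneg (x 0) n0
    linarith
  · have h4 := H.ev_end hN.pos h hr h2
    have h5 := hN.EndM
    linarith

private theorem even_bd {T : ℕ} (hN : NumOK T) (h : PathCfg H r x l e f n0 n1) (hr : 6 ≤ r)
    (h2 : r % 2 = 0) :
    (2498 / 10000 ≤ Pr T (H.Good ((range r).image x) (evR r x) (x 2)) + H.cr (x 2) -
      H.deb (x 2)) ∧
    (303 / 1000 ≤ Pr T (H.Good ((range r).image x) (evR r x) (x (r - 2))) + H.cr (x (r - 2)) -
      H.deb (x (r - 2))) ∧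
    ∀ i, i % 2 = 0 → 4 ≤ i → i + 4 ≤ r →
      4998 / 10000 ≤ Pr T (H.Good ((range r).image x) (evR r x) (x i)) + H.cr (x i) -
        H.deb (x i) := by
  refine ⟨?_, ?_, ?_⟩
  · have h3 := H.ev_two hN.pos h hr
    have h4 := hN.HalfSq
    have h5 := h.neti H (i := 2) (by omega) (by omega)
    linarith
  · have h3 := H.ev_last hN.pos h hr h2
    have h4 := hN.Two
    have h5 : -(3 / 100) ≤ H.cr (x (r - 1 - 1)) - H.deb (x (r - 1 - 1)) :=
      (h.rev H).net1 H (by omega)
    rw [show r - 1 - 1 = r - 2 by omega] at h5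
    linarith
  · intro i h3 h4 h5
    have h6 := H.ev_int hN.pos h h3 h4 h5
    have h7 := hN.Half
    have h8 := h.neti H (i := i) (by omega) (by omega)
    linarith

theorem comp_even {T : ℕ} (hN : NumOK T) (h : PathCfg H r x l e f n0 n1) (hr : 6 ≤ r)
    (h2 : r % 2 = 0) : H.CompOKc T (143 / 500) ((range r).image x) := by
  have hrevρ : (evR r (fun i => x (r - 1 - i)) : (P → Fin T) → Finset P) = evR r x :=
    funext fun ω => ev_rev h2 (by omega) x ω
  have hrevC := rev_image r x
  have a0 := H.even_g0 hN h hr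
  obtain ⟨a2, al, ai⟩ := H.even_bd hN h hr h2
  have b0 := H.even_g0 hN (h.rev H) hr
  obtain ⟨b2, bl, bi⟩ := H.even_bd hN (h.rev H) hr h2
  rw [hrevρ, hrevC] at b0 b2 bl bi
  refine ⟨evR r x, ?_⟩
  rw [h.toKPath.card_image H, h.toKPath.sum_image H]
  obtain ⟨s, rfl⟩ : ∃ s, r = s + 4 := ⟨r - 4, by omega⟩
  set g : ℕ → ℝ := fun i => Pr T (H.Good ((range (s + 4)).image x) (evR (s + 4) x) (x i)) +
    H.cr (x i) - H.deb (x i) with hg
  have c0 : 3155 / 10000 ≤ g 0 := a0
  have c1 : 303 / 1000 ≤ g 1 := by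
    have := bl
    simp only [show s + 4 - 1 - (s + 4 - 2) = 1 by omega] at this
    exact this
  have c2 : 2498 / 10000 ≤ g 2 := a2
  have c3 : 2498 / 10000 ≤ g (s + 1) := by
    have := b2
    simp only [show s + 4 - 1 - 2 = s + 1 by omega] at this
    exact this
  have c4 : 303 / 1000 ≤ g (s + 2) := by
    have := al
    simp only [show s + 4 - 2 = s + 2 by omega] at this
    exact this
  have c5 : 3155 / 10000 ≤ g (s + 3) := by
    have := b0
    simp only [show s + 4 - 1 - 0 = s + 3 by omega] at this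
    exact this
  have hmid : ∑ i ∈ range s, ((4998 / 10000 : ℝ) - (if i = 0 then 1 / 4 else 0) -
      (if i = s - 1 then 1 / 4 else 0)) ≤ ∑ i ∈ range s, g (i + 2) := by
    refine sum_le_sum fun i hi => ?_
    rw [mem_range] at hi
    by_cases hi0 : i = 0
    · subst hi0
      rw [if_pos rfl, if_neg (by omega)]
      have : g (0 + 2) = g 2 := rfl
      rw [this]
      linarith
    · by_cases hi1 : i = s - 1
      · rw [if_neg hi0, if_pos hi1]
        have : g (i + 2) = g (s + 1) := by rw [show i + 2 = s + 1 by omega]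
        rw [this]
        linarith
      · rw [if_neg hi0, if_neg hi1]
        have hgi : 4998 / 10000 ≤ g (i + 2) := by
          rcases Nat.mod_two_eq_zero_or_one i with hp | hp
          · exact ai (i + 2) (by omega) (by omega) (by omega)
          · have := bi (s + 1 - i) (by omega) (by omega) (by omega)
            simp only [show s + 4 - 1 - (s + 1 - i) = i + 2 by omega] at this
            exact this
        linarith
  have hsum : ∑ i ∈ range s, ((4998 / 10000 : ℝ) - (if i = 0 then 1 / 4 else 0) -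
      (if i = s - 1 then 1 / 4 else 0)) = 4998 / 10000 * s - 1 / 4 - 1 / 4 := by
    rw [sum_sub_distrib, sum_sub_distrib, sum_const, card_range, nsmul_eq_mul, sum_ite_eq',
      sum_ite_eq', if_pos (mem_range.2 (by omega)), if_pos (mem_range.2 (by omega))]
    ring
  have hs2 : (2 : ℝ) ≤ s := by
    have : 2 ≤ s := by omega
    exact_mod_cast this
  have hsplit := sum_split g s
  have hcast : ((s + 4 : ℕ) : ℝ) = (s : ℝ) + 4 := by push_cast; ring
  show (143 / 500 : ℝ) * ((s + 4 : ℕ) : ℝ) ≤ ∑ i ∈ range (s + 4), g i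
  rw [hsplit, hcast]
  linarith

end Inc

end Pool.Agent.OLD57
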