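import Pool.Agent.OLD57.Cover
import Pool.Agent.OLD57.PathFacts

/-!
# Module OLD57/GeoOdd

Path with `r ≥ 5` points, active points: the odd positions. `C = {x j | j < r}`,
`D = {x j | j < r, j odd}`.

PROOF. A point `x j` with `j < r` even is in `C` and not in `D` (injectivity), so it is in no
`B ∈ bl C D z`.
`odd_interior`: `i` odd, `3 ≤ i`, `i + 4 ≤ r`: let `B ∈ bl C D (x i)`, in `thr (x i) m'` with
`m' ∈ {l (i-1), l i, l (i+1)}` (`bl_cover`, `lnsi`). `l (i-1) = {x (i-2), x (i-1), x i}`: all cases
in which `B` contains `x (i-1)` (even) are impossible; the remaining ones: `m ∈ lns (x (i-1)) =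
{l (i-2), l (i-1), l i}`, `m ≠ l (i-1)`, `x (i-2) ∉ pts m`, `x i ∉ pts m`: impossible, since
`x (i-2) ∈ pts (l (i-2))`, `x i ∈ pts (l i)`; and case 4: `m ∋ x (i-2), x (i-1)`, so `m = l (i-2)`,
`B = {x (i-3)}`, even position, impossible. `l i = {x (i-1), x i, x (i+1)}`: cases 1, 2, 3 contain
`x (i-1)` or `x (i+1)`; case 4: `K (x (i-1)) (x (i+1))`, contradiction. `l (i+1)`: symmetric
(`x (i+3)` exists because `i + 4 ≤ r`).
`odd_first`: `i = 1`: `l 0 = {x 1, e, x 0}`: cases 1, 2 contain `x 0`; case 3:
`m ∈ lns (x 0) = {l 0, l 1, n0}`, `x 1 ∉ pts m`: `m = n0`, `B = insert e ((pts n0).erase (x 0))`;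
case 4: `K e (x 0)`, contradiction. `l 1 = {x 0, x 1, x 2}`: all cases contain `x 0` or `x 2`, or
`K (x 0) (x 2)`. `l 2 = {x 1, x 2, x 3}`: cases 1 and 3 contain `x 2`; case 2: `m ∈ lns (x 2) =
{l 1, l 2, l 3}`, `x 1, x 3 ∉ pts m`: none; case 4: `m = l 3`, `B = {x 4}`, even (`r ≥ 5`).
So `bl` is dominated by one set of three elements (`e ∉ pts n0`): `1 - t^3` (`F_single`).
-/

set_option autoImplicit false

namespace Pool.Agent.OLD57

open Finset

namespace Inc

variable {P L : Type*} [Fintype P] [DecidableEq P] [Fintype L] [DecidableEq L]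
variable (H : Inc P L)

variable {r : ℕ} {x : ℕ → P} {l : ℕ → L} {e f : P} {n0 n1 : L}

/-- A point of the path whose position does not satisfy `q` is in no blocking set. -/
theorem not_mem_of_pos (h : KPath H r x) {q : ℕ → Prop} [DecidablePred q] {z : P} {B : Finset P}
    (hB : B ∈ H.bl ((range r).image x) (((range r).filter fun j => q j).image x) z) {j : ℕ}
    (hj : j < r) (hq : ¬ q j) : x j ∉ B := by
  intro hx
  rw [mem_bl] at hB
  have h1 : x j ∈ insert z B ∩ (range r).image x := by
    rw [mem_inter]
    exact ⟨mem_insert_of_mem hx, mem_image.2 ⟨j, mem_range.2 hj, rfl⟩⟩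
  have h2 := hB.2.2 h1
  rw [mem_image] at h2
  obtain ⟨k, hk, hkj⟩ := h2
  rw [mem_filter, mem_range] at hk
  have := h.inj k hk.1 j hj hkj
  subst this
  exact hq hk.2

/-- General interior point. -/
theorem interior_gen (h : PathCfg H r x l e f n0 n1) {i : ℕ} (h3 : 3 ≤ i) (h4 : i + 4 ≤ r)
    {C D B : Finset P} (hB : B ∈ H.bl C D (x i)) (b1 : x (i - 1) ∉ B) (b2 : x (i + 1) ∉ B)
    (b3 : x (i - 3) ∉ B) (b4 : x (i + 3) ∉ B) : False := by
  have hp := h.toKPath
  obtain ⟨m', hm', hB'⟩ := H.bl_cover hB
  have e1 : i - 1 + 1 = i := by omega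
  have e2 : i - 1 - 1 = i - 2 := by omega
  have e3 : i - 2 - 1 = i - 3 := by omega
  have e4 : i - 2 + 1 = i - 1 := by omega
  have e5 : i + 1 - 1 = i := by omega
  have e6 : i + 1 + 1 = i + 2 := by omega
  have e7 : i + 2 - 1 = i + 1 := by omega
  have e8 : i + 2 + 1 = i + 3 := by omega
  have P1 : H.pts (l (i - 1)) = {x (i - 2), x (i - 1), x i} := by
    have := h.ptsi (i - 1) (by omega) (by omega)
    rwa [e1, e2] at this
  have P2 : H.pts (l (i - 2)) = {x (i - 3), x (i - 2), x (i - 1)} := by
    have := h.ptsi (i - 2) (by omega) (by omega)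
    rwa [e3, e4] at this
  have P0 : H.pts (l i) = {x (i - 1), x i, x (i + 1)} := h.ptsi i (by omega) (by omega)
  have Q1 : H.pts (l (i + 1)) = {x i, x (i + 1), x (i + 2)} := by
    have := h.ptsi (i + 1) (by omega) (by omega)
    rwa [e5, e6] at this
  have Q2 : H.pts (l (i + 2)) = {x (i + 1), x (i + 2), x (i + 3)} := by
    have := h.ptsi (i + 2) (by omega) (by omega)
    rwa [e7, e8] at this
  have L1 : H.lns (x (i - 1)) = {l (i - 2), l (i - 1), l i} := by
    have := h.lnsi (i - 1) (by omega) (by omega)
    rwa [e1, e2] at this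
  have L2 : H.lns (x (i + 1)) = {l i, l (i + 1), l (i + 2)} := by
    have := h.lnsi (i + 1) (by omega) (by omega)
    rwa [e5, e6] at this
  have N : ∀ a b : ℕ, a < r → b < r → a ≠ b → x a ≠ x b := fun a b ha hb hab =>
    hp.ne H ha hb hab
  rw [h.lnsi i (by omega) (by omega)] at hm'
  simp only [mem_insert, mem_singleton] at hm'
  rcases hm' with rfl | rfl | rfl
  · -- line l (i - 1)
    have P1' : H.pts (l (i - 1)) = {x i, x (i - 2), x (i - 1)} := by
      rw [P1]; ext z; simp only [mem_insert, mem_singleton]; tauto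
    rcases H.thr_cases P1' (N _ _ (by omega) (by omega) (by omega))
      (N _ _ (by omega) (by omega) (by omega)) (N _ _ (by omega) (by omega) (by omega)) hB' with
      hc | ⟨m, hm, hml, hq, hx, hc⟩ | ⟨m, hm, hml, hq, hx, hc⟩ | ⟨m, y, hml, hmp, hy1, hy2, hy3, hc⟩
    · exact b1 (by rw [hc]; simp)
    · exact b1 (by rw [hc]; simp)
    · rw [L1] at hm
      simp only [mem_insert, mem_singleton] at hm
      rcases hm with rfl | rfl | rfl
      · exact hq (by rw [P2]; simp)
      · exact hml rfl
      · exact hx (by rw [P0]; simp)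
    · have hm : m ∈ H.lns (x (i - 1)) := by rw [← H.mem_iff, hmp]; simp
      rw [L1] at hm
      simp only [mem_insert, mem_singleton] at hm
      rcases hm with rfl | rfl | rfl
      · have : y ∈ H.pts (l (i - 2)) := by rw [hmp]; simp
        rw [P2] at this
        simp only [mem_insert, mem_singleton] at this
        rcases this with h' | h' | h'
        · exact b3 (by rw [hc, ← h']; simp)
        · exact hy1 h'
        · exact hy2 h'
      · exact hml rfl
      · have : x (i - 2) ∈ H.pts (l i) := by rw [hmp]; simp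
        rw [P0] at this
        simp only [mem_insert, mem_singleton] at this
        rcases this with h' | h' | h'
        · exact N _ _ (by omega) (by omega) (by omega) h'
        · exact N _ _ (by omega) (by omega) (by omega) h'
        · exact N _ _ (by omega) (by omega) (by omega) h'
  · -- line l i
    have P0' : H.pts (l i) = {x i, x (i - 1), x (i + 1)} := by
      rw [P0]; ext z; simp only [mem_insert, mem_singleton]; tauto
    rcases H.thr_cases P0' (N _ _ (by omega) (by omega) (by omega))
      (N _ _ (by omega) (by omega) (by omega)) (N _ _ (by omega) (by omega) (by omega)) hB' with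
      hc | ⟨m, hm, hml, hq, hx, hc⟩ | ⟨m, hm, hml, hq, hx, hc⟩ | ⟨m, y, hml, hmp, hy1, hy2, hy3, hc⟩
    · exact b1 (by rw [hc]; simp)
    · exact b2 (by rw [hc]; simp)
    · exact b1 (by rw [hc]; simp)
    · refine hp.not_K H (i := i - 1) (j := i + 1) (by omega) (by omega) (by omega) (by omega) ?_
      refine H.K_of (N _ _ (by omega) (by omega) (by omega)) hml (by rw [hmp]; simp)
        (by rw [hmp]; simp) (by rw [P0]; simp) (by rw [P0]; simp)
  · -- line l (i + 1)
    rcases H.thr_cases Q1 (N _ _ (by omega) (by omega) (by omega))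
      (N _ _ (by omega) (by omega) (by omega)) (N _ _ (by omega) (by omega) (by omega)) hB' with
      hc | ⟨m, hm, hml, hq, hx, hc⟩ | ⟨m, hm, hml, hq, hx, hc⟩ | ⟨m, y, hml, hmp, hy1, hy2, hy3, hc⟩
    · exact b2 (by rw [hc]; simp)
    · rw [L2] at hm
      simp only [mem_insert, mem_singleton] at hm
      rcases hm with rfl | rfl | rfl
      · exact hx (by rw [P0]; simp)
      · exact hml rfl
      · exact hq (by rw [Q2]; simp)
    · exact b2 (by rw [hc]; simp)
    · have hm : m ∈ H.lns (x (i + 1)) := by rw [← H.mem_iff, hmp]; simp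
      rw [L2] at hm
      simp only [mem_insert, mem_singleton] at hm
      rcases hm with rfl | rfl | rfl
      · have : x (i + 2) ∈ H.pts (l i) := by rw [hmp]; simp
        rw [P0] at this
        simp only [mem_insert, mem_singleton] at this
        rcases this with h' | h' | h'
        · exact N _ _ (by omega) (by omega) (by omega) h'
        · exact N _ _ (by omega) (by omega) (by omega) h'
        · exact N _ _ (by omega) (by omega) (by omega) h'
      · exact hml rfl
      · have : y ∈ H.pts (l (i + 2)) := by rw [hmp]; simp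
        rw [Q2] at this
        simp only [mem_insert, mem_singleton] at this
        rcases this with h' | h' | h'
        · exact hy1 h'
        · exact hy2 h'
        · exact b4 (by rw [hc, ← h']; simp)

theorem odd_interior (h : PathCfg H r x l e f n0 n1) {i : ℕ} (hi : i % 2 = 1) (h3 : 3 ≤ i)
    (h4 : i + 4 ≤ r) :
    H.bl ((range r).image x) (((range r).filter fun j => j % 2 = 1).image x) (x i) = ∅ := by
  rw [eq_empty_iff_forall_notMem]
  intro B hB
  have hp := h.toKPath
  exact H.interior_gen h h3 h4 hB (H.not_mem_of_pos hp hB (by omega) (by omega))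
    (H.not_mem_of_pos hp hB (by omega) (by omega)) (H.not_mem_of_pos hp hB (by omega) (by omega))
    (H.not_mem_of_pos hp hB (by omega) (by omega))

/-- The only blocking set of the point `x 1`. -/
theorem odd_one (h : PathCfg H r x l e f n0 n1) (hr : 5 ≤ r) {B : Finset P}
    (hB : B ∈ H.bl ((range r).image x) (((range r).filter fun j => j % 2 = 1).image x) (x 1)) :
    B = insert e ((H.pts n0).erase (x 0)) := by
  have hp := h.toKPath
  have N : ∀ a b : ℕ, a < r → b < r → a ≠ b → x a ≠ x b := fun a b ha hb hab =>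
    hp.ne H ha hb hab
  obtain ⟨ne1, ne2, ne3, ne4, ne5, ne6⟩ := h.ne0 H
  have b0 : x 0 ∉ B := H.not_mem_of_pos hp hB (by omega) (by omega)
  have b2 : x 2 ∉ B := H.not_mem_of_pos hp hB (by omega) (by omega)
  have b4 : x 4 ∉ B := H.not_mem_of_pos hp hB (by omega) (by omega)
  obtain ⟨m', hm', hB'⟩ := H.bl_cover hB
  have P0 : H.pts (l 0) = {e, x 0, x 1} := h.pts0
  have P1 : H.pts (l 1) = {x 0, x 1, x 2} := h.ptsi 1 (by omega) (by omega)
  have P2 : H.pts (l 2) = {x 1, x 2, x 3} := h.ptsi 2 (by omega) (by omega)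
  have P3 : H.pts (l 3) = {x 2, x 3, x 4} := h.ptsi 3 (by omega) (by omega)
  have L0 : H.lns (x 0) = {l 0, l 1, n0} := h.lns0
  have L1 : H.lns (x 1) = {l 0, l 1, l 2} := h.lnsi 1 (by omega) (by omega)
  have L2 : H.lns (x 2) = {l 1, l 2, l 3} := h.lnsi 2 (by omega) (by omega)
  rw [L1] at hm'
  simp only [mem_insert, mem_singleton] at hm'
  rcases hm' with rfl | rfl | rfl
  · have P0' : H.pts (l 0) = {x 1, e, x 0} := by
      rw [P0]; ext z; simp only [mem_insert, mem_singleton]; tauto
    rcases H.thr_cases P0' ne2.symm ne3.symm ne1 hB' with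
      hc | ⟨m, hm, hml, hq, hx, hc⟩ | ⟨m, hm, hml, hq, hx, hc⟩ | ⟨m, y, hml, hmp, hy1, hy2, hy3, hc⟩
    · exact absurd (by rw [hc]; simp) b0
    · exact absurd (by rw [hc]; simp) b0
    · rw [L0] at hm
      simp only [mem_insert, mem_singleton] at hm
      rcases hm with rfl | rfl | rfl
      · exact absurd rfl hml
      · exact absurd (by rw [P1]; simp) hx
      · exact hc
    · exfalso
      have hK : H.K (x 0) e := H.K_of ne1.symm hml (by rw [hmp]; simp) (by rw [hmp]; simp)
        (by rw [P0]; simp) (by rw [P0]; simp)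
      exact ne2 ((hp.K0 H e).1 hK)
  · exfalso
    have P1' : H.pts (l 1) = {x 1, x 0, x 2} := by
      rw [P1]; ext z; simp only [mem_insert, mem_singleton]; tauto
    rcases H.thr_cases P1' (N _ _ (by omega) (by omega) (by omega))
      (N _ _ (by omega) (by omega) (by omega)) (N _ _ (by omega) (by omega) (by omega)) hB' with
      hc | ⟨m, hm, hml, hq, hx, hc⟩ | ⟨m, hm, hml, hq, hx, hc⟩ | ⟨m, y, hml, hmp, hy1, hy2, hy3, hc⟩
    · exact b0 (by rw [hc]; simp)
    · exact b2 (by rw [hc]; simp)
    · exact b0 (by rw [hc]; simp)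
    · refine hp.not_K H (i := 0) (j := 2) (by omega) (by omega) (by omega) (by omega) ?_
      refine H.K_of (N _ _ (by omega) (by omega) (by omega)) hml (by rw [hmp]; simp)
        (by rw [hmp]; simp) (by rw [P1]; simp) (by rw [P1]; simp)
  · exfalso
    rcases H.thr_cases P2 (N _ _ (by omega) (by omega) (by omega))
      (N _ _ (by omega) (by omega) (by omega)) (N _ _ (by omega) (by omega) (by omega)) hB' with
      hc | ⟨m, hm, hml, hq, hx, hc⟩ | ⟨m, hm, hml, hq, hx, hc⟩ | ⟨m, y, hml, hmp, hy1, hy2, hy3, hc⟩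
    · exact b2 (by rw [hc]; simp)
    · rw [L2] at hm
      simp only [mem_insert, mem_singleton] at hm
      rcases hm with rfl | rfl | rfl
      · exact hx (by rw [P1]; simp)
      · exact hml rfl
      · exact hq (by rw [P3]; simp)
    · exact b2 (by rw [hc]; simp)
    · have hm : m ∈ H.lns (x 2) := by rw [← H.mem_iff, hmp]; simp
      rw [L2] at hm
      simp only [mem_insert, mem_singleton] at hm
      rcases hm with rfl | rfl | rfl
      · have : x 3 ∈ H.pts (l 1) := by rw [hmp]; simp
        rw [P1] at this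
        simp only [mem_insert, mem_singleton] at this
        rcases this with h' | h' | h'
        · exact N _ _ (by omega) (by omega) (by omega) h'
        · exact N _ _ (by omega) (by omega) (by omega) h'
        · exact N _ _ (by omega) (by omega) (by omega) h'
      · exact hml rfl
      · have : y ∈ H.pts (l 3) := by rw [hmp]; simp
        rw [P3] at this
        simp only [mem_insert, mem_singleton] at this
        rcases this with h' | h' | h'
        · exact hy1 h'
        · exact hy2 h'
        · exact b4 (by rw [hc, ← h']; simp)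

theorem odd_first (h : PathCfg H r x l e f n0 n1) (hr : 5 ≤ r) {t : ℝ} (h0 : 0 ≤ t)
    (h1 : t ≤ 1) :
    1 - t ^ 3 ≤
      F t (H.bl ((range r).image x) (((range r).filter fun j => j % 2 = 1).image x) (x 1)) := by
  have hcard : (insert e ((H.pts n0).erase (x 0))).card = 3 := by
    have hx : x 0 ∈ H.pts n0 := by rw [H.mem_iff, h.lns0]; simp
    rw [card_insert_of_notMem, card_erase_of_mem hx, H.card_pts]
    intro he
    exact h.e_not_n0 H (mem_of_mem_erase he)
  have h2 : F t {insert e ((H.pts n0).erase (x 0))} ≤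
      F t (H.bl ((range r).image x) (((range r).filter fun j => j % 2 = 1).image x) (x 1)) := by
    apply F_anti h0 h1
    intro A hA
    exact ⟨_, mem_singleton_self _, by rw [H.odd_one h hr hA]⟩
  rw [F_single, hcard] at h2
  exact h2

end Inc

end Pool.Agent.OLD57
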