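import Pool.Agent.OLD57.Link0
import Pool.Agent.OLD57.Indep

/-!
# Module OLD57/Link

PROOF. `Pr_sum_fiber` at `x`: on `ω x = i` the condition is `∀ A ∈ 𝓕, ∃ y ∈ A, i < ω y`, which does
not depend on the coordinate `x` (no `A ∈ 𝓕` contains `x`). By `Pr_indep` with `S = {x}`,
`Pr_eq_const` and `Pr_level` the `i`-th term is `(1/T) * F ((i+1)/T) 𝓕`. Sum over `i`
(`Fin.sum_univ_eq_sum_range`) is the definition of `avg`.
-/

set_option autoImplicit false

namespace Pool.Agent.OLD57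

open Finset

variable {P : Type*} [Fintype P] [DecidableEq P]

theorem Pr_link {T : ℕ} (hT : 0 < T) (x : P) (𝓕 : Finset (Finset P)) (hx : ∀ A ∈ 𝓕, x ∉ A) :
    Pr T (fun ω : P → Fin T => ∀ A ∈ 𝓕, ∃ y ∈ A, ω x < ω y) = avg T (fun p => F p 𝓕) := by
  rw [Pr_sum_fiber x]
  have h1 : ∀ i : Fin T, Pr T (fun ω : P → Fin T => ω x = i ∧ ∀ A ∈ 𝓕, ∃ y ∈ A, ω x < ω y) =
      (1 / T) * F (((i : ℕ) + 1 : ℝ) / T) 𝓕 := by
    intro i
    rw [← Pr_level hT i 𝓕, ← Pr_eq_const hT x i, ← Pr_indep hT {x}]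
    · congr 1
      funext ω
      apply propext
      constructor
      · rintro ⟨rfl, h⟩
        exact ⟨rfl, h⟩
      · rintro ⟨rfl, h⟩
        exact ⟨rfl, h⟩
    · intro ω ω' h
      rw [h x (mem_singleton_self x)]
    · intro ω ω' h
      have h2 : ∀ A ∈ 𝓕, ∀ y ∈ A, ω y = ω' y := by
        intro A hA y hy
        apply h
        rw [mem_singleton]
        rintro rfl
        exact hx A hA hy
      constructor
      · intro h3 A hA
        obtain ⟨y, hy, hlt⟩ := h3 A hA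
        exact ⟨y, hy, by rw [← h2 A hA y hy]; exact hlt⟩
      · intro h3 A hA
        obtain ⟨y, hy, hlt⟩ := h3 A hA
        exact ⟨y, hy, by rw [h2 A hA y hy]; exact hlt⟩
  rw [Finset.sum_congr rfl fun i _ => h1 i]
  rw [Fin.sum_univ_eq_sum_range (fun i : ℕ => (1 / (T : ℝ)) * F (((i : ℝ) + 1) / T) 𝓕), avg,
    ← Finset.mul_sum]
  ring

end Pool.Agent.OLD57
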