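import Pool.Agent.OLD57.Thr
import Pool.Agent.OLD57.Link
import Pool.Agent.OLD57.AvgBasic

/-!
# Module OLD57/GoodConst

Constant activity rule.

PROOF. For `x ∈ D`: `Good C (fun _ => D) x ω` iff for all `B' ` with `RC B'`, `x ∈ B'`,
`B' ∩ C ⊆ D` there is `y ∈ B'` with `ω x < ω y`; writing `B' = insert x B`, `x ∉ B`
(`B = B'.erase x`), this is `∀ B ∈ bl C D x, ∃ y ∈ B, ω x < ω y` (`y ≠ x` is automatic). Then
`Pr_link`. `Pr_good_ge`: `avg_mono`.
-/

set_option autoImplicit false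

namespace Pool.Agent.OLD57

open Finset

namespace Inc

variable {P L : Type*} [Fintype P] [DecidableEq P] [Fintype L] [DecidableEq L]
variable (H : Inc P L)

theorem good_const_iff {T : ℕ} {C D : Finset P} {x : P} (hx : x ∈ D) (ω : P → Fin T) :
    H.Good C (fun _ => D) x ω ↔ ∀ B ∈ H.bl C D x, ∃ y ∈ B, ω x < ω y := by
  constructor
  · rintro ⟨_, h⟩ B hB
    rw [mem_bl] at hB
    obtain ⟨y, hy, hlt⟩ := h (insert x B) hB.2.1 (mem_insert_self _ _) hB.2.2
    rcases mem_insert.1 hy with rfl | hy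
    · exact absurd hlt (lt_irrefl _)
    · exact ⟨y, hy, hlt⟩
  · intro h
    refine ⟨hx, fun B' hRC hxB hsub => ?_⟩
    have hins : insert x (B'.erase x) = B' := insert_erase hxB
    obtain ⟨y, hy, hlt⟩ := h (B'.erase x) (by
      rw [mem_bl, hins]
      exact ⟨notMem_erase _ _, hRC, hsub⟩)
    exact ⟨y, mem_of_mem_erase hy, hlt⟩

theorem Pr_good_const {T : ℕ} (hT : 0 < T) {C D : Finset P} {x : P} (hx : x ∈ D) :
    Pr T (H.Good C (fun _ : P → Fin T => D) x) = avg T (fun p => F p (H.bl C D x)) := by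
  have h1 : H.Good C (fun _ : P → Fin T => D) x =
      fun ω : P → Fin T => ∀ B ∈ H.bl C D x, ∃ y ∈ B, ω x < ω y :=
    funext fun ω => propext (H.good_const_iff hx ω)
  rw [h1]
  exact Pr_link hT x _ (fun A hA => ((H.mem_bl).1 hA).1)

theorem Pr_good_ge {T : ℕ} (hT : 0 < T) {C D : Finset P} {x : P} (hx : x ∈ D) {f : ℝ → ℝ}
    (hf : ∀ p, 0 ≤ p → p ≤ 1 → f p ≤ F p (H.bl C D x)) :
    avg T f ≤ Pr T (H.Good C (fun _ : P → Fin T => D) x) := by
  rw [H.Pr_good_const hT hx]
  exact avg_mono hT hf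

theorem Pr_good_nonneg {T : ℕ} (C : Finset P) (ρ : (P → Fin T) → Finset P) (x : P) :
    0 ≤ Pr T (H.Good C ρ x) := by
  unfold Pr
  positivity

/-- If there are no blocking sets then an active point is good with probability one. -/
theorem Pr_good_one {T : ℕ} (hT : 0 < T) {C D : Finset P} {x : P} (hx : x ∈ D)
    (h : H.bl C D x = ∅) : Pr T (H.Good C (fun _ : P → Fin T => D) x) = 1 := by
  have h1 : H.Good C (fun _ : P → Fin T => D) x = fun _ : P → Fin T => True := by
    funext ω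
    rw [eq_iff_iff, H.good_const_iff hx ω, h]
    simp
  rw [h1]
  unfold Pr
  have hT' : (T : ℝ) ≠ 0 := by exact_mod_cast hT.ne'
  rw [filter_true, card_univ, Fintype.card_fun, Fintype.card_fin]
  push_cast
  exact div_self (pow_ne_zero _ hT')

end Inc

end Pool.Agent.OLD57
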