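import Pool.Agent.OLD57.PathFacts

/-!
# Module OLD57/PathSum

Sums over a path component, reversal.

PROOF. `card_image`, `sum_image`: `Finset.card_image_of_injOn`, `Finset.sum_image`.
`sum_split`: `Finset.sum_range_succ` twice at the end and `Finset.sum_range_succ'` twice at the
beginning. `sum_odd_ge`: induction on `m`: the two new terms are at `2 m + 1` (odd, `≥ 1`) and
`2 m + 2` (`≥ 0`). `rev_*`: the map `i ↦ r - 1 - i` is an involution of `range r`; it preserves the
parity if `r` is odd and exchanges the parities if `r` is even (`Finset.ext`, `omega`).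
-/

set_option autoImplicit false

namespace Pool.Agent.OLD57

open Finset

theorem sum_split (g : ℕ → ℝ) (s : ℕ) : ∑ i ∈ range (s + 4), g i =
    g 0 + g 1 + ∑ i ∈ range s, g (i + 2) + g (s + 2) + g (s + 3) := by
  rw [show s + 4 = ((s + 2) + 1) + 1 from rfl, sum_range_succ, sum_range_succ, sum_range_succ',
    sum_range_succ']
  ring

theorem sum_odd_ge (g : ℕ → ℝ) (m : ℕ) (h0 : ∀ i < 2 * m + 1, 0 ≤ g i)
    (h1 : ∀ i < 2 * m + 1, i % 2 = 1 → 1 ≤ g i) : (m : ℝ) ≤ ∑ i ∈ range (2 * m + 1), g i := by
  induction m with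
  | zero =>
    have := h0 0 (by omega)
    simpa using this
  | succ m ih =>
    have h2 := ih (fun i hi => h0 i (by omega)) (fun i hi h => h1 i (by omega) h)
    rw [show 2 * (m + 1) + 1 = ((2 * m + 1) + 1) + 1 by ring, sum_range_succ, sum_range_succ]
    have h3 := h1 (2 * m + 1) (by omega) (by omega)
    have h4 := h0 (2 * m + 1 + 1) (by omega)
    push_cast
    linarith

namespace Inc

variable {P L : Type*} [Fintype P] [DecidableEq P] [Fintype L] [DecidableEq L]
variable (H : Inc P L)

variable {r : ℕ} {x : ℕ → P}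

theorem KPath.card_image (h : KPath H r x) : ((range r).image x).card = r := by
  rw [card_image_of_injOn, card_range]
  intro i hi j hj e
  exact h.inj i (by simpa using hi) j (by simpa using hj) e

theorem KPath.sum_image (h : KPath H r x) (g : P → ℝ) :
    ∑ y ∈ (range r).image x, g y = ∑ i ∈ range r, g (x i) := by
  rw [Finset.sum_image]
  intro i hi j hj e
  exact h.inj i (by simpa using hi) j (by simpa using hj) e

end Inc

theorem rev_image {P : Type*} [DecidableEq P] (r : ℕ) (x : ℕ → P) :
    (range r).image (fun i => x (r - 1 - i)) = (range r).image x := by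
  ext y
  simp only [mem_image, mem_filter, mem_range]
  constructor
  · rintro ⟨i, hi, rfl⟩
    exact ⟨r - 1 - i, by omega, rfl⟩
  · rintro ⟨i, hi, rfl⟩
    refine ⟨r - 1 - i, by omega, ?_⟩
    congr 1
    omega

theorem rev_image_odd {P : Type*} [DecidableEq P] {r : ℕ} (hr : r % 2 = 1) (x : ℕ → P) :
    ((range r).filter fun j => j % 2 = 1).image (fun i => x (r - 1 - i)) =
      ((range r).filter fun j => j % 2 = 1).image x := by
  ext y
  simp only [mem_image, mem_filter, mem_range]
  constructor
  · rintro ⟨i, hi, rfl⟩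
    exact ⟨r - 1 - i, by omega, rfl⟩
  · rintro ⟨i, hi, rfl⟩
    refine ⟨r - 1 - i, by omega, ?_⟩
    congr 1
    omega

theorem rev_image_even0 {P : Type*} [DecidableEq P] {r : ℕ} (hr : r % 2 = 0) (x : ℕ → P) :
    ((range r).filter fun j => j % 2 = 0).image (fun i => x (r - 1 - i)) =
      ((range r).filter fun j => j % 2 = 1).image x := by
  ext y
  simp only [mem_image, mem_filter, mem_range]
  constructor
  · rintro ⟨i, hi, rfl⟩
    exact ⟨r - 1 - i, by omega, rfl⟩
  · rintro ⟨i, hi, rfl⟩
    refine ⟨r - 1 - i, by omega, ?_⟩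
    congr 1
    omega

theorem rev_image_even1 {P : Type*} [DecidableEq P] {r : ℕ} (hr : r % 2 = 0) (x : ℕ → P) :
    ((range r).filter fun j => j % 2 = 1).image (fun i => x (r - 1 - i)) =
      ((range r).filter fun j => j % 2 = 0).image x := by
  ext y
  simp only [mem_image, mem_filter, mem_range]
  constructor
  · rintro ⟨i, hi, rfl⟩
    exact ⟨r - 1 - i, by omega, rfl⟩
  · rintro ⟨i, hi, rfl⟩
    refine ⟨r - 1 - i, by omega, ?_⟩
    congr 1
    omega

end Pool.Agent.OLD57
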