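import Pool.Agent.OLD57.CompDefs
import Pool.Agent.OLD57.CrPath
import Pool.Agent.OLD57.GeoOdd
import Pool.Agent.OLD57.PathSum
import Pool.Agent.OLD57.GoodConst

/-!
# Module OLD57/CompOdd

A path component with an odd number `r ≥ 5` of points. `C = (range r).image x`,
`D = ((range r).filter odd).image x`, `ρ` constant `D`.

PROOF. Put `g i = Pr (Good C (fun _ => D) (x i)) + cr (x i) - deb (x i)`. The claim is
`143/500 * r ≤ ∑ i ∈ range r, g i` (`KPath.sum_image`, `KPath.card_image`). `r = s + 4`, `s` odd;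
`sum_split`. `g 0 ≥ 0` (`Pr_good_nonneg`, `net0`, `crl_nonneg`), `g (r - 1) ≥ 0` (`h.rev`),
`g 1 ≥ 0.7498 - 0.03` (`odd_first`, `Pr_good_ge`, `Cube`, `net1`), `g (r - 2) ≥ 0.7498 - 0.03` (the
same for `h.rev`: `x (r - 1 - 1)`, with `rev_image`, `rev_image_odd`). For `2 ≤ i`, `i + 3 ≤ r`:
`g i ≥ 0` (`Pr_good_nonneg`, `neti`), and `g i ≥ 1` if `i` is odd (then `3 ≤ i` and `i + 4 ≤ r`
because `r` is odd; `odd_interior`, `Pr_good_one`, `neti`). So `∑ i ∈ range s, g (i + 2) ≥ (s - 1)/2`
(`sum_odd_ge`, `s = 2 m + 1`). Total `≥ 1.4396 + (s - 1)/2 ≥ 0.286 (s + 4)` for `s ≥ 1`.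
-/

set_option autoImplicit false

namespace Pool.Agent.OLD57

open Finset

namespace Inc

variable {P L : Type*} [Fintype P] [DecidableEq P] [Fintype L] [DecidableEq L]
variable (H : Inc P L)

variable {r : ℕ} {x : ℕ → P} {l : ℕ → L} {e f : P} {n0 n1 : L}

theorem comp_odd {T : ℕ} (hN : NumOK T) (h : PathCfg H r x l e f n0 n1) (hr : 5 ≤ r)
    (h2 : r % 2 = 1) : H.CompOKc T (143 / 500) ((range r).image x) := by
  have hp := h.toKPath
  have hT := hN.pos
  have hmemD : ∀ j, j < r → j % 2 = 1 →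
      x j ∈ ((range r).filter fun j => j % 2 = 1).image x := fun j hj hj2 =>
    mem_image.2 ⟨j, mem_filter.2 ⟨mem_range.2 hj, hj2⟩, rfl⟩
  have hCube : 7498 / 10000 ≤ avg T (fun t => 1 - t ^ 3) := hN.Cube
  refine ⟨fun _ => ((range r).filter fun j => j % 2 = 1).image x, ?_⟩
  rw [hp.card_image H, hp.sum_image H]
  -- the two ends
  have a0 := H.Pr_good_nonneg (T := T) ((range r).image x)
    (fun _ => ((range r).filter fun j => j % 2 = 1).image x) (x 0)
  have a0' := h.net0 H (by omega)
  have a0'' := H.crl_nonneg (x 0) n0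
  have a1 := H.Pr_good_ge hT (C := (range r).image x) (hmemD 1 (by omega) (by norm_num))
    (f := fun t => 1 - t ^ 3) (fun t h0 h1 => H.odd_first h hr h0 h1)
  have a1' := h.net1 H (by omega)
  have hrev := h.rev H
  have b0 := H.Pr_good_nonneg (T := T) ((range r).image x)
    (fun _ => ((range r).filter fun j => j % 2 = 1).image x) (x (r - 1))
  have b0' := hrev.net0 H (by omega)
  have b0'' := H.crl_nonneg (x (r - 1 - 0)) n1
  have b1 := H.Pr_good_ge hT (C := (range r).image x) (hmemD (r - 1 - 1) (by omega) (by omega))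
    (f := fun t => 1 - t ^ 3) (fun t h0 h1 => by
      have := H.odd_first hrev hr h0 h1
      rw [rev_image, rev_image_odd h2] at this
      exact this)
  have b1' := hrev.net1 H (by omega)
  have c0 : ∀ i, 2 ≤ i → i + 3 ≤ r → 0 ≤ Pr T (H.Good ((range r).image x)
      (fun _ => ((range r).filter fun j => j % 2 = 1).image x) (x i)) + H.cr (x i) -
        H.deb (x i) := by
    intro i hi1 hi2
    have d0 := H.Pr_good_nonneg (T := T) ((range r).image x)
      (fun _ => ((range r).filter fun j => j % 2 = 1).image x) (x i)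
    have d1 := h.neti H hi1 hi2
    linarith
  have c1 : ∀ i, 3 ≤ i → i + 4 ≤ r → i % 2 = 1 → 1 ≤ Pr T (H.Good ((range r).image x)
      (fun _ => ((range r).filter fun j => j % 2 = 1).image x) (x i)) + H.cr (x i) -
        H.deb (x i) := by
    intro i hi1 hi2 hi3
    have d0 := H.Pr_good_one hT (C := (range r).image x) (hmemD i (by omega) hi3)
      (H.odd_interior h hi3 hi1 hi2)
    have d1 := h.neti H (i := i) (by omega) (by omega)
    rw [d0]
    linarith
  obtain ⟨m, hm⟩ : ∃ m, r = 2 * m + 1 + 4 := ⟨(r - 5) / 2, by omega⟩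
  generalize hg : (fun i => Pr T (H.Good ((range r).image x)
      (fun _ => ((range r).filter fun j => j % 2 = 1).image x) (x i)) + H.cr (x i) -
        H.deb (x i)) = g at *
  have g0 : 0 ≤ g 0 := by
    rw [← hg]
    dsimp only
    linarith
  have g1 : 7198 / 10000 ≤ g 1 := by
    rw [← hg]
    dsimp only
    linarith
  have g2 : 7198 / 10000 ≤ g (2 * m + 1 + 2) := by
    rw [← hg]
    have e1 : 2 * m + 1 + 2 = r - 1 - 1 := by omega
    rw [e1]
    dsimp only
    linarith
  have g3 : 0 ≤ g (2 * m + 1 + 3) := by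
    rw [← hg]
    have e1 : 2 * m + 1 + 3 = r - 1 := by omega
    rw [e1]
    rw [Nat.sub_zero] at b0' b0''
    dsimp only
    linarith
  have gs : (m : ℝ) ≤ ∑ i ∈ range (2 * m + 1), g (i + 2) := by
    refine sum_odd_ge (fun i => g (i + 2)) m (fun i hi => ?_) (fun i hi hi2 => ?_)
    · have := c0 (i + 2) (by omega) (by omega)
      rw [← hg]
      exact this
    · have := c1 (i + 2) (by omega) (by omega) (by omega)
      rw [← hg]
      exact this
  have hsum : (range r).sum g = ∑ i ∈ range (2 * m + 1 + 4), g i := by rw [← hm]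
  rw [hsum, sum_split]
  have hm0 : (0 : ℝ) ≤ m := Nat.cast_nonneg m
  have hr' : (r : ℝ) = 2 * m + 5 := by
    rw [hm]
    push_cast
    ring
  rw [hr']
  linarith

end Inc

end Pool.Agent.OLD57
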