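import Pool.Agent.OLD57.Thr
import Pool.Agent.OLD57.FIns

/-!
# Module OLD57/Cover

PROOF. `bl_cover`: `RC (insert x B)`: if `insert x B` is a line `pts l` then `l ∈ lns x`. If it is a
symmetric difference of `pts l`, `pts m` (mate pair or quad) then `x` is in exactly one of them, say
in `pts l` (otherwise exchange, `symmDiff_comm`), so `l ∈ lns x`, `B ∈ thr x l`.
`F_bl_ge2`, `F_bl_ge3`: `bl C D x ⊆ thr x l1 ∪ thr x l2 ∪ thr x l3`, `F_anti` and `F_mul_le`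
(and `F_nonneg` for the factor).
-/

set_option autoImplicit false

namespace Pool.Agent.OLD57

open Finset

namespace Inc

variable {P L : Type*} [Fintype P] [DecidableEq P] [Fintype L] [DecidableEq L]
variable (H : Inc P L)

theorem bl_cover {C D B : Finset P} {x : P} (hB : B ∈ H.bl C D x) :
    ∃ l ∈ H.lns x, B ∈ H.thr x l := by
  rw [mem_bl] at hB
  obtain ⟨hx, hRC, -⟩ := hB
  have hxin : x ∈ insert x B := mem_insert_self x B
  have key : ∀ l m, insert x B = symmDiff (H.pts l) (H.pts m) →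
      ∃ l ∈ H.lns x, B ∈ H.thr x l := by
    intro l m h
    have h1 : x ∈ symmDiff (H.pts l) (H.pts m) := h ▸ hxin
    rw [Finset.mem_symmDiff] at h1
    rcases h1 with ⟨h2, h3⟩ | ⟨h2, h3⟩
    · refine ⟨l, (H.mem_iff x l).1 h2, ?_⟩
      rw [mem_thr]
      exact ⟨hx, hRC, Or.inr ⟨m, h3, h⟩⟩
    · refine ⟨m, (H.mem_iff x m).1 h2, ?_⟩
      rw [mem_thr]
      exact ⟨hx, hRC, Or.inr ⟨l, h3, by rw [h, symmDiff_comm]⟩⟩
  have hRC' := hRC
  rcases hRC' with h | ⟨h | h, -⟩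
  · obtain ⟨l, m, -, h2⟩ := h
    exact key l m h2
  · obtain ⟨l, h2⟩ := h
    refine ⟨l, (H.mem_iff x l).1 (h2 ▸ hxin), ?_⟩
    rw [mem_thr]
    exact ⟨hx, hRC, Or.inl h2⟩
  · obtain ⟨l, m, -, h2⟩ := h
    exact key l m h2

theorem F_bl_ge2 {p : ℝ} (h0 : 0 ≤ p) (h1 : p ≤ 1) {x : P} {l1 l2 l3 : L}
    (h : H.lns x = {l1, l2, l3}) (C D : Finset P) :
    F p (H.thr x l1 ∪ H.thr x l2) * F p (H.thr x l3) ≤ F p (H.bl C D x) := by
  refine (F_mul_le h0 h1 _ _).trans (F_anti h0 h1 ?_)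
  intro A hA
  obtain ⟨l, hl, hA2⟩ := H.bl_cover hA
  refine ⟨A, ?_, Subset.refl A⟩
  rw [h] at hl
  simp only [mem_insert, mem_singleton] at hl
  simp only [mem_union]
  rcases hl with rfl | rfl | rfl
  · exact Or.inl (Or.inl hA2)
  · exact Or.inl (Or.inr hA2)
  · exact Or.inr hA2

theorem F_bl_ge3 {p : ℝ} (h0 : 0 ≤ p) (h1 : p ≤ 1) {x : P} {l1 l2 l3 : L}
    (h : H.lns x = {l1, l2, l3}) (C D : Finset P) :
    F p (H.thr x l1) * F p (H.thr x l2) * F p (H.thr x l3) ≤ F p (H.bl C D x) := by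
  refine le_trans ?_ (H.F_bl_ge2 h0 h1 h C D)
  exact mul_le_mul_of_nonneg_right (F_mul_le h0 h1 _ _) (F_nonneg h0 h1 _)

end Inc

end Pool.Agent.OLD57
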