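import Pool.Agent.OLD57.FIns

/-!
# Module OLD57/FamG

PROOF. `F_fG2`: condition on `b` (`F_cond_ge`): `𝓛 = {insert a D, insert c D}` (all other sets
contain `b`), both sets have 3 elements, `F ≥ (1 - p^3)^2`; `𝓔 = {{a}, {c}, A1, A2, C1, C2}`
(`(insert a D).erase b ⊇ {a}` as `a ≠ b`), `F ≥ (1 - p)^2 (1 - p^2)^4`.
`F_fG33`: factor `1 - p` from `{y}`; condition on `b`: `𝓛 = ∅`, value 1;
`𝓔 = {{a}, {e}, A, C1, C2}`, `F ≥ (1 - p)^2 (1 - p^2)^3`. `F_fG32`: the same without `A`.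
`F_fLeaf`: four times `F_insert`/`F_single`. All by `F_insert` and `F_single`.
-/

set_option autoImplicit false

namespace Pool.Agent.OLD57

open Finset

variable {P : Type*} [Fintype P] [DecidableEq P]

private lemma ins_ge {p : ℝ} (h0 : 0 ≤ p) (h1 : p ≤ 1) {A : Finset P} {k : ℕ} (cA : A.card = k)
    {𝓖 : Finset (Finset P)} {x : ℝ} (hx : x ≤ F p 𝓖) : (1 - p ^ k) * x ≤ F p (insert A 𝓖) := by
  have h2 := F_insert h0 h1 A 𝓖
  rw [cA] at h2
  have h3 : 0 ≤ 1 - p ^ k := sub_nonneg.2 (pow_le_one₀ h0 h1)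
  exact (mul_le_mul_of_nonneg_left hx h3).trans h2

private lemma sing_ge {p : ℝ} {A : Finset P} {k : ℕ} (cA : A.card = k) :
    (1 - p ^ k) ≤ F p {A} := by
  rw [F_single, cA]

private lemma sub_erase1 {a b : P} (hab : a ≠ b) (D : Finset P) :
    ({a} : Finset P) ⊆ (insert a D).erase b := by
  intro z hz
  rw [Finset.mem_singleton] at hz
  subst hz
  exact Finset.mem_erase.2 ⟨hab, Finset.mem_insert_self _ _⟩

private lemma sub_erase2 {b : P} {A : Finset P} (hA : b ∉ A) :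
    A ⊆ (insert b A).erase b := by
  rw [Finset.erase_insert hA]

theorem F_fG2 {p : ℝ} (h0 : 0 ≤ p) (h1 : p ≤ 1) {a b c : P} (hab : a ≠ b) (hcb : c ≠ b)
    {A1 A2 C1 C2 D : Finset P} (cA1 : A1.card = 2) (cA2 : A2.card = 2) (cC1 : C1.card = 2)
    (cC2 : C2.card = 2) (cD : D.card = 2) (hA1 : b ∉ A1) (hA2 : b ∉ A2) (hC1 : b ∉ C1)
    (hC2 : b ∉ C2) (ha : a ∉ D) (hc : c ∉ D) :
    fG2 p ≤ F p {{a, b}, {c, b}, insert b A1, insert b A2, insert b C1, insert b C2,
      insert a D, insert c D} := by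
  have e2 := F_cond_ge h0 h1 b (𝓕 := {{a, b}, {c, b}, insert b A1, insert b A2, insert b C1,
      insert b C2, insert a D, insert c D}) (𝓛 := {insert a D, insert c D})
    (𝓔 := {{a}, {c}, A1, A2, C1, C2}) (by
      intro C hC hbC
      simp only [Finset.mem_insert, Finset.mem_singleton] at hC
      rcases hC with rfl | rfl | rfl | rfl | rfl | rfl | rfl | rfl
      · exact absurd (by simp) hbC
      · exact absurd (by simp) hbC
      · exact absurd (by simp) hbC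
      · exact absurd (by simp) hbC
      · exact absurd (by simp) hbC
      · exact absurd (by simp) hbC
      · exact ⟨_, by simp, subset_rfl⟩
      · exact ⟨_, by simp, subset_rfl⟩) (by
      intro C hC
      simp only [Finset.mem_insert, Finset.mem_singleton] at hC
      rcases hC with rfl | rfl | rfl | rfl | rfl | rfl | rfl | rfl
      · exact ⟨{a}, by simp, sub_erase1 hab _⟩
      · exact ⟨{c}, by simp, sub_erase1 hcb _⟩
      · exact ⟨A1, by simp, sub_erase2 hA1⟩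
      · exact ⟨A2, by simp, sub_erase2 hA2⟩
      · exact ⟨C1, by simp, sub_erase2 hC1⟩
      · exact ⟨C2, by simp, sub_erase2 hC2⟩
      · exact ⟨{a}, by simp, sub_erase1 hab _⟩
      · exact ⟨{c}, by simp, sub_erase1 hcb _⟩)
  have e3 : (1 - p ^ 3) * (1 - p ^ 3) ≤ F p {insert a D, insert c D} :=
    ins_ge h0 h1 (by rw [Finset.card_insert_of_notMem ha, cD])
      (sing_ge (by rw [Finset.card_insert_of_notMem hc, cD]))
  have e4 : (1 - p ^ 1) * ((1 - p ^ 1) * ((1 - p ^ 2) * ((1 - p ^ 2) * ((1 - p ^ 2) *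
      (1 - p ^ 2))))) ≤ F p {{a}, {c}, A1, A2, C1, C2} :=
    ins_ge h0 h1 (Finset.card_singleton a) (ins_ge h0 h1 (Finset.card_singleton c)
      (ins_ge h0 h1 cA1 (ins_ge h0 h1 cA2 (ins_ge h0 h1 cC1 (sing_ge cC2)))))
  have e5 := mul_le_mul_of_nonneg_left e3 (sub_nonneg.2 h1)
  have e6 := mul_le_mul_of_nonneg_left e4 h0
  refine le_trans (le_of_eq ?_) ((add_le_add e5 e6).trans e2)
  unfold fG2
  ring

theorem F_fG33 {p : ℝ} (h0 : 0 ≤ p) (h1 : p ≤ 1) {a b e y : P} (hab : a ≠ b) (heb : e ≠ b)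
    {A C1 C2 : Finset P} (cA : A.card = 2) (cC1 : C1.card = 2) (cC2 : C2.card = 2)
    (hA : b ∉ A) (hC1 : b ∉ C1) (hC2 : b ∉ C2) :
    fG33 p ≤ F p {{y}, {a, b}, {e, b}, insert b A, insert b C1, insert b C2} := by
  have e2 := F_cond_ge h0 h1 b (𝓕 := {{a, b}, {e, b}, insert b A, insert b C1, insert b C2})
    (𝓛 := ∅) (𝓔 := {{a}, {e}, A, C1, C2}) (by
      intro C hC hbC
      simp only [Finset.mem_insert, Finset.mem_singleton] at hC
      rcases hC with rfl | rfl | rfl | rfl | rfl <;> exact absurd (by simp) hbC) (by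
      intro C hC
      simp only [Finset.mem_insert, Finset.mem_singleton] at hC
      rcases hC with rfl | rfl | rfl | rfl | rfl
      · exact ⟨{a}, by simp, sub_erase1 hab _⟩
      · exact ⟨{e}, by simp, sub_erase1 heb _⟩
      · exact ⟨A, by simp, sub_erase2 hA⟩
      · exact ⟨C1, by simp, sub_erase2 hC1⟩
      · exact ⟨C2, by simp, sub_erase2 hC2⟩)
  rw [F_empty] at e2
  have e4 : (1 - p ^ 1) * ((1 - p ^ 1) * ((1 - p ^ 2) * ((1 - p ^ 2) *
      (1 - p ^ 2)))) ≤ F p {{a}, {e}, A, C1, C2} :=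
    ins_ge h0 h1 (Finset.card_singleton a) (ins_ge h0 h1 (Finset.card_singleton e)
      (ins_ge h0 h1 cA (ins_ge h0 h1 cC1 (sing_ge cC2))))
  have e6 := mul_le_mul_of_nonneg_left e4 h0
  have e7 : (1 - p ^ 1) * ((1 - p) * 1 + p * ((1 - p ^ 1) * ((1 - p ^ 1) * ((1 - p ^ 2) *
      ((1 - p ^ 2) * (1 - p ^ 2)))))) ≤
      F p {{y}, {a, b}, {e, b}, insert b A, insert b C1, insert b C2} :=
    ins_ge h0 h1 (Finset.card_singleton y) (by linarith)
  refine le_trans (le_of_eq ?_) e7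
  unfold fG33
  ring

theorem F_fG32 {p : ℝ} (h0 : 0 ≤ p) (h1 : p ≤ 1) {a b e y : P} (hab : a ≠ b) (heb : e ≠ b)
    {C1 C2 : Finset P} (cC1 : C1.card = 2) (cC2 : C2.card = 2) (hC1 : b ∉ C1) (hC2 : b ∉ C2) :
    fG32 p ≤ F p {{y}, {a, b}, {e, b}, insert b C1, insert b C2} := by
  have e2 := F_cond_ge h0 h1 b (𝓕 := {{a, b}, {e, b}, insert b C1, insert b C2})
    (𝓛 := ∅) (𝓔 := {{a}, {e}, C1, C2}) (by
      intro C hC hbC
      simp only [Finset.mem_insert, Finset.mem_singleton] at hC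
      rcases hC with rfl | rfl | rfl | rfl <;> exact absurd (by simp) hbC) (by
      intro C hC
      simp only [Finset.mem_insert, Finset.mem_singleton] at hC
      rcases hC with rfl | rfl | rfl | rfl
      · exact ⟨{a}, by simp, sub_erase1 hab _⟩
      · exact ⟨{e}, by simp, sub_erase1 heb _⟩
      · exact ⟨C1, by simp, sub_erase2 hC1⟩
      · exact ⟨C2, by simp, sub_erase2 hC2⟩)
  rw [F_empty] at e2
  have e4 : (1 - p ^ 1) * ((1 - p ^ 1) * ((1 - p ^ 2) * (1 - p ^ 2))) ≤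
      F p {{a}, {e}, C1, C2} :=
    ins_ge h0 h1 (Finset.card_singleton a) (ins_ge h0 h1 (Finset.card_singleton e)
      (ins_ge h0 h1 cC1 (sing_ge cC2)))
  have e6 := mul_le_mul_of_nonneg_left e4 h0
  have e7 : (1 - p ^ 1) * ((1 - p) * 1 + p * ((1 - p ^ 1) * ((1 - p ^ 1) * ((1 - p ^ 2) *
      (1 - p ^ 2))))) ≤ F p {{y}, {a, b}, {e, b}, insert b C1, insert b C2} :=
    ins_ge h0 h1 (Finset.card_singleton y) (by linarith)
  refine le_trans (le_of_eq ?_) e7
  unfold fG32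
  ring

theorem F_fLeaf {p : ℝ} (h0 : 0 ≤ p) (h1 : p ≤ 1) {b c : P} {D E : Finset P}
    (cD : D.card = 3) (cE : E.card = 3) : fLeaf p ≤ F p {{b}, {c}, D, E} := by
  have e4 : (1 - p ^ 1) * ((1 - p ^ 1) * ((1 - p ^ 3) * (1 - p ^ 3))) ≤ F p {{b}, {c}, D, E} :=
    ins_ge h0 h1 (Finset.card_singleton b) (ins_ge h0 h1 (Finset.card_singleton c)
      (ins_ge h0 h1 cD (sing_ge cE)))
  refine le_trans (le_of_eq ?_) e4
  unfold fLeaf
  ring

end Pool.Agent.OLD57
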