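import Pool.Agent.OLD57.Thr
import Pool.Agent.OLD57.FamG
import Pool.Agent.OLD57.PathFacts

/-!
# Module OLD57/GeoP2

End point of a path with two points. Notation `b = x 1`, `a = e`, `c = f`; `pts (l 0) = {a, x 0, b}`,
`pts (l 1) = {x 0, b, c}`, `lns b = {l 0, l 1, n1}`.

PROOF. `lns a = {l 0, m1, m2}`, `lns c = {l 1, m3, m4}` (`exists_lns`). `D = (pts n1).erase b`,
`A_i = (pts m_i).erase a` (i = 1, 2), `C_j = (pts m_j).erase c` (j = 3, 4), all of size 2.
`a ∉ pts n1` (else `K b a` by `l 0 ≠ n1`, but `K (x 1) y ↔ y = x 0`), `c ∉ pts n1`,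
`b ∉ pts m_i, pts m_j` (same reason). Members of `thr (x 0) (l 0)` by `thr_cases` with
`pts (l 0) = {x 0, b, a}`: case 1 `{b, a}`. Case 2: `m ∈ lns b`, `m ≠ l 0`, `x 0 ∉ pts m`, so
`m = n1` and `B = insert a D`. Case 3: `m ∈ lns a`, `m ≠ l 0`: `B = insert b A_i`. Case 4:
`pts m = {b, a, y}`, `m ≠ l 0`: `K b a`, contradiction. The same for `l 1`: `{b, c}`, `insert c D`,
`insert b C_j`. `F_anti` and `F_fG2`.
-/

set_option autoImplicit false

namespace Pool.Agent.OLD57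

open Finset

namespace Inc

variable {P L : Type*} [Fintype P] [DecidableEq P] [Fintype L] [DecidableEq L]
variable (H : Inc P L)

private theorem GeoP2_half {x b a : P} {l0 l1 n1 m1 m2 : L} (hl : H.pts l0 = {x, b, a})
    (hxb : x ≠ b) (hxa : x ≠ a) (hba : b ≠ a)
    (hb : ∀ m ∈ H.lns b, m = l0 ∨ m = l1 ∨ m = n1) (hx1 : x ∈ H.pts l1)
    (ha : ∀ m ∈ H.lns a, m = l0 ∨ m = m1 ∨ m = m2) (hK : ¬ H.K b a) {B : Finset P}
    (hB : B ∈ H.thr x l0) :
    B = {a, b} ∨ B = insert a ((H.pts n1).erase b) ∨ B = insert b ((H.pts m1).erase a) ∨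
      B = insert b ((H.pts m2).erase a) := by
  rcases H.thr_cases hl hxb hxa hba hB with h | ⟨m, hm, hml, hqm, hxm, h⟩ |
    ⟨m, hm, hml, hpm, hxm, h⟩ | ⟨m, y, hml, hm, hy1, hy2, hy3, h⟩
  · left
    rw [h, pair_comm]
  · right; left
    rcases hb m hm with h1 | h1 | h1
    · exact absurd h1 hml
    · rw [h1] at hxm
      exact absurd hx1 hxm
    · rw [h, h1]
  · right; right
    rcases ha m hm with h1 | h1 | h1
    · exact absurd h1 hml
    · left
      rw [h, h1]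
    · right
      rw [h, h1]
  · exfalso
    apply hK
    refine H.K_of hba hml (by rw [hm]; simp) (by rw [hm]; simp) (by rw [hl]; simp)
      (by rw [hl]; simp)

theorem pair_G2 {x : ℕ → P} {l : ℕ → L} {e f : P} {n0 n1 : L}
    (h : PathCfg H 2 x l e f n0 n1) {t : ℝ} (h0 : 0 ≤ t) (h1 : t ≤ 1) :
    fG2 t ≤ F t (H.thr (x 0) (l 0) ∪ H.thr (x 0) (l 1)) := by
  obtain ⟨hex0, hex1, hx01, hl01, hl0n0, hl1n0⟩ := PathCfg.ne0 H h
  obtain ⟨hfx1, hfx0, -, -, hl1n1, hl0n1⟩ := PathCfg.ne0 H (PathCfg.rev H h)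
  change f ≠ x 1 at hfx1
  change f ≠ x 0 at hfx0
  change l 1 ≠ n1 at hl1n1
  change l 0 ≠ n1 at hl0n1
  have hp0 : H.pts (l 0) = {x 0, x 1, e} := by
    rw [h.pts0]
    ext z
    simp only [mem_insert, mem_singleton]
    tauto
  have hp1 : H.pts (l 1) = {x 0, x 1, f} := h.ptsr
  have hlb : H.lns (x 1) = {l 0, l 1, n1} := h.lnsr
  have hKb : ∀ y, H.K (x 1) y → y = x 0 := by
    intro y hy
    obtain ⟨j, hj, hj1, hy1⟩ := (h.K_iff 1 (by norm_num) y).1 hy
    have h2 : j = 0 := by omega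
    rw [hy1, h2]
  have hKe : ¬ H.K (x 1) e := fun hk => hex0 (hKb e hk)
  have hKf : ¬ H.K (x 1) f := fun hk => hfx0 (hKb f hk)
  have he0 : l 0 ∈ H.lns e := by
    rw [← H.mem_iff, hp0]
    simp
  have hf1 : l 1 ∈ H.lns f := by
    rw [← H.mem_iff, hp1]
    simp
  obtain ⟨m1, m2, hm1, hm2, hm12, hlne⟩ := H.exists_lns he0
  obtain ⟨m3, m4, hm3, hm4, hm34, hlnf⟩ := H.exists_lns hf1
  have hbn1 : x 1 ∈ H.pts n1 := by
    rw [H.mem_iff, hlb]
    simp
  have hem : ∀ m, l 0 ≠ m → m ∈ H.lns e →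
      ((H.pts m).erase e).card = 2 ∧ x 1 ∉ (H.pts m).erase e := by
    intro m hm hme
    rw [← H.mem_iff] at hme
    constructor
    · rw [card_erase_of_mem hme, H.card_pts]
    · intro hc
      apply hKe
      refine H.K_of (Ne.symm hex1) hm (by rw [hp0]; simp) (by rw [hp0]; simp)
        (mem_erase.1 hc).2 hme
  have hfm : ∀ m, l 1 ≠ m → m ∈ H.lns f →
      ((H.pts m).erase f).card = 2 ∧ x 1 ∉ (H.pts m).erase f := by
    intro m hm hmf
    rw [← H.mem_iff] at hmf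
    constructor
    · rw [card_erase_of_mem hmf, H.card_pts]
    · intro hc
      apply hKf
      refine H.K_of (Ne.symm hfx1) hm (by rw [hp1]; simp) (by rw [hp1]; simp)
        (mem_erase.1 hc).2 hmf
  obtain ⟨c1, d1⟩ := hem m1 hm1 (by rw [hlne]; simp)
  obtain ⟨c2, d2⟩ := hem m2 hm2 (by rw [hlne]; simp)
  obtain ⟨c3, d3⟩ := hfm m3 hm3 (by rw [hlnf]; simp)
  obtain ⟨c4, d4⟩ := hfm m4 hm4 (by rw [hlnf]; simp)
  have cD : ((H.pts n1).erase (x 1)).card = 2 := by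
    rw [card_erase_of_mem hbn1, H.card_pts]
  have heD : e ∉ (H.pts n1).erase (x 1) := by
    intro hc
    apply hKe
    exact H.K_of (Ne.symm hex1) hl0n1 (by rw [hp0]; simp) (by rw [hp0]; simp) hbn1
      (mem_erase.1 hc).2
  have hfD : f ∉ (H.pts n1).erase (x 1) := by
    intro hc
    apply hKf
    exact H.K_of (Ne.symm hfx1) hl1n1 (by rw [hp1]; simp) (by rw [hp1]; simp) hbn1
      (mem_erase.1 hc).2
  refine (F_fG2 h0 h1 hex1 hfx1 c1 c2 c3 c4 cD d1 d2 d3 d4 heD hfD).trans ?_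
  apply F_anti h0 h1
  intro A hA
  rw [mem_union] at hA
  rcases hA with hA | hA
  · rcases GeoP2_half H hp0 hx01 (Ne.symm hex0) (Ne.symm hex1)
      (l1 := l 1) (n1 := n1) (m1 := m1) (m2 := m2)
      (by intro m hm; rw [hlb] at hm; simpa using hm) (by rw [hp1]; simp)
      (by intro m hm; rw [hlne] at hm; simpa using hm) hKe hA with hh | hh | hh | hh
    · exact ⟨A, by rw [hh]; simp, Subset.refl A⟩
    · exact ⟨A, by rw [hh]; simp, Subset.refl A⟩
    · exact ⟨A, by rw [hh]; simp, Subset.refl A⟩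
    · exact ⟨A, by rw [hh]; simp, Subset.refl A⟩
  · rcases GeoP2_half H hp1 hx01 (Ne.symm hfx0) (Ne.symm hfx1)
      (l1 := l 0) (n1 := n1) (m1 := m3) (m2 := m4)
      (by intro m hm; rw [hlb] at hm; simp only [mem_insert, mem_singleton] at hm; tauto)
      (by rw [hp0]; simp)
      (by intro m hm; rw [hlnf] at hm; simpa using hm) hKf hA with hh | hh | hh | hh
    · exact ⟨A, by rw [hh]; simp, Subset.refl A⟩
    · exact ⟨A, by rw [hh]; simp, Subset.refl A⟩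
    · exact ⟨A, by rw [hh]; simp, Subset.refl A⟩
    · exact ⟨A, by rw [hh]; simp, Subset.refl A⟩

end Inc

end Pool.Agent.OLD57
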