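import Pool.Agent.OLD57.CompDefs
import Pool.Agent.OLD57.CrPath
import Pool.Agent.OLD57.FreePath
import Pool.Agent.OLD57.GeoP2
import Pool.Agent.OLD57.PathSum
import Pool.Agent.OLD57.Cover
import Pool.Agent.OLD57.GoodConst

/-!
# Module OLD57/CompP2

A path component with two points.

PROOF. `p2_end`: `lns (x 0) = {l 0, l 1, n0}`, so `F (bl ..) ≥ F (thr l0 ∪ thr l1) * F (thr n0)`
(`F_bl_ge2`) `≥ fG2 * g`, `g = fN` or `g = fM` (`pair_G2`, `PathCfg.free0`). `Pr_good_ge`. Case N:
`G2N` gives `0.322`, `net0_two` and `crl_nonneg`: `0.322 - 0.036 = 0.286`. Case M: `G2M` gives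
`0.292`, `crl ≥ 0.03`: `0.292 + 0.03 - 0.036 = 0.286`.
`comp_P2`: `ρ` constant `C = (range 2).image x`; `p2_end` for `h` and for `h.rev`
(`x (2 - 1 - 0) = x 1`); the sum over `C` (`KPath.sum_image`, `Finset.sum_range_succ`) is
`≥ 2 * 143/500`.
-/

set_option autoImplicit false

namespace Pool.Agent.OLD57

open Finset

namespace Inc

variable {P L : Type*} [Fintype P] [DecidableEq P] [Fintype L] [DecidableEq L]
variable (H : Inc P L)

variable {x : ℕ → P} {l : ℕ → L} {e f : P} {n0 n1 : L}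

theorem p2_end {T : ℕ} (hN : NumOK T) (h : PathCfg H 2 x l e f n0 n1) {C D : Finset P}
    (hx : x 0 ∈ D) :
    143 / 500 ≤ Pr T (H.Good C (fun _ : P → Fin T => D) (x 0)) + H.cr (x 0) - H.deb (x 0) := by
  have hnet := h.net0_two H
  rcases h.free0 H with hN' | ⟨hcr, hM'⟩
  · have h1 : ∀ p : ℝ, 0 ≤ p → p ≤ 1 → fG2 p * fN p ≤ F p (H.bl C D (x 0)) := by
      intro p h0 h1
      have h2 : 0 ≤ 1 - p := by linarith
      have h3 : 0 ≤ fN p := by unfold fN; positivity
      exact (mul_le_mul (pair_G2 H h h0 h1) (hN' p h0 h1) h3 (F_nonneg h0 h1 _)).trans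
        (H.F_bl_ge2 h0 h1 h.lns0 C D)
    have h2 := H.Pr_good_ge hN.pos (C := C) hx h1
    have h3 := hN.G2N
    have h4 := H.crl_nonneg (x 0) n0
    linarith
  · have h1 : ∀ p : ℝ, 0 ≤ p → p ≤ 1 → fG2 p * fM p ≤ F p (H.bl C D (x 0)) := by
      intro p h0 h1
      have h2 : 0 ≤ 1 - p := by linarith
      have h2' : 0 ≤ 1 - p ^ 2 := by nlinarith
      have h3 : 0 ≤ fM p := by unfold fM; positivity
      exact (mul_le_mul (pair_G2 H h h0 h1) (hM' p h0 h1) h3 (F_nonneg h0 h1 _)).trans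
        (H.F_bl_ge2 h0 h1 h.lns0 C D)
    have h2 := H.Pr_good_ge hN.pos (C := C) hx h1
    have h3 := hN.G2M
    linarith

theorem comp_P2 {T : ℕ} (hN : NumOK T) (h : PathCfg H 2 x l e f n0 n1) :
    H.CompOKc T (143 / 500) ((range 2).image x) := by
  refine ⟨fun _ => (range 2).image x, ?_⟩
  rw [h.toKPath.card_image H, h.toKPath.sum_image H, sum_range_succ, sum_range_succ,
    range_zero, sum_empty]
  have h0 := H.p2_end hN h (C := (range 2).image x) (D := (range 2).image x)
    (mem_image_of_mem x (by simp))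
  have h1 := H.p2_end hN (h.rev H) (C := (range 2).image x) (D := (range 2).image x)
    (mem_image_of_mem x (by simp))
  simp only [Nat.add_one_sub_one, Nat.sub_zero] at h1
  push_cast
  linarith

end Inc

end Pool.Agent.OLD57
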