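import Pool.Agent.OLD57.Thr
import Pool.Agent.OLD57.FamG
import Pool.Agent.OLD57.PathFacts

/-!
# Module OLD57/GeoP3E

End point of a path with three points. `b = x 1`, `a = x 2`; `pts (l 0) = {e, x 0, b}`,
`pts (l 1) = {x 0, b, a}`, `pts (l 2) = {b, a, f}`, `lns b = {l 0, l 1, l 2}`,
`lns a = {l 1, l 2, n1}`.

PROOF. `lns e = {l 0, m1, m2}`. `A = (pts n1).erase a`, `C_i = (pts m_i).erase e`, size 2.
`b ∉ pts n1` (`lns b`; `n1 ≠ l 1, l 2`, and `n1 ≠ l 0` because `a ∉ pts (l 0)`), `b ∉ pts m_i` (else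
`K b e`, so `e = x 0` or `e = x 2`, both excluded). `thr (x 0) (l 1)` (`thr_cases` with
`{x 0, b, a}`): case 1 `{b, a}`; case 2: `m ∈ {l 0, l 2}`: `x 0 ∈ pts (l 0)`, `a ∈ pts (l 2)`, both
excluded; case 3: `m ∈ {l 2, n1}`, `b ∉ pts m`, so `m = n1`, `B = insert b A`; case 4:
`pts m = {b, a, y}`, `m ≠ l 1`, so `m = l 2` (`lns_common`), `y = f`, `B = {f}`.
`thr (x 0) (l 0)` (with `{x 0, b, e}`): case 1 `{b, e}`; case 2: `m ∈ {l 1, l 2}`, `x 0 ∉ pts m`, so
`m = l 2` and `B = insert e ((pts (l 2)).erase b) ∋ f` (`f ≠ b`): dominated by `{f}`; case 3: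
`B = insert b C_i`; case 4: `K b e`, contradiction. `F_anti`, `F_fG33` with `y = f`.
-/

set_option autoImplicit false

namespace Pool.Agent.OLD57

open Finset

namespace Inc

variable {P L : Type*} [Fintype P] [DecidableEq P] [Fintype L] [DecidableEq L]
variable (H : Inc P L)

omit [Fintype P] [Fintype L] in
private theorem GeoP3E_card {z : P} {m : L} (h : z ∈ H.pts m) : ((H.pts m).erase z).card = 2 := by
  rw [card_erase_of_mem h, H.card_pts]

theorem pair_G33 {x : ℕ → P} {l : ℕ → L} {e f : P} {n0 n1 : L}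
    (h : PathCfg H 3 x l e f n0 n1) {t : ℝ} (h0 : 0 ≤ t) (h1 : t ≤ 1) :
    fG33 t ≤ F t (H.thr (x 0) (l 0) ∪ H.thr (x 0) (l 1)) := by
  obtain ⟨he0, he1, h01, hl01, hl0n, hl1n⟩ := PathCfg.ne0 H h
  have he2 := PathCfg.e_ne2 H h (by norm_num)
  obtain ⟨hf2, hf1, -, hl21, hl2n1, hl1n1⟩ := PathCfg.ne0 H (PathCfg.rev H h)
  change f ≠ x 2 at hf2
  change f ≠ x 1 at hf1
  change l 2 ≠ l 1 at hl21
  change l 2 ≠ n1 at hl2n1
  change l 1 ≠ n1 at hl1n1
  have h02 : x 0 ≠ x 2 := KPath.ne H h.toKPath (by norm_num) (by norm_num) (by norm_num)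
  have h12 : x 1 ≠ x 2 := KPath.ne H h.toKPath (by norm_num) (by norm_num) (by norm_num)
  have p0 := h.pts0
  have p1 : H.pts (l 1) = {x 0, x 1, x 2} := h.ptsi 1 le_rfl (by norm_num)
  have p2 : H.pts (l 2) = {x 1, x 2, f} := h.ptsr
  have q1 : H.lns (x 1) = {l 0, l 1, l 2} := h.lnsi 1 le_rfl (by norm_num)
  have q2 : H.lns (x 2) = {l 1, l 2, n1} := h.lnsr
  have hK1 := fun y => KPath.Ki H h.toKPath (i := 1) le_rfl (by norm_num) y
  -- lines through `e`
  have hel0 : l 0 ∈ H.lns e := by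
    rw [← H.mem_iff, p0]
    simp
  obtain ⟨m1, m2, hlm1, hlm2, hm12, qe⟩ := H.exists_lns hel0
  have x1l0 : x 1 ∈ H.pts (l 0) := by rw [p0]; simp
  have el0 : e ∈ H.pts (l 0) := by rw [p0]; simp
  have em1 : e ∈ H.pts m1 := by rw [H.mem_iff, qe]; simp
  have em2 : e ∈ H.pts m2 := by rw [H.mem_iff, qe]; simp
  have hne : ∀ m, l 0 ≠ m → e ∈ H.pts m → x 1 ∉ H.pts m := by
    intro m hm hem hxm
    have hk := H.K_of (Ne.symm he1) hm x1l0 el0 hxm hem
    rcases (hK1 e).1 hk with h' | h'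
    · exact he0 h'
    · exact he2 h'
  have hb1 : x 1 ∉ (H.pts m1).erase e := fun h' => hne m1 hlm1 em1 (mem_of_mem_erase h')
  have hb2 : x 1 ∉ (H.pts m2).erase e := fun h' => hne m2 hlm2 em2 (mem_of_mem_erase h')
  have x2n1 : x 2 ∈ H.pts n1 := by rw [H.mem_iff, q2]; simp
  have hbA : x 1 ∉ (H.pts n1).erase (x 2) := by
    intro h'
    have h1 := mem_of_mem_erase h'
    rw [H.mem_iff, q1] at h1
    simp only [mem_insert, mem_singleton] at h1
    rcases h1 with h1 | h1 | h1
    · rw [h1, p0] at x2n1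
      simp only [mem_insert, mem_singleton] at x2n1
      rcases x2n1 with h2 | h2 | h2
      · exact he2 h2.symm
      · exact h02 h2.symm
      · exact h12 h2.symm
    · exact hl1n1 h1.symm
    · exact hl2n1 h1.symm
  refine le_trans (F_fG33 h0 h1 (a := x 2) (b := x 1) (e := e) (y := f) h12.symm he1
    (H.GeoP3E_card x2n1) (H.GeoP3E_card em1) (H.GeoP3E_card em2) hbA hb1 hb2) (F_anti h0 h1 ?_)
  intro B hB
  rw [mem_union] at hB
  rcases hB with hB | hB
  · -- the line `l 0`
    have p0' : H.pts (l 0) = {x 0, x 1, e} := by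
      rw [p0]
      ext z
      simp only [mem_insert, mem_singleton]
      tauto
    rcases H.thr_cases p0' h01 (Ne.symm he0) (Ne.symm he1) hB with h' | ⟨m, hm, hml, hem, hxm, hBm⟩ |
      ⟨m, hm, hml, hem, hxm, hBm⟩ | ⟨m, y, hml, hpm, hy1, hy2, hy3, hBm⟩
    · refine ⟨{e, x 1}, by simp, ?_⟩
      rw [h', pair_comm]
    · rw [q1] at hm
      simp only [mem_insert, mem_singleton] at hm
      rcases hm with hm | hm | hm
      · exact absurd hm hml
      · exact absurd (by rw [hm, p1]; simp) hxm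
      · refine ⟨{f}, by simp, ?_⟩
        rw [hBm, hm, p2, singleton_subset_iff]
        simp [hf1]
    · rw [qe] at hm
      simp only [mem_insert, mem_singleton] at hm
      rcases hm with hm | hm | hm
      · exact absurd hm hml
      · exact ⟨B, by rw [hBm, hm]; simp, Subset.refl _⟩
      · exact ⟨B, by rw [hBm, hm]; simp, Subset.refl _⟩
    · exact absurd (by rw [hpm]; simp) (hne m (Ne.symm hml) (by rw [hpm]; simp))
  · -- the line `l 1`
    rcases H.thr_cases p1 h01 h02 h12 hB with h' | ⟨m, hm, hml, hem, hxm, hBm⟩ |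
      ⟨m, hm, hml, hem, hxm, hBm⟩ | ⟨m, y, hml, hpm, hy1, hy2, hy3, hBm⟩
    · refine ⟨{x 2, x 1}, by simp, ?_⟩
      rw [h', pair_comm]
    · rw [q1] at hm
      simp only [mem_insert, mem_singleton] at hm
      rcases hm with hm | hm | hm
      · exact absurd (by rw [hm, p0]; simp) hxm
      · exact absurd hm hml
      · exact absurd (by rw [hm, p2]; simp) hem
    · rw [q2] at hm
      simp only [mem_insert, mem_singleton] at hm
      rcases hm with hm | hm | hm
      · exact absurd hm hml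
      · exact absurd (by rw [hm, p2]; simp) hem
      · exact ⟨B, by rw [hBm, hm]; simp, Subset.refl _⟩
    · have h3 := H.lns_common h12 (Ne.symm hl21) (k := m) (by rw [p1]; simp) (by rw [p1]; simp)
        (by rw [p2]; simp) (by rw [p2]; simp) (by rw [hpm]; simp) (by rw [hpm]; simp)
      rcases h3 with h3 | h3
      · exact absurd h3 hml
      · have hf : f ∈ H.pts m := by rw [h3, p2]; simp
        rw [hpm] at hf
        simp only [mem_insert, mem_singleton] at hf
        rcases hf with hf | hf | hf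
        · exact absurd hf hf1
        · exact absurd hf hf2
        · exact ⟨{f}, by simp, by rw [hBm, hf]⟩

end Inc

end Pool.Agent.OLD57
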