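import Pool.Agent.OLD57.FIns

/-!
# Module OLD57/FamMid

PROOF. Condition on `u` (`F_cond_ge`): `𝓔 = {{e}, {v}, A1, A2, E}`, value
`≥ (1 - p)^2 (1 - p^2)^3` (`{e,u}.erase u = {e}` as `e ≠ u`; `(insert e D).erase u ⊇ {e}`;
`(insert f E).erase u ⊇ E` and `(insert u E).erase u = E` as `u ∉ E`; the sets with `v` contain
`{v}`). `𝓛` = the sets `{v, f}, insert v C1, insert v C2, insert e D, insert v D, insert f E`.
For `𝓛` condition on `v`: late: `{insert e D, insert f E}`, value `≥ (1 - p^3)^2` (`e ∉ D`,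
`f ∉ E`, so both have 3 elements); early: `{{f}, C1, C2, D}`, value `≥ (1 - p) (1 - p^2)^3`
(`{v,f}.erase v = {f}`; `(insert v D).erase v = D`; `(insert e D).erase v ⊇ D` because `v ∉ D`;
`(insert f E).erase v ⊇ {f}` because `f ≠ v`). Total
`(1-p) ((1-p) (1-p^3)^2 + p (1-p) (1-p^2)^3) + p (1-p)^2 (1-p^2)^3 = fMid p`.
-/

set_option autoImplicit false

namespace Pool.Agent.OLD57

open Finset

variable {P : Type*} [Fintype P] [DecidableEq P]

private theorem F_insert' {p : ℝ} (h0 : 0 ≤ p) (h1 : p ≤ 1) {A : Finset P} {k : ℕ}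
    (hA : A.card = k) {𝓖 : Finset (Finset P)} {c : ℝ} (hc : c ≤ F p 𝓖) :
    (1 - p ^ k) * c ≤ F p (insert A 𝓖) := by
  subst hA
  exact (mul_le_mul_of_nonneg_left hc (sub_nonneg.2 (pow_le_one₀ h0 h1))).trans
    (F_insert h0 h1 A 𝓖)

private theorem F_single' (p : ℝ) {A : Finset P} {k : ℕ} (hA : A.card = k) :
    1 - p ^ k ≤ F p {A} := by
  subst hA
  exact (F_single p A).ge

omit [Fintype P] in
private theorem sub_erase {b : P} {B A : Finset P} (hb : b ∉ B) (h : B ⊆ A) : B ⊆ A.erase b :=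
  Finset.subset_erase.2 ⟨h, hb⟩

omit [Fintype P] in
private theorem single_sub {b x : P} {A : Finset P} (hx : x ≠ b) (h : x ∈ A) :
    ({x} : Finset P) ⊆ A.erase b :=
  Finset.singleton_subset_iff.2 (Finset.mem_erase.2 ⟨hx, h⟩)

theorem F_fMid {p : ℝ} (h0 : 0 ≤ p) (h1 : p ≤ 1) {e f u v : P} (huv : u ≠ v) (heu : e ≠ u)
    (hfv : f ≠ v) {A1 A2 C1 C2 D E : Finset P} (cA1 : A1.card = 2) (cA2 : A2.card = 2)
    (cC1 : C1.card = 2) (cC2 : C2.card = 2) (cD : D.card = 2) (cE : E.card = 2)
    (hA1 : u ∉ A1) (hA2 : u ∉ A2) (hC1 : v ∉ C1) (hC2 : v ∉ C2) (hvD : v ∉ D) (huE : u ∉ E)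
    (heD : e ∉ D) (hfE : f ∉ E) :
    fMid p ≤ F p {{e, u}, {u, v}, {v, f}, insert u A1, insert u A2, insert v C1, insert v C2,
      insert e D, insert v D, insert u E, insert f E} := by
  have hL : ∀ A ∈ ({{e, u}, {u, v}, {v, f}, insert u A1, insert u A2, insert v C1, insert v C2,
      insert e D, insert v D, insert u E, insert f E} : Finset (Finset P)), u ∉ A →
      ∃ B ∈ ({{v, f}, insert v C1, insert v C2, insert e D, insert v D, insert f E} :
        Finset (Finset P)), B ⊆ A := by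
    intro A hA hu
    simp only [Finset.mem_insert, Finset.mem_singleton] at hA
    rcases hA with rfl | rfl | rfl | rfl | rfl | rfl | rfl | rfl | rfl | rfl | rfl
    · exact absurd (by simp) hu
    · exact absurd (by simp) hu
    · exact ⟨_, by simp, Finset.Subset.refl _⟩
    · exact absurd (by simp) hu
    · exact absurd (by simp) hu
    · exact ⟨_, by simp, Finset.Subset.refl _⟩
    · exact ⟨_, by simp, Finset.Subset.refl _⟩
    · exact ⟨_, by simp, Finset.Subset.refl _⟩
    · exact ⟨_, by simp, Finset.Subset.refl _⟩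
    · exact absurd (by simp) hu
    · exact ⟨_, by simp, Finset.Subset.refl _⟩
  have hE : ∀ A ∈ ({{e, u}, {u, v}, {v, f}, insert u A1, insert u A2, insert v C1, insert v C2,
      insert e D, insert v D, insert u E, insert f E} : Finset (Finset P)),
      ∃ B ∈ ({{e}, {v}, A1, A2, E} : Finset (Finset P)), B ⊆ A.erase u := by
    intro A hA
    simp only [Finset.mem_insert, Finset.mem_singleton] at hA
    rcases hA with rfl | rfl | rfl | rfl | rfl | rfl | rfl | rfl | rfl | rfl | rfl
    · exact ⟨{e}, by simp, single_sub heu (by simp)⟩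
    · exact ⟨{v}, by simp, single_sub huv.symm (by simp)⟩
    · exact ⟨{v}, by simp, single_sub huv.symm (by simp)⟩
    · exact ⟨A1, by simp, sub_erase hA1 (Finset.subset_insert _ _)⟩
    · exact ⟨A2, by simp, sub_erase hA2 (Finset.subset_insert _ _)⟩
    · exact ⟨{v}, by simp, single_sub huv.symm (by simp)⟩
    · exact ⟨{v}, by simp, single_sub huv.symm (by simp)⟩
    · exact ⟨{e}, by simp, single_sub heu (by simp)⟩
    · exact ⟨{v}, by simp, single_sub huv.symm (by simp)⟩
    · exact ⟨E, by simp, sub_erase huE (Finset.subset_insert _ _)⟩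
    · exact ⟨E, by simp, sub_erase huE (Finset.subset_insert _ _)⟩
  have hL' : ∀ A ∈ ({{v, f}, insert v C1, insert v C2, insert e D, insert v D, insert f E} :
        Finset (Finset P)), v ∉ A →
      ∃ B ∈ ({insert e D, insert f E} : Finset (Finset P)), B ⊆ A := by
    intro A hA hv
    simp only [Finset.mem_insert, Finset.mem_singleton] at hA
    rcases hA with rfl | rfl | rfl | rfl | rfl | rfl
    · exact absurd (by simp) hv
    · exact absurd (by simp) hv
    · exact absurd (by simp) hv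
    · exact ⟨_, by simp, Finset.Subset.refl _⟩
    · exact absurd (by simp) hv
    · exact ⟨_, by simp, Finset.Subset.refl _⟩
  have hE' : ∀ A ∈ ({{v, f}, insert v C1, insert v C2, insert e D, insert v D, insert f E} :
        Finset (Finset P)),
      ∃ B ∈ ({{f}, C1, C2, D} : Finset (Finset P)), B ⊆ A.erase v := by
    intro A hA
    simp only [Finset.mem_insert, Finset.mem_singleton] at hA
    rcases hA with rfl | rfl | rfl | rfl | rfl | rfl
    · exact ⟨{f}, by simp, single_sub hfv (by simp)⟩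
    · exact ⟨C1, by simp, sub_erase hC1 (Finset.subset_insert _ _)⟩
    · exact ⟨C2, by simp, sub_erase hC2 (Finset.subset_insert _ _)⟩
    · exact ⟨D, by simp, sub_erase hvD (Finset.subset_insert _ _)⟩
    · exact ⟨D, by simp, sub_erase hvD (Finset.subset_insert _ _)⟩
    · exact ⟨{f}, by simp, single_sub hfv (by simp)⟩
  have k1 := F_cond_ge h0 h1 u hL hE
  have k2 := F_cond_ge h0 h1 v hL' hE'
  have ceD : (insert e D).card = 3 := by rw [Finset.card_insert_of_notMem heD, cD]
  have cfE : (insert f E).card = 3 := by rw [Finset.card_insert_of_notMem hfE, cE]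
  have e1 : (1 - p ^ 1) * ((1 - p ^ 1) * ((1 - p ^ 2) * ((1 - p ^ 2) * (1 - p ^ 2)))) ≤
      F p ({{e}, {v}, A1, A2, E} : Finset (Finset P)) :=
    F_insert' h0 h1 (Finset.card_singleton e) (F_insert' h0 h1 (Finset.card_singleton v)
      (F_insert' h0 h1 cA1 (F_insert' h0 h1 cA2 (F_single' p cE))))
  have e2 : (1 - p ^ 3) * (1 - p ^ 3) ≤ F p ({insert e D, insert f E} : Finset (Finset P)) :=
    F_insert' h0 h1 ceD (F_single' p cfE)
  have e3 : (1 - p ^ 1) * ((1 - p ^ 2) * ((1 - p ^ 2) * (1 - p ^ 2))) ≤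
      F p ({{f}, C1, C2, D} : Finset (Finset P)) :=
    F_insert' h0 h1 (Finset.card_singleton f)
      (F_insert' h0 h1 cC1 (F_insert' h0 h1 cC2 (F_single' p cD)))
  have hp : 0 ≤ 1 - p := sub_nonneg.2 h1
  have k2' : (1 - p) * ((1 - p ^ 3) * (1 - p ^ 3)) +
      p * ((1 - p ^ 1) * ((1 - p ^ 2) * ((1 - p ^ 2) * (1 - p ^ 2)))) ≤
      F p ({{v, f}, insert v C1, insert v C2, insert e D, insert v D, insert f E} :
        Finset (Finset P)) :=
    (add_le_add (mul_le_mul_of_nonneg_left e2 hp) (mul_le_mul_of_nonneg_left e3 h0)).trans k2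
  have k1' := (add_le_add (mul_le_mul_of_nonneg_left k2' hp)
    (mul_le_mul_of_nonneg_left e1 h0)).trans k1
  refine le_trans (le_of_eq ?_) k1'
  unfold fMid
  ring

end Pool.Agent.OLD57
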