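import Pool.Agent.OLD57.Cover
import Pool.Agent.OLD57.FamMid
import Pool.Agent.OLD57.PathFacts

/-!
# Module OLD57/GeoP3M

Middle point `z = x 1` of a path with three points. `u = x 0`, `v = x 2`; `pts (l 0) = {e, u, z}`,
`pts (l 1) = {u, z, v}`, `pts (l 2) = {z, v, f}`, `lns u = {l 0, l 1, n0}`, `lns v = {l 1, l 2, n1}`.

PROOF. `lns e = {l 0, m1, m2}`, `lns f = {l 2, m3, m4}`; `A_i = (pts m_i).erase e` (i = 1, 2),
`C_j = (pts m_j).erase f` (j = 3, 4), `D = (pts n0).erase u`, `E = (pts n1).erase v`.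
`B ∈ bl C' D' z` is in some `thr z (l i)` (`bl_cover`). `l 0 = {z, u, e}`: case 1 `{u, e}`; case 2
(`m ∈ lns u`, `z ∉ pts m`): `m = n0`, `insert e D`; case 3: `insert u A_i`; case 4: `K u e`,
contradiction (`K u y ↔ y = z`). `l 1 = {z, u, v}`: `{u, v}`; case 2: `m = n0`, `insert v D`;
case 3: `m = n1`, `insert u E`; case 4: `K u v`, contradiction. `l 2`: symmetric: `{v, f}`,
`insert f E`, `insert v C_j`. The hypotheses of `F_fMid`: `u ∉ A_i` (else `K u e`), `v ∉ C_j`,
`v ∉ D` (else `K u v` by `l 1, n0`), `u ∉ E`, `e ∉ D` (`e_not_n0`), `f ∉ E`.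
-/

set_option autoImplicit false

namespace Pool.Agent.OLD57

open Finset

namespace Inc

variable {P L : Type*} [Fintype P] [DecidableEq P] [Fintype L] [DecidableEq L]
variable (H : Inc P L)

theorem bl_mid3 {x : ℕ → P} {l : ℕ → L} {e f : P} {n0 n1 : L}
    (h : PathCfg H 3 x l e f n0 n1) (C D : Finset P) {t : ℝ} (h0 : 0 ≤ t) (h1 : t ≤ 1) :
    fMid t ≤ F t (H.bl C D (x 1)) := by
  have hr := h.rev
  -- names for the points and lines
  obtain ⟨u, hu⟩ : ∃ u, u = x 0 := ⟨_, rfl⟩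
  obtain ⟨z, hz⟩ : ∃ z, z = x 1 := ⟨_, rfl⟩
  obtain ⟨v, hv⟩ : ∃ v, v = x 2 := ⟨_, rfl⟩
  obtain ⟨a, ha⟩ : ∃ a, a = l 0 := ⟨_, rfl⟩
  obtain ⟨b, hb⟩ : ∃ b, b = l 1 := ⟨_, rfl⟩
  obtain ⟨c, hc⟩ : ∃ c, c = l 2 := ⟨_, rfl⟩
  have pa : H.pts a = {e, u, z} := by rw [ha, hu, hz]; exact h.pts0
  have pb : H.pts b = {u, z, v} := by rw [hb, hu, hz, hv]; exact h.ptsi 1 le_rfl (by norm_num)
  have pc : H.pts c = {z, v, f} := by rw [hc, hz, hv]; exact h.ptsr
  have lu : H.lns u = {a, b, n0} := by rw [hu, ha, hb]; exact h.lns0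
  have lz : H.lns z = {a, b, c} := by
    rw [hz, ha, hb, hc]; exact h.lnsi 1 le_rfl (by norm_num)
  have lv : H.lns v = {b, c, n1} := by rw [hv, hb, hc]; exact h.lnsr
  obtain ⟨heu, hez, huz, hab, han, hbn⟩ : e ≠ u ∧ e ≠ z ∧ u ≠ z ∧ a ≠ b ∧ a ≠ n0 ∧ b ≠ n0 := by
    rw [hu, hz, ha, hb]; exact h.ne0
  obtain ⟨hfv, hfz, hvz, hcb, hcn, hbn1⟩ : f ≠ v ∧ f ≠ z ∧ v ≠ z ∧ c ≠ b ∧ c ≠ n1 ∧ b ≠ n1 := by
    rw [hv, hz, hc, hb]; exact hr.ne0
  have huv : u ≠ v := by
    rw [hu, hv]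
    exact h.toKPath.ne H (by norm_num) (by norm_num) (by norm_num)
  have hen : e ∉ H.pts n0 := h.e_not_n0
  have hfn : f ∉ H.pts n1 := hr.e_not_n0
  have Ku : ∀ y, H.K u y → y = z := by
    intro y hy
    rw [hu] at hy
    rw [hz]
    exact (h.toKPath.K0 H y).mp hy
  have Kv : ∀ y, H.K v y → y = z := by
    intro y hy
    rw [hv] at hy
    rw [hz]
    exact (hr.toKPath.K0 H y).mp hy
  have hev : e ≠ v := by rw [hv]; exact h.e_ne2 H le_rfl
  have hfu : f ≠ u := by rw [hu]; exact hr.e_ne2 H le_rfl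
  have eln : a ∈ H.lns e := (H.mem_iff e a).mp (by rw [pa]; simp)
  have fln : c ∈ H.lns f := (H.mem_iff f c).mp (by rw [pc]; simp)
  obtain ⟨m1, m2, ham1, ham2, hm12, le'⟩ := H.exists_lns eln
  obtain ⟨m3, m4, hcm3, hcm4, hm34, lf'⟩ := H.exists_lns fln
  have em1 : e ∈ H.pts m1 := (H.mem_iff e m1).mpr (by rw [le']; simp)
  have em2 : e ∈ H.pts m2 := (H.mem_iff e m2).mpr (by rw [le']; simp)
  have fm3 : f ∈ H.pts m3 := (H.mem_iff f m3).mpr (by rw [lf']; simp)
  have fm4 : f ∈ H.pts m4 := (H.mem_iff f m4).mpr (by rw [lf']; simp)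
  have un0 : u ∈ H.pts n0 := (H.mem_iff u n0).mpr (by rw [lu]; simp)
  have vn1 : v ∈ H.pts n1 := (H.mem_iff v n1).mpr (by rw [lv]; simp)
  have card2 : ∀ {y : P} {m : L}, y ∈ H.pts m → ((H.pts m).erase y).card = 2 := by
    intro y m hy
    rw [card_erase_of_mem hy, H.card_pts]
  have ua : u ∈ H.pts a := by rw [pa]; simp
  have ea : e ∈ H.pts a := by rw [pa]; simp
  have za : z ∈ H.pts a := by rw [pa]; simp
  have ub : u ∈ H.pts b := by rw [pb]; simp
  have zb : z ∈ H.pts b := by rw [pb]; simp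
  have vb : v ∈ H.pts b := by rw [pb]; simp
  have zc : z ∈ H.pts c := by rw [pc]; simp
  have vc : v ∈ H.pts c := by rw [pc]; simp
  have fc : f ∈ H.pts c := by rw [pc]; simp
  -- no second line through `u, e`, through `u, v`, through `v, f`
  have nue : ∀ m, m ≠ a → u ∈ H.pts m → e ∉ H.pts m := by
    intro m hm h2 h3
    exact hez (Ku e (H.K_of heu.symm hm h2 h3 ua ea))
  have nuv : ∀ m, m ≠ b → u ∈ H.pts m → v ∉ H.pts m := by
    intro m hm h2 h3
    exact hvz (Ku v (H.K_of huv hm h2 h3 ub vb))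
  have nvf : ∀ m, m ≠ c → v ∈ H.pts m → f ∉ H.pts m := by
    intro m hm h2 h3
    exact hfz (Kv f (H.K_of hfv.symm hm h2 h3 vc fc))
  have key := F_fMid h0 h1 (e := e) (f := f) (u := u) (v := v) huv heu hfv
    (A1 := (H.pts m1).erase e) (A2 := (H.pts m2).erase e) (C1 := (H.pts m3).erase f)
    (C2 := (H.pts m4).erase f) (D := (H.pts n0).erase u) (E := (H.pts n1).erase v)
    (card2 em1) (card2 em2) (card2 fm3) (card2 fm4) (card2 un0) (card2 vn1)
    (fun hh => nue m1 ham1.symm (mem_of_mem_erase hh) em1)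
    (fun hh => nue m2 ham2.symm (mem_of_mem_erase hh) em2)
    (fun hh => nvf m3 hcm3.symm (mem_of_mem_erase hh) fm3)
    (fun hh => nvf m4 hcm4.symm (mem_of_mem_erase hh) fm4)
    (fun hh => nuv n0 hbn.symm un0 (mem_of_mem_erase hh))
    (fun hh => nuv n1 hbn1.symm (mem_of_mem_erase hh) vn1)
    (fun hh => hen (mem_of_mem_erase hh))
    (fun hh => hfn (mem_of_mem_erase hh))
  refine key.trans (F_anti h0 h1 ?_)
  rw [← hz]
  intro B hB
  refine ⟨B, ?_, Subset.refl _⟩
  obtain ⟨l', hl', hth⟩ := H.bl_cover hB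
  rw [lz] at hl'
  simp only [mem_insert, mem_singleton] at hl'
  have pa' : H.pts a = {z, u, e} := by
    rw [pa]; ext y; simp only [mem_insert, mem_singleton]; tauto
  have pb' : H.pts b = {z, u, v} := by
    rw [pb]; ext y; simp only [mem_insert, mem_singleton]; tauto
  simp only [mem_insert, mem_singleton]
  rcases hl' with rfl | rfl | rfl
  · rcases H.thr_cases pa' huz.symm hez.symm heu.symm hth with
      hB1 | ⟨m, hm, hma, -, hzm, hB1⟩ | ⟨m, hm, hma, -, hzm, hB1⟩ | ⟨m, y, hma, hpm, -, -, -, hB1⟩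
    · left
      rw [hB1, pair_comm]
    · rw [lu] at hm
      simp only [mem_insert, mem_singleton] at hm
      rcases hm with rfl | rfl | rfl
      · exact absurd rfl hma
      · exact absurd zb hzm
      · rw [hB1]
        tauto
    · rw [le'] at hm
      simp only [mem_insert, mem_singleton] at hm
      rcases hm with rfl | rfl | rfl
      · exact absurd rfl hma
      · rw [hB1]
        tauto
      · rw [hB1]
        tauto
    · exfalso
      exact nue m hma (by rw [hpm]; simp) (by rw [hpm]; simp)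
  · rcases H.thr_cases pb' huz.symm hvz.symm huv hth with
      hB1 | ⟨m, hm, hma, -, hzm, hB1⟩ | ⟨m, hm, hma, -, hzm, hB1⟩ | ⟨m, y, hma, hpm, -, -, -, hB1⟩
    · rw [hB1]
      tauto
    · rw [lu] at hm
      simp only [mem_insert, mem_singleton] at hm
      rcases hm with rfl | rfl | rfl
      · exact absurd za hzm
      · exact absurd rfl hma
      · rw [hB1]
        tauto
    · rw [lv] at hm
      simp only [mem_insert, mem_singleton] at hm
      rcases hm with rfl | rfl | rfl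
      · exact absurd rfl hma
      · exact absurd zc hzm
      · rw [hB1]
        tauto
    · exfalso
      exact nuv m hma (by rw [hpm]; simp) (by rw [hpm]; simp)
  · rcases H.thr_cases pc hvz.symm hfz.symm hfv.symm hth with
      hB1 | ⟨m, hm, hma, -, hzm, hB1⟩ | ⟨m, hm, hma, -, hzm, hB1⟩ | ⟨m, y, hma, hpm, -, -, -, hB1⟩
    · rw [hB1]
      tauto
    · rw [lv] at hm
      simp only [mem_insert, mem_singleton] at hm
      rcases hm with rfl | rfl | rfl
      · exact absurd zb hzm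
      · exact absurd rfl hma
      · rw [hB1]
        tauto
    · rw [lf'] at hm
      simp only [mem_insert, mem_singleton] at hm
      rcases hm with rfl | rfl | rfl
      · exact absurd rfl hma
      · rw [hB1]
        tauto
      · rw [hB1]
        tauto
    · exfalso
      exact nvf m hma (by rw [hpm]; simp) (by rw [hpm]; simp)

end Inc

end Pool.Agent.OLD57
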