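import Pool.Agent.OLD57.CompDefs
import Pool.Agent.OLD57.CrPath
import Pool.Agent.OLD57.FreePath
import Pool.Agent.OLD57.GeoP3E
import Pool.Agent.OLD57.GeoP3M
import Pool.Agent.OLD57.PathSum
import Pool.Agent.OLD57.Cover
import Pool.Agent.OLD57.GoodConst

/-!
# Module OLD57/CompP3

A path component with three points.

PROOF. `p3_end`: as in CompP2 (`F_bl_ge2`, `pair_G33`, `PathCfg.free0`, `Pr_good_ge`, `net0`): case
N: `G33N` gives `0.303`; case M: `G33M` gives `0.248`, `+ 0.03 = 0.278`.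
`p3_mid`: `bl_mid3`, `Pr_good_ge`, `Mid` gives `0.4005`; `net1_three`: `- 0.06`.
`comp_P3`: `ρ` constant `C = (range 3).image x`; `p3_end` for `h` and `h.rev`
(`x (3 - 1 - 0) = x 2`), `p3_mid`: `2 * 0.278 + 0.3405 = 0.8965 ≥ 3 * 0.286`.
-/

set_option autoImplicit false

namespace Pool.Agent.OLD57

open Finset

namespace Inc

variable {P L : Type*} [Fintype P] [DecidableEq P] [Fintype L] [DecidableEq L]
variable (H : Inc P L)

variable {x : ℕ → P} {l : ℕ → L} {e f : P} {n0 n1 : L}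

private theorem CompP3_fN {t : ℝ} (h0 : 0 ≤ t) (h1 : t ≤ 1) : 0 ≤ fN t := by
  have h2 : 0 ≤ 1 - t := sub_nonneg.2 h1
  unfold fN
  positivity

private theorem CompP3_fM {t : ℝ} (h0 : 0 ≤ t) (h1 : t ≤ 1) : 0 ≤ fM t := by
  have h2 : 0 ≤ 1 - t := sub_nonneg.2 h1
  have h3 : 0 ≤ 1 - t ^ 2 := by nlinarith
  unfold fM
  positivity

theorem p3_end {T : ℕ} (hN : NumOK T) (h : PathCfg H 3 x l e f n0 n1) {C D : Finset P}
    (hx : x 0 ∈ D) :
    278 / 1000 ≤ Pr T (H.Good C (fun _ : P → Fin T => D) (x 0)) + H.cr (x 0) - H.deb (x 0) := by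
  have hnet := PathCfg.net0 H h le_rfl
  have hbl : ∀ t, 0 ≤ t → t ≤ 1 →
      F t (H.thr (x 0) (l 0) ∪ H.thr (x 0) (l 1)) * F t (H.thr (x 0) n0) ≤
        F t (H.bl C D (x 0)) := fun t h0 h1 => H.F_bl_ge2 h0 h1 h.lns0 C D
  rcases PathCfg.free0 H h with hf | ⟨hc, hf⟩
  · have hge : avg T (fun t => fG33 t * fN t) ≤
        Pr T (H.Good C (fun _ : P → Fin T => D) (x 0)) := by
      refine H.Pr_good_ge hN.pos hx fun t h0 h1 => le_trans ?_ (hbl t h0 h1)
      exact mul_le_mul (H.pair_G33 h h0 h1) (hf t h0 h1) (CompP3_fN h0 h1) (F_nonneg h0 h1 _)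
    have h1 := hN.G33N
    have h2 := H.crl_nonneg (x 0) n0
    linarith
  · have hge : avg T (fun t => fG33 t * fM t) ≤
        Pr T (H.Good C (fun _ : P → Fin T => D) (x 0)) := by
      refine H.Pr_good_ge hN.pos hx fun t h0 h1 => le_trans ?_ (hbl t h0 h1)
      exact mul_le_mul (H.pair_G33 h h0 h1) (hf t h0 h1) (CompP3_fM h0 h1) (F_nonneg h0 h1 _)
    have h1 := hN.G33M
    linarith

theorem p3_mid {T : ℕ} (hN : NumOK T) (h : PathCfg H 3 x l e f n0 n1) {C D : Finset P}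
    (hx : x 1 ∈ D) :
    3405 / 10000 ≤
      Pr T (H.Good C (fun _ : P → Fin T => D) (x 1)) + H.cr (x 1) - H.deb (x 1) := by
  have hnet := PathCfg.net1_three H h le_rfl
  have hge : avg T (fun t => fMid t) ≤ Pr T (H.Good C (fun _ : P → Fin T => D) (x 1)) :=
    H.Pr_good_ge hN.pos hx fun t h0 h1 => H.bl_mid3 h C D h0 h1
  have h1 := hN.Mid
  linarith

theorem comp_P3 {T : ℕ} (hN : NumOK T) (h : PathCfg H 3 x l e f n0 n1) :
    H.CompOKc T (143 / 500) ((range 3).image x) := by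
  refine ⟨fun _ => (range 3).image x, ?_⟩
  rw [KPath.sum_image H h.toKPath, KPath.card_image H h.toKPath, sum_range_succ, sum_range_succ,
    sum_range_succ, sum_range_zero, zero_add]
  have hmem : ∀ i < 3, x i ∈ (range 3).image x := fun i hi =>
    mem_image_of_mem x (mem_range.2 hi)
  have h0 := H.p3_end hN h (C := (range 3).image x) (hmem 0 (by norm_num))
  have h1 := H.p3_mid hN h (C := (range 3).image x) (hmem 1 (by norm_num))
  have h2 := H.p3_end hN (PathCfg.rev H h) (C := (range 3).image x) (D := (range 3).image x)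
    (hmem 2 (by norm_num))
  change 278 / 1000 ≤ Pr T (H.Good ((range 3).image x)
    (fun _ : P → Fin T => (range 3).image x) (x 2)) + H.cr (x 2) - H.deb (x 2) at h2
  push_cast
  linarith

end Inc

end Pool.Agent.OLD57
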