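import Pool.Agent.OLD57.Thr
import Pool.Agent.OLD57.FamG
import Pool.Agent.OLD57.PathFacts

/-!
# Module OLD57/GeoP4E

End point of a path with four points. `b = x 1`, `a = x 2`, `y = x 3`; `pts (l 0) = {e, x 0, b}`,
`pts (l 1) = {x 0, b, a}`, `pts (l 2) = {b, a, y}`, `pts (l 3) = {a, y, f}`,
`lns b = {l 0, l 1, l 2}`, `lns a = {l 1, l 2, l 3}`.

PROOF. As in GeoP3E with `f` replaced by `y = x 3`, except: in `thr (x 0) (l 1)`, case 3:
`m ∈ {l 2, l 3}`, `b ∉ pts m`, so `m = l 3` and `B = insert b ((pts (l 3)).erase a) ∋ y`: dominated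
by `{y}`. Hence no set `insert b A` is needed: family `{{y}, {a, b}, {e, b}, insert b C1,
insert b C2}`, `F_fG32`.
-/

set_option autoImplicit false

namespace Pool.Agent.OLD57

open Finset

namespace Inc

variable {P L : Type*} [Fintype P] [DecidableEq P] [Fintype L] [DecidableEq L]
variable (H : Inc P L)

theorem pair_G32 {x : ℕ → P} {l : ℕ → L} {e f : P} {n0 n1 : L}
    (h : PathCfg H 4 x l e f n0 n1) {t : ℝ} (h0 : 0 ≤ t) (h1 : t ≤ 1) :
    fG32 t ≤ F t (H.thr (x 0) (l 0) ∪ H.thr (x 0) (l 1)) := by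
  have hl0 : H.pts (l 0) = {e, x 0, x 1} := h.pts0
  have hl1 : H.pts (l 1) = {x 0, x 1, x 2} := h.ptsi 1 (by norm_num) (by norm_num)
  have hl2 : H.pts (l 2) = {x 1, x 2, x 3} := h.ptsi 2 (by norm_num) (by norm_num)
  have hl3 : H.pts (l 3) = {x 2, x 3, f} := h.ptsr
  have hb : H.lns (x 1) = {l 0, l 1, l 2} := h.lnsi 1 (by norm_num) (by norm_num)
  have ha : H.lns (x 2) = {l 1, l 2, l 3} := h.lnsi 2 (by norm_num) (by norm_num)
  have n01 : x 0 ≠ x 1 := h.toKPath.ne H (by norm_num) (by norm_num) (by norm_num)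
  have n02 : x 0 ≠ x 2 := h.toKPath.ne H (by norm_num) (by norm_num) (by norm_num)
  have n03 : x 0 ≠ x 3 := h.toKPath.ne H (by norm_num) (by norm_num) (by norm_num)
  have n12 : x 1 ≠ x 2 := h.toKPath.ne H (by norm_num) (by norm_num) (by norm_num)
  have n13 : x 1 ≠ x 3 := h.toKPath.ne H (by norm_num) (by norm_num) (by norm_num)
  have n23 : x 2 ≠ x 3 := h.toKPath.ne H (by norm_num) (by norm_num) (by norm_num)
  obtain ⟨he0, he1, -, -, -, -⟩ := PathCfg.ne0 H h
  have he2 : e ≠ x 2 := PathCfg.e_ne2 H h (by norm_num)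
  have hel0 : e ∈ H.pts (l 0) := by rw [hl0]; simp
  have h1l0 : x 1 ∈ H.pts (l 0) := by rw [hl0]; simp
  obtain ⟨m1, m2, hm1, hm2, hm12, hle⟩ := H.exists_lns ((H.mem_iff _ _).1 hel0)
  have hbm : ∀ m, m ≠ l 0 → e ∈ H.pts m → x 1 ∉ H.pts m := by
    intro m hm hem h1m
    have hK : H.K (x 1) e := H.K_of he1.symm hm.symm h1l0 hel0 h1m hem
    rcases (KPath.Ki H h.toKPath (le_refl 1) (by norm_num) e).1 hK with h5 | h5
    · exact he0 h5
    · exact he2 h5
  have hem1 : e ∈ H.pts m1 := (H.mem_iff _ _).2 (by rw [hle]; simp)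
  have hem2 : e ∈ H.pts m2 := (H.mem_iff _ _).2 (by rw [hle]; simp)
  have hb1 : x 1 ∉ H.pts m1 := hbm m1 hm1.symm hem1
  have hb2 : x 1 ∉ H.pts m2 := hbm m2 hm2.symm hem2
  have c1 : ((H.pts m1).erase e).card = 2 := by rw [card_erase_of_mem hem1, H.card_pts]
  have c2 : ((H.pts m2).erase e).card = 2 := by rw [card_erase_of_mem hem2, H.card_pts]
  refine le_trans (F_fG32 h0 h1 (a := x 2) (b := x 1) (e := e) (y := x 3) n12.symm he1 c1 c2
    (fun h5 => hb1 (mem_of_mem_erase h5)) (fun h5 => hb2 (mem_of_mem_erase h5)))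
    (F_anti h0 h1 ?_)
  intro A hA
  rcases mem_union.1 hA with hA | hA
  · have hl0' : H.pts (l 0) = {x 0, x 1, e} := by
      rw [hl0]; ext z; simp only [mem_insert, mem_singleton]; tauto
    rcases H.thr_cases hl0' n01 he0.symm he1.symm hA with
      hc | ⟨m, hm, hml, hem, hxm, hc⟩ | ⟨m, hm, hml, h1m, hxm, hc⟩ | ⟨m, z, hml, hpm, hz1, hze, hz0, hc⟩
    · refine ⟨{e, x 1}, by simp, ?_⟩
      rw [hc, pair_comm]
    · rw [hb] at hm
      simp only [mem_insert, mem_singleton] at hm
      rcases hm with hm | hm | hm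
      · exact absurd hm hml
      · exfalso; apply hxm; rw [hm, hl1]; simp
      · refine ⟨{x 3}, by simp, ?_⟩
        rw [hc, singleton_subset_iff, hm, hl2]
        simp [n13.symm]
    · rw [hle] at hm
      simp only [mem_insert, mem_singleton] at hm
      rcases hm with hm | hm | hm
      · exact absurd hm hml
      · refine ⟨insert (x 1) ((H.pts m1).erase e), by simp, ?_⟩
        rw [hc, hm]
      · refine ⟨insert (x 1) ((H.pts m2).erase e), by simp, ?_⟩
        rw [hc, hm]
    · exfalso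
      exact hbm m hml (by rw [hpm]; simp) (by rw [hpm]; simp)
  · rcases H.thr_cases hl1 n01 n02 n12 hA with
      hc | ⟨m, hm, hml, hem, hxm, hc⟩ | ⟨m, hm, hml, h1m, hxm, hc⟩ | ⟨m, z, hml, hpm, hz1, hze, hz0, hc⟩
    · refine ⟨{x 2, x 1}, by simp, ?_⟩
      rw [hc, pair_comm]
    · exfalso
      rw [hb] at hm
      simp only [mem_insert, mem_singleton] at hm
      rcases hm with hm | hm | hm
      · apply hxm; rw [hm, hl0]; simp
      · exact hml hm
      · apply hem; rw [hm, hl2]; simp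
    · rw [ha] at hm
      simp only [mem_insert, mem_singleton] at hm
      rcases hm with hm | hm | hm
      · exact absurd hm hml
      · exfalso; apply h1m; rw [hm, hl2]; simp
      · refine ⟨{x 3}, by simp, ?_⟩
        rw [hc, singleton_subset_iff, hm, hl3]
        simp [n23.symm]
    · have hm : m ∈ H.lns (x 1) := (H.mem_iff _ _).1 (by rw [hpm]; simp)
      rw [hb] at hm
      simp only [mem_insert, mem_singleton] at hm
      rcases hm with hm | hm | hm
      · exfalso
        have h2 : x 2 ∈ H.pts (l 0) := by rw [← hm, hpm]; simp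
        rw [hl0] at h2
        simp only [mem_insert, mem_singleton] at h2
        rcases h2 with h2 | h2 | h2
        · exact he2 h2.symm
        · exact n02 h2.symm
        · exact n12 h2.symm
      · exact absurd hm hml
      · refine ⟨{x 3}, by simp, ?_⟩
        have h2 : z ∈ H.pts (l 2) := by rw [← hm, hpm]; simp
        rw [hl2] at h2
        simp only [mem_insert, mem_singleton] at h2
        rcases h2 with h2 | h2 | h2
        · exact absurd h2 hz1
        · exact absurd h2 hze
        · rw [hc, h2]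

end Inc

end Pool.Agent.OLD57
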