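import Pool.Agent.OLD57.FIns

/-!
# Module OLD57/FamIn

PROOF. Factor `1 - p` from `{f}` (`F_insert`). Condition on `u` (`F_cond_ge`):
`𝓔 = {{e}, {v}, A1, A2}`, value `≥ (1-p)^2 (1-p^2)^2` (`(insert e D).erase u ⊇ {e}`, `e ≠ u`; the
sets with `v` contain `{v}`, `v ≠ u`). `𝓛 = {{v, w}, insert e D, insert v D, insert v C}`; condition
`𝓛` on `v`: late `{insert e D}`, value `1 - p^3` (`e ∉ D`); early `{{w}, D, C}`, value
`≥ (1-p) (1-p^2)^2` (`(insert e D).erase v ⊇ D` as `v ∉ D`). Total
`(1-p) ((1-p) ((1-p) (1-p^3) + p (1-p) (1-p^2)^2) + p (1-p)^2 (1-p^2)^2) = fIn p`.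
-/

set_option autoImplicit false

namespace Pool.Agent.OLD57

open Finset

variable {P : Type*} [Fintype P] [DecidableEq P]

theorem FamIn_sub_erase {A B : Finset P} {u : P} (h : B ⊆ A) (hu : u ∉ B) : B ⊆ A.erase u := by
  intro x hx
  exact mem_erase.2 ⟨fun h' => hu (h' ▸ hx), h hx⟩

theorem FamIn_two {p : ℝ} (h0 : 0 ≤ p) (h1 : p ≤ 1) {e v : P} {A1 A2 : Finset P}
    (cA1 : A1.card = 2) (cA2 : A2.card = 2) :
    (1 - p) ^ 2 * (1 - p ^ 2) ^ 2 ≤ F p {{e}, {v}, A1, A2} := by
  have a1 := F_insert h0 h1 {e} {{v}, A1, A2}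
  have a2 := F_insert h0 h1 {v} {A1, A2}
  have a3 := F_insert h0 h1 A1 {A2}
  rw [F_single, cA1, cA2] at a3
  rw [card_singleton, pow_one] at a1 a2
  have hp : 0 ≤ 1 - p := by linarith
  have a4 := mul_le_mul_of_nonneg_left a3 hp
  have a5 := mul_le_mul_of_nonneg_left (a4.trans a2) hp
  refine le_trans (le_of_eq ?_) (a5.trans a1)
  ring

theorem FamIn_one {p : ℝ} (h0 : 0 ≤ p) (h1 : p ≤ 1) {w : P} {C D : Finset P}
    (cC : C.card = 2) (cD : D.card = 2) :
    (1 - p) * (1 - p ^ 2) ^ 2 ≤ F p {{w}, D, C} := by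
  have a1 := F_insert h0 h1 {w} {D, C}
  have a3 := F_insert h0 h1 D {C}
  rw [F_single, cC, cD] at a3
  rw [card_singleton, pow_one] at a1
  have hp : 0 ≤ 1 - p := by linarith
  have a4 := mul_le_mul_of_nonneg_left a3 hp
  refine le_trans (le_of_eq ?_) (a4.trans a1)
  ring

theorem F_fIn {p : ℝ} (h0 : 0 ≤ p) (h1 : p ≤ 1) {e f u v w : P} (huv : u ≠ v) (heu : e ≠ u)
    (hwv : w ≠ v) {A1 A2 C D : Finset P} (cA1 : A1.card = 2) (cA2 : A2.card = 2)
    (cC : C.card = 2) (cD : D.card = 2) (hA1 : u ∉ A1) (hA2 : u ∉ A2) (hvD : v ∉ D)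
    (hvC : v ∉ C) (heD : e ∉ D) :
    fIn p ≤ F p {{f}, {e, u}, {u, v}, {v, w}, insert u A1, insert u A2, insert e D,
      insert v D, insert v C} := by
  have hp : 0 ≤ 1 - p := by linarith
  have b1 := F_insert h0 h1 {f} {{e, u}, {u, v}, {v, w}, insert u A1, insert u A2, insert e D,
      insert v D, insert v C}
  rw [card_singleton, pow_one] at b1
  have b2 : (1 - p) * F p {{v, w}, insert e D, insert v D, insert v C} +
      p * F p {{e}, {v}, A1, A2} ≤
      F p {{e, u}, {u, v}, {v, w}, insert u A1, insert u A2, insert e D,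
      insert v D, insert v C} := by
    apply F_cond_ge h0 h1 u
    · intro A hA huA
      simp only [mem_insert, mem_singleton] at hA
      rcases hA with rfl | rfl | rfl | rfl | rfl | rfl | rfl | rfl
      · exact absurd (by simp) huA
      · exact absurd (by simp) huA
      · exact ⟨{v, w}, by simp, subset_rfl⟩
      · exact absurd (by simp) huA
      · exact absurd (by simp) huA
      · exact ⟨insert e D, by simp, subset_rfl⟩
      · exact ⟨insert v D, by simp, subset_rfl⟩
      · exact ⟨insert v C, by simp, subset_rfl⟩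
    · intro A hA
      have hue : u ∉ ({e} : Finset P) := by simpa using heu.symm
      have huv' : u ∉ ({v} : Finset P) := by simpa using huv
      simp only [mem_insert, mem_singleton] at hA
      rcases hA with rfl | rfl | rfl | rfl | rfl | rfl | rfl | rfl
      · exact ⟨{e}, by simp, FamIn_sub_erase (by simp) hue⟩
      · exact ⟨{v}, by simp, FamIn_sub_erase (by simp) huv'⟩
      · exact ⟨{v}, by simp, FamIn_sub_erase (by simp) huv'⟩
      · exact ⟨A1, by simp, FamIn_sub_erase (subset_insert _ _) hA1⟩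
      · exact ⟨A2, by simp, FamIn_sub_erase (subset_insert _ _) hA2⟩
      · exact ⟨{e}, by simp, FamIn_sub_erase (by simp) hue⟩
      · exact ⟨{v}, by simp, FamIn_sub_erase (by simp) huv'⟩
      · exact ⟨{v}, by simp, FamIn_sub_erase (by simp) huv'⟩
  have b3 : (1 - p) * F p {insert e D} + p * F p {{w}, D, C} ≤
      F p {{v, w}, insert e D, insert v D, insert v C} := by
    apply F_cond_ge h0 h1 v
    · intro A hA hvA
      simp only [mem_insert, mem_singleton] at hA
      rcases hA with rfl | rfl | rfl | rfl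
      · exact absurd (by simp) hvA
      · exact ⟨insert e D, by simp, subset_rfl⟩
      · exact absurd (by simp) hvA
      · exact absurd (by simp) hvA
    · intro A hA
      have hvw : v ∉ ({w} : Finset P) := by simpa using hwv.symm
      simp only [mem_insert, mem_singleton] at hA
      rcases hA with rfl | rfl | rfl | rfl
      · exact ⟨{w}, by simp, FamIn_sub_erase (by simp) hvw⟩
      · exact ⟨D, by simp, FamIn_sub_erase (subset_insert _ _) hvD⟩
      · exact ⟨D, by simp, FamIn_sub_erase (subset_insert _ _) hvD⟩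
      · exact ⟨C, by simp, FamIn_sub_erase (subset_insert _ _) hvC⟩
  have c1 := FamIn_two h0 h1 (e := e) (v := v) cA1 cA2
  have c2 := FamIn_one h0 h1 (w := w) cC cD
  have c3 : F p {insert e D} = 1 - p ^ 3 := by
    rw [F_single, card_insert_of_notMem heD, cD]
  rw [c3] at b3
  have d1 := mul_le_mul_of_nonneg_left c2 h0
  have d2 : (1 - p) * (1 - p ^ 3) + p * ((1 - p) * (1 - p ^ 2) ^ 2) ≤
      F p {{v, w}, insert e D, insert v D, insert v C} := by linarith
  have d3 := mul_le_mul_of_nonneg_left d2 hp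
  have d4 := mul_le_mul_of_nonneg_left c1 h0
  have d5 : (1 - p) * ((1 - p) * (1 - p ^ 3) + p * ((1 - p) * (1 - p ^ 2) ^ 2)) +
      p * ((1 - p) ^ 2 * (1 - p ^ 2) ^ 2) ≤
      F p {{e, u}, {u, v}, {v, w}, insert u A1, insert u A2, insert e D,
      insert v D, insert v C} := by linarith
  have d6 := mul_le_mul_of_nonneg_left d5 hp
  refine le_trans (le_of_eq ?_) (d6.trans b1)
  unfold fIn
  ring

end Pool.Agent.OLD57
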