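import Pool.Agent.OLD57.Cover
import Pool.Agent.OLD57.FamIn
import Pool.Agent.OLD57.PathFacts

/-!
# Module OLD57/GeoP4I

Inner point `z = x 1` of a path with four points. `u = x 0`, `v = x 2`, `w = x 3`;
`pts (l 0) = {e, u, z}`, `pts (l 1) = {u, z, v}`, `pts (l 2) = {z, v, w}`, `pts (l 3) = {v, w, f}`,
`lns u = {l 0, l 1, n0}`, `lns v = {l 1, l 2, l 3}`, `lns w = {l 2, l 3, n1}`.

PROOF. `lns e = {l 0, m1, m2}`, `A_i = (pts m_i).erase e`, `D = (pts n0).erase u`,
`C0 = (pts n1).erase w`. `l 0 = {z, u, e}`: `{u, e}`; case 2: `m = n0`: `insert e D`; case 3: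
`insert u A_i`; case 4: `K u e`, contradiction. `l 1 = {z, u, v}`: `{u, v}`; case 2: `m = n0`:
`insert v D`; case 3: `m ∈ lns v`, `m ≠ l 1`, `z ∉ pts m`: `m = l 3`,
`B = insert u ((pts (l 3)).erase v) ∋ f`: dominated by `{f}` (`f ≠ v`); case 4: `K u v`,
contradiction. `l 2 = {z, v, w}`: `{v, w}`; case 2: `m ∈ lns v`, `m ≠ l 2`, `w ∉`, `z ∉ pts m`: none;
case 3: `m ∈ lns w`, `m ≠ l 2`, `v ∉ pts m`: `m = n1`: `insert v C0`; case 4: `m = l 3`, `B = {f}`.
Hypotheses of `F_fIn`: `u ∉ A_i`, `v ∉ D` (else `K u v`), `v ∉ C0` (`n1 ∉ lns v`: `n1 ≠ l 2, l 3`,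
and `w ∉ pts (l 1)`), `e ∉ D`, `w ≠ v`.
-/

set_option autoImplicit false

namespace Pool.Agent.OLD57

open Finset

namespace Inc

variable {P L : Type*} [Fintype P] [DecidableEq P] [Fintype L] [DecidableEq L]
variable (H : Inc P L)

theorem bl_in4 {x : ℕ → P} {l : ℕ → L} {e f : P} {n0 n1 : L}
    (h : PathCfg H 4 x l e f n0 n1) (C D : Finset P) {t : ℝ} (h0 : 0 ≤ t) (h1 : t ≤ 1) :
    fIn t ≤ F t (H.bl C D (x 1)) := by
  obtain ⟨e0, e1, h01, hl01, hl0n, hl1n⟩ := h.ne0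
  have hrev := h.rev.ne0
  obtain ⟨f3, f2, h32, hl32, hl3n, hl2n⟩ := hrev
  simp only [Nat.add_one_sub_one, Nat.sub_zero] at f3 f2 h32 hl32 hl3n hl2n
  have hK := h.toKPath
  have h02 : x 0 ≠ x 2 := hK.ne H (by norm_num) (by norm_num) (by norm_num)
  have h03 : x 0 ≠ x 3 := hK.ne H (by norm_num) (by norm_num) (by norm_num)
  have h12 : x 1 ≠ x 2 := hK.ne H (by norm_num) (by norm_num) (by norm_num)
  have h13 : x 1 ≠ x 3 := hK.ne H (by norm_num) (by norm_num) (by norm_num)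
  have nK02 : ¬ H.K (x 0) (x 2) :=
    hK.not_K H (by norm_num) (by norm_num) (by norm_num) (by norm_num)
  have nK0e : ¬ H.K (x 0) e := fun hh => e1 ((hK.K0 H e).1 hh)
  have p0 : H.pts (l 0) = {e, x 0, x 1} := h.pts0
  have p1 : H.pts (l 1) = {x 0, x 1, x 2} := h.ptsi 1 (by norm_num) (by norm_num)
  have p2 : H.pts (l 2) = {x 1, x 2, x 3} := h.ptsi 2 (by norm_num) (by norm_num)
  have p3 : H.pts (l 3) = {x 2, x 3, f} := h.ptsr
  have n0' : H.lns (x 0) = {l 0, l 1, n0} := h.lns0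
  have n1' : H.lns (x 1) = {l 0, l 1, l 2} := h.lnsi 1 (by norm_num) (by norm_num)
  have n2' : H.lns (x 2) = {l 1, l 2, l 3} := h.lnsi 2 (by norm_num) (by norm_num)
  have n3' : H.lns (x 3) = {l 2, l 3, n1} := h.lnsr
  have en0 : e ∉ H.pts n0 := h.e_not_n0 H
  -- the lines of e
  have hel0 : l 0 ∈ H.lns e := (H.mem_iff e (l 0)).1 (by rw [p0]; simp)
  obtain ⟨m1, m2, hm1, hm2, hm12, hlne⟩ := H.exists_lns hel0
  have hem1 : e ∈ H.pts m1 := (H.mem_iff e m1).2 (by rw [hlne]; simp)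
  have hem2 : e ∈ H.pts m2 := (H.mem_iff e m2).2 (by rw [hlne]; simp)
  have hu0 : x 0 ∈ H.pts (l 0) := by rw [p0]; simp
  have hu1 : x 0 ∈ H.pts (l 1) := by rw [p1]; simp
  have he0 : e ∈ H.pts (l 0) := by rw [p0]; simp
  have hun0 : x 0 ∈ H.pts n0 := (H.mem_iff (x 0) n0).2 (by rw [n0']; simp)
  have hwn1 : x 3 ∈ H.pts n1 := (H.mem_iff (x 3) n1).2 (by rw [n3']; simp)
  have hv1 : x 2 ∈ H.pts (l 1) := by rw [p1]; simp
  have hv2 : x 2 ∈ H.pts (l 2) := by rw [p2]; simp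
  have hv3 : x 2 ∈ H.pts (l 3) := by rw [p3]; simp
  have hw2 : x 3 ∈ H.pts (l 2) := by rw [p2]; simp
  have hw3 : x 3 ∈ H.pts (l 3) := by rw [p3]; simp
  have hz0 : x 1 ∈ H.pts (l 0) := by rw [p0]; simp
  have hz1 : x 1 ∈ H.pts (l 1) := by rw [p1]; simp
  have hz2 : x 1 ∈ H.pts (l 2) := by rw [p2]; simp
  have hum1 : x 0 ∉ H.pts m1 := fun hh => nK0e (H.K_of e0.symm hm1 hu0 he0 hh hem1)
  have hum2 : x 0 ∉ H.pts m2 := fun hh => nK0e (H.K_of e0.symm hm2 hu0 he0 hh hem2)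
  have hvn0 : x 2 ∉ H.pts n0 := fun hh => nK02 (H.K_of h02 hl1n hu1 hv1 hun0 hh)
  have hvn1 : x 2 ∉ H.pts n1 := by
    intro hh
    rcases H.lns_common h32.symm hl32.symm hv2 hw2 hv3 hw3 hh hwn1 with h4 | h4
    · exact hl2n h4.symm
    · exact hl3n h4.symm
  refine (F_fIn h0 h1 (e := e) (f := f) (u := x 0) (v := x 2) (w := x 3) h02 e0 h32
    (A1 := (H.pts m1).erase e) (A2 := (H.pts m2).erase e) (C := (H.pts n1).erase (x 3))
    (D := (H.pts n0).erase (x 0)) (by rw [card_erase_of_mem hem1, H.card_pts])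
    (by rw [card_erase_of_mem hem2, H.card_pts]) (by rw [card_erase_of_mem hwn1, H.card_pts])
    (by rw [card_erase_of_mem hun0, H.card_pts]) (fun hh => hum1 (mem_of_mem_erase hh))
    (fun hh => hum2 (mem_of_mem_erase hh)) (fun hh => hvn0 (mem_of_mem_erase hh))
    (fun hh => hvn1 (mem_of_mem_erase hh)) (fun hh => en0 (mem_of_mem_erase hh))).trans
    (F_anti h0 h1 ?_)
  intro B hB
  obtain ⟨m, hm, hBm⟩ := H.bl_cover hB
  rw [n1'] at hm
  simp only [mem_insert, mem_singleton] at hm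
  rcases hm with rfl | rfl | rfl
  · -- the line l 0
    have q0 : H.pts (l 0) = {x 1, x 0, e} := by rw [p0]; ext y; simp; tauto
    rcases H.thr_cases q0 h01.symm e1.symm e0.symm hBm with
      hc | ⟨m, hm, hne, hq, hx, hc⟩ | ⟨m, hm, hne, hq, hx, hc⟩ | ⟨m, y, hne, hp, y1, y2, y3, hc⟩
    · exact ⟨{e, x 0}, by simp, by rw [hc, pair_comm]⟩
    · rw [n0'] at hm
      simp only [mem_insert, mem_singleton] at hm
      rcases hm with rfl | rfl | rfl
      · exact absurd rfl hne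
      · exact absurd hz1 hx
      · exact ⟨B, by rw [hc]; simp, Subset.refl B⟩
    · rw [hlne] at hm
      simp only [mem_insert, mem_singleton] at hm
      rcases hm with rfl | rfl | rfl
      · exact absurd rfl hne
      · exact ⟨B, by rw [hc]; simp, Subset.refl B⟩
      · exact ⟨B, by rw [hc]; simp, Subset.refl B⟩
    · exact absurd (H.K_of e0.symm hne.symm hu0 he0 (by rw [hp]; simp) (by rw [hp]; simp)) nK0e
  · -- the line l 1
    have q1 : H.pts (l 1) = {x 1, x 0, x 2} := by rw [p1]; ext y; simp; tauto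
    rcases H.thr_cases q1 h01.symm h12 h02 hBm with
      hc | ⟨m, hm, hne, hq, hx, hc⟩ | ⟨m, hm, hne, hq, hx, hc⟩ | ⟨m, y, hne, hp, y1, y2, y3, hc⟩
    · exact ⟨B, by rw [hc]; simp, Subset.refl B⟩
    · rw [n0'] at hm
      simp only [mem_insert, mem_singleton] at hm
      rcases hm with rfl | rfl | rfl
      · exact absurd hz0 hx
      · exact absurd rfl hne
      · exact ⟨B, by rw [hc]; simp, Subset.refl B⟩
    · rw [n2'] at hm
      simp only [mem_insert, mem_singleton] at hm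
      rcases hm with rfl | rfl | rfl
      · exact absurd rfl hne
      · exact absurd hz2 hx
      · refine ⟨{f}, by simp, ?_⟩
        rw [hc, singleton_subset_iff]
        exact mem_insert_of_mem (mem_erase.2 ⟨f2, by rw [p3]; simp⟩)
    · exact absurd (H.K_of h02 hne.symm hu1 hv1 (by rw [hp]; simp) (by rw [hp]; simp)) nK02
  · -- the line l 2
    rcases H.thr_cases p2 h12 h13 h32.symm hBm with
      hc | ⟨m, hm, hne, hq, hx, hc⟩ | ⟨m, hm, hne, hq, hx, hc⟩ | ⟨m, y, hne, hp, y1, y2, y3, hc⟩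
    · exact ⟨B, by rw [hc]; simp, Subset.refl B⟩
    · rw [n2'] at hm
      simp only [mem_insert, mem_singleton] at hm
      rcases hm with rfl | rfl | rfl
      · exact absurd hz1 hx
      · exact absurd rfl hne
      · exact absurd hw3 hq
    · rw [n3'] at hm
      simp only [mem_insert, mem_singleton] at hm
      rcases hm with rfl | rfl | rfl
      · exact absurd rfl hne
      · exact absurd hv3 hq
      · exact ⟨B, by rw [hc]; simp, Subset.refl B⟩
    · have hvm : x 2 ∈ H.pts m := by rw [hp]; simp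
      have hwm : x 3 ∈ H.pts m := by rw [hp]; simp
      have hym : y ∈ H.pts m := by rw [hp]; simp
      rcases H.lns_common h32.symm hl32.symm hv2 hw2 hv3 hw3 hvm hwm with h4 | h4
      · exact absurd h4 hne
      · rw [h4, p3] at hym
        simp only [mem_insert, mem_singleton] at hym
        rcases hym with h5 | h5 | h5
        · exact absurd h5 y1
        · exact absurd h5 y2
        · exact ⟨{f}, by simp, by rw [hc, h5]⟩

end Inc

end Pool.Agent.OLD57
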