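import Pool.Agent.OLD57.CompDefs
import Pool.Agent.OLD57.CrPath
import Pool.Agent.OLD57.FreePath
import Pool.Agent.OLD57.GeoP4E
import Pool.Agent.OLD57.GeoP4I
import Pool.Agent.OLD57.PathSum
import Pool.Agent.OLD57.Cover
import Pool.Agent.OLD57.GoodConst

/-!
# Module OLD57/CompP4

A path component with four points.

PROOF. `p4_end`: as in CompP2, with `pair_G32`, `PathCfg.free0'` (three cases), `net0`: case N:
`G32N` gives `0.3058`; case `9/250`: `G32M` gives `0.2498`, `+ 0.036 = 0.2858`; case `fM'`: `G32M'`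
gives `0.25389`, `+ 0.03 = 0.28389`.
`p4_in`: `bl_in4`, `Pr_good_ge`, `In` gives `0.31813`; `net1`: `- 0.03`, together `0.28813`.
`comp_P4`: `ρ` constant `C = (range 4).image x`; both for `h` and `h.rev` (`x (4 - 1 - 0) = x 3`,
`x (4 - 1 - 1) = x 2`): `2 * 0.28389 + 2 * 0.28813 = 1.14404 ≥ 4 * 0.286 = 1.144`.
-/

set_option autoImplicit false

namespace Pool.Agent.OLD57

open Finset

namespace Inc

variable {P L : Type*} [Fintype P] [DecidableEq P] [Fintype L] [DecidableEq L]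
variable (H : Inc P L)

variable {x : ℕ → P} {l : ℕ → L} {e f : P} {n0 n1 : L}

private theorem p4_avg {T : ℕ} (hT : 0 < T) (h : PathCfg H 4 x l e f n0 n1) {C D : Finset P}
    (hx : x 0 ∈ D) (g : ℝ → ℝ) (hg0 : ∀ t, 0 ≤ t → t ≤ 1 → 0 ≤ g t)
    (hg : ∀ t, 0 ≤ t → t ≤ 1 → g t ≤ F t (H.thr (x 0) n0)) :
    avg T (fun t => fG32 t * g t) ≤ Pr T (H.Good C (fun _ : P → Fin T => D) (x 0)) := by
  apply H.Pr_good_ge hT hx
  intro t h0 h1
  refine le_trans ?_ (H.F_bl_ge2 h0 h1 h.lns0 C D)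
  exact mul_le_mul (H.pair_G32 h h0 h1) (hg t h0 h1) (hg0 t h0 h1) (F_nonneg h0 h1 _)

private theorem p4_fN {t : ℝ} (h0 : 0 ≤ t) (h1 : t ≤ 1) : 0 ≤ fN t := by
  have : 0 ≤ 1 - t := by linarith
  unfold fN
  positivity

private theorem p4_sq {t : ℝ} (h0 : 0 ≤ t) (h1 : t ≤ 1) : 0 ≤ 1 - t ^ 2 := by
  nlinarith

private theorem p4_fM {t : ℝ} (h0 : 0 ≤ t) (h1 : t ≤ 1) : 0 ≤ fM t := by
  have : 0 ≤ 1 - t := by linarith
  have := p4_sq h0 h1
  unfold fM
  positivity

private theorem p4_fM' {t : ℝ} (h0 : 0 ≤ t) (h1 : t ≤ 1) : 0 ≤ fM' t := by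
  have : 0 ≤ 1 - t := by linarith
  have := p4_sq h0 h1
  unfold fM'
  positivity

theorem p4_end {T : ℕ} (hN : NumOK T) (h : PathCfg H 4 x l e f n0 n1) {C D : Finset P}
    (hx : x 0 ∈ D) :
    28389 / 100000 ≤
      Pr T (H.Good C (fun _ : P → Fin T => D) (x 0)) + H.cr (x 0) - H.deb (x 0) := by
  have hnet := PathCfg.net0 H h (by norm_num)
  rcases PathCfg.free0' H h with hf | ⟨hc, hf⟩ | ⟨hc, hf⟩
  · have h1 := p4_avg H (C := C) hN.pos h hx fN (fun t a b => p4_fN a b) hf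
    have h2 := hN.G32N
    have h3 := H.crl_nonneg (x 0) n0
    norm_num at h2 ⊢
    linarith
  · have h1 := p4_avg H (C := C) hN.pos h hx fM (fun t a b => p4_fM a b) hf
    have h2 := hN.G32M
    norm_num at h2 hc ⊢
    linarith
  · have h1 := p4_avg H (C := C) hN.pos h hx fM' (fun t a b => p4_fM' a b) hf
    have h2 := hN.G32M'
    norm_num at h2 hc ⊢
    linarith

theorem p4_in {T : ℕ} (hN : NumOK T) (h : PathCfg H 4 x l e f n0 n1) {C D : Finset P}
    (hx : x 1 ∈ D) :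
    28813 / 100000 ≤
      Pr T (H.Good C (fun _ : P → Fin T => D) (x 1)) + H.cr (x 1) - H.deb (x 1) := by
  have hnet := PathCfg.net1 H h (by norm_num)
  have h1 : avg T (fun t => fIn t) ≤ Pr T (H.Good C (fun _ : P → Fin T => D) (x 1)) := by
    apply H.Pr_good_ge hN.pos hx
    intro t h0 h1
    exact H.bl_in4 h C D h0 h1
  have h2 := hN.In
  norm_num at h2 hnet ⊢
  linarith

theorem comp_P4 {T : ℕ} (hN : NumOK T) (h : PathCfg H 4 x l e f n0 n1) :
    H.CompOKc T (143 / 500) ((range 4).image x) := by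
  have hrev := PathCfg.rev H h
  set C := (range 4).image x with hC
  have hmem : ∀ i < 4, x i ∈ C := fun i hi => mem_image_of_mem x (mem_range.2 hi)
  have e0 := p4_end H (C := C) (D := C) hN h (hmem 0 (by norm_num))
  have e1 := p4_in H (C := C) (D := C) hN h (hmem 1 (by norm_num))
  have e3 := p4_end H (C := C) (D := C) hN hrev (hmem 3 (by norm_num))
  have e2 := p4_in H (C := C) (D := C) hN hrev (hmem 2 (by norm_num))
  refine ⟨fun _ => C, ?_⟩
  rw [hC, KPath.card_image H h.toKPath, KPath.sum_image H h.toKPath, ← hC]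
  simp only [sum_range_succ, sum_range_zero, zero_add]
  have e3' : 28389 / 100000 ≤
      Pr T (H.Good C (fun _ : P → Fin T => C) (x 3)) + H.cr (x 3) - H.deb (x 3) := e3
  have e2' : 28813 / 100000 ≤
      Pr T (H.Good C (fun _ : P → Fin T => C) (x 2)) + H.cr (x 2) - H.deb (x 2) := e2
  norm_num at e0 e1 e2' e3' ⊢
  linarith

end Inc

end Pool.Agent.OLD57
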