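import Pool.Agent.OLD57.Basic

/-!
# Module OLD57/Credit

Credits and debits.

PROOF. `gw_ge`: both values are at least 3/100. `gw_comm`: definition. `crl_eq`: the erased set is
`{p, q}`; the double sum has the two nonzero ordered pairs (`K` is irreflexive and symmetric), divide
by 2. `crl_nonneg`: all terms are nonnegative. `kap_eq`: the filter is `S`. `deb_eq`: the sum over
`y` is the sum over `S` (`Finset.sum_filter`). `gw_eq_of_ne`: one of the degrees is not 1.
`gw_eq_one`: both degrees are 1.
-/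

set_option autoImplicit false

namespace Pool.Agent.OLD57

open Finset

namespace Inc

variable {P L : Type*} [Fintype P] [DecidableEq P] [Fintype L] [DecidableEq L]
variable (H : Inc P L)

theorem gw_ge (x y : P) : 3 / 100 ≤ H.gw x y := by
  unfold gw
  split_ifs <;> norm_num

theorem gw_comm (x y : P) : H.gw x y = H.gw y x := by
  simp only [gw, and_comm]

theorem gw_eq_of_ne {x y : P} (h : H.kap x ≠ 1 ∨ H.kap y ≠ 1) : H.gw x y = 3 / 100 := by
  unfold gw
  rw [if_neg]
  rintro ⟨h1, h2⟩
  rcases h with h | h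
  · exact h h1
  · exact h h2

theorem gw_eq_one {x y : P} (hx : H.kap x = 1) (hy : H.kap y = 1) : H.gw x y = 9 / 250 := by
  unfold gw
  rw [if_pos ⟨hx, hy⟩]

theorem crl_nonneg (z : P) (l : L) : 0 ≤ H.crl z l := by
  unfold crl
  refine div_nonneg (Finset.sum_nonneg fun p _ => Finset.sum_nonneg fun q _ => ?_) (by norm_num)
  split_ifs
  · exact le_trans (by norm_num) (H.gw_ge p q)
  · exact le_refl _

theorem crl_eq {z p q : P} {l : L} (hl : H.pts l = {z, p, q}) (hzp : z ≠ p) (hzq : z ≠ q)
    (hpq : p ≠ q) : H.crl z l = if H.K p q then H.gw p q else 0 := by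
  have he : (H.pts l).erase z = {p, q} := by
    rw [hl]
    exact Finset.erase_insert (by simp [hzp, hzq])
  have hpp : ¬ H.K p p := fun h => h.1 rfl
  have hqq : ¬ H.K q q := fun h => h.1 rfl
  unfold crl
  rw [he, Finset.sum_pair hpq, Finset.sum_pair hpq, Finset.sum_pair hpq, if_neg hpp, if_neg hqq]
  by_cases h : H.K p q
  · rw [if_pos h, if_pos (H.K_symm h), H.gw_comm q p]
    ring
  · rw [if_neg h, if_neg (fun h' => h (H.K_symm h'))]
    ring

theorem crl_ge {z p q : P} {l : L} (hl : H.pts l = {z, p, q}) (hzp : z ≠ p) (hzq : z ≠ q)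
    (hpq : p ≠ q) (hK : H.K p q) : 3 / 100 ≤ H.crl z l := by
  rw [H.crl_eq hl hzp hzq hpq, if_pos hK]
  exact H.gw_ge p q

theorem kap_eq {x : P} {S : Finset P} (h : ∀ y, H.K x y ↔ y ∈ S) : H.kap x = S.card := by
  unfold kap
  congr 1
  ext y
  simp [h y]

theorem deb_eq {x : P} {S : Finset P} (h : ∀ y, H.K x y ↔ y ∈ S) :
    H.deb x = ∑ y ∈ S, H.gw x y := by
  unfold deb
  rw [← Finset.sum_filter]
  refine Finset.sum_congr ?_ fun _ _ => rfl
  ext y
  simp [h y]

theorem cr_nonneg (z : P) : 0 ≤ H.cr z := by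
  unfold cr
  exact Finset.sum_nonneg fun l _ => H.crl_nonneg z l

theorem cr_three {z : P} {l1 l2 l3 : L} (h : H.lns z = {l1, l2, l3}) :
    H.cr z = H.crl z l1 + H.crl z l2 + H.crl z l3 := by
  have hc : ({l1, l2, l3} : Finset L).card = 3 := by rw [← h]; exact H.card_lns z
  have h12 : l1 ≠ l2 := by
    rintro rfl
    have h' : ({l1, l1, l3} : Finset L).card ≤ 2 := by
      rw [Finset.insert_eq_of_mem (by simp)]
      exact Finset.card_le_two
    omega
  have h13 : l1 ≠ l3 := by
    rintro rfl
    have h' : ({l1, l2, l1} : Finset L).card ≤ 2 := by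
      rw [Finset.insert_eq_of_mem (by simp)]
      exact Finset.card_le_two
    omega
  have h23 : l2 ≠ l3 := by
    rintro rfl
    have h' : ({l1, l2, l2} : Finset L).card ≤ 2 := by
      rw [Finset.pair_eq_singleton]
      exact Finset.card_le_two
    omega
  unfold cr
  rw [h, Finset.sum_insert (by simp [h12, h13]), Finset.sum_pair h23, add_assoc]

end Inc

end Pool.Agent.OLD57
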