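import Pool.Agent.OLD57.Cover

/-!
# Module OLD57/GeoPaw

Paw component `C = {x, a, b, c}`, active points `D = {x, a}`. `p1 = {x, a, b}`, `p2 = {x, b, c}`,
`p3 = {x, a, c}`, `n = {a, b, y}`, `lns c = {p2, p3, nc}`.

PROOF. Distinctness from the three-element sets; `y ≠ x` (otherwise `pts n = pts p1`); `y ≠ c`.
Blocking sets `B ∈ bl C D x` do not contain `b` or `c`. They come from `p1, p2, p3` (`bl_cover`).
`thr x p1` (`{x, a, b}`): case 1 contains `b`; case 2 (`B = insert b ..`) contains `b`; case 3: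
`m ∈ lns b`, `m ≠ p1`, `a ∉`, `x ∉ pts m`: none (`p2 ∋ x`, `n ∋ a`); case 4: `pts m = {a, b, w}`,
`m ≠ p1`: `m = n`, `B = {y}`. `thr x p2` (`{x, b, c}`): cases 1, 2, 3 contain `b` or `c`; case 4:
`K b c`, contradiction. `thr x p3` (`{x, a, c}`): case 1, 2 contain `c`; case 3: `m ∈ lns c`,
`m ≠ p3`, `a ∉`, `x ∉ pts m`: `m = nc`, `B = insert a ((pts nc).erase c)`; case 4: `K a c`,
contradiction. So `bl C D x` is dominated by `{{y}, insert a ((pts nc).erase c)}`, the second set has
3 elements (`a ∉ pts nc`, else `K a c`): `(1 - t)(1 - t^3)`.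
Point `a`: lines `p1, p3, n`. `thr a p1` (`{a, x, b}`): case 1, 2 contain `b`; case 3: `m ∈ lns b`,
`x ∉`, `a ∉`: none; case 4: `pts m = {x, b, w}`, `m = p2`, `B = {c}` contains `c`. `thr a p3`
(`{a, x, c}`): case 1, 2 contain `c`; case 3: `m = nc`, `B = insert x ((pts nc).erase c)`; case 4:
`m = p2`, `B = {b}`. `thr a n` (`{a, b, y}`): case 1 contains `b`; case 2: `m ∈ lns b`, `m ≠ n`,
`a ∉`, `y ∉ pts m`: `m = p2`, `B = insert y ((pts p2).erase b)` contains `c`; case 3 contains `b`;
case 4: `K b y`, so `y = x` or `y = a`, contradiction. So one set of three elements: `1 - t^3`.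
-/

set_option autoImplicit false

namespace Pool.Agent.OLD57

open Finset

namespace Inc

variable {P L : Type*} [Fintype P] [DecidableEq P] [Fintype L] [DecidableEq L]
variable (H : Inc P L)

variable {x a b c y : P} {p1 p2 p3 n nc : L}

omit [Fintype P] [Fintype L] in
private theorem ne3 {l : L} {u v w : P} (h : H.pts l = {u, v, w}) : u ≠ v ∧ u ≠ w ∧ v ≠ w := by
  have hc := H.card_pts l
  rw [h] at hc
  refine ⟨?_, ?_, ?_⟩
  · rintro rfl
    have h2 : ({u, u, w} : Finset P).card ≤ 2 := by
      rw [insert_eq_of_mem (mem_insert_self u {w})]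
      exact card_le_two
    omega
  · rintro rfl
    have h2 : ({u, v, u} : Finset P).card ≤ 2 := by
      rw [insert_eq_of_mem (by simp : u ∈ ({v, u} : Finset P))]
      exact card_le_two
    omega
  · rintro rfl
    have h2 : ({u, v, v} : Finset P).card ≤ 2 := by
      rw [pair_eq_singleton]
      exact card_le_two
    omega

omit [Fintype P] [Fintype L] in
private theorem lne3 {p : P} {u v w : L} (h : H.lns p = {u, v, w}) :
    u ≠ v ∧ u ≠ w ∧ v ≠ w := by
  have hc := H.card_lns p
  rw [h] at hc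
  refine ⟨?_, ?_, ?_⟩
  · rintro rfl
    have h2 : ({u, u, w} : Finset L).card ≤ 2 := by
      rw [insert_eq_of_mem (mem_insert_self u {w})]
      exact card_le_two
    omega
  · rintro rfl
    have h2 : ({u, v, u} : Finset L).card ≤ 2 := by
      rw [insert_eq_of_mem (by simp : u ∈ ({v, u} : Finset L))]
      exact card_le_two
    omega
  · rintro rfl
    have h2 : ({u, v, v} : Finset L).card ≤ 2 := by
      rw [pair_eq_singleton]
      exact card_le_two
    omega

omit [Fintype P] in
private theorem thirdpt {u v w z : P} (hwu : w ≠ u) (hwv : w ≠ v)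
    (h : ({u, v, w} : Finset P) = {u, v, z}) : w = z := by
  have h1 : w ∈ ({u, v, z} : Finset P) := by rw [← h]; simp
  simp only [mem_insert, mem_singleton] at h1
  rcases h1 with h1 | h1 | h1
  · exact absurd h1 hwu
  · exact absurd h1 hwv
  · exact h1

theorem paw_x (h : PawCfg H x a b c y p1 p2 p3 n nc) {t : ℝ} (h0 : 0 ≤ t) (h1 : t ≤ 1) :
    (1 - t) * (1 - t ^ 3) ≤ F t (H.bl {x, a, b, c} {x, a} x) := by
  obtain ⟨hxa, hxb, hab⟩ := ne3 H h.ptsp1
  obtain ⟨-, hxc, hbc⟩ := ne3 H h.ptsp2
  obtain ⟨-, -, hac⟩ := ne3 H h.ptsp3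
  obtain ⟨-, hay, hby⟩ := ne3 H h.ptsn
  obtain ⟨hp13, hp1n, hp3n⟩ := lne3 H h.lnsa
  obtain ⟨hp12, -, hp2n⟩ := lne3 H h.lnsb
  obtain ⟨hp23, hp2nc, hp3nc⟩ := lne3 H h.lnsc
  have hcnc : c ∈ H.pts nc := (H.mem_iff _ _).2 (by rw [h.lnsc]; simp)
  have hanc : a ∉ H.pts nc := by
    intro hc
    have hK := H.K_of hac hp3nc (by rw [h.ptsp3]; simp) (by rw [h.ptsp3]; simp) hc hcnc
    rcases (h.Ka c).1 hK with h2 | h2
    · exact hxc h2.symm
    · exact hbc h2.symm
  have hcard : (insert a ((H.pts nc).erase c)).card = 3 := by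
    rw [card_insert_of_notMem (fun hh => hanc (mem_of_mem_erase hh)), card_erase_of_mem hcnc,
      H.card_pts]
  have hF := F_insert h0 h1 {y} {insert a ((H.pts nc).erase c)}
  rw [F_single, hcard, card_singleton, pow_one] at hF
  refine hF.trans (F_anti h0 h1 ?_)
  intro B hB
  have hB0 := hB
  rw [mem_bl] at hB0
  obtain ⟨-, -, hsub⟩ := hB0
  have hbB : b ∉ B := by
    intro hh
    have h2 : b ∈ ({x, a} : Finset P) := hsub (by simp [hh])
    simp only [mem_insert, mem_singleton] at h2
    rcases h2 with h2 | h2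
    · exact hxb h2.symm
    · exact hab h2.symm
  have hcB : c ∉ B := by
    intro hh
    have h2 : c ∈ ({x, a} : Finset P) := hsub (by simp [hh])
    simp only [mem_insert, mem_singleton] at h2
    rcases h2 with h2 | h2
    · exact hxc h2.symm
    · exact hac h2.symm
  obtain ⟨l, hl, hBl⟩ := H.bl_cover hB
  rw [h.lnsx] at hl
  simp only [mem_insert, mem_singleton] at hl
  rcases hl with rfl | rfl | rfl
  · -- line `{x, a, b}`
    rcases H.thr_cases h.ptsp1 hxa hxb hab hBl with h2 | ⟨m, -, -, -, -, h2⟩ |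
      ⟨m, hm, hml, ham, hxm, -⟩ | ⟨m, w, hml, hm, hwa, hwb, hwx, h2⟩
    · exact absurd (by rw [h2]; simp) hbB
    · exact absurd (by rw [h2]; simp) hbB
    · rw [h.lnsb] at hm
      simp only [mem_insert, mem_singleton] at hm
      rcases hm with hm | hm | hm
      · exact absurd hm hml
      · exact absurd (by rw [hm, h.ptsp2]; simp) hxm
      · exact absurd (by rw [hm, h.ptsn]; simp) ham
    · have hma : m ∈ H.lns a := (H.mem_iff _ _).1 (by rw [hm]; simp)
      rw [h.lnsa] at hma
      simp only [mem_insert, mem_singleton] at hma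
      rcases hma with hma | hma | hma
      · exact absurd hma hml
      · exfalso
        have hb2 : b ∈ H.pts m := by rw [hm]; simp
        rw [hma, h.ptsp3] at hb2
        simp only [mem_insert, mem_singleton] at hb2
        rcases hb2 with hb2 | hb2 | hb2
        · exact hxb hb2.symm
        · exact hab hb2.symm
        · exact hbc hb2
      · rw [hma, h.ptsn] at hm
        have hyw : y = w := thirdpt hay.symm hby.symm hm
        refine ⟨{y}, by simp, ?_⟩
        rw [h2, hyw]
  · -- line `{x, b, c}`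
    rcases H.thr_cases h.ptsp2 hxb hxc hbc hBl with h2 | ⟨m, -, -, -, -, h2⟩ |
      ⟨m, -, -, -, -, h2⟩ | ⟨m, w, hml, hm, hwa, hwb, hwx, h2⟩
    · exact absurd (by rw [h2]; simp) hbB
    · exact absurd (by rw [h2]; simp) hcB
    · exact absurd (by rw [h2]; simp) hbB
    · exfalso
      have hK := H.K_of hbc hml (by rw [hm]; simp) (by rw [hm]; simp)
        (by rw [h.ptsp2]; simp) (by rw [h.ptsp2]; simp)
      rcases (h.Kb c).1 hK with h3 | h3
      · exact hxc h3.symm
      · exact hac h3.symm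
  · -- line `{x, a, c}`
    rcases H.thr_cases h.ptsp3 hxa hxc hac hBl with h2 | ⟨m, -, -, -, -, h2⟩ |
      ⟨m, hm, hml, ham, hxm, h2⟩ | ⟨m, w, hml, hm, hwa, hwb, hwx, h2⟩
    · exact absurd (by rw [h2]; simp) hcB
    · exact absurd (by rw [h2]; simp) hcB
    · rw [h.lnsc] at hm
      simp only [mem_insert, mem_singleton] at hm
      rcases hm with hm | hm | hm
      · exact absurd (by rw [hm, h.ptsp2]; simp) hxm
      · exact absurd hm hml
      · refine ⟨insert a ((H.pts nc).erase c), by simp, ?_⟩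
        rw [h2, hm]
    · exfalso
      have hK := H.K_of hac hml (by rw [hm]; simp) (by rw [hm]; simp)
        (by rw [h.ptsp3]; simp) (by rw [h.ptsp3]; simp)
      rcases (h.Ka c).1 hK with h3 | h3
      · exact hxc h3.symm
      · exact hbc h3.symm

theorem paw_a (h : PawCfg H x a b c y p1 p2 p3 n nc) {t : ℝ} (h0 : 0 ≤ t) (h1 : t ≤ 1) :
    1 - t ^ 3 ≤ F t (H.bl {x, a, b, c} {x, a} a) := by
  obtain ⟨hxa, hxb, hab⟩ := ne3 H h.ptsp1
  obtain ⟨-, hxc, hbc⟩ := ne3 H h.ptsp2
  obtain ⟨-, -, hac⟩ := ne3 H h.ptsp3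
  obtain ⟨-, hay, hby⟩ := ne3 H h.ptsn
  obtain ⟨hp13, hp1n, hp3n⟩ := lne3 H h.lnsa
  obtain ⟨hp12, -, hp2n⟩ := lne3 H h.lnsb
  obtain ⟨hp23, hp2nc, hp3nc⟩ := lne3 H h.lnsc
  have hyx : y ≠ x := by
    rintro rfl
    apply hp1n
    apply H.pts_inj
    rw [h.ptsp1, h.ptsn]
    ext z
    simp only [mem_insert, mem_singleton]
    tauto
  have hcnc : c ∈ H.pts nc := (H.mem_iff _ _).2 (by rw [h.lnsc]; simp)
  have hxnc : x ∉ H.pts nc := by
    intro hc
    rcases H.lns_common hxc hp23 (by rw [h.ptsp2]; simp) (by rw [h.ptsp2]; simp)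
      (by rw [h.ptsp3]; simp) (by rw [h.ptsp3]; simp) hc hcnc with h2 | h2
    · exact hp2nc h2.symm
    · exact hp3nc h2.symm
  have hcard : (insert x ((H.pts nc).erase c)).card = 3 := by
    rw [card_insert_of_notMem (fun hh => hxnc (mem_of_mem_erase hh)), card_erase_of_mem hcnc,
      H.card_pts]
  have hF := F_single t (insert x ((H.pts nc).erase c))
  rw [hcard] at hF
  rw [← hF]
  refine F_anti h0 h1 ?_
  intro B hB
  have hB0 := hB
  rw [mem_bl] at hB0
  obtain ⟨-, -, hsub⟩ := hB0
  have hbB : b ∉ B := by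
    intro hh
    have h2 : b ∈ ({x, a} : Finset P) := hsub (by simp [hh])
    simp only [mem_insert, mem_singleton] at h2
    rcases h2 with h2 | h2
    · exact hxb h2.symm
    · exact hab h2.symm
  have hcB : c ∉ B := by
    intro hh
    have h2 : c ∈ ({x, a} : Finset P) := hsub (by simp [hh])
    simp only [mem_insert, mem_singleton] at h2
    rcases h2 with h2 | h2
    · exact hxc h2.symm
    · exact hac h2.symm
  have hq1 : H.pts p1 = {a, x, b} := by rw [h.ptsp1, insert_comm]
  have hq3 : H.pts p3 = {a, x, c} := by rw [h.ptsp3, insert_comm]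
  obtain ⟨l, hl, hBl⟩ := H.bl_cover hB
  rw [h.lnsa] at hl
  simp only [mem_insert, mem_singleton] at hl
  rcases hl with rfl | rfl | rfl
  · -- line `{a, x, b}`
    rcases H.thr_cases hq1 hxa.symm hab hxb hBl with h2 | ⟨m, -, -, -, -, h2⟩ |
      ⟨m, hm, hml, hxm, ham, -⟩ | ⟨m, w, hml, hm, hwx, hwb, hwa, h2⟩
    · exact absurd (by rw [h2]; simp) hbB
    · exact absurd (by rw [h2]; simp) hbB
    · rw [h.lnsb] at hm
      simp only [mem_insert, mem_singleton] at hm
      rcases hm with hm | hm | hm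
      · exact absurd hm hml
      · exact absurd (by rw [hm, h.ptsp2]; simp) hxm
      · exact absurd (by rw [hm, h.ptsn]; simp) ham
    · exfalso
      have hmx : m ∈ H.lns x := (H.mem_iff _ _).1 (by rw [hm]; simp)
      rw [h.lnsx] at hmx
      simp only [mem_insert, mem_singleton] at hmx
      rcases hmx with hmx | hmx | hmx
      · exact absurd hmx hml
      · rw [hmx, h.ptsp2] at hm
        have hcw : c = w := thirdpt hxc.symm hbc.symm hm
        exact hcB (by rw [h2, hcw]; simp)
      · have hb2 : b ∈ H.pts m := by rw [hm]; simp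
        rw [hmx, h.ptsp3] at hb2
        simp only [mem_insert, mem_singleton] at hb2
        rcases hb2 with hb2 | hb2 | hb2
        · exact hxb hb2.symm
        · exact hab hb2.symm
        · exact hbc hb2
  · -- line `{a, x, c}`
    rcases H.thr_cases hq3 hxa.symm hac hxc hBl with h2 | ⟨m, -, -, -, -, h2⟩ |
      ⟨m, hm, hml, hxm, ham, h2⟩ | ⟨m, w, hml, hm, hwx, hwc, hwa, h2⟩
    · exact absurd (by rw [h2]; simp) hcB
    · exact absurd (by rw [h2]; simp) hcB
    · rw [h.lnsc] at hm
      simp only [mem_insert, mem_singleton] at hm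
      rcases hm with hm | hm | hm
      · exact absurd (by rw [hm, h.ptsp2]; simp) hxm
      · exact absurd hm hml
      · refine ⟨insert x ((H.pts nc).erase c), by simp, ?_⟩
        rw [h2, hm]
    · exfalso
      have hmx : m ∈ H.lns x := (H.mem_iff _ _).1 (by rw [hm]; simp)
      rw [h.lnsx] at hmx
      simp only [mem_insert, mem_singleton] at hmx
      have hc2 : c ∈ H.pts m := by rw [hm]; simp
      rcases hmx with hmx | hmx | hmx
      · rw [hmx, h.ptsp1] at hc2
        simp only [mem_insert, mem_singleton] at hc2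
        rcases hc2 with hc2 | hc2 | hc2
        · exact hxc hc2.symm
        · exact hac hc2.symm
        · exact hbc hc2.symm
      · have hb2 : b ∈ H.pts m := by rw [hmx, h.ptsp2]; simp
        rw [hm] at hb2
        simp only [mem_insert, mem_singleton] at hb2
        rcases hb2 with hb2 | hb2 | hb2
        · exact hxb hb2.symm
        · exact hbc hb2
        · exact hbB (by rw [h2, hb2]; simp)
      · exact absurd hmx hml
  · -- line `{a, b, y}`
    rcases H.thr_cases h.ptsn hab hay hby hBl with h2 | ⟨m, hm, hml, hym, ham, h2⟩ |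
      ⟨m, -, -, -, -, h2⟩ | ⟨m, w, hml, hm, hwb, hwy, hwa, h2⟩
    · exact absurd (by rw [h2]; simp) hbB
    · exfalso
      rw [h.lnsb] at hm
      simp only [mem_insert, mem_singleton] at hm
      rcases hm with hm | hm | hm
      · exact absurd (by rw [hm, h.ptsp1]; simp) ham
      · apply hcB
        rw [h2, hm, h.ptsp2]
        simp only [mem_insert, mem_erase, mem_singleton]
        exact Or.inr ⟨hbc.symm, Or.inr (Or.inr trivial)⟩
      · exact absurd hm hml
    · exact absurd (by rw [h2]; simp) hbB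
    · exfalso
      have hK := H.K_of hby hml (by rw [hm]; simp) (by rw [hm]; simp)
        (by rw [h.ptsn]; simp) (by rw [h.ptsn]; simp)
      rcases (h.Kb y).1 hK with h3 | h3
      · exact hyx h3
      · exact hay h3.symm

end Inc

end Pool.Agent.OLD57
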