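import Pool.Agent.OLD57.CompDefs
import Pool.Agent.OLD57.GeoPaw
import Pool.Agent.OLD57.Credit
import Pool.Agent.OLD57.GoodConst

/-!
# Module OLD57/CompPaw

A paw component.

PROOF. Distinctness of `x, a, b, c` from `card_pts`. `C = {x, a, b, c}`, `ρ` constant `D = {x, a}`.
Probabilities: `x`: `paw_x`, `Pr_good_ge`, `PawX`: `0.4498`. `a`: `paw_a`, `Cube`: `0.7498`.
`b`, `c`: `≥ 0` (`Pr_good_nonneg`). Credits (`cr_three`, `crl_ge`, `crl_nonneg`) and debits
(`deb_eq`, all `gw = 3/100` by `gw_eq_of_ne` since `kap x = 3`, `kap a = kap b = 2`):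
`x`: `deb = 0.09`, `crl x p1 ≥ 0.03` (`K a b`): `-0.06`. `a`: `deb = 0.06` (neighbours `x`, `b`),
`crl a p1 ≥ 0.03` (`{a, x, b}`, `K x b`), `crl a p3 ≥ 0.03` (`{a, x, c}`, `K x c`): `0`. `b`: `deb =
0.06`, `crl b p1 ≥ 0.03` (`K x a`), `crl b p2 ≥ 0.03` (`K x c`): `0`. `c`: `deb = 0.03`,
`crl c p2 ≥ 0.03` (`K x b`), `crl c p3 ≥ 0.03` (`K x a`): `0.03`. Total
`0.3898 + 0.7498 + 0 + 0.03 = 1.1696 ≥ 4 * 0.286`.
-/

set_option autoImplicit false

namespace Pool.Agent.OLD57

open Finset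

namespace Inc

variable {P L : Type*} [Fintype P] [DecidableEq P] [Fintype L] [DecidableEq L]
variable (H : Inc P L)

variable {x a b c y : P} {p1 p2 p3 n nc : L}

omit [Fintype P] [Fintype L] in
private theorem paw_ne {l : L} {u v w : P} (h : H.pts l = {u, v, w}) :
    u ≠ v ∧ u ≠ w ∧ v ≠ w := by
  have hc := H.card_pts l
  rw [h] at hc
  refine ⟨?_, ?_, ?_⟩
  · rintro rfl
    have h2 : ({u, u, w} : Finset P).card ≤ 2 := by
      rw [insert_eq_of_mem (mem_insert_self u {w})]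
      exact card_le_two
    omega
  · rintro rfl
    have h2 : ({u, v, u} : Finset P).card ≤ 2 := by
      rw [insert_eq_of_mem (by simp : u ∈ ({v, u} : Finset P))]
      exact card_le_two
    omega
  · rintro rfl
    have h2 : ({u, v, v} : Finset P).card ≤ 2 := by
      rw [pair_eq_singleton]
      exact card_le_two
    omega

theorem comp_paw {T : ℕ} (hN : NumOK T) (h : PawCfg H x a b c y p1 p2 p3 n nc) :
    H.CompOKc T (143 / 500) {x, a, b, c} := by
  obtain ⟨hxa, hxb, hab⟩ := paw_ne H h.ptsp1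
  obtain ⟨-, hxc, hbc⟩ := paw_ne H h.ptsp2
  obtain ⟨-, -, hac⟩ := paw_ne H h.ptsp3
  have hSx : ∀ z, H.K x z ↔ z ∈ ({a, b, c} : Finset P) := by
    intro z; rw [h.Kx z]; simp
  have hSa : ∀ z, H.K a z ↔ z ∈ ({x, b} : Finset P) := by
    intro z; rw [h.Ka z]; simp
  have hSb : ∀ z, H.K b z ↔ z ∈ ({x, a} : Finset P) := by
    intro z; rw [h.Kb z]; simp
  have hSc : ∀ z, H.K c z ↔ z ∈ ({x} : Finset P) := by
    intro z; rw [h.Kc z]; simp
  have hkx : H.kap x = 3 := by
    rw [H.kap_eq hSx, card_insert_of_notMem (by simp [hab, hac]), card_pair hbc]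
  have hka : H.kap a = 2 := by
    rw [H.kap_eq hSa, card_pair hxb]
  have hkb : H.kap b = 2 := by
    rw [H.kap_eq hSb, card_pair hxa]
  have hdx : H.deb x = 9 / 100 := by
    rw [H.deb_eq hSx, sum_insert (by simp [hab, hac]), sum_pair hbc,
      H.gw_eq_of_ne (Or.inl (by omega)), H.gw_eq_of_ne (Or.inl (by omega)),
      H.gw_eq_of_ne (Or.inl (by omega))]
    norm_num
  have hda : H.deb a = 6 / 100 := by
    rw [H.deb_eq hSa, sum_pair hxb, H.gw_eq_of_ne (Or.inl (by omega)),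
      H.gw_eq_of_ne (Or.inl (by omega))]
    norm_num
  have hdb : H.deb b = 6 / 100 := by
    rw [H.deb_eq hSb, sum_pair hxa, H.gw_eq_of_ne (Or.inl (by omega)),
      H.gw_eq_of_ne (Or.inl (by omega))]
    norm_num
  have hdc : H.deb c = 3 / 100 := by
    rw [H.deb_eq hSc, sum_singleton, H.gw_eq_of_ne (Or.inr (by omega))]
  have Kab : H.K a b := (h.Ka b).2 (Or.inr rfl)
  have Kxb : H.K x b := (h.Kx b).2 (Or.inr (Or.inl rfl))
  have Kxc : H.K x c := (h.Kx c).2 (Or.inr (Or.inr rfl))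
  have Kxa : H.K x a := (h.Kx a).2 (Or.inl rfl)
  -- credits
  have hcx : 3 / 100 ≤ H.cr x := by
    rw [H.cr_three h.lnsx]
    have h1 := H.crl_ge h.ptsp1 hxa hxb hab Kab
    have h2 := H.crl_nonneg x p2
    have h3 := H.crl_nonneg x p3
    linarith
  have hca : 6 / 100 ≤ H.cr a := by
    rw [H.cr_three h.lnsa]
    have e1 : H.pts p1 = {a, x, b} := by rw [h.ptsp1, insert_comm]
    have e2 : H.pts p3 = {a, x, c} := by rw [h.ptsp3, insert_comm]
    have h1 := H.crl_ge e1 hxa.symm hab hxb Kxb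
    have h2 := H.crl_ge e2 hxa.symm hac hxc Kxc
    have h3 := H.crl_nonneg a n
    linarith
  have hcb : 6 / 100 ≤ H.cr b := by
    rw [H.cr_three h.lnsb]
    have e1 : H.pts p1 = {b, x, a} := by
      rw [h.ptsp1]; ext z; simp only [mem_insert, mem_singleton]; tauto
    have e2 : H.pts p2 = {b, x, c} := by rw [h.ptsp2, insert_comm]
    have h1 := H.crl_ge e1 hxb.symm hab.symm hxa Kxa
    have h2 := H.crl_ge e2 hxb.symm hbc hxc Kxc
    have h3 := H.crl_nonneg b n
    linarith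
  have hcc : 6 / 100 ≤ H.cr c := by
    rw [H.cr_three h.lnsc]
    have e1 : H.pts p2 = {c, x, b} := by
      rw [h.ptsp2]; ext z; simp only [mem_insert, mem_singleton]; tauto
    have e2 : H.pts p3 = {c, x, a} := by
      rw [h.ptsp3]; ext z; simp only [mem_insert, mem_singleton]; tauto
    have h1 := H.crl_ge e1 hxc.symm hbc.symm hxb Kxb
    have h2 := H.crl_ge e2 hxc.symm hac.symm hxa Kxa
    have h3 := H.crl_nonneg c nc
    linarith
  -- probabilities
  have hPx : avg T (fun t => (1 - t) * (1 - t ^ 3)) ≤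
      Pr T (H.Good {x, a, b, c} (fun _ : P → Fin T => {x, a}) x) :=
    H.Pr_good_ge hN.pos (by simp) (fun p h0 h1 => H.paw_x h h0 h1)
  have hPa : avg T (fun t => 1 - t ^ 3) ≤
      Pr T (H.Good {x, a, b, c} (fun _ : P → Fin T => {x, a}) a) :=
    H.Pr_good_ge hN.pos (by simp) (fun p h0 h1 => H.paw_a h h0 h1)
  have hPb := H.Pr_good_nonneg (T := T) {x, a, b, c} (fun _ : P → Fin T => {x, a}) b
  have hPc := H.Pr_good_nonneg (T := T) {x, a, b, c} (fun _ : P → Fin T => {x, a}) c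
  have n1 := hN.PawX
  have n2 := hN.Cube
  refine ⟨fun _ => {x, a}, ?_⟩
  have hcard : ({x, a, b, c} : Finset P).card = 4 := by
    rw [card_insert_of_notMem (by simp [hxa, hxb, hxc]),
      card_insert_of_notMem (by simp [hab, hac]), card_pair hbc]
  rw [hcard, sum_insert (by simp [hxa, hxb, hxc]), sum_insert (by simp [hab, hac]),
    sum_pair hbc]
  push_cast
  linarith

end Inc

end Pool.Agent.OLD57
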