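import Pool.Agent.OLD57.FIns

/-!
# Module OLD57/FamM

PROOF. `F_insert` with `{y}` (`card = 1`) gives the factor `1 - p`; for the rest condition on `a`
(`F_cond_ge`).
`F_fM`: `𝓛 = {insert b A}` with `F ≥ (1 - p) + p (1 - p^2)` (condition on `b`: late empty, early
`{A}`), `𝓔 = {{b}, B}` with `F ≥ (1 - p) (1 - p^2)`.
`F_fM'`: the same `𝓛`, `𝓔 = {{b}}` with `F = 1 - p`.
Then `ring_nf`/`nlinarith`-free: both sides are equal as polynomials.
-/

set_option autoImplicit false

namespace Pool.Agent.OLD57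

open Finset

variable {P : Type*} [Fintype P] [DecidableEq P]

private lemma F_insM {p : ℝ} {b : P} {A : Finset P} (cA : A.card = 2) (hA : b ∉ A) :
    F p {insert b A} = 1 - p ^ 3 := by
  rw [F_single, Finset.card_insert_of_notMem hA, cA]

theorem F_fM {p : ℝ} (h0 : 0 ≤ p) (h1 : p ≤ 1) {a b y : P} (hab : a ≠ b) {A B : Finset P}
    (cA : A.card = 2) (cB : B.card = 2) (hA : b ∉ A) (hB : a ∉ B) :
    fM p ≤ F p {{y}, {a, b}, insert b A, insert a B} := by
  have e1 := F_insert h0 h1 {y} {{a, b}, insert b A, insert a B}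
  rw [Finset.card_singleton, pow_one] at e1
  have e2 := F_cond_ge h0 h1 a (𝓕 := {{a, b}, insert b A, insert a B}) (𝓛 := {insert b A})
    (𝓔 := {{b}, B}) (by
      intro C hC haC
      simp only [Finset.mem_insert, Finset.mem_singleton] at hC
      rcases hC with rfl | rfl | rfl
      · exact absurd (by simp) haC
      · exact ⟨_, by simp, subset_rfl⟩
      · exact absurd (by simp) haC) (by
      intro C hC
      simp only [Finset.mem_insert, Finset.mem_singleton] at hC
      rcases hC with rfl | rfl | rfl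
      · refine ⟨{b}, by simp, ?_⟩
        simp [hab.symm]
      · refine ⟨{b}, by simp, ?_⟩
        simp [hab.symm]
      · refine ⟨B, by simp, ?_⟩
        rw [Finset.erase_insert hB])
  have e3 := F_insert h0 h1 {b} {B}
  rw [Finset.card_singleton, pow_one, F_single, cB] at e3
  rw [F_insM cA hA] at e2
  have hp : 0 ≤ 1 - p := sub_nonneg.2 h1
  calc fM p = (1 - p) * ((1 - p) * (1 - p ^ 3) + p * ((1 - p) * (1 - p ^ 2))) := by
        unfold fM; ring
    _ ≤ (1 - p) * ((1 - p) * (1 - p ^ 3) + p * F p {{b}, B}) :=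
        mul_le_mul_of_nonneg_left (by linarith [mul_le_mul_of_nonneg_left e3 h0]) hp
    _ ≤ (1 - p) * F p {{a, b}, insert b A, insert a B} := mul_le_mul_of_nonneg_left e2 hp
    _ ≤ _ := e1

theorem F_fM' {p : ℝ} (h0 : 0 ≤ p) (h1 : p ≤ 1) {a b y : P} (hab : a ≠ b) {A : Finset P}
    (cA : A.card = 2) (hA : b ∉ A) : fM' p ≤ F p {{y}, {a, b}, insert b A} := by
  have e1 := F_insert h0 h1 {y} {{a, b}, insert b A}
  rw [Finset.card_singleton, pow_one] at e1
  have e2 := F_cond_ge h0 h1 a (𝓕 := {{a, b}, insert b A}) (𝓛 := {insert b A})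
    (𝓔 := {{b}}) (by
      intro C hC haC
      simp only [Finset.mem_insert, Finset.mem_singleton] at hC
      rcases hC with rfl | rfl
      · exact absurd (by simp) haC
      · exact ⟨_, by simp, subset_rfl⟩) (by
      intro C hC
      simp only [Finset.mem_insert, Finset.mem_singleton] at hC
      rcases hC with rfl | rfl
      · refine ⟨{b}, by simp, ?_⟩
        simp [hab.symm]
      · refine ⟨{b}, by simp, ?_⟩
        simp [hab.symm])
  rw [F_insM cA hA, F_single, Finset.card_singleton, pow_one] at e2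
  have hp : 0 ≤ 1 - p := sub_nonneg.2 h1
  calc fM' p = (1 - p) * ((1 - p) * (1 - p ^ 3) + p * (1 - p)) := by
        unfold fM'; ring
    _ ≤ (1 - p) * F p {{a, b}, insert b A} := mul_le_mul_of_nonneg_left e2 hp
    _ ≤ _ := e1

end Pool.Agent.OLD57
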