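import Pool.Agent.OLD57.Thr
import Pool.Agent.OLD57.FamM

/-!
# Module OLD57/FreeM

A free line `l = {x, p, q}` with `p`, `q` K-adjacent.

PROOF. Let `m0 ≠ l` be the second line through `p` and `q`, `pts m0 = {p, q, y}` (`exists_pts2`);
`y ≠ x` (otherwise `pts m0 = pts l`). `lns p = {l, m0, m1}`, `lns q = {l, m0, m2}` (`exists_lns2`).
`q ∉ pts m1`, `p ∉ pts m2` (`lns_common`: only `l`, `m0` contain both). Members of `thr x l` by
`thr_cases`: case 1: `{p, q}`. Case 2: `m ∈ lns p`, `m ≠ l`, `q ∉ pts m`, so `m = m1`,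
`B = insert q ((pts m1).erase p)`. Case 3: `m = m2`, `B = insert p ((pts m2).erase q)`. Case 4:
`p, q ∈ pts m`, `m ≠ l`, so `m = m0` and `B = {y}`. `F_anti`, `F_fM` with `a = p`, `b = q`.
`thr_free_M'`: in addition `K q w`, `w ≠ p`, and `¬ K x q`. The two common lines of `q` and `w` are
among `l, m0, m2`; `w ∉ pts l = {x, p, q}` (`w = x` is excluded by `¬ K x q`), so they are `m0` and
`m2`, and `w ∈ pts m0`, so `w = y` and `y ∈ pts m2`. Then in case 3 `B ⊇ {y}` (`y ≠ q`). `F_anti`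
with `{{y}, {p, q}, insert q ((pts m1).erase p)}` and `F_fM'`.
-/

set_option autoImplicit false

namespace Pool.Agent.OLD57

open Finset

namespace Inc

variable {P L : Type*} [Fintype P] [DecidableEq P] [Fintype L] [DecidableEq L]
variable (H : Inc P L)

/-- the data of a free line with `p`, `q` K-adjacent -/
private theorem freeM_data {x p q : P} {l : L} (hl : H.pts l = {x, p, q}) (hxp : x ≠ p)
    (hxq : x ≠ q) (hpq : p ≠ q) (hK : H.K p q) :
    ∃ (m0 m1 m2 : L) (y : P), m0 ≠ l ∧ H.pts m0 = {p, q, y} ∧ y ≠ p ∧ y ≠ q ∧ y ≠ x ∧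
      m1 ≠ l ∧ m1 ≠ m0 ∧ H.lns p = {l, m0, m1} ∧ m2 ≠ l ∧ m2 ≠ m0 ∧ H.lns q = {l, m0, m2} ∧
      q ∉ H.pts m1 ∧ p ∉ H.pts m2 ∧ (∀ k, p ∈ H.pts k → q ∈ H.pts k → k = l ∨ k = m0) := by
  have hpl : p ∈ H.pts l := by rw [hl]; simp
  have hql : q ∈ H.pts l := by rw [hl]; simp
  obtain ⟨m0, hm0, hm0l⟩ : ∃ m0 ∈ H.lns p ∩ H.lns q, m0 ≠ l := by
    refine exists_mem_ne ?_ l
    rw [hK.2]; norm_num
  rw [mem_inter, ← H.mem_iff, ← H.mem_iff] at hm0
  obtain ⟨y, hyp, hyq, hm0y⟩ := H.exists_pts2 hpq hm0.1 hm0.2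
  have hcom : ∀ k, p ∈ H.pts k → q ∈ H.pts k → k = l ∨ k = m0 := fun k h1 h2 =>
    H.lns_common hpq hm0l.symm hpl hql hm0.1 hm0.2 h1 h2
  have hyx : y ≠ x := by
    rintro rfl
    refine hm0l (H.pts_inj _ _ ?_)
    rw [hm0y, hl]
    ext z; simp only [mem_insert, mem_singleton]; tauto
  obtain ⟨m1, h1l, h10, hlp⟩ := H.exists_lns2 hm0l.symm ((H.mem_iff _ _).1 hpl)
    ((H.mem_iff _ _).1 hm0.1)
  obtain ⟨m2, h2l, h20, hlq⟩ := H.exists_lns2 hm0l.symm ((H.mem_iff _ _).1 hql)
    ((H.mem_iff _ _).1 hm0.2)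
  have hp1 : p ∈ H.pts m1 := by rw [H.mem_iff, hlp]; simp
  have hq2 : q ∈ H.pts m2 := by rw [H.mem_iff, hlq]; simp
  refine ⟨m0, m1, m2, y, hm0l, hm0y, hyp, hyq, hyx, h1l, h10, hlp, h2l, h20, hlq, ?_, ?_, hcom⟩
  · intro h
    rcases hcom m1 hp1 h with h | h
    · exact h1l h
    · exact h10 h
  · intro h
    rcases hcom m2 h hq2 with h | h
    · exact h2l h
    · exact h20 h

theorem thr_free_M {t : ℝ} (h0 : 0 ≤ t) (h1 : t ≤ 1) {x p q : P} {l : L}
    (hl : H.pts l = {x, p, q}) (hxp : x ≠ p) (hxq : x ≠ q) (hpq : p ≠ q) (hK : H.K p q) :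
    fM t ≤ F t (H.thr x l) := by
  obtain ⟨m0, m1, m2, y, h0l, hm0, hyp, hyq, hyx, h1l, h10, hlp, h2l, h20, hlq, hq1, hp2, hcom⟩ :=
    H.freeM_data hl hxp hxq hpq hK
  have hp1 : p ∈ H.pts m1 := by rw [H.mem_iff, hlp]; simp
  have hq2 : q ∈ H.pts m2 := by rw [H.mem_iff, hlq]; simp
  have cA : ((H.pts m1).erase p).card = 2 := by rw [card_erase_of_mem hp1, H.card_pts]
  have cB : ((H.pts m2).erase q).card = 2 := by rw [card_erase_of_mem hq2, H.card_pts]
  refine (F_fM h0 h1 (y := y) hpq cA cB (fun h => hq1 (mem_of_mem_erase h))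
    (fun h => hp2 (mem_of_mem_erase h))).trans (F_anti h0 h1 ?_)
  intro B hB
  rcases H.thr_cases hl hxp hxq hpq hB with rfl | ⟨m, hm, hml, hqm, hxm, rfl⟩ |
      ⟨m, hm, hml, hpm, hxm, rfl⟩ | ⟨m, y', hml, hm, hyp', hyq', hyx', rfl⟩
  · exact ⟨{p, q}, by simp, subset_refl _⟩
  · have : m = m1 := by
      rw [hlp, mem_insert, mem_insert, mem_singleton] at hm
      rcases hm with h | h | h
      · exact absurd h hml
      · exact absurd (by rw [h, hm0]; simp) hqm
      · exact h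
    subst this
    exact ⟨_, by simp, subset_refl _⟩
  · have : m = m2 := by
      rw [hlq, mem_insert, mem_insert, mem_singleton] at hm
      rcases hm with h | h | h
      · exact absurd h hml
      · exact absurd (by rw [h, hm0]; simp) hpm
      · exact h
    subst this
    exact ⟨_, by simp, subset_refl _⟩
  · have h3 : m = m0 := by
      rcases hcom m (by rw [hm]; simp) (by rw [hm]; simp) with h | h
      · exact absurd h hml
      · exact h
    have h4 : y' ∈ H.pts m0 := by rw [← h3, hm]; simp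
    rw [hm0, mem_insert, mem_insert, mem_singleton] at h4
    rcases h4 with h | h | h
    · exact absurd h hyp'
    · exact absurd h hyq'
    · subst h
      exact ⟨_, by simp, subset_refl _⟩

theorem thr_free_M' {t : ℝ} (h0 : 0 ≤ t) (h1 : t ≤ 1) {x p q w : P} {l : L}
    (hl : H.pts l = {x, p, q}) (hxp : x ≠ p) (hxq : x ≠ q) (hpq : p ≠ q) (hK : H.K p q)
    (hKx : ¬ H.K x q) (hw : H.K q w) (hwp : w ≠ p) :
    fM' t ≤ F t (H.thr x l) := by
  obtain ⟨m0, m1, m2, y, h0l, hm0, hyp, hyq, hyx, h1l, h10, hlp, h2l, h20, hlq, hq1, hp2, hcom⟩ :=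
    H.freeM_data hl hxp hxq hpq hK
  have hp1 : p ∈ H.pts m1 := by rw [H.mem_iff, hlp]; simp
  have cA : ((H.pts m1).erase p).card = 2 := by rw [card_erase_of_mem hp1, H.card_pts]
  have hwq : w ≠ q := hw.1.symm
  have hwx : w ≠ x := by
    rintro rfl
    exact hKx (H.K_symm hw)
  have hlw : l ∉ H.lns w := by
    rw [← H.mem_iff, hl]
    simp [hwx, hwp, hwq]
  have hsub : H.lns q ∩ H.lns w ⊆ {m0, m2} := by
    intro k hk
    rw [mem_inter, hlq, mem_insert, mem_insert, mem_singleton] at hk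
    rw [mem_insert, mem_singleton]
    rcases hk with ⟨h | h | h, hkw⟩
    · exact absurd (h ▸ hkw) hlw
    · exact Or.inl h
    · exact Or.inr h
  have heq : H.lns q ∩ H.lns w = {m0, m2} := by
    refine eq_of_subset_of_card_le hsub ?_
    rw [hw.2]
    exact card_le_two
  have hw0 : w ∈ H.pts m0 := by
    have : m0 ∈ H.lns q ∩ H.lns w := by rw [heq]; simp
    exact (H.mem_iff _ _).2 (mem_inter.1 this).2
  have hw2 : w ∈ H.pts m2 := by
    have : m2 ∈ H.lns q ∩ H.lns w := by rw [heq]; simp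
    exact (H.mem_iff _ _).2 (mem_inter.1 this).2
  have hwy : w = y := by
    rw [hm0, mem_insert, mem_insert, mem_singleton] at hw0
    rcases hw0 with h | h | h
    · exact absurd h hwp
    · exact absurd h hwq
    · exact h
  refine (F_fM' h0 h1 (y := y) hpq cA (fun h => hq1 (mem_of_mem_erase h))).trans
    (F_anti h0 h1 ?_)
  intro B hB
  rcases H.thr_cases hl hxp hxq hpq hB with rfl | ⟨m, hm, hml, hqm, hxm, rfl⟩ |
      ⟨m, hm, hml, hpm, hxm, rfl⟩ | ⟨m, y', hml, hm, hyp', hyq', hyx', rfl⟩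
  · exact ⟨{p, q}, by simp, subset_refl _⟩
  · have : m = m1 := by
      rw [hlp, mem_insert, mem_insert, mem_singleton] at hm
      rcases hm with h | h | h
      · exact absurd h hml
      · exact absurd (by rw [h, hm0]; simp) hqm
      · exact h
    subst this
    exact ⟨_, by simp, subset_refl _⟩
  · have : m = m2 := by
      rw [hlq, mem_insert, mem_insert, mem_singleton] at hm
      rcases hm with h | h | h
      · exact absurd h hml
      · exact absurd (by rw [h, hm0]; simp) hpm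
      · exact h
    subst this
    refine ⟨{y}, by simp, ?_⟩
    rw [singleton_subset_iff, mem_insert, mem_erase]
    exact Or.inr ⟨hyq, hwy ▸ hw2⟩
  · have h3 : m = m0 := by
      rcases hcom m (by rw [hm]; simp) (by rw [hm]; simp) with h | h
      · exact absurd h hml
      · exact h
    have h4 : y' ∈ H.pts m0 := by rw [← h3, hm]; simp
    rw [hm0, mem_insert, mem_insert, mem_singleton] at h4
    rcases h4 with h | h | h
    · exact absurd h hyp'
    · exact absurd h hyq'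
    · subst h
      exact ⟨_, by simp, subset_refl _⟩

end Inc

end Pool.Agent.OLD57
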