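import Pool.Agent.OLD57.FreeN
import Pool.Agent.OLD57.FreeM
import Pool.Agent.OLD57.Credit

/-!
# Module OLD57/FreeSum

The summary for a free line `l = {x, p, q}`: `¬ K x p`, `¬ K x q`.

PROOF. If `¬ K p q`: `thr_free_N`. If `K p q`: `crl x l = gw p q` (`crl_eq`). If
`kap p = 1` and `kap q = 1`: `gw = 9/250`, `thr_free_M`. Otherwise `gw = 3/100`, and `kap p ≥ 2` or
`kap q ≥ 2` (both are `≥ 1` because of `K p q`), so there is `w ≠ p` with `K q w`, or `w ≠ q` with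
`K p w`: `thr_free_M'` (for `K p w` with `p`, `q` exchanged, `pts l = {x, q, p}`).
`free_sum'` is the weaker form: in the last two cases `crl ≥ 3/100` and `fM ≤ F` (`thr_free_M`).
-/

set_option autoImplicit false

namespace Pool.Agent.OLD57

open Finset

namespace Inc

variable {P L : Type*} [Fintype P] [DecidableEq P] [Fintype L] [DecidableEq L]
variable (H : Inc P L)

/-- a point `p` with a K-neighbour `q` and K-degree different from 1 has another K-neighbour -/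
private theorem exists_other {p q : P} (hK : H.K p q) (h : H.kap p ≠ 1) :
    ∃ w, H.K p w ∧ w ≠ q := by
  by_contra hc
  have h' : ∀ y, H.K p y ↔ y ∈ ({q} : Finset P) := by
    intro y
    rw [mem_singleton]
    constructor
    · intro hy
      by_contra hyq
      exact hc ⟨y, hy, hyq⟩
    · rintro rfl
      exact hK
  exact h (by rw [H.kap_eq h', card_singleton])

theorem free_sum {x p q : P} {l : L} (hl : H.pts l = {x, p, q}) (hxp : x ≠ p) (hxq : x ≠ q)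
    (hpq : p ≠ q) (hKp : ¬ H.K x p) (hKq : ¬ H.K x q) :
    (∀ t, 0 ≤ t → t ≤ 1 → fN t ≤ F t (H.thr x l)) ∨
    (9 / 250 ≤ H.crl x l ∧ ∀ t, 0 ≤ t → t ≤ 1 → fM t ≤ F t (H.thr x l)) ∨
    (3 / 100 ≤ H.crl x l ∧ ∀ t, 0 ≤ t → t ≤ 1 → fM' t ≤ F t (H.thr x l)) := by
  by_cases hK : H.K p q
  · by_cases hp : H.kap p = 1
    · by_cases hq : H.kap q = 1
      · refine Or.inr (Or.inl ⟨?_, fun t h0 h1 => H.thr_free_M h0 h1 hl hxp hxq hpq hK⟩)
        rw [H.crl_eq hl hxp hxq hpq, if_pos hK, H.gw_eq_one hp hq]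
      · obtain ⟨w, hw, hwp⟩ := H.exists_other (H.K_symm hK) hq
        exact Or.inr (Or.inr ⟨H.crl_ge hl hxp hxq hpq hK, fun t h0 h1 =>
          H.thr_free_M' h0 h1 hl hxp hxq hpq hK hKq hw hwp⟩)
    · obtain ⟨w, hw, hwq⟩ := H.exists_other hK hp
      have hl' : H.pts l = {x, q, p} := by
        rw [hl, Finset.pair_comm]
      exact Or.inr (Or.inr ⟨H.crl_ge hl hxp hxq hpq hK, fun t h0 h1 =>
        H.thr_free_M' h0 h1 hl' hxq hxp hpq.symm (H.K_symm hK) hKp hw hwq⟩)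
  · exact Or.inl fun t h0 h1 => H.thr_free_N h0 h1 hl hxp hxq hpq hK

theorem free_sum' {x : P} {l : L} (hl : l ∈ H.lns x) (hK : ∀ y ∈ H.pts l, ¬ H.K x y) :
    (∀ t, 0 ≤ t → t ≤ 1 → fN t ≤ F t (H.thr x l)) ∨
    (3 / 100 ≤ H.crl x l ∧ ∀ t, 0 ≤ t → t ≤ 1 → fM t ≤ F t (H.thr x l)) := by
  obtain ⟨p, q, hxp, hxq, hpq, hpts⟩ := H.exists_pts ((H.mem_iff x l).2 hl)
  by_cases h : H.K p q
  · exact Or.inr ⟨H.crl_ge hpts hxp hxq hpq h, fun t h0 h1 =>
      H.thr_free_M h0 h1 hpts hxp hxq hpq h⟩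
  · exact Or.inl fun t h0 h1 => H.thr_free_N h0 h1 hpts hxp hxq hpq h

end Inc

end Pool.Agent.OLD57
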