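import Pool.Agent.OLD57.CompDefs
import Pool.Agent.OLD57.FreeSum
import Pool.Agent.OLD57.Cover
import Pool.Agent.OLD57.GoodConst

/-!
# Module OLD57/CompSingle

A component with one point.

PROOF. `ρ` constant `{x}` (`compOKc_const`, `v = fun _ => 143/500`). `lns x = {l1, l2, l3}`
(`card_lns`). `deb x = 0` (`deb_eq` with `∅`). For each `l_i`: `free_sum'` (no point is K-adjacent to
`x`): type N: `fN ≤ F (thr x l_i)`, or type M: `crl x l_i ≥ 3/100` and `fM ≤ F (thr x l_i)`.
`Pr_good_ge` with `f = fun t => g1 t * g2 t * g3 t`, `F_bl_ge3` and monotonicity of products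
(`fN t, fM t ≥ 0` on `[0,1]`, `F_nonneg`). `cr x = ∑ crl` (`cr_three`), `crl_nonneg`. In the eight
cases (number of M lines 0, 1, 2, 3) the numerical facts NNN, MNN, MMN, MMM give
`0.286`, `0.256 + 0.03`, `0.226 + 0.06`, `0.196 + 0.09` (reorder the factors by `mul_comm`/`ring`
inside `avg`: `funext`), all `≥ 143/500`.
-/

set_option autoImplicit false

namespace Pool.Agent.OLD57

open Finset

private theorem CompSingle_fN {t : ℝ} (h0 : 0 ≤ t) (h1 : t ≤ 1) : 0 ≤ fN t := by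
  unfold fN
  have : 0 ≤ 1 - t := by linarith
  positivity

private theorem CompSingle_fM {t : ℝ} (h0 : 0 ≤ t) (h1 : t ≤ 1) : 0 ≤ fM t := by
  unfold fM
  have h2 : 0 ≤ 1 - t := by linarith
  have h3 : 0 ≤ 1 - t ^ 2 := by nlinarith
  positivity

namespace Inc

variable {P L : Type*} [Fintype P] [DecidableEq P] [Fintype L] [DecidableEq L]
variable (H : Inc P L)

theorem comp_single {T : ℕ} (hN : NumOK T) {x : P} (h : ∀ y, ¬ H.K x y) :
    H.CompOKc T (143 / 500) {x} := by
  obtain ⟨l1, l2, l3, -, -, -, hl⟩ := Finset.card_eq_three.1 (H.card_lns x)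
  have hdeb : H.deb x = 0 := by
    rw [H.deb_eq (S := ∅) (by intro y; simp [h y])]
    simp
  have hcr := H.cr_three hl
  have f1 := H.free_sum' (x := x) (l := l1) (by rw [hl]; simp) (fun y _ => h y)
  have f2 := H.free_sum' (x := x) (l := l2) (by rw [hl]; simp) (fun y _ => h y)
  have f3 := H.free_sum' (x := x) (l := l3) (by rw [hl]; simp) (fun y _ => h y)
  have n1 := H.crl_nonneg x l1
  have n2 := H.crl_nonneg x l2
  have n3 := H.crl_nonneg x l3
  have gen : ∀ g1 g2 g3 : ℝ → ℝ, (∀ t, 0 ≤ t → t ≤ 1 → 0 ≤ g1 t) →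
      (∀ t, 0 ≤ t → t ≤ 1 → 0 ≤ g2 t) → (∀ t, 0 ≤ t → t ≤ 1 → 0 ≤ g3 t) →
      (∀ t, 0 ≤ t → t ≤ 1 → g1 t ≤ F t (H.thr x l1)) →
      (∀ t, 0 ≤ t → t ≤ 1 → g2 t ≤ F t (H.thr x l2)) →
      (∀ t, 0 ≤ t → t ≤ 1 → g3 t ≤ F t (H.thr x l3)) →
      avg T (fun t => g1 t * g2 t * g3 t) ≤
        Pr T (H.Good {x} (fun _ : P → Fin T => {x}) x) := by
    intro g1 g2 g3 p1 p2 p3 q1 q2 q3
    apply H.Pr_good_ge hN.pos (mem_singleton_self x)
    intro p h0 h1
    refine le_trans ?_ (H.F_bl_ge3 h0 h1 hl {x} {x})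
    have a1 := q1 p h0 h1
    have a2 := q2 p h0 h1
    have a3 := q3 p h0 h1
    have b1 := p1 p h0 h1
    have b2 := p2 p h0 h1
    have b3 := p3 p h0 h1
    exact mul_le_mul (mul_le_mul a1 a2 b2 (b1.trans a1)) a3 b3
      (mul_nonneg (b1.trans a1) (b2.trans a2))
  have zN : ∀ t : ℝ, 0 ≤ t → t ≤ 1 → 0 ≤ fN t := fun t h0 h1 => CompSingle_fN h0 h1
  have zM : ∀ t : ℝ, 0 ≤ t → t ≤ 1 → 0 ≤ fM t := fun t h0 h1 => CompSingle_fM h0 h1
  have r1 : avg T (fun t => fN t * fM t * fN t) = avg T (fun t => fM t * fN t * fN t) := by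
    congr 1; funext t; ring
  have r2 : avg T (fun t => fN t * fN t * fM t) = avg T (fun t => fM t * fN t * fN t) := by
    congr 1; funext t; ring
  have r3 : avg T (fun t => fM t * fN t * fM t) = avg T (fun t => fM t * fM t * fN t) := by
    congr 1; funext t; ring
  have r4 : avg T (fun t => fN t * fM t * fM t) = avg T (fun t => fM t * fM t * fN t) := by
    congr 1; funext t; ring
  have key : 143 / 500 ≤ Pr T (H.Good {x} (fun _ : P → Fin T => {x}) x) + H.cr x - H.deb x := by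
    rw [hdeb, hcr]
    have e0 := hN.NNN
    have e1 := hN.MNN
    have e2 := hN.MMN
    have e3 := hN.MMM
    rcases f1 with f1 | ⟨c1, f1⟩ <;> rcases f2 with f2 | ⟨c2, f2⟩ <;>
      rcases f3 with f3 | ⟨c3, f3⟩
    · have := gen _ _ _ zN zN zN f1 f2 f3
      linarith
    · have := gen _ _ _ zN zN zM f1 f2 f3
      linarith
    · have := gen _ _ _ zN zM zN f1 f2 f3
      linarith
    · have := gen _ _ _ zN zM zM f1 f2 f3
      linarith
    · have := gen _ _ _ zM zN zN f1 f2 f3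
      linarith
    · have := gen _ _ _ zM zN zM f1 f2 f3
      linarith
    · have := gen _ _ _ zM zM zN f1 f2 f3
      linarith
    · have := gen _ _ _ zM zM zM f1 f2 f3
      linarith
  apply H.compOKc_const {x} (fun _ => 143 / 500)
  · intro y hy
    rw [mem_singleton] at hy
    subst hy
    exact key
  · simp

end Inc

end Pool.Agent.OLD57
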