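import Pool.Agent.OLD57.FIns

/-!
# Module OLD57/FamTri

PROOF. `F_fTri`: factor `1 - p` from `{y}`. Condition on `u`: `𝓔 = {{e}, {v}, A1, A2}`, value
`≥ (1-p)^2 (1-p^2)^2`; `𝓛 = {{v, f}, insert v B1, insert v B2}`; condition `𝓛` on `v`: late empty
(value 1), early `{{f}, B1, B2}`, value `≥ (1-p) (1-p^2)^2`. Total
`(1-p) ((1-p) ((1-p) + p (1-p) (1-p^2)^2) + p (1-p)^2 (1-p^2)^2) = fTri p`.
`F_six`: `F_insert` five times and `F_single`.
-/

set_option autoImplicit false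

namespace Pool.Agent.OLD57

open Finset

variable {P : Type*} [Fintype P] [DecidableEq P]

theorem F_fTri {p : ℝ} (h0 : 0 ≤ p) (h1 : p ≤ 1) {e f u v y : P} (huv : u ≠ v) (heu : e ≠ u)
    (hfv : f ≠ v) {A1 A2 B1 B2 : Finset P} (cA1 : A1.card = 2) (cA2 : A2.card = 2)
    (cB1 : B1.card = 2) (cB2 : B2.card = 2) (hA1 : u ∉ A1) (hA2 : u ∉ A2) (hB1 : v ∉ B1)
    (hB2 : v ∉ B2) :
    fTri p ≤ F p {{y}, {u, e}, {u, v}, {v, f}, insert u A1, insert u A2, insert v B1,
      insert v B2} := by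
  have q0 : 0 ≤ 1 - p := by linarith
  have q2 : 0 ≤ 1 - p ^ 2 := by nlinarith
  -- the early family for `u`
  have hE : (1 - p) ^ 2 * (1 - p ^ 2) ^ 2 ≤ F p {{e}, {v}, A1, A2} := by
    have a1 := F_insert h0 h1 {e} ({{v}, A1, A2} : Finset (Finset P))
    have a2 := F_insert h0 h1 {v} ({A1, A2} : Finset (Finset P))
    have a3 := F_insert h0 h1 A1 ({A2} : Finset (Finset P))
    rw [F_single, cA1, cA2] at a3
    rw [Finset.card_singleton, pow_one] at a1 a2
    calc (1 - p) ^ 2 * (1 - p ^ 2) ^ 2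
        = (1 - p) * ((1 - p) * ((1 - p ^ 2) * (1 - p ^ 2))) := by ring
      _ ≤ (1 - p) * ((1 - p) * F p {A1, A2}) := by gcongr
      _ ≤ (1 - p) * F p {{v}, A1, A2} := by gcongr
      _ ≤ _ := a1
  -- the early family for `v`
  have hE2 : (1 - p) * (1 - p ^ 2) ^ 2 ≤ F p {{f}, B1, B2} := by
    have a1 := F_insert h0 h1 {f} ({B1, B2} : Finset (Finset P))
    have a3 := F_insert h0 h1 B1 ({B2} : Finset (Finset P))
    rw [F_single, cB1, cB2] at a3
    rw [Finset.card_singleton, pow_one] at a1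
    calc (1 - p) * (1 - p ^ 2) ^ 2
        = (1 - p) * ((1 - p ^ 2) * (1 - p ^ 2)) := by ring
      _ ≤ (1 - p) * F p {B1, B2} := by gcongr
      _ ≤ _ := a1
  have hL : (1 - p) * 1 + p * ((1 - p) * (1 - p ^ 2) ^ 2) ≤
      F p {{v, f}, insert v B1, insert v B2} := by
    have c := F_cond_ge h0 h1 v (𝓕 := {{v, f}, insert v B1, insert v B2}) (𝓛 := ∅)
      (𝓔 := {{f}, B1, B2}) ?_ ?_
    · rw [F_empty] at c
      refine le_trans ?_ c
      gcongr
    · intro A hA hv
      simp only [Finset.mem_insert, Finset.mem_singleton] at hA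
      rcases hA with rfl | rfl | rfl <;> simp at hv
    · intro A hA
      simp only [Finset.mem_insert, Finset.mem_singleton] at hA
      rcases hA with rfl | rfl | rfl
      · exact ⟨{f}, by simp, by intro z hz; simp at hz; subst hz; simp [hfv]⟩
      · exact ⟨B1, by simp, by rw [Finset.erase_insert hB1]⟩
      · exact ⟨B2, by simp, by rw [Finset.erase_insert hB2]⟩
  have hG : (1 - p) * ((1 - p) * 1 + p * ((1 - p) * (1 - p ^ 2) ^ 2)) +
      p * ((1 - p) ^ 2 * (1 - p ^ 2) ^ 2) ≤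
      F p {{u, e}, {u, v}, {v, f}, insert u A1, insert u A2, insert v B1, insert v B2} := by
    have c := F_cond_ge h0 h1 u
      (𝓕 := {{u, e}, {u, v}, {v, f}, insert u A1, insert u A2, insert v B1, insert v B2})
      (𝓛 := {{v, f}, insert v B1, insert v B2}) (𝓔 := {{e}, {v}, A1, A2}) ?_ ?_
    · refine le_trans ?_ c
      gcongr
    · intro A hA hu
      simp only [Finset.mem_insert, Finset.mem_singleton] at hA
      rcases hA with rfl | rfl | rfl | rfl | rfl | rfl | rfl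
      · simp at hu
      · simp at hu
      · exact ⟨{v, f}, by simp, subset_rfl⟩
      · simp at hu
      · simp at hu
      · exact ⟨insert v B1, by simp, subset_rfl⟩
      · exact ⟨insert v B2, by simp, subset_rfl⟩
    · intro A hA
      simp only [Finset.mem_insert, Finset.mem_singleton] at hA
      rcases hA with rfl | rfl | rfl | rfl | rfl | rfl | rfl
      · exact ⟨{e}, by simp, by intro z hz; simp at hz; subst hz; simp [heu]⟩
      · exact ⟨{v}, by simp, by intro z hz; simp at hz; subst hz; simp [huv.symm]⟩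
      · exact ⟨{v}, by simp, by intro z hz; simp at hz; subst hz; simp [huv.symm]⟩
      · exact ⟨A1, by simp, by rw [Finset.erase_insert hA1]⟩
      · exact ⟨A2, by simp, by rw [Finset.erase_insert hA2]⟩
      · exact ⟨{v}, by simp, by intro z hz; simp at hz; subst hz; simp [huv.symm]⟩
      · exact ⟨{v}, by simp, by intro z hz; simp at hz; subst hz; simp [huv.symm]⟩
  have a0 := F_insert h0 h1 {y}
    ({{u, e}, {u, v}, {v, f}, insert u A1, insert u A2, insert v B1, insert v B2} :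
      Finset (Finset P))
  rw [Finset.card_singleton, pow_one] at a0
  refine le_trans ?_ a0
  calc fTri p = (1 - p) * ((1 - p) * ((1 - p) * 1 + p * ((1 - p) * (1 - p ^ 2) ^ 2)) +
      p * ((1 - p) ^ 2 * (1 - p ^ 2) ^ 2)) := by unfold fTri; ring
    _ ≤ _ := by gcongr

theorem F_six {p : ℝ} (h0 : 0 ≤ p) (h1 : p ≤ 1) {A1 A2 A3 A4 A5 A6 : Finset P}
    (c1 : A1.card = 3) (c2 : A2.card = 3) (c3 : A3.card = 3) (c4 : A4.card = 3)
    (c5 : A5.card = 3) (c6 : A6.card = 3) :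
    (1 - p ^ 3) ^ 6 ≤ F p {A1, A2, A3, A4, A5, A6} := by
  have q3 : 0 ≤ 1 - p ^ 3 := by
    have : p ^ 3 ≤ 1 := pow_le_one₀ h0 h1
    linarith
  have a5 := F_insert h0 h1 A5 ({A6} : Finset (Finset P))
  have a4 := F_insert h0 h1 A4 ({A5, A6} : Finset (Finset P))
  have a3 := F_insert h0 h1 A3 ({A4, A5, A6} : Finset (Finset P))
  have a2 := F_insert h0 h1 A2 ({A3, A4, A5, A6} : Finset (Finset P))
  have a1 := F_insert h0 h1 A1 ({A2, A3, A4, A5, A6} : Finset (Finset P))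
  rw [F_single, c5, c6] at a5
  rw [c4] at a4
  rw [c3] at a3
  rw [c2] at a2
  rw [c1] at a1
  calc (1 - p ^ 3) ^ 6 = (1 - p ^ 3) * ((1 - p ^ 3) * ((1 - p ^ 3) * ((1 - p ^ 3) *
        ((1 - p ^ 3) * (1 - p ^ 3))))) := by ring
    _ ≤ (1 - p ^ 3) * ((1 - p ^ 3) * ((1 - p ^ 3) * ((1 - p ^ 3) * F p {A5, A6}))) := by gcongr
    _ ≤ (1 - p ^ 3) * ((1 - p ^ 3) * ((1 - p ^ 3) * F p {A4, A5, A6})) := by gcongr
    _ ≤ (1 - p ^ 3) * ((1 - p ^ 3) * F p {A3, A4, A5, A6}) := by gcongr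
    _ ≤ (1 - p ^ 3) * F p {A2, A3, A4, A5, A6} := by gcongr
    _ ≤ _ := a1

end Pool.Agent.OLD57
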