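import Pool.Agent.OLD57.Cover
import Pool.Agent.OLD57.FamG
import Pool.Agent.OLD57.FamTri

/-!
# Module OLD57/GeoStar

Star component.

PROOF. Distinctness: from the three-element sets. `{a, b}` is a mate pair (`p3, p2` meet in
`{x, c}`; `mate_of_two`), also `{b, c}`, `{a, c}`. So the lines `p1, p2, p3` are not reduced circuits:
`RC (pts p1)` would give `pts p1 = {a, b}` (`mate_eq_of_RC`).
Centre: `B ∈ thr x p1`, `pts p1 = {x, a, b}`: case 1: `insert x B = pts p1` is not RC. Case 2: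
`m ∈ lns a`, `m ≠ p1`, `x ∉ pts m`: `m = na`, `B = insert b ((pts na).erase a)`. Case 3: `m = nb`,
`B = insert a ((pts nb).erase b)`. Case 4: `K a b`, contradiction (`Ka`). Similarly `p2`, `p3`: six
sets of three elements (`b ∉ pts na` etc., else `K a b`). `F_six`.
Leaf `a`: lines `p1 = {a, x, b}`, `p3 = {a, x, c}`. `thr a p1`: case 1: not RC. Case 2: `m ∈ lns x`,
`m ≠ p1`, `b ∉`, `a ∉ pts m`: none (`p2 ∋ b`, `p3 ∋ a`). Case 3: `m ∈ lns b`, `m ≠ p1`, `x ∉ pts m`:
`m = nb`, `B = insert x ((pts nb).erase b)`. Case 4: `m = p2`, `B = {c}`. `thr a p3`: `insert x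
((pts nc).erase c)` and `{b}`. `F_fLeaf` with `{b}, {c}` and the two sets (`x ∉ pts nb`, because
`lns x = {p1, p2, p3}`; `nb ≠ p1, p2`, and `b ∉ pts p3`).
-/

set_option autoImplicit false

namespace Pool.Agent.OLD57

open Finset

namespace Inc

variable {P L : Type*} [Fintype P] [DecidableEq P] [Fintype L] [DecidableEq L]
variable (H : Inc P L)

variable {x a b c : P} {p1 p2 p3 na nb nc : L}

/-- Symmetries of the configuration. -/
theorem StarCfg.swap (h : StarCfg H x a b c p1 p2 p3 na nb nc) :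
    StarCfg H x b a c p1 p3 p2 nb na nc where
  ptsp1 := by rw [h.ptsp1, pair_comm a b]
  ptsp2 := h.ptsp3
  ptsp3 := h.ptsp2
  lnsx := by rw [h.lnsx, pair_comm p2 p3]
  lnsa := h.lnsb
  lnsb := h.lnsa
  lnsc := by rw [h.lnsc, insert_comm]
  Kx := fun y => by rw [h.Kx]; tauto
  Ka := h.Kb
  Kb := h.Ka
  Kc := h.Kc

theorem StarCfg.rot (h : StarCfg H x a b c p1 p2 p3 na nb nc) :
    StarCfg H x c a b p3 p1 p2 nc na nb where
  ptsp1 := by rw [h.ptsp3, pair_comm a c]
  ptsp2 := h.ptsp1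
  ptsp3 := by rw [h.ptsp2, pair_comm b c]
  lnsx := by rw [h.lnsx]; ext y; simp only [mem_insert, mem_singleton]; tauto
  lnsa := by rw [h.lnsc, insert_comm]
  lnsb := by rw [h.lnsa, insert_comm]
  lnsc := h.lnsb
  Kx := fun y => by rw [h.Kx]; tauto
  Ka := h.Kc
  Kb := h.Ka
  Kc := h.Kb

omit [Fintype P] in
private theorem GeoStar_three {u v w : P} (h : ({u, v, w} : Finset P).card = 3) :
    u ≠ v ∧ u ≠ w ∧ v ≠ w := by
  refine ⟨?_, ?_, ?_⟩
  · rintro rfl
    rw [insert_eq_of_mem (mem_insert_self _ _)] at h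
    have := card_le_two (a := u) (b := w)
    omega
  · rintro rfl
    rw [insert_eq_of_mem (by simp)] at h
    have := card_le_two (a := v) (b := u)
    omega
  · rintro rfl
    rw [pair_eq_singleton] at h
    have := card_le_two (a := u) (b := v)
    omega

omit [Fintype P] [Fintype L] in
private theorem GeoStar_pne (h : StarCfg H x a b c p1 p2 p3 na nb nc) :
    x ≠ a ∧ x ≠ b ∧ a ≠ b := GeoStar_three (by rw [← h.ptsp1]; exact H.card_pts p1)

omit [Fintype P] [Fintype L] in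
private theorem GeoStar_lne (h : StarCfg H x a b c p1 p2 p3 na nb nc) :
    p1 ≠ p3 ∧ p1 ≠ na ∧ p3 ≠ na := GeoStar_three (by rw [← h.lnsa]; exact H.card_lns a)

private theorem GeoStar_mate (h : StarCfg H x a b c p1 p2 p3 na nb nc) : H.Mate {a, b} := by
  obtain ⟨hxa, hxb, hab⟩ := GeoStar_pne H h
  obtain ⟨hxc, -, hca⟩ := GeoStar_pne H (h.rot)
  obtain ⟨-, -, hbc⟩ := GeoStar_pne H (h.rot.rot)
  refine H.mate_of_two (l := p3) (m := p2) (p := x) (q := c) ?_ ?_ hxc hxa hca hxb hbc.symm hab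
  · rw [h.ptsp3, pair_comm]
  · rw [h.ptsp2, pair_comm]

/-- facts on `na` -/
private theorem GeoStar_na (h : StarCfg H x a b c p1 p2 p3 na nb nc) :
    a ∈ H.pts na ∧ b ∉ H.pts na ∧ c ∉ H.pts na ∧ x ∉ H.pts na := by
  obtain ⟨hxa, hxb, hab⟩ := GeoStar_pne H h
  obtain ⟨hxc, -, hca⟩ := GeoStar_pne H (h.rot)
  obtain ⟨h13, h1n, h3n⟩ := GeoStar_lne H h
  have ha : a ∈ H.pts na := by rw [H.mem_iff, h.lnsa]; simp
  have ha1 : a ∈ H.pts p1 := by rw [h.ptsp1]; simp
  have hb1 : b ∈ H.pts p1 := by rw [h.ptsp1]; simp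
  have hx1 : x ∈ H.pts p1 := by rw [h.ptsp1]; simp
  have ha3 : a ∈ H.pts p3 := by rw [h.ptsp3]; simp
  have hc3 : c ∈ H.pts p3 := by rw [h.ptsp3]; simp
  have hx3 : x ∈ H.pts p3 := by rw [h.ptsp3]; simp
  refine ⟨ha, fun hb => ?_, fun hc => ?_, fun hx => ?_⟩
  · exact hxb ((h.Ka b).1 (H.K_of hab h1n ha1 hb1 ha hb)).symm
  · exact hxc ((h.Ka c).1 (H.K_of hca.symm h3n ha3 hc3 ha hc)).symm
  · rcases H.lns_common hxa h13 hx1 ha1 hx3 ha3 hx ha with h1 | h1
    · exact h1n h1.symm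
    · exact h3n h1.symm

private theorem GeoStar_notRC (h : StarCfg H x a b c p1 p2 p3 na nb nc) :
    ¬ H.RC {x, a, b} := by
  intro h1
  obtain ⟨hxa, hxb, hab⟩ := GeoStar_pne H h
  have h2 := H.mate_eq_of_RC h1 (GeoStar_mate H h) (subset_insert _ _)
  have h3 : x ∈ ({a, b} : Finset P) := by rw [← h2]; simp
  simp only [mem_insert, mem_singleton] at h3
  exact h3.elim hxa hxb

private theorem GeoStar_thrx (h : StarCfg H x a b c p1 p2 p3 na nb nc) {B : Finset P}
    (hB : B ∈ H.thr x p1) :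
    B = insert b ((H.pts na).erase a) ∨ B = insert a ((H.pts nb).erase b) := by
  obtain ⟨hxa, hxb, hab⟩ := GeoStar_pne H h
  rcases H.thr_cases h.ptsp1 hxa hxb hab hB with h1 | ⟨m, hm, hml, hq, hxm, h1⟩ |
    ⟨m, hm, hml, hq, hxm, h1⟩ | ⟨m, y, hml, hm, hyp, hyq, hyx, h1⟩
  · exfalso
    rw [h1] at hB
    exact GeoStar_notRC H h (H.mem_thr.1 hB).2.1
  · left
    rw [h.lnsa] at hm
    simp only [mem_insert, mem_singleton] at hm
    rcases hm with hm | hm | hm
    · exact absurd hm hml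
    · exfalso
      apply hxm
      rw [hm, h.ptsp3]; simp
    · rw [h1, hm]
  · right
    rw [h.lnsb] at hm
    simp only [mem_insert, mem_singleton] at hm
    rcases hm with hm | hm | hm
    · exact absurd hm hml
    · exfalso
      apply hxm
      rw [hm, h.ptsp2]; simp
    · rw [h1, hm]
  · exfalso
    have ha1 : a ∈ H.pts p1 := by rw [h.ptsp1]; simp
    have hb1 : b ∈ H.pts p1 := by rw [h.ptsp1]; simp
    have ha2 : a ∈ H.pts m := by rw [hm]; simp
    have hb2 : b ∈ H.pts m := by rw [hm]; simp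
    exact hxb ((h.Ka b).1 (H.K_of hab hml.symm ha1 hb1 ha2 hb2)).symm

private theorem GeoStar_thra (h : StarCfg H x a b c p1 p2 p3 na nb nc) {B : Finset P}
    (hB : B ∈ H.thr a p1) :
    B = insert x ((H.pts nb).erase b) ∨ B = {c} := by
  obtain ⟨hxa, hxb, hab⟩ := GeoStar_pne H h
  obtain ⟨hxc, -, hca⟩ := GeoStar_pne H (h.rot)
  obtain ⟨-, -, hbc⟩ := GeoStar_pne H (h.rot.rot)
  have hp : H.pts p1 = {a, x, b} := by rw [h.ptsp1, insert_comm]
  rcases H.thr_cases hp hxa.symm hab hxb hB with h1 | ⟨m, hm, hml, hq, hxm, h1⟩ |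
    ⟨m, hm, hml, hq, hxm, h1⟩ | ⟨m, y, hml, hm, hyp, hyq, hyx, h1⟩
  · exfalso
    rw [h1] at hB
    have h2 := (H.mem_thr.1 hB).2.1
    rw [insert_comm] at h2
    exact GeoStar_notRC H h h2
  · exfalso
    rw [h.lnsx] at hm
    simp only [mem_insert, mem_singleton] at hm
    rcases hm with hm | hm | hm
    · exact hml hm
    · apply hq
      rw [hm, h.ptsp2]; simp
    · apply hxm
      rw [hm, h.ptsp3]; simp
  · left
    rw [h.lnsb] at hm
    simp only [mem_insert, mem_singleton] at hm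
    rcases hm with hm | hm | hm
    · exact absurd hm hml
    · exfalso
      apply hq
      rw [hm, h.ptsp2]; simp
    · rw [h1, hm]
  · right
    have hxm : x ∈ H.pts m := by rw [hm]; simp
    have hbm : b ∈ H.pts m := by rw [hm]; simp
    have hym : y ∈ H.pts m := by rw [hm]; simp
    rw [H.mem_iff, h.lnsx] at hxm
    simp only [mem_insert, mem_singleton] at hxm
    rcases hxm with h2 | h2 | h2
    · exact absurd h2 hml
    · rw [h2, h.ptsp2] at hym
      simp only [mem_insert, mem_singleton] at hym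
      rcases hym with h3 | h3 | h3
      · exact absurd h3 hyp
      · exact absurd h3 hyq
      · rw [h1, h3]
    · exfalso
      rw [h2, h.ptsp3] at hbm
      simp only [mem_insert, mem_singleton] at hbm
      rcases hbm with h3 | h3 | h3
      · exact hxb h3.symm
      · exact hab h3.symm
      · exact hbc h3

private theorem GeoStar_card (h : StarCfg H x a b c p1 p2 p3 na nb nc) :
    (insert b ((H.pts na).erase a)).card = 3 ∧ (insert c ((H.pts na).erase a)).card = 3 ∧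
      (insert x ((H.pts na).erase a)).card = 3 := by
  obtain ⟨ha, hb, hc, hx⟩ := GeoStar_na H h
  have h1 : ((H.pts na).erase a).card = 2 := by rw [card_erase_of_mem ha, H.card_pts]
  refine ⟨?_, ?_, ?_⟩
  · rw [card_insert_of_notMem fun h2 => hb (mem_of_mem_erase h2), h1]
  · rw [card_insert_of_notMem fun h2 => hc (mem_of_mem_erase h2), h1]
  · rw [card_insert_of_notMem fun h2 => hx (mem_of_mem_erase h2), h1]

theorem star_centre (h : StarCfg H x a b c p1 p2 p3 na nb nc) (C D : Finset P) {t : ℝ}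
    (h0 : 0 ≤ t) (h1 : t ≤ 1) : (1 - t ^ 3) ^ 6 ≤ F t (H.bl C D x) := by
  have ca := GeoStar_card H h
  have cb := GeoStar_card H h.swap
  have cc := GeoStar_card H h.rot
  refine (F_six h0 h1 ca.1 ca.2.1 cb.1 cb.2.1 cc.1 cc.2.1).trans (F_anti h0 h1 ?_)
  intro B hB
  refine ⟨B, ?_, Subset.refl B⟩
  obtain ⟨l, hl, hBl⟩ := H.bl_cover hB
  rw [h.lnsx] at hl
  simp only [mem_insert, mem_singleton] at hl ⊢
  rcases hl with rfl | rfl | rfl
  · rcases GeoStar_thrx H h hBl with h2 | h2 <;> tauto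
  · rcases GeoStar_thrx H h.rot.rot hBl with h2 | h2 <;> tauto
  · rcases GeoStar_thrx H h.rot hBl with h2 | h2 <;> tauto

theorem star_leaf (h : StarCfg H x a b c p1 p2 p3 na nb nc) {t : ℝ} (h0 : 0 ≤ t)
    (h1 : t ≤ 1) : fLeaf t ≤ F t (H.thr a p1 ∪ H.thr a p3) := by
  have cb := GeoStar_card H h.swap
  have cc := GeoStar_card H h.rot
  refine (F_fLeaf h0 h1 (b := b) (c := c) cb.2.2 cc.2.2).trans (F_anti h0 h1 ?_)
  intro B hB
  refine ⟨B, ?_, Subset.refl B⟩
  rw [mem_union] at hB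
  simp only [mem_insert, mem_singleton]
  rcases hB with hB | hB
  · rcases GeoStar_thra H h hB with h2 | h2 <;> tauto
  · rcases GeoStar_thra H h.rot.swap hB with h2 | h2 <;> tauto

end Inc

end Pool.Agent.OLD57
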