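import Pool.Agent.OLD57.CompDefs
import Pool.Agent.OLD57.GeoStar
import Pool.Agent.OLD57.FreeSum
import Pool.Agent.OLD57.Cover
import Pool.Agent.OLD57.GoodConst

/-!
# Module OLD57/CompStar

A star component.

PROOF. Distinctness of `x, a, b, c`: three-element sets (`card_pts`). `ρ` constant
`C = {x, a, b, c}`.
`star_x`: `star_centre`, `Pr_good_ge`, `Six`: `0.474`; `deb x = 3 * 3/100` (`kap x = 3`,
`gw_eq_of_ne`, `kap_eq`, `deb_eq`), `cr x ≥ 0`: `0.384`.
`star_a`: `lns a = {p1, p3, na}`: `F_bl_ge2`, `star_leaf`, and `free_sum'` for `na` (`K a y ↔ y = x`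
and `x ∉ pts na` because `x` is only on `p1, p2, p3`: `na ≠ p1, p3` as `lns a` has three elements,
`na ≠ p2` because `a ∉ pts p2`). `deb a = 3/100`. `crl a p1 ≥ 3/100` (`pts p1 = {a, x, b}`, `K x b`),
`crl a p3 ≥ 3/100` (`K x c`). Case N: `LeafN`: `0.262 + 0.06 - 0.03`; case M: `LeafM`:
`0.2179 + 0.06 + 0.03 - 0.03 = 0.2779`.
`b`, `c`: the same for `h.swap`, `h.rot` (`{x, b, a, c} = {x, a, b, c}` etc.). Total
`0.384 + 3 * 0.2779 = 1.2177 ≥ 4 * 0.286`.
-/

set_option autoImplicit false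

namespace Pool.Agent.OLD57

open Finset

namespace Inc

variable {P L : Type*} [Fintype P] [DecidableEq P] [Fintype L] [DecidableEq L]
variable (H : Inc P L)

variable {x a b c : P} {p1 p2 p3 na nb nc : L}

private theorem CompStar_three {α : Type*} [DecidableEq α] {u v w : α}
    (h : ({u, v, w} : Finset α).card = 3) : u ≠ v ∧ u ≠ w ∧ v ≠ w := by
  refine ⟨?_, ?_, ?_⟩
  · rintro rfl
    rw [insert_eq_of_mem (mem_insert_self _ _)] at h
    have := card_le_two (a := u) (b := w)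
    omega
  · rintro rfl
    rw [insert_eq_of_mem (by simp)] at h
    have := card_le_two (a := v) (b := u)
    omega
  · rintro rfl
    rw [pair_eq_singleton] at h
    have := card_le_two (a := u) (b := v)
    omega

omit [Fintype P] [Fintype L] in
private theorem CompStar_pne (h : StarCfg H x a b c p1 p2 p3 na nb nc) :
    x ≠ a ∧ x ≠ b ∧ x ≠ c ∧ a ≠ b ∧ a ≠ c ∧ b ≠ c := by
  have h1 : x ≠ a ∧ x ≠ b ∧ a ≠ b := CompStar_three (by rw [← h.ptsp1]; exact H.card_pts p1)
  have h2 : x ≠ b ∧ x ≠ c ∧ b ≠ c := CompStar_three (by rw [← h.ptsp2]; exact H.card_pts p2)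
  have h3 : x ≠ a ∧ x ≠ c ∧ a ≠ c := CompStar_three (by rw [← h.ptsp3]; exact H.card_pts p3)
  exact ⟨h1.1, h1.2.1, h2.2.1, h1.2.2, h3.2.2, h2.2.2⟩

private theorem CompStar_kap (h : StarCfg H x a b c p1 p2 p3 na nb nc) : H.kap x = 3 := by
  obtain ⟨-, -, -, hab, hac, hbc⟩ := CompStar_pne H h
  rw [H.kap_eq (S := {a, b, c}) (fun y => by rw [h.Kx]; simp)]
  exact card_eq_three.2 ⟨a, b, c, hab, hac, hbc, rfl⟩

private theorem CompStar_debx (h : StarCfg H x a b c p1 p2 p3 na nb nc) :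
    H.deb x = 9 / 100 := by
  obtain ⟨-, -, -, hab, hac, hbc⟩ := CompStar_pne H h
  have hk : H.kap x ≠ 1 := by rw [CompStar_kap H h]; norm_num
  rw [H.deb_eq (S := {a, b, c}) (fun y => by rw [h.Kx]; simp),
    sum_insert (by simp [hab, hac]), sum_pair hbc, H.gw_eq_of_ne (Or.inl hk),
    H.gw_eq_of_ne (Or.inl hk), H.gw_eq_of_ne (Or.inl hk)]
  norm_num

private theorem CompStar_deba (h : StarCfg H x a b c p1 p2 p3 na nb nc) :
    H.deb a = 3 / 100 := by
  have hk : H.kap x ≠ 1 := by rw [CompStar_kap H h]; norm_num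
  rw [H.deb_eq (S := {x}) (fun y => by rw [h.Ka]; simp), sum_singleton,
    H.gw_eq_of_ne (Or.inr hk)]

theorem star_x {T : ℕ} (hN : NumOK T) (h : StarCfg H x a b c p1 p2 p3 na nb nc)
    {C D : Finset P} (hx : x ∈ D) :
    384 / 1000 ≤ Pr T (H.Good C (fun _ : P → Fin T => D) x) + H.cr x - H.deb x := by
  have h1 := H.Pr_good_ge (T := T) hN.pos (C := C) hx
    (fun p h0 h1 => H.star_centre h C D h0 h1)
  have h2 := hN.Six
  have h3 := H.cr_nonneg x
  rw [CompStar_debx H h]
  linarith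

theorem star_a {T : ℕ} (hN : NumOK T) (h : StarCfg H x a b c p1 p2 p3 na nb nc)
    {C D : Finset P} (ha : a ∈ D) :
    2779 / 10000 ≤ Pr T (H.Good C (fun _ : P → Fin T => D) a) + H.cr a - H.deb a := by
  obtain ⟨hxa, hxb, hxc, hab, hac, hbc⟩ := CompStar_pne H h
  obtain ⟨h13, h1n, h3n⟩ : p1 ≠ p3 ∧ p1 ≠ na ∧ p3 ≠ na :=
    CompStar_three (by rw [← h.lnsa]; exact H.card_lns a)
  have hana : na ∈ H.lns a := by rw [h.lnsa]; simp
  have hxna : x ∉ H.pts na := by
    rw [H.mem_iff, h.lnsx]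
    intro h2
    simp only [mem_insert, mem_singleton] at h2
    rcases h2 with h2 | h2 | h2
    · exact h1n h2.symm
    · have h3 : a ∈ H.pts p2 := by rw [H.mem_iff, ← h2]; exact hana
      rw [h.ptsp2] at h3
      simp only [mem_insert, mem_singleton] at h3
      rcases h3 with h3 | h3 | h3
      · exact hxa h3.symm
      · exact hab h3
      · exact hac h3
    · exact h3n h2.symm
  have hKn : ∀ y ∈ H.pts na, ¬ H.K a y := by
    intro y hy hK
    rw [h.Ka] at hK
    exact hxna (hK ▸ hy)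
  have hc1 : 3 / 100 ≤ H.crl a p1 := by
    refine H.crl_ge (p := x) (q := b) ?_ hxa.symm hab hxb ((h.Kx b).2 (by simp))
    rw [h.ptsp1, insert_comm]
  have hc3 : 3 / 100 ≤ H.crl a p3 := by
    refine H.crl_ge (p := x) (q := c) ?_ hxa.symm hac hxc ((h.Kx c).2 (by simp))
    rw [h.ptsp3, insert_comm]
  rw [CompStar_deba H h, H.cr_three h.lnsa]
  rcases H.free_sum' hana hKn with hf | ⟨hcn, hf⟩
  · have h1 := H.Pr_good_ge (T := T) hN.pos (C := C) ha (f := fun t => fLeaf t * fN t)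
      (fun p h0 h1 => (mul_le_mul (H.star_leaf h h0 h1) (hf p h0 h1)
        (by
          unfold fN
          have : 0 ≤ 1 - p := by linarith
          positivity) (F_nonneg h0 h1 _)).trans (H.F_bl_ge2 h0 h1 h.lnsa C D))
    have h2 := hN.LeafN
    have h3 := H.crl_nonneg a na
    linarith
  · have h1 := H.Pr_good_ge (T := T) hN.pos (C := C) ha (f := fun t => fLeaf t * fM t)
      (fun p h0 h1 => (mul_le_mul (H.star_leaf h h0 h1) (hf p h0 h1)
        (by
          unfold fM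
          have h3 : 0 ≤ 1 - p := by linarith
          have h4 : 0 ≤ 1 - p ^ 2 := by nlinarith
          positivity) (F_nonneg h0 h1 _)).trans (H.F_bl_ge2 h0 h1 h.lnsa C D))
    have h2 := hN.LeafM
    linarith

theorem comp_star {T : ℕ} (hN : NumOK T) (h : StarCfg H x a b c p1 p2 p3 na nb nc) :
    H.CompOKc T (143 / 500) {x, a, b, c} := by
  obtain ⟨hxa, hxb, hxc, hab, hac, hbc⟩ := CompStar_pne H h
  refine ⟨fun _ => {x, a, b, c}, ?_⟩
  have h1 := H.star_x hN h (C := {x, a, b, c}) (D := {x, a, b, c}) (by simp)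
  have h2 := H.star_a hN h (C := {x, a, b, c}) (D := {x, a, b, c}) (by simp)
  have h3 := H.star_a hN h.swap (C := {x, a, b, c}) (D := {x, a, b, c}) (by simp)
  have h4 := H.star_a hN h.rot (C := {x, a, b, c}) (D := {x, a, b, c}) (by simp)
  have hcard : ({x, a, b, c} : Finset P).card = 4 := by
    rw [card_insert_of_notMem (by simp [hxa, hxb, hxc]),
      card_eq_three.2 ⟨a, b, c, hab, hac, hbc, rfl⟩]
  rw [hcard, sum_insert (by simp [hxa, hxb, hxc]), sum_insert (by simp [hab, hac]),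
    sum_pair hbc]
  norm_num at *
  linarith

end Inc

end Pool.Agent.OLD57
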