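import Pool.Agent.OLD57.Cover
import Pool.Agent.OLD57.FamTri

/-!
# Module OLD57/GeoTri

Triangle component, the point `z = x1`; `u = x2`, `v = x3`: `A = {z, u, e3}`, `l = {z, u, v}`,
`B = {z, v, e2}`, `C = {u, v, e1}`, `lns u = {l, A, C}`, `lns v = {l, B, C}`.

PROOF. `e3 ≠ v` (otherwise `pts A = pts l`), `e2 ≠ u`, `e1 ≠ z`. `lns e3 = {A, m1, m2}`,
`lns e2 = {B, m3, m4}`. `thr z A` (`{z, u, e3}`): `{u, e3}`; case 2: `m ∈ lns u`, `m ≠ A`,
`z ∉ pts m`: `m = C`, `B' = insert e3 ((pts C).erase u) ∋ e1`: dominated by `{e1}`; case 3: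
`insert u ((pts m_i).erase e3)`; case 4: `K u e3`, contradiction (`K2`: `e3 = x1` or `e3 = x3`).
`thr z l` (`{z, u, v}`): `{u, v}`; case 2: `m ∈ {A, C}`: `z ∈ pts A`, `v ∈ pts C`: none; case 3 none;
case 4: `m = C`, `{e1}`. `thr z B`: symmetric. `F_fTri` with `y = e1`, `e = e3`, `f = e2`;
`u ∉ (pts m_i).erase e3` since otherwise `K u e3`.
`TriCfg.rot`: the same configuration with `x2` first.
-/

set_option autoImplicit false

namespace Pool.Agent.OLD57

open Finset

namespace Inc

variable {P L : Type*} [Fintype P] [DecidableEq P] [Fintype L] [DecidableEq L]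
variable (H : Inc P L)

omit [Fintype P] [Fintype L] [DecidableEq L] in
private lemma card3_ne' {α : Type*} [DecidableEq α] {a b c : α}
    (h : ({a, b, c} : Finset α).card = 3) : a ≠ b ∧ a ≠ c ∧ b ≠ c := by
  refine ⟨?_, ?_, ?_⟩ <;> rintro rfl
  · have := card_le_two (a := a) (b := c)
    simp at h
    omega
  · have h2 : ({a, b, a} : Finset α) = {a, b} := by
      ext w
      simp only [mem_insert, mem_singleton]
      tauto
    rw [h2] at h
    have := card_le_two (a := a) (b := b)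
    omega
  · have h2 : ({a, b, b} : Finset α) = {a, b} := by
      ext w
      simp only [mem_insert, mem_singleton]
      tauto
    rw [h2] at h
    have := card_le_two (a := a) (b := b)
    omega

variable {x1 x2 x3 e1 e2 e3 : P} {l A B C : L}

theorem bl_tri (h : TriCfg H x1 x2 x3 e1 e2 e3 l A B C) (C' D' : Finset P) {t : ℝ}
    (h0 : 0 ≤ t) (h1 : t ≤ 1) : fTri t ≤ F t (H.bl C' D' x1) := by
  -- distinctness
  have d := card3_ne' (by rw [← h.ptsl]; exact H.card_pts l)
  have dA := card3_ne' (by rw [← h.ptsA]; exact H.card_pts A)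
  have dB := card3_ne' (by rw [← h.ptsB]; exact H.card_pts B)
  have dC := card3_ne' (by rw [← h.ptsC]; exact H.card_pts C)
  have l1 := card3_ne' (by rw [← h.lns1]; exact H.card_lns x1)
  have l2 := card3_ne' (by rw [← h.lns2]; exact H.card_lns x2)
  have l3 := card3_ne' (by rw [← h.lns3]; exact H.card_lns x3)
  obtain ⟨d12, d13, d23⟩ := d
  obtain ⟨_, dA1, dA2⟩ := dA
  obtain ⟨_, dB1, dB2⟩ := dB
  obtain ⟨_, dC1, dC2⟩ := dC
  obtain ⟨llA, llB, lAB⟩ := l1
  obtain ⟨_, llC, lAC⟩ := l2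
  obtain ⟨_, _, lBC⟩ := l3
  have e3x3 : e3 ≠ x3 := by
    intro he
    apply llA
    apply H.pts_inj
    rw [h.ptsl, h.ptsA, he]
  have e2x2 : e2 ≠ x2 := by
    intro he
    apply llB
    apply H.pts_inj
    rw [h.ptsl, h.ptsB, he]
    ext w
    simp only [mem_insert, mem_singleton]
    tauto
  have mx1l : x1 ∈ H.pts l := by rw [h.ptsl]; simp
  have mx2l : x2 ∈ H.pts l := by rw [h.ptsl]; simp
  have mx3l : x3 ∈ H.pts l := by rw [h.ptsl]; simp
  have mx1A : x1 ∈ H.pts A := by rw [h.ptsA]; simp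
  have mx2A : x2 ∈ H.pts A := by rw [h.ptsA]; simp
  have me3A : e3 ∈ H.pts A := by rw [h.ptsA]; simp
  have mx1B : x1 ∈ H.pts B := by rw [h.ptsB]; simp
  have mx3B : x3 ∈ H.pts B := by rw [h.ptsB]; simp
  have me2B : e2 ∈ H.pts B := by rw [h.ptsB]; simp
  have mx2C : x2 ∈ H.pts C := by rw [h.ptsC]; simp
  have mx3C : x3 ∈ H.pts C := by rw [h.ptsC]; simp
  have me1C : e1 ∈ H.pts C := by rw [h.ptsC]; simp
  -- no second common line of x2, e3 and of x3, e2
  have nK2 : ∀ m, m ≠ A → x2 ∈ H.pts m → e3 ∈ H.pts m → False := by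
    intro m hm h2 h3
    have hK : H.K x2 e3 := H.K_of dA2 hm h2 h3 mx2A me3A
    rcases (h.K2 e3).1 hK with h' | h'
    · exact dA1 h'.symm
    · exact e3x3 h'
  have nK3 : ∀ m, m ≠ B → x3 ∈ H.pts m → e2 ∈ H.pts m → False := by
    intro m hm h2 h3
    have hK : H.K x3 e2 := H.K_of dB2 hm h2 h3 mx3B me2B
    rcases (h.K3 e2).1 hK with h' | h'
    · exact dB1 h'.symm
    · exact e2x2 h'
  obtain ⟨m1, m2, hAm1, hAm2, _, hle3⟩ := H.exists_lns ((H.mem_iff e3 A).1 me3A)
  obtain ⟨m3, m4, hBm3, hBm4, _, hle2⟩ := H.exists_lns ((H.mem_iff e2 B).1 me2B)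
  have e3m1 : e3 ∈ H.pts m1 := (H.mem_iff _ _).2 (by rw [hle3]; simp)
  have e3m2 : e3 ∈ H.pts m2 := (H.mem_iff _ _).2 (by rw [hle3]; simp)
  have e2m3 : e2 ∈ H.pts m3 := (H.mem_iff _ _).2 (by rw [hle2]; simp)
  have e2m4 : e2 ∈ H.pts m4 := (H.mem_iff _ _).2 (by rw [hle2]; simp)
  have card2 : ∀ (m : L) (e : P), e ∈ H.pts m → ((H.pts m).erase e).card = 2 := by
    intro m e he
    rw [card_erase_of_mem he, H.card_pts]
  refine (F_fTri h0 h1 (e := e3) (f := e2) (u := x2) (v := x3) (y := e1)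
    (A1 := (H.pts m1).erase e3) (A2 := (H.pts m2).erase e3)
    (B1 := (H.pts m3).erase e2) (B2 := (H.pts m4).erase e2) d23 dA2.symm dB2.symm
    (card2 _ _ e3m1) (card2 _ _ e3m2) (card2 _ _ e2m3) (card2 _ _ e2m4)
    (fun h' => nK2 m1 hAm1.symm (mem_of_mem_erase h') e3m1)
    (fun h' => nK2 m2 hAm2.symm (mem_of_mem_erase h') e3m2)
    (fun h' => nK3 m3 hBm3.symm (mem_of_mem_erase h') e2m3)
    (fun h' => nK3 m4 hBm4.symm (mem_of_mem_erase h') e2m4)).trans ?_
  refine F_anti h0 h1 (fun B' hB' => ?_)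
  obtain ⟨l', hl', hthr⟩ := H.bl_cover hB'
  rw [h.lns1] at hl'
  simp only [mem_insert, mem_singleton] at hl'
  rcases hl' with rfl | rfl | rfl
  · -- the line l
    rcases H.thr_cases h.ptsl d12 d13 d23 hthr with h1' | ⟨m, hm, hml, h3, h4, _⟩ |
      ⟨m, hm, hml, h3, h4, _⟩ | ⟨m, y, hml, hpm, hy2, hy3, hy1, hB⟩
    · exact ⟨{x2, x3}, by simp, by rw [h1']⟩
    · exfalso
      rw [h.lns2] at hm
      simp only [mem_insert, mem_singleton] at hm
      rcases hm with rfl | rfl | rfl
      · exact hml rfl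
      · exact h4 mx1A
      · exact h3 mx3C
    · exfalso
      rw [h.lns3] at hm
      simp only [mem_insert, mem_singleton] at hm
      rcases hm with rfl | rfl | rfl
      · exact hml rfl
      · exact h4 mx1B
      · exact h3 mx2C
    · have hx2m : m ∈ H.lns x2 := (H.mem_iff _ _).1 (by rw [hpm]; simp)
      rw [h.lns2] at hx2m
      simp only [mem_insert, mem_singleton] at hx2m
      rcases hx2m with rfl | rfl | rfl
      · exact absurd rfl hml
      · exfalso
        rw [hpm] at mx1A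
        simp only [mem_insert, mem_singleton] at mx1A
        rcases mx1A with h' | h' | h'
        · exact d12 h'
        · exact d13 h'
        · exact hy1 h'.symm
      · have hyC : y ∈ H.pts m := by rw [hpm]; simp
        rw [h.ptsC] at hyC
        simp only [mem_insert, mem_singleton] at hyC
        rcases hyC with h' | h' | h'
        · exact absurd h' hy2
        · exact absurd h' hy3
        · exact ⟨{e1}, by simp, by rw [hB, h']⟩
  · -- the line A
    rcases H.thr_cases h.ptsA d12 dA1 dA2 hthr with h1' | ⟨m, hm, hml, h3, h4, hB⟩ |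
      ⟨m, hm, hml, h3, h4, hB⟩ | ⟨m, y, hml, hpm, hy2, hy3, hy1, hB⟩
    · exact ⟨{x2, e3}, by simp, by rw [h1']⟩
    · rw [h.lns2] at hm
      simp only [mem_insert, mem_singleton] at hm
      rcases hm with rfl | rfl | rfl
      · exact absurd mx1l h4
      · exact absurd rfl hml
      · refine ⟨{e1}, by simp, ?_⟩
        rw [hB, singleton_subset_iff, mem_insert, mem_erase]
        exact Or.inr ⟨dC1.symm, me1C⟩
    · rw [hle3] at hm
      simp only [mem_insert, mem_singleton] at hm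
      rcases hm with rfl | rfl | rfl
      · exact absurd rfl hml
      · exact ⟨insert x2 ((H.pts m).erase e3), by simp, by rw [hB]⟩
      · exact ⟨insert x2 ((H.pts m).erase e3), by simp, by rw [hB]⟩
    · exact absurd (nK2 m hml (by rw [hpm]; simp) (by rw [hpm]; simp)) id
  · -- the line B
    rcases H.thr_cases h.ptsB d13 dB1 dB2 hthr with h1' | ⟨m, hm, hml, h3, h4, hB⟩ |
      ⟨m, hm, hml, h3, h4, hB⟩ | ⟨m, y, hml, hpm, hy2, hy3, hy1, hB⟩
    · exact ⟨{x3, e2}, by simp, by rw [h1']⟩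
    · rw [h.lns3] at hm
      simp only [mem_insert, mem_singleton] at hm
      rcases hm with rfl | rfl | rfl
      · exact absurd mx1l h4
      · exact absurd rfl hml
      · refine ⟨{e1}, by simp, ?_⟩
        rw [hB, singleton_subset_iff, mem_insert, mem_erase]
        exact Or.inr ⟨dC2.symm, me1C⟩
    · rw [hle2] at hm
      simp only [mem_insert, mem_singleton] at hm
      rcases hm with rfl | rfl | rfl
      · exact absurd rfl hml
      · exact ⟨insert x3 ((H.pts m).erase e2), by simp, by rw [hB]⟩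
      · exact ⟨insert x3 ((H.pts m).erase e2), by simp, by rw [hB]⟩
    · exact absurd (nK3 m hml (by rw [hpm]; simp) (by rw [hpm]; simp)) id

theorem TriCfg.rot (h : TriCfg H x1 x2 x3 e1 e2 e3 l A B C) :
    TriCfg H x2 x3 x1 e2 e3 e1 l C A B where
  ptsl := by
    rw [h.ptsl]
    ext w
    simp only [mem_insert, mem_singleton]
    tauto
  ptsA := h.ptsC
  ptsB := by
    rw [h.ptsA]
    ext w
    simp only [mem_insert, mem_singleton]
    tauto
  ptsC := by
    rw [h.ptsB]
    ext w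
    simp only [mem_insert, mem_singleton]
    tauto
  lns1 := by
    rw [h.lns2]
    ext w
    simp only [mem_insert, mem_singleton]
    tauto
  lns2 := by
    rw [h.lns3]
    ext w
    simp only [mem_insert, mem_singleton]
    tauto
  lns3 := h.lns1
  K1 := fun y => by rw [h.K2 y]; tauto
  K2 := fun y => by rw [h.K3 y]; tauto
  K3 := fun y => by rw [h.K1 y]

end Inc

end Pool.Agent.OLD57
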