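import Pool.Agent.OLD57.CompDefs
import Pool.Agent.OLD57.GeoTri
import Pool.Agent.OLD57.Credit
import Pool.Agent.OLD57.GoodConst

/-!
# Module OLD57/CompTri

A triangle component.

PROOF. Distinctness from `card_pts l = 3`. `ρ` constant `C = {x1, x2, x3}`. `tri_x1`: `bl_tri`,
`Pr_good_ge`, `Tri`: `0.3252`; `deb x1 = 2 * 3/100` (`kap x1 = 2`), `crl x1 l ≥ 3/100`
(`pts l = {x1, x2, x3}`, `K x2 x3`): `0.2952`. `x2`, `x3` by `h.rot`, `h.rot.rot`. The sum is
`≥ 3 * 0.2952 ≥ 3 * 0.286`.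
-/

set_option autoImplicit false

namespace Pool.Agent.OLD57

open Finset

namespace Inc

variable {P L : Type*} [Fintype P] [DecidableEq P] [Fintype L] [DecidableEq L]
variable (H : Inc P L)

variable {x1 x2 x3 e1 e2 e3 : P} {l A B C : L}

omit [Fintype P] [Fintype L] in
private theorem tri_ne {l : L} {u v w : P} (h : H.pts l = {u, v, w}) :
    u ≠ v ∧ u ≠ w ∧ v ≠ w := by
  have hc := H.card_pts l
  rw [h] at hc
  refine ⟨?_, ?_, ?_⟩
  · rintro rfl
    have h2 : ({u, u, w} : Finset P).card ≤ 2 := by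
      rw [insert_eq_of_mem (mem_insert_self u {w})]
      exact card_le_two
    omega
  · rintro rfl
    have h2 : ({u, v, u} : Finset P).card ≤ 2 := by
      rw [insert_eq_of_mem (by simp : u ∈ ({v, u} : Finset P))]
      exact card_le_two
    omega
  · rintro rfl
    have h2 : ({u, v, v} : Finset P).card ≤ 2 := by
      rw [pair_eq_singleton]
      exact card_le_two
    omega

theorem tri_x1 {T : ℕ} (hN : NumOK T) (h : TriCfg H x1 x2 x3 e1 e2 e3 l A B C)
    {C' D : Finset P} (hx : x1 ∈ D) :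
    2952 / 10000 ≤ Pr T (H.Good C' (fun _ : P → Fin T => D) x1) + H.cr x1 - H.deb x1 := by
  obtain ⟨h12, h13, h23⟩ := tri_ne H h.ptsl
  have hP : avg T (fun t => fTri t) ≤ Pr T (H.Good C' (fun _ : P → Fin T => D) x1) :=
    H.Pr_good_ge hN.pos hx (fun p h0 h1 => H.bl_tri h C' D h0 h1)
  have hTri := hN.Tri
  have hS : ∀ y, H.K x1 y ↔ y ∈ ({x2, x3} : Finset P) := by
    intro y
    rw [h.K1 y]
    simp
  have hkap : H.kap x1 = 2 := by
    rw [H.kap_eq hS, card_pair h23]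
  have hdeb : H.deb x1 = 6 / 100 := by
    rw [H.deb_eq hS, sum_pair h23, H.gw_eq_of_ne (Or.inl (by omega)),
      H.gw_eq_of_ne (Or.inl (by omega))]
    norm_num
  have hcr : 3 / 100 ≤ H.cr x1 := by
    rw [H.cr_three h.lns1]
    have hK : H.K x2 x3 := (h.K2 x3).2 (Or.inr rfl)
    have h1 := H.crl_ge h.ptsl h12 h13 h23 hK
    have h2 := H.crl_nonneg x1 A
    have h3 := H.crl_nonneg x1 B
    linarith
  linarith

theorem comp_tri {T : ℕ} (hN : NumOK T) (h : TriCfg H x1 x2 x3 e1 e2 e3 l A B C) :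
    H.CompOKc T (143 / 500) {x1, x2, x3} := by
  obtain ⟨h12, h13, h23⟩ := tri_ne H h.ptsl
  refine ⟨fun _ => {x1, x2, x3}, ?_⟩
  have e1' := H.tri_x1 hN h (C' := {x1, x2, x3}) (D := {x1, x2, x3}) (by simp)
  have e2' := H.tri_x1 hN (TriCfg.rot H h) (C' := {x1, x2, x3}) (D := {x1, x2, x3}) (by simp)
  have e3' := H.tri_x1 hN (TriCfg.rot H (TriCfg.rot H h)) (C' := {x1, x2, x3}) (D := {x1, x2, x3})
    (by simp)
  have hcard : ({x1, x2, x3} : Finset P).card = 3 := by
    rw [card_insert_of_notMem (by simp [h12, h13]), card_pair h23]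
  rw [hcard, sum_insert (by simp [h12, h13]), sum_pair h23]
  push_cast
  linarith

end Inc

end Pool.Agent.OLD57
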