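import Pool.Agent.OLD57.KBasic

/-!
# Module OLD57/CycLines

Every cycle of the K-graph with at least four points has at least five points and a configuration of
lines; a cycle with three points is a triangle configuration.

PROOF. `x i ≠ x (i+1)`, `x i ≠ x (i+2)` (`eq_iff`, `k ≥ 3`). `choose l` with
`pts (l i) = {x (i-1), x i, x (i+1)}` (`mid_line` with `q = x i`, `p = x (i-1)`, `s = x (i+1)`).
`k ≥ 4`: `l (i-1), l i, l (i+1)` contain `x i`; different: `x (i+1) ∈ pts (l i)`, but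
`x (i+1) ∉ {x (i-2), x (i-1), x i}` since `k ∤ 3, 2, 1`; `x (i+2) ∉ {x (i-1), x i, x (i+1)}`;
`l (i-1) ≠ l (i+1)`: `x (i-1) ∉ {x i, x (i+1), x (i+2)}`. So `lns (x i) = {l (i-1), l i, l (i+1)}`
(`lns_eq_of`). `k ≠ 4`: if `k = 4`, then `pts (l (i+3)) = {x (i+2), x (i+3), x (i+4)}`
`= {x (i-2), x (i-1), x i}`-wise equal to `pts (l (i-1))` (`eq_iff`), and `x (i+2) = x (i-2)`; so
`x i` and `x (i+2)` are both on `l (i+1)` and on `l (i-1)`, which are different, so
`K (x i) (x (i+2))` (`K_of`), by `K_iff` `x (i+2) = x (i-1)` or `x (i+1)`, i.e. `4 ∣ 3` or `4 ∣ 1`.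
`tri_lines`: `k = 3`, points `x 0, x 1, x 2`; `x (-1) = x 2`, `x 3 = x 0`. `l = {x 0, x 1, x 2}`
(`mid_line`), `A`, `B`, `C` the other lines through `x 0, x 1`, `x 0, x 2`, `x 1, x 2`
(`other_line`), `exists_pts2` gives `e3`, `e2`, `e1`; `A ≠ B`: otherwise it contains all three
points, so its point set is that of `l`, `A = l`. Same for the other pairs. `lns_eq_of`.
-/

set_option autoImplicit false

namespace Pool.Agent.OLD57

open Finset

namespace Inc

variable {P L : Type*} [Fintype P] [DecidableEq P] [Fintype L] [DecidableEq L]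
variable (H : Inc P L)

theorem cyc_lines {k : ℕ} {x : ℤ → P} (h : KCyc H k x) (hk : 4 ≤ k) :
    ∃ l : ℤ → L, CycCfg H k x l := by
  have hne : ∀ (i j : ℤ), (i - j = 1 ∨ i - j = 2 ∨ i - j = 3 ∨ j - i = 1 ∨ j - i = 2 ∨ j - i = 3) →
      x i ≠ x j := by
    intro i j hij he
    rw [h.eq_iff] at he
    obtain ⟨q, hq⟩ := he
    have hk' : (4 : ℤ) ≤ k := by exact_mod_cast hk
    have hq0 : q ≠ 0 := by
      rintro rfl
      rw [mul_zero] at hq
      omega
    rcases lt_or_gt_of_ne hq0 with h1 | h1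
    · have h2 : (k : ℤ) * q ≤ -k := by nlinarith
      omega
    · have h2 : (k : ℤ) ≤ (k : ℤ) * q := by nlinarith
      omega
  have hex : ∀ i : ℤ, ∃ m, H.pts m = {x (i - 1), x i, x (i + 1)} := by
    intro i
    exact mid_line H ((h.K_iff i _).2 (Or.inl rfl)) ((h.K_iff i _).2 (Or.inr rfl))
      (hne _ _ (by omega))
  choose l hl using hex
  have hin : ∀ i j : ℤ, (j = i - 1 ∨ j = i ∨ j = i + 1) → x j ∈ H.pts (l i) := by
    intro i j hj
    rw [hl]
    rcases hj with rfl | rfl | rfl <;> simp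
  have hout : ∀ i j : ℤ, (j = i - 2 ∨ j = i + 2) → x j ∉ H.pts (l i) := by
    intro i j hj hmem
    rw [hl] at hmem
    simp only [mem_insert, mem_singleton] at hmem
    rcases hj with rfl | rfl
    · rcases hmem with h1 | h1 | h1
      · exact hne _ _ (by omega) h1
      · exact hne _ _ (by omega) h1
      · exact hne _ _ (by omega) h1
    · rcases hmem with h1 | h1 | h1
      · exact hne _ _ (by omega) h1
      · exact hne _ _ (by omega) h1
      · exact hne _ _ (by omega) h1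
  have hl1 : ∀ i : ℤ, l i ≠ l (i + 1) := by
    intro i he
    exact hout i (i + 2) (Or.inr rfl) (he ▸ hin (i + 1) (i + 2) (by omega))
  have hl2 : ∀ i : ℤ, l (i - 1) ≠ l (i + 1) := by
    intro i he
    have h1 : x (i - 1) ∈ H.pts (l (i + 1)) := he ▸ hin (i - 1) (i - 1) (by omega)
    exact hout (i + 1) (i - 1) (Or.inl (by ring)) h1
  have hlns : ∀ i : ℤ, H.lns (x i) = {l (i - 1), l i, l (i + 1)} := by
    intro i
    apply lns_eq_of H
    · have := hl1 (i - 1)
      rw [sub_add_cancel] at this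
      exact this
    · exact hl2 i
    · exact hl1 i
    · exact hin _ _ (by omega)
    · exact hin _ _ (by omega)
    · exact hin _ _ (by omega)
  have h5 : 5 ≤ k := by
    by_contra hlt
    have hk4 : k = 4 := by omega
    subst hk4
    have e : x 2 = x (-2) := by
      rw [h.eq_iff]
      norm_num
    have hK : H.K (x 0) (x 2) := by
      apply K_of H (hne _ _ (by omega)) (hl2 0)
      · exact hin _ _ (by omega)
      · rw [e]; exact hin _ _ (by omega)
      · exact hin _ _ (by omega)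
      · exact hin _ _ (by omega)
    rw [h.K_iff] at hK
    rcases hK with h1 | h1
    · exact hne _ _ (by omega) h1
    · exact hne _ _ (by omega) h1
  exact ⟨l, { toKCyc := h, five_le := h5, pts := hl, lns := hlns }⟩

theorem tri_lines {x : ℤ → P} (h : KCyc H 3 x) :
    ∃ (e1 e2 e3 : P) (l A B C : L), TriCfg H (x 0) (x 1) (x 2) e1 e2 e3 l A B C := by
  have e1' : x (0 - 1) = x 2 := by
    rw [h.eq_iff]
    norm_num
  have e2' : x (2 + 1) = x 0 := by
    rw [h.eq_iff]
    norm_num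
  have n01 : x 0 ≠ x 1 := by
    intro he
    rw [h.eq_iff] at he
    norm_num at he
  have n02 : x 0 ≠ x 2 := by
    intro he
    rw [h.eq_iff] at he
    norm_num at he
  have n12 : x 1 ≠ x 2 := by
    intro he
    rw [h.eq_iff] at he
    norm_num at he
  have K0 : ∀ y, H.K (x 0) y ↔ y = x 1 ∨ y = x 2 := by
    intro y
    rw [h.K_iff, e1', zero_add, or_comm]
  have K1 : ∀ y, H.K (x 1) y ↔ y = x 0 ∨ y = x 2 := by
    intro y
    rw [h.K_iff]
    norm_num
  have K2 : ∀ y, H.K (x 2) y ↔ y = x 0 ∨ y = x 1 := by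
    intro y
    rw [h.K_iff, e2', or_comm]
    norm_num
  have k01 : H.K (x 0) (x 1) := (K0 _).2 (Or.inl rfl)
  have k02 : H.K (x 0) (x 2) := (K0 _).2 (Or.inr rfl)
  have k12 : H.K (x 1) (x 2) := (K1 _).2 (Or.inr rfl)
  obtain ⟨l, hl⟩ := mid_line H (K_symm H k01) k12 n02
  have l0 : x 0 ∈ H.pts l := by rw [hl]; simp
  have l1 : x 1 ∈ H.pts l := by rw [hl]; simp
  have l2 : x 2 ∈ H.pts l := by rw [hl]; simp
  obtain ⟨A, hAl, A0, A1, -⟩ := other_line H k01 l0 l1
  obtain ⟨B, hBl, B0, B2, -⟩ := other_line H k02 l0 l2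
  obtain ⟨C, hCl, C1, C2, -⟩ := other_line H k12 l1 l2
  obtain ⟨e3, -, -, hA⟩ := exists_pts2 H n01 A0 A1
  obtain ⟨e2, -, -, hB⟩ := exists_pts2 H n02 B0 B2
  obtain ⟨e1, -, -, hC⟩ := exists_pts2 H n12 C1 C2
  have key : ∀ D : L, D ≠ l → x 0 ∈ H.pts D → x 1 ∈ H.pts D → x 2 ∉ H.pts D := by
    intro D hD h0 h1 h2
    apply hD
    apply H.pts_inj
    rw [hl, pts_eq_of H n01 n02 n12 h0 h1 h2]
  have hAB : A ≠ B := by
    rintro rfl
    exact key A hAl A0 A1 B2
  have hAC : A ≠ C := by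
    rintro rfl
    exact key A hAl A0 A1 C2
  have hBC : B ≠ C := by
    rintro rfl
    exact key B hBl B0 C1 C2
  exact ⟨e1, e2, e3, l, A, B, C,
    { ptsl := hl
      ptsA := hA
      ptsB := hB
      ptsC := hC
      lns1 := lns_eq_of H hAl.symm hBl.symm hAB l0 A0 B0
      lns2 := lns_eq_of H hAl.symm hCl.symm hAC l1 A1 C1
      lns3 := lns_eq_of H hBl.symm hCl.symm hBC l2 B2 C2
      K1 := K0
      K2 := K1
      K3 := K2 }⟩

end Inc

end Pool.Agent.OLD57
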