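import Pool.Agent.OLD57.KBasic

/-!
# Module OLD57/Deg3

A point `x` with three K-neighbours is the centre of a star or the centre of a paw.

PROOF. `deg3_lines`: `mid_line` gives lines `p1 = {a, x, b}`, `p2 = {b, x, c}`, `p3 = {a, x, c}`
(as sets `{x, a, b}` etc.); they are different (`c ∉ pts p1` etc.), so `lns x = {p1, p2, p3}`
(`lns_eq_of`). `p1 ≠ p3` are in `lns a`, `exists_lns2` gives `na`; similarly `nb`, `nc`.
`deg3_K`: let `K a z`, `z ≠ x`. `a` and `z` have two common lines among `p1, p3, na`; if these are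
`p1, p3`: `z ∈ pts p1 ∩ pts p3 = {x, a}` (`inter_eq`), contradiction. So `z ∈ pts na` and
(`z ∈ pts p1 = {x, a, b}`, so `z = b`, or `z ∈ pts p3`, so `z = c`). If `z = b`: `b ∈ pts na`, so
`na ∈ lns b = {p1, p2, nb}`; `na ≠ p1`; `na ≠ p2` because `a ∉ pts p2`; so `na = nb`. Conversely if
`na = nb` then `a, b` are on `p1 ≠ na`: `K a b`. Same for `c`.
`deg3`: by `deg3_K` (also for `b` and `c`, by symmetry of the statement: exchange the roles:
`(x, b, a, c, p1, p3, p2, nb, na, nc)` and `(x, c, a, b, p3, p1, p2, nc, na, nb)`, cf. GeoStar swap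
and rot):
(i) `na, nb, nc` different: star. `Kx`: a K-neighbour of `x` shares two of `p1, p2, p3` with it, so
it is `a`, `b` or `c` (`pts p1 ∩ pts p2 = {x, b}` etc.).
(ii) exactly two equal: by symmetry `na = nb = n ≠ nc`: `pts n = {a, b, y}` (`exists_pts2`),
`y ≠ c` (otherwise `c ∈ pts n`, so `n ∈ {p2, p3, nc}`; `n ≠ p3` (`b ∉ pts p3`), `n ≠ p2`
(`a ∉ pts p2`), so `n = nc`): paw. (The paw with the pendant point `a` is
`PawCfg x b c a ..`, with the pendant point `b` it is `PawCfg x a c b ..`.)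
(iii) all equal: `a, b, c ∈ pts na`, so `{a, b, c}` is a line, and `a, b, c, x` contradict `NoCube`
(lines `{a,b,c}`, `{a,b,x}`, `{a,c,x}`, `{b,c,x}` up to the order in the sets).
-/

set_option autoImplicit false

namespace Pool.Agent.OLD57

open Finset

namespace Inc

variable {P L : Type*} [Fintype P] [DecidableEq P] [Fintype L] [DecidableEq L]
variable (H : Inc P L)

private theorem three_ne {α : Type*} [DecidableEq α] {a b c : α}
    (h : ({a, b, c} : Finset α).card = 3) : a ≠ b ∧ a ≠ c ∧ b ≠ c := by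
  refine ⟨?_, ?_, ?_⟩
  · rintro rfl
    have h1 : ({a, a, c} : Finset α) = {a, c} := by ext x; simp
    have := card_le_two (a := a) (b := c)
    rw [h1] at h
    omega
  · rintro rfl
    have h1 : ({a, b, a} : Finset α) = {a, b} := by ext x; simp; tauto
    have := card_le_two (a := a) (b := b)
    rw [h1] at h
    omega
  · rintro rfl
    have h1 : ({a, b, b} : Finset α) = {a, b} := by ext x; simp
    have := card_le_two (a := a) (b := b)
    rw [h1] at h
    omega

theorem deg3_lines {x a b c : P} (hab : a ≠ b) (hac : a ≠ c) (hbc : b ≠ c)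
    (ha : H.K x a) (hb : H.K x b) (hc : H.K x c) :
    ∃ p1 p2 p3 na nb nc : L, H.pts p1 = {x, a, b} ∧ H.pts p2 = {x, b, c} ∧
      H.pts p3 = {x, a, c} ∧ H.lns x = {p1, p2, p3} ∧ H.lns a = {p1, p3, na} ∧
      H.lns b = {p1, p2, nb} ∧ H.lns c = {p2, p3, nc} := by
  obtain ⟨p1, h1⟩ := H.mid_line ha hb hab
  obtain ⟨p2, h2⟩ := H.mid_line hb hc hbc
  obtain ⟨p3, h3⟩ := H.mid_line ha hc hac
  have g1 : H.pts p1 = {x, a, b} := by
    rw [h1]; ext z; simp only [mem_insert, mem_singleton]; tauto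
  have g2 : H.pts p2 = {x, b, c} := by
    rw [h2]; ext z; simp only [mem_insert, mem_singleton]; tauto
  have g3 : H.pts p3 = {x, a, c} := by
    rw [h3]; ext z; simp only [mem_insert, mem_singleton]; tauto
  have hxa := ha.1
  have hxb := hb.1
  have hxc := hc.1
  have q12 : p1 ≠ p2 := by
    rintro rfl
    have h5 : c ∈ H.pts p1 := by rw [g2]; simp
    rw [g1] at h5
    simp only [mem_insert, mem_singleton] at h5
    rcases h5 with h5 | h5 | h5
    · exact hxc h5.symm
    · exact hac h5.symm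
    · exact hbc h5.symm
  have q13 : p1 ≠ p3 := by
    rintro rfl
    have h5 : b ∈ H.pts p1 := by rw [g1]; simp
    rw [g3] at h5
    simp only [mem_insert, mem_singleton] at h5
    rcases h5 with h5 | h5 | h5
    · exact hxb h5.symm
    · exact hab h5.symm
    · exact hbc h5
  have q23 : p2 ≠ p3 := by
    rintro rfl
    have h5 : b ∈ H.pts p2 := by rw [g2]; simp
    rw [g3] at h5
    simp only [mem_insert, mem_singleton] at h5
    rcases h5 with h5 | h5 | h5
    · exact hxb h5.symm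
    · exact hab h5.symm
    · exact hbc h5
  have hx1 : x ∈ H.pts p1 := by rw [g1]; simp
  have hx2 : x ∈ H.pts p2 := by rw [g2]; simp
  have hx3 : x ∈ H.pts p3 := by rw [g3]; simp
  have ha1 : a ∈ H.pts p1 := by rw [g1]; simp
  have ha3 : a ∈ H.pts p3 := by rw [g3]; simp
  have hb1 : b ∈ H.pts p1 := by rw [g1]; simp
  have hb2 : b ∈ H.pts p2 := by rw [g2]; simp
  have hc2 : c ∈ H.pts p2 := by rw [g2]; simp
  have hc3 : c ∈ H.pts p3 := by rw [g3]; simp
  obtain ⟨na, -, -, hna⟩ := H.exists_lns2 q13 ((H.mem_iff _ _).1 ha1) ((H.mem_iff _ _).1 ha3)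
  obtain ⟨nb, -, -, hnb⟩ := H.exists_lns2 q12 ((H.mem_iff _ _).1 hb1) ((H.mem_iff _ _).1 hb2)
  obtain ⟨nc, -, -, hnc⟩ := H.exists_lns2 q23 ((H.mem_iff _ _).1 hc2) ((H.mem_iff _ _).1 hc3)
  exact ⟨p1, p2, p3, na, nb, nc, g1, g2, g3, H.lns_eq_of q12 q13 q23 hx1 hx2 hx3, hna, hnb, hnc⟩

theorem deg3_K {x a b c : P} (hab : a ≠ b) (hac : a ≠ c) (hbc : b ≠ c) (hxa : x ≠ a)
    (hxb : x ≠ b) (hxc : x ≠ c) {p1 p2 p3 na nb nc : L} (h1 : H.pts p1 = {x, a, b})
    (h2 : H.pts p2 = {x, b, c}) (h3 : H.pts p3 = {x, a, c}) (hla : H.lns a = {p1, p3, na})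
    (hlb : H.lns b = {p1, p2, nb}) (hlc : H.lns c = {p2, p3, nc}) (z : P) :
    H.K a z ↔ z = x ∨ (z = b ∧ na = nb) ∨ (z = c ∧ na = nc) := by
  have ca := H.card_lns a
  rw [hla] at ca
  obtain ⟨d1, d2, d3⟩ := three_ne ca
  have ma : ∀ l, a ∈ H.pts l ↔ l = p1 ∨ l = p3 ∨ l = na := by
    intro l; rw [H.mem_iff, hla]; simp
  have mb : ∀ l, b ∈ H.pts l ↔ l = p1 ∨ l = p2 ∨ l = nb := by
    intro l; rw [H.mem_iff, hlb]; simp
  have mc : ∀ l, c ∈ H.pts l ↔ l = p2 ∨ l = p3 ∨ l = nc := by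
    intro l; rw [H.mem_iff, hlc]; simp
  have m1 : ∀ y, y ∈ H.pts p1 ↔ y = x ∨ y = a ∨ y = b := by
    intro y; rw [h1]; simp
  have m2 : ∀ y, y ∈ H.pts p2 ↔ y = x ∨ y = b ∨ y = c := by
    intro y; rw [h2]; simp
  have m3 : ∀ y, y ∈ H.pts p3 ↔ y = x ∨ y = a ∨ y = c := by
    intro y; rw [h3]; simp
  have na2 : na ≠ p2 := by
    intro h5
    have h6 : a ∈ H.pts p2 := by rw [← h5]; exact (ma na).2 (Or.inr (Or.inr rfl))
    rcases (m2 a).1 h6 with h7 | h7 | h7
    · exact hxa h7.symm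
    · exact hab h7
    · exact hac h7
  constructor
  · intro hK
    by_cases hzx : z = x
    · exact Or.inl hzx
    right
    have haz := hK.1
    have key : z ∈ H.pts na ∧ (z ∈ H.pts p1 ∨ z ∈ H.pts p3) := by
      obtain ⟨m, m', hmm, k1, k2, k3, k4, -⟩ := H.two_lines hK
      have hno : ¬ (z ∈ H.pts p1 ∧ z ∈ H.pts p3) := by
        rintro ⟨u, v⟩
        rcases (m1 z).1 u with u | u | u
        · exact hzx u
        · exact haz u.symm
        · rcases (m3 z).1 v with v | v | v
          · exact hzx v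
          · exact haz v.symm
          · exact hbc (u.symm.trans v)
      rcases (ma m).1 k1 with u | u | u <;> rcases (ma m').1 k3 with v | v | v
      · exact absurd (u.trans v.symm) hmm
      · rw [u] at k2; rw [v] at k4; exact absurd ⟨k2, k4⟩ hno
      · rw [u] at k2; rw [v] at k4; exact ⟨k4, Or.inl k2⟩
      · rw [u] at k2; rw [v] at k4; exact absurd ⟨k4, k2⟩ hno
      · exact absurd (u.trans v.symm) hmm
      · rw [u] at k2; rw [v] at k4; exact ⟨k4, Or.inr k2⟩
      · rw [u] at k2; rw [v] at k4; exact ⟨k2, Or.inl k4⟩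
      · rw [u] at k2; rw [v] at k4; exact ⟨k2, Or.inr k4⟩
      · exact absurd (u.trans v.symm) hmm
    obtain ⟨kz, kz1 | kz3⟩ := key
    · left
      rcases (m1 z).1 kz1 with u | u | u
      · exact absurd u hzx
      · exact absurd u.symm haz
      · refine ⟨u, ?_⟩
        rw [u] at kz
        rcases (mb na).1 kz with v | v | v
        · exact absurd v.symm d2
        · exact absurd v na2
        · exact v
    · right
      rcases (m3 z).1 kz3 with u | u | u
      · exact absurd u hzx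
      · exact absurd u.symm haz
      · refine ⟨u, ?_⟩
        rw [u] at kz
        rcases (mc na).1 kz with v | v | v
        · exact absurd v na2
        · exact absurd v.symm d3
        · exact v
  · rintro (rfl | ⟨rfl, hn⟩ | ⟨rfl, hn⟩)
    · exact H.K_of hxa.symm d1 ((ma p1).2 (Or.inl rfl)) ((m1 z).2 (Or.inl rfl))
        ((ma p3).2 (Or.inr (Or.inl rfl))) ((m3 z).2 (Or.inl rfl))
    · refine H.K_of hab d2 ((ma p1).2 (Or.inl rfl)) ((mb p1).2 (Or.inl rfl))
        ((ma na).2 (Or.inr (Or.inr rfl))) ?_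
      rw [hn]; exact (mb nb).2 (Or.inr (Or.inr rfl))
    · refine H.K_of hac d3 ((ma p3).2 (Or.inr (Or.inl rfl))) ((mc p3).2 (Or.inr (Or.inl rfl)))
        ((ma na).2 (Or.inr (Or.inr rfl))) ?_
      rw [hn]; exact (mc nc).2 (Or.inr (Or.inr rfl))

private theorem swap3 {α : Type*} [DecidableEq α] (a b c : α) :
    ({a, b, c} : Finset α) = {b, a, c} := by
  ext z; simp only [mem_insert, mem_singleton]; tauto

private theorem swap3' {α : Type*} [DecidableEq α] (a b c : α) :
    ({a, b, c} : Finset α) = {a, c, b} := by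
  ext z; simp only [mem_insert, mem_singleton]; tauto

private theorem deg3_Kx {x a b c : P} (hab : a ≠ b) (hac : a ≠ c) (hbc : b ≠ c) (hxa : x ≠ a)
    (hxb : x ≠ b) (hxc : x ≠ c) {p1 p2 p3 : L} (h1 : H.pts p1 = {x, a, b})
    (h2 : H.pts p2 = {x, b, c}) (h3 : H.pts p3 = {x, a, c}) (hlx : H.lns x = {p1, p2, p3})
    (z : P) : H.K x z ↔ z = a ∨ z = b ∨ z = c := by
  have cx := H.card_lns x
  rw [hlx] at cx
  obtain ⟨d1, d2, d3⟩ := three_ne cx
  have mx : ∀ l, x ∈ H.pts l ↔ l = p1 ∨ l = p2 ∨ l = p3 := by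
    intro l; rw [H.mem_iff, hlx]; simp
  have m1 : ∀ y, y ∈ H.pts p1 ↔ y = x ∨ y = a ∨ y = b := by
    intro y; rw [h1]; simp
  have m2 : ∀ y, y ∈ H.pts p2 ↔ y = x ∨ y = b ∨ y = c := by
    intro y; rw [h2]; simp
  have m3 : ∀ y, y ∈ H.pts p3 ↔ y = x ∨ y = a ∨ y = c := by
    intro y; rw [h3]; simp
  constructor
  · intro hK
    have hxz := hK.1
    obtain ⟨m, m', hmm, k1, k2, k3, k4, -⟩ := H.two_lines hK
    rcases (mx m).1 k1 with u | u | u <;> rw [u] at k2
    · rcases (m1 z).1 k2 with w | w | w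
      · exact absurd w.symm hxz
      · exact Or.inl w
      · exact Or.inr (Or.inl w)
    · rcases (m2 z).1 k2 with w | w | w
      · exact absurd w.symm hxz
      · exact Or.inr (Or.inl w)
      · exact Or.inr (Or.inr w)
    · rcases (m3 z).1 k2 with w | w | w
      · exact absurd w.symm hxz
      · exact Or.inl w
      · exact Or.inr (Or.inr w)
  · rintro (rfl | rfl | rfl)
    · exact H.K_of hxa d2 ((mx p1).2 (Or.inl rfl)) ((m1 _).2 (Or.inr (Or.inl rfl)))
        ((mx p3).2 (Or.inr (Or.inr rfl))) ((m3 _).2 (Or.inr (Or.inl rfl)))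
    · exact H.K_of hxb d1 ((mx p1).2 (Or.inl rfl)) ((m1 _).2 (Or.inr (Or.inr rfl)))
        ((mx p2).2 (Or.inr (Or.inl rfl))) ((m2 _).2 (Or.inr (Or.inl rfl)))
    · exact H.K_of hxc d3 ((mx p2).2 (Or.inr (Or.inl rfl))) ((m2 _).2 (Or.inr (Or.inr rfl)))
        ((mx p3).2 (Or.inr (Or.inr rfl))) ((m3 _).2 (Or.inr (Or.inr rfl)))

private theorem paw_of {x a b c : P} (hab : a ≠ b) (hac : a ≠ c) (hbc : b ≠ c) (hxa : x ≠ a)
    (hxb : x ≠ b) (hxc : x ≠ c) {p1 p2 p3 n nc : L} (h1 : H.pts p1 = {x, a, b})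
    (h2 : H.pts p2 = {x, b, c}) (h3 : H.pts p3 = {x, a, c}) (hlx : H.lns x = {p1, p2, p3})
    (hla : H.lns a = {p1, p3, n}) (hlb : H.lns b = {p1, p2, n}) (hlc : H.lns c = {p2, p3, nc})
    (hn : n ≠ nc) : ∃ y, PawCfg H x a b c y p1 p2 p3 n nc := by
  have man : a ∈ H.pts n := by rw [H.mem_iff, hla]; simp
  have mbn : b ∈ H.pts n := by rw [H.mem_iff, hlb]; simp
  obtain ⟨y, hya, hyb, hpn⟩ := H.exists_pts2 hab man mbn
  have m2 : ∀ y, y ∈ H.pts p2 ↔ y = x ∨ y = b ∨ y = c := by
    intro y; rw [h2]; simp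
  have m3 : ∀ y, y ∈ H.pts p3 ↔ y = x ∨ y = a ∨ y = c := by
    intro y; rw [h3]; simp
  have hyc : y ≠ c := by
    intro h5
    have h6 : c ∈ H.pts n := by rw [hpn, h5]; simp
    rw [H.mem_iff, hlc] at h6
    simp only [mem_insert, mem_singleton] at h6
    rcases h6 with h6 | h6 | h6
    · rw [h6] at man
      rcases (m2 a).1 man with w | w | w
      · exact hxa w.symm
      · exact hab w
      · exact hac w
    · rw [h6] at mbn
      rcases (m3 b).1 mbn with w | w | w
      · exact hxb w.symm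
      · exact hab w.symm
      · exact hbc w
    · exact hn h6
  refine ⟨y, ?_⟩
  refine { ptsp1 := h1, ptsp2 := h2, ptsp3 := h3, ptsn := hpn, lnsx := hlx, lnsa := hla,
           lnsb := hlb, lnsc := hlc, yc := hyc,
           Kx := deg3_Kx H hab hac hbc hxa hxb hxc h1 h2 h3 hlx, Ka := ?_, Kb := ?_, Kc := ?_ }
  · intro z
    rw [deg3_K H hab hac hbc hxa hxb hxc h1 h2 h3 hla hlb hlc z]
    constructor
    · rintro (w | ⟨w, -⟩ | ⟨w, w'⟩)
      · exact Or.inl w
      · exact Or.inr w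
      · exact absurd w' hn
    · rintro (w | w)
      · exact Or.inl w
      · exact Or.inr (Or.inl ⟨w, rfl⟩)
  · intro z
    rw [deg3_K H hab.symm hbc hac hxb hxa hxc (by rw [h1, swap3']) h3 h2 hlb hla
      (by rw [hlc, swap3]) z]
    constructor
    · rintro (w | ⟨w, -⟩ | ⟨w, w'⟩)
      · exact Or.inl w
      · exact Or.inr w
      · exact absurd w' hn
    · rintro (w | w)
      · exact Or.inl w
      · exact Or.inr (Or.inl ⟨w, rfl⟩)
  · intro z
    rw [deg3_K H hac.symm hbc.symm hab hxc hxa hxb (by rw [h3, swap3']) h1 (by rw [h2, swap3'])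
      (by rw [hlc, swap3]) (by rw [hla, swap3]) hlb z]
    constructor
    · rintro (w | ⟨w, w'⟩ | ⟨w, w'⟩)
      · exact w
      · exact absurd w'.symm hn
      · exact absurd w'.symm hn
    · intro w
      exact Or.inl w

theorem deg3 (hN : H.NoCube) {x a b c : P} (hab : a ≠ b) (hac : a ≠ c) (hbc : b ≠ c)
    (ha : H.K x a) (hb : H.K x b) (hc : H.K x c) :
    (∃ (a b c : P) (p1 p2 p3 na nb nc : L), StarCfg H x a b c p1 p2 p3 na nb nc) ∨
    (∃ (a b c y : P) (p1 p2 p3 n nc : L), PawCfg H x a b c y p1 p2 p3 n nc) := by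
  have hxa := ha.1
  have hxb := hb.1
  have hxc := hc.1
  obtain ⟨p1, p2, p3, na, nb, nc, h1, h2, h3, hlx, hla, hlb, hlc⟩ :=
    deg3_lines H hab hac hbc ha hb hc
  have ka := deg3_K H hab hac hbc hxa hxb hxc h1 h2 h3 hla hlb hlc
  have kb := deg3_K H hab.symm hbc hac hxb hxa hxc (by rw [h1, swap3']) h3 h2 hlb hla
      (by rw [hlc, swap3])
  have kc := deg3_K H hac.symm hbc.symm hab hxc hxa hxb (by rw [h3, swap3']) h1
      (by rw [h2, swap3']) (by rw [hlc, swap3]) (by rw [hla, swap3]) hlb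
  by_cases e1 : na = nb
  · by_cases e2 : na = nc
    · exfalso
      have man : a ∈ H.pts na := by rw [H.mem_iff, hla]; simp
      have mbn : b ∈ H.pts na := by rw [e1, H.mem_iff, hlb]; simp
      have mcn : c ∈ H.pts na := by rw [e2, H.mem_iff, hlc]; simp
      have hp := H.pts_eq_of hab hac hbc man mbn mcn
      refine hN a b c x hab hac hxa.symm hbc hxb.symm hxc.symm ⟨⟨na, hp.symm⟩, ⟨p1, ?_⟩,
        ⟨p3, ?_⟩, ⟨p2, ?_⟩⟩
      · rw [h1]; ext z; simp only [mem_insert, mem_singleton]; tauto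
      · rw [h3]; ext z; simp only [mem_insert, mem_singleton]; tauto
      · rw [h2]; ext z; simp only [mem_insert, mem_singleton]; tauto
    · right
      rw [← e1] at hlb
      obtain ⟨y, hy⟩ := paw_of H hab hac hbc hxa hxb hxc h1 h2 h3 hlx hla hlb hlc e2
      exact ⟨a, b, c, y, p1, p2, p3, na, nc, hy⟩
  · by_cases e2 : na = nc
    · right
      rw [← e2] at hlc
      have hlx' : H.lns x = {p3, p2, p1} := by
        rw [hlx]; ext z; simp only [mem_insert, mem_singleton]; tauto
      obtain ⟨y, hy⟩ := paw_of H hac hab hbc.symm hxa hxc hxb h3 (by rw [h2, swap3']) h1 hlx'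
        (by rw [hla, swap3]) (by rw [hlc, swap3]) (by rw [hlb, swap3]) e1
      exact ⟨a, c, b, y, p3, p2, p1, na, nb, hy⟩
    · by_cases e3 : nb = nc
      · right
        rw [← e3] at hlc
        have hlx' : H.lns x = {p2, p3, p1} := by
          rw [hlx]; ext z; simp only [mem_insert, mem_singleton]; tauto
        obtain ⟨y, hy⟩ := paw_of H hbc hab.symm hac.symm hxb hxc hxa h2 (by rw [h3, swap3'])
          (by rw [h1, swap3']) hlx' (by rw [hlb, swap3]) hlc (by rw [hla, swap3])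
          (fun h => e1 h.symm)
        exact ⟨b, c, a, y, p2, p3, p1, nb, na, hy⟩
      · left
        refine ⟨a, b, c, p1, p2, p3, na, nb, nc, ?_⟩
        refine { ptsp1 := h1, ptsp2 := h2, ptsp3 := h3, lnsx := hlx, lnsa := hla, lnsb := hlb,
                 lnsc := hlc, Kx := deg3_Kx H hab hac hbc hxa hxb hxc h1 h2 h3 hlx, Ka := ?_,
                 Kb := ?_, Kc := ?_ }
        · intro z
          rw [ka z]
          constructor
          · rintro (w | ⟨-, w⟩ | ⟨-, w⟩)
            · exact w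
            · exact absurd w e1
            · exact absurd w e2
          · exact fun w => Or.inl w
        · intro z
          rw [kb z]
          constructor
          · rintro (w | ⟨-, w⟩ | ⟨-, w⟩)
            · exact w
            · exact absurd w.symm e1
            · exact absurd w e3
          · exact fun w => Or.inl w
        · intro z
          rw [kc z]
          constructor
          · rintro (w | ⟨-, w⟩ | ⟨-, w⟩)
            · exact w
            · exact absurd w.symm e2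
            · exact absurd w.symm e3
          · exact fun w => Or.inl w

end Inc

end Pool.Agent.OLD57
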