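import Pool.Agent.OLD57.NumGen

/-!
# Module OLD57/Num (complete)

The numerical facts for `T = 4096`.
-/

set_option autoImplicit false

namespace Pool.Agent.OLD57

open Finset

theorem num_NNN : 286 / 1000 ≤ avg 4096 (fun t => fN t * fN t * fN t) := by
  have := avg_ge (T := 4096) 12 18 286 1000 (by norm_num) (by norm_num) (fun t => fN t * fN t * fN t)
    (fun j => nN j * nN j * nN j) (by
      intro j hj
      have h0 := nN_spec hj
      push_cast
      rw [← h0]; try ring) (by decide +kernel)
  exact_mod_cast this

theorem num_MNN : 256 / 1000 ≤ avg 4096 (fun t => fM t * fN t * fN t) := by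
  have := avg_ge (T := 4096) 12 17 256 1000 (by norm_num) (by norm_num) (fun t => fM t * fN t * fN t)
    (fun j => nM j * nN j * nN j) (by
      intro j hj
      have h0 := nM_spec hj
      have h1 := nN_spec hj
      push_cast
      rw [← h0, ← h1]; try ring) (by decide +kernel)
  exact_mod_cast this

theorem num_MMN : 226 / 1000 ≤ avg 4096 (fun t => fM t * fM t * fN t) := by
  have := avg_ge (T := 4096) 12 16 226 1000 (by norm_num) (by norm_num) (fun t => fM t * fM t * fN t)
    (fun j => nM j * nM j * nN j) (by
      intro j hj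
      have h0 := nM_spec hj
      have h1 := nN_spec hj
      push_cast
      rw [← h0, ← h1]; try ring) (by decide +kernel)
  exact_mod_cast this

theorem num_MMM : 196 / 1000 ≤ avg 4096 (fun t => fM t * fM t * fM t) := by
  have := avg_ge (T := 4096) 12 15 196 1000 (by norm_num) (by norm_num) (fun t => fM t * fM t * fM t)
    (fun j => nM j * nM j * nM j) (by
      intro j hj
      have h0 := nM_spec hj
      push_cast
      rw [← h0]; try ring) (by decide +kernel)
  exact_mod_cast this

theorem num_G2N : 322 / 1000 ≤ avg 4096 (fun t => fG2 t * fN t) := by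
  have := avg_ge (T := 4096) 12 17 322 1000 (by norm_num) (by norm_num) (fun t => fG2 t * fN t)
    (fun j => nG2 j * nN j) (by
      intro j hj
      have h0 := nG2_spec hj
      have h1 := nN_spec hj
      push_cast
      rw [← h0, ← h1]; try ring) (by decide +kernel)
  exact_mod_cast this

theorem num_G2M : 292 / 1000 ≤ avg 4096 (fun t => fG2 t * fM t) := by
  have := avg_ge (T := 4096) 12 16 292 1000 (by norm_num) (by norm_num) (fun t => fG2 t * fM t)
    (fun j => nG2 j * nM j) (by
      intro j hj
      have h0 := nG2_spec hj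
      have h1 := nM_spec hj
      push_cast
      rw [← h0, ← h1]; try ring) (by decide +kernel)
  exact_mod_cast this

theorem num_G33N : 303 / 1000 ≤ avg 4096 (fun t => fG33 t * fN t) := by
  have := avg_ge (T := 4096) 12 16 303 1000 (by norm_num) (by norm_num) (fun t => fG33 t * fN t)
    (fun j => nG33 j * nN j) (by
      intro j hj
      have h0 := nG33_spec hj
      have h1 := nN_spec hj
      push_cast
      rw [← h0, ← h1]; try ring) (by decide +kernel)
  exact_mod_cast this

theorem num_G33M : 248 / 1000 ≤ avg 4096 (fun t => fG33 t * fM t) := by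
  have := avg_ge (T := 4096) 12 15 248 1000 (by norm_num) (by norm_num) (fun t => fG33 t * fM t)
    (fun j => nG33 j * nM j) (by
      intro j hj
      have h0 := nG33_spec hj
      have h1 := nM_spec hj
      push_cast
      rw [← h0, ← h1]; try ring) (by decide +kernel)
  exact_mod_cast this

theorem num_Mid : 4005 / 10000 ≤ avg 4096 (fun t => fMid t) := by
  have := avg_ge (T := 4096) 12 9 4005 10000 (by norm_num) (by norm_num) (fun t => fMid t)
    (fun j => nMid j) (by
      intro j hj
      have h0 := nMid_spec hj
      push_cast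
      rw [← h0]; try ring) (by decide +kernel)
  exact_mod_cast this

theorem num_G32N : 3058 / 10000 ≤ avg 4096 (fun t => fG32 t * fN t) := by
  have := avg_ge (T := 4096) 12 14 3058 10000 (by norm_num) (by norm_num) (fun t => fG32 t * fN t)
    (fun j => nG32 j * nN j) (by
      intro j hj
      have h0 := nG32_spec hj
      have h1 := nN_spec hj
      push_cast
      rw [← h0, ← h1]; try ring) (by decide +kernel)
  exact_mod_cast this

theorem num_G32M : 2498 / 10000 ≤ avg 4096 (fun t => fG32 t * fM t) := by
  have := avg_ge (T := 4096) 12 13 2498 10000 (by norm_num) (by norm_num) (fun t => fG32 t * fM t)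
    (fun j => nG32 j * nM j) (by
      intro j hj
      have h0 := nG32_spec hj
      have h1 := nM_spec hj
      push_cast
      rw [← h0, ← h1]; try ring) (by decide +kernel)
  exact_mod_cast this

theorem num_G32M' : 25389 / 100000 ≤ avg 4096 (fun t => fG32 t * fM' t) := by
  have := avg_ge (T := 4096) 12 13 25389 100000 (by norm_num) (by norm_num) (fun t => fG32 t * fM' t)
    (fun j => nG32 j * nM' j) (by
      intro j hj
      have h0 := nG32_spec hj
      have h1 := nM'_spec hj
      push_cast
      rw [← h0, ← h1]; try ring) (by decide +kernel)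
  exact_mod_cast this

theorem num_In : 31813 / 100000 ≤ avg 4096 (fun t => fIn t) := by
  have := avg_ge (T := 4096) 12 8 31813 100000 (by norm_num) (by norm_num) (fun t => fIn t)
    (fun j => nIn j) (by
      intro j hj
      have h0 := nIn_spec hj
      push_cast
      rw [← h0]; try ring) (by decide +kernel)
  exact_mod_cast this

theorem num_LeafN : 262 / 1000 ≤ avg 4096 (fun t => fLeaf t * fN t) := by
  have := avg_ge (T := 4096) 12 14 262 1000 (by norm_num) (by norm_num) (fun t => fLeaf t * fN t)
    (fun j => nLeaf j * nN j) (by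
      intro j hj
      have h0 := nLeaf_spec hj
      have h1 := nN_spec hj
      push_cast
      rw [← h0, ← h1]; try ring) (by decide +kernel)
  exact_mod_cast this

theorem num_LeafM : 2179 / 10000 ≤ avg 4096 (fun t => fLeaf t * fM t) := by
  have := avg_ge (T := 4096) 12 13 2179 10000 (by norm_num) (by norm_num) (fun t => fLeaf t * fM t)
    (fun j => nLeaf j * nM j) (by
      intro j hj
      have h0 := nLeaf_spec hj
      have h1 := nM_spec hj
      push_cast
      rw [← h0, ← h1]; try ring) (by decide +kernel)
  exact_mod_cast this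

theorem num_Tri : 3252 / 10000 ≤ avg 4096 (fun t => fTri t) := by
  have := avg_ge (T := 4096) 12 8 3252 10000 (by norm_num) (by norm_num) (fun t => fTri t)
    (fun j => nTri j) (by
      intro j hj
      have h0 := nTri_spec hj
      push_cast
      rw [← h0]; try ring) (by decide +kernel)
  exact_mod_cast this

theorem num_Six : 474 / 1000 ≤ avg 4096 (fun t => (1 - t ^ 3) ^ 6) := by
  have := avg_ge (T := 4096) 12 18 474 1000 (by norm_num) (by norm_num)
    (fun t => (1 - t ^ 3) ^ 6) (fun j => (4096 ^ 3 - j ^ 3) ^ 6) (by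
      intro j hj
      have h3 : j ^ 3 ≤ 4096 ^ 3 := Nat.pow_le_pow_left hj 3
      have e : ((4096 ^ 3 - j ^ 3 : ℕ) : ℝ) = 4096 ^ 3 - (j : ℝ) ^ 3 := by
        rw [Nat.cast_sub h3, Nat.cast_pow, Nat.cast_pow]; norm_num
      rw [Nat.cast_pow, e]
      push_cast
      ring) (by decide +kernel)
  exact_mod_cast this

theorem num_PawX : 4498 / 10000 ≤ avg 4096 (fun t => (1 - t) * (1 - t ^ 3)) := by
  have := avg_ge (T := 4096) 12 4 4498 10000 (by norm_num) (by norm_num)
    (fun t => (1 - t) * (1 - t ^ 3)) (fun j => (4096 - j) * (4096 ^ 3 - j ^ 3)) (by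
      intro j hj
      have h3 : j ^ 3 ≤ 4096 ^ 3 := Nat.pow_le_pow_left hj 3
      have e : ((4096 ^ 3 - j ^ 3 : ℕ) : ℝ) = 4096 ^ 3 - (j : ℝ) ^ 3 := by
        rw [Nat.cast_sub h3, Nat.cast_pow, Nat.cast_pow]; norm_num
      rw [Nat.cast_mul, e]
      push_cast [Nat.cast_sub hj]
      ring) (by decide +kernel)
  exact_mod_cast this

theorem num_Cube : 7498 / 10000 ≤ avg 4096 (fun t => 1 - t ^ 3) := by
  have := avg_ge (T := 4096) 12 3 7498 10000 (by norm_num) (by norm_num)
    (fun t => 1 - t ^ 3) (fun j => 4096 ^ 3 - j ^ 3) (by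
      intro j hj
      have h3 : j ^ 3 ≤ 4096 ^ 3 := Nat.pow_le_pow_left hj 3
      have e : ((4096 ^ 3 - j ^ 3 : ℕ) : ℝ) = 4096 ^ 3 - (j : ℝ) ^ 3 := by
        rw [Nat.cast_sub h3, Nat.cast_pow, Nat.cast_pow]; norm_num
      rw [e]
      push_cast
      ring) (by decide +kernel)
  exact_mod_cast this

theorem num_EndN : 36 / 100 ≤ avg 4096 (fun t => (1 - t) * fN t) := by
  have := avg_ge (T := 4096) 12 7 36 100 (by norm_num) (by norm_num)
    (fun t => (1 - t) * fN t) (fun j => (4096 - j) * nN j) (by
      intro j hj
      have h0 := nN_spec hj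
      push_cast [Nat.cast_sub hj]
      rw [← h0]; ring) (by decide +kernel)
  exact_mod_cast this

theorem num_EndM : 2855 / 10000 ≤ avg 4096 (fun t => (1 - t) * fM t) := by
  have := avg_ge (T := 4096) 12 6 2855 10000 (by norm_num) (by norm_num)
    (fun t => (1 - t) * fM t) (fun j => (4096 - j) * nM j) (by
      intro j hj
      have h0 := nM_spec hj
      push_cast [Nat.cast_sub hj]
      rw [← h0]; ring) (by decide +kernel)
  exact_mod_cast this

theorem num_Sq : 6665 / 10000 ≤ avg 4096 (fun t => 1 - t ^ 2) := by
  have := avg_ge (T := 4096) 12 2 6665 10000 (by norm_num) (by norm_num)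
    (fun t => 1 - t ^ 2) (fun j => 4096 ^ 2 - j ^ 2) (by
      intro j hj
      have h3 : j ^ 2 ≤ 4096 ^ 2 := Nat.pow_le_pow_left hj 2
      have e : ((4096 ^ 2 - j ^ 2 : ℕ) : ℝ) = 4096 ^ 2 - (j : ℝ) ^ 2 := by
        rw [Nat.cast_sub h3, Nat.cast_pow, Nat.cast_pow]; norm_num
      rw [e]
      push_cast
      ring) (by decide +kernel)
  exact_mod_cast this

theorem numOK : NumOK 4096 where
  pos := by norm_num
  NNN := num_NNN
  MNN := num_MNN
  MMN := num_MMN
  MMM := num_MMM
  G2N := num_G2N
  G2M := num_G2M
  G33N := num_G33N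
  G33M := num_G33M
  Mid := num_Mid
  G32N := num_G32N
  G32M := num_G32M
  G32M' := num_G32M'
  In := num_In
  Six := num_Six
  LeafN := num_LeafN
  LeafM := num_LeafM
  Tri := num_Tri
  PawX := num_PawX
  Cube := num_Cube
  EndN := num_EndN
  EndM := num_EndM
  Half := by norm_num
  HalfSq := by norm_num
  Two := by
    have := num_Sq
    push_cast
    nlinarith [this]

end Pool.Agent.OLD57
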