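import Pool.Agent.OLD57.KBasic
import Pool.Agent.OLD57.PathFacts

/-!
# Module OLD57/PathLines

Every path of the K-graph has a configuration of lines.

PROOF. `r = 2`: `two_lines` for `x 0`, `x 1`: `l0 ≠ l1`; `exists_pts2`: `pts l0 = {x 0, x 1, e}`,
`pts l1 = {x 0, x 1, f}`; `exists_lns2` for `x 0` and `x 1`: `n0`, `n1`. `l i = if i = 0 then l0 else
l1`. (`ptsi`, `lnsi` are void.)
`r ≥ 3`: for `1 ≤ i`, `i + 1 < r` let `m i` be the line with `pts (m i) = {x (i-1), x i, x (i+1)}`
(`mid_line`, `K_succ`; choose by `if h : .. then (..).choose else ..`, or `choose` after making the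
statement total: `∀ i, ∃ m, 1 ≤ i → i + 1 < r → pts m = ..`, with an arbitrary line from
`two_lines`). Let `l0` be the other line through `x 0, x 1` (`other_line` for `m 1`), `lr` the other
line through `x (r-2), x (r-1)` (`other_line` for `m (r-2)`). `l i = if i = 0 then l0 else if
i = r - 1 then lr else m i`. `pts l0 = {e, x 0, x 1}`, `pts lr = {x (r-2), x (r-1), f}`
(`exists_pts2`). `lns (x 0) = {l0, m 1, n0}`, `lns (x (r-1)) = {m (r-2), lr, n1}` (`exists_lns2`).
`lnsi`: for `1 ≤ i`, `i + 1 < r`, `lns (x i)` contains `l (i-1)`, `l i`, `l (i+1)` (all of them pass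
through `x i`); they are different (`lns_eq_of`): `l i = m i`. `l (i-1) ≠ m i`: if `i - 1 ≥ 1`:
`x (i-2)` is in `pts (m (i-1))` but not in `pts (m i)`; if `i = 1`: `l0 ≠ m 1`. `l (i+1) ≠ m i`:
`x (i+2)`, resp. `lr ≠ m (r-2)`. `l (i-1) ≠ l (i+1)`: otherwise this line contains `x (i-1)`, `x i`,
`x (i+1)` (`x (i-1), x i ∈ pts (l (i-1))` and `x i, x (i+1) ∈ pts (l (i+1))`), so it is `m i`
(`pts_eq_of`, `pts_inj`), contradiction.
-/

set_option autoImplicit false

namespace Pool.Agent.OLD57

open Finset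

namespace Inc

variable {P L : Type*} [Fintype P] [DecidableEq P] [Fintype L] [DecidableEq L]
variable (H : Inc P L)

private theorem path_lines_two {x : ℕ → P} (h : KPath H 2 x) :
    ∃ (l : ℕ → L) (e f : P) (n0 n1 : L), PathCfg H 2 x l e f n0 n1 := by
  have h01 : H.K (x 0) (x 1) := h.K_succ H (i := 0) (by omega)
  have hne : x 0 ≠ x 1 := h01.1
  obtain ⟨m, m', hmm, a1, a2, a3, a4, -⟩ := H.two_lines h01
  obtain ⟨e, he0, he1, hpe⟩ := H.exists_pts2 hne a1 a2
  obtain ⟨f, hf0, hf1, hpf⟩ := H.exists_pts2 hne a3 a4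
  obtain ⟨n0, -, -, hn0⟩ := H.exists_lns2 hmm ((H.mem_iff _ _).1 a1) ((H.mem_iff _ _).1 a3)
  obtain ⟨n1, -, -, hn1⟩ := H.exists_lns2 hmm ((H.mem_iff _ _).1 a2) ((H.mem_iff _ _).1 a4)
  refine ⟨fun i => if i = 0 then m else m', e, f, n0, n1, ?_⟩
  refine { toKPath := h, pts0 := ?_, ptsi := ?_, ptsr := ?_, lns0 := ?_, lnsi := ?_, lnsr := ?_ }
  · simp only [if_true]
    rw [hpe]
    ext z
    simp only [mem_insert, mem_singleton]
    tauto
  · intro i h1 h2
    omega
  · have h3 : (if (2 - 1 : ℕ) = 0 then m else m') = m' := by norm_num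
    simp only [h3]
    exact hpf
  · simp only [if_true]
    have h3 : (if (1 : ℕ) = 0 then m else m') = m' := by norm_num
    rw [h3]
    exact hn0
  · intro i h1 h2
    omega
  · have h3 : (if (2 - 1 : ℕ) = 0 then m else m') = m' := by norm_num
    have h4 : (if (2 - 2 : ℕ) = 0 then m else m') = m := by norm_num
    simp only [h3, h4]
    exact hn1

private theorem path_lines_ge {r : ℕ} {x : ℕ → P} (h : KPath H r x) (hr : 3 ≤ r) :
    ∃ (l : ℕ → L) (e f : P) (n0 n1 : L), PathCfg H r x l e f n0 n1 := by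
  have hex : ∀ i : ℕ, ∃ m : L, 1 ≤ i → i + 1 < r → H.pts m = {x (i - 1), x i, x (i + 1)} := by
    intro i
    by_cases hi : 1 ≤ i ∧ i + 1 < r
    · obtain ⟨h1, h2⟩ := hi
      have k1 : H.K (x i) (x (i - 1)) := by
        have := h.K_succ H (i := i - 1) (by omega)
        rw [show i - 1 + 1 = i by omega] at this
        exact H.K_symm this
      have k2 : H.K (x i) (x (i + 1)) := h.K_succ H (by omega)
      have k3 : x (i - 1) ≠ x (i + 1) := h.ne H (by omega) (by omega) (by omega)
      obtain ⟨m, hm⟩ := H.mid_line k1 k2 k3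
      exact ⟨m, fun _ _ => hm⟩
    · have h01 : H.K (x 0) (x 1) := h.K_succ H (i := 0) (by omega)
      obtain ⟨m, -⟩ := H.two_lines h01
      exact ⟨m, fun h1 h2 => absurd ⟨h1, h2⟩ hi⟩
  choose m hm using hex
  have hm1 := hm 1 le_rfl (by omega)
  rw [show 1 - 1 = 0 by rfl, show 1 + 1 = 2 by rfl] at hm1
  have hmr := hm (r - 2) (by omega) (by omega)
  rw [show r - 2 + 1 = r - 1 by omega] at hmr
  have k01 : H.K (x 0) (x 1) := h.K_succ H (i := 0) (by omega)
  have kr : H.K (x (r - 2)) (x (r - 1)) := by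
    have := h.K_succ H (i := r - 2) (by omega)
    rwa [show r - 2 + 1 = r - 1 by omega] at this
  have a0 : x 0 ∈ H.pts (m 1) := by rw [hm1]; simp
  have a1 : x 1 ∈ H.pts (m 1) := by rw [hm1]; simp
  have b0 : x (r - 2) ∈ H.pts (m (r - 2)) := by rw [hmr]; simp
  have b1 : x (r - 1) ∈ H.pts (m (r - 2)) := by rw [hmr]; simp
  obtain ⟨l0, hl0, c0, c1, -⟩ := H.other_line k01 a0 a1
  obtain ⟨lr, hlr, d0, d1, -⟩ := H.other_line kr b0 b1
  obtain ⟨e, -, -, hpe⟩ := H.exists_pts2 k01.1 c0 c1
  obtain ⟨f, -, -, hpf⟩ := H.exists_pts2 kr.1 d0 d1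
  obtain ⟨n0, -, -, hn0⟩ := H.exists_lns2 hl0 ((H.mem_iff _ _).1 c0) ((H.mem_iff _ _).1 a0)
  obtain ⟨n1, -, -, hn1⟩ := H.exists_lns2 hlr.symm ((H.mem_iff _ _).1 b1) ((H.mem_iff _ _).1 d1)
  set l : ℕ → L := fun i => if i = 0 then l0 else if i = r - 1 then lr else m i with hl
  have e0 : l 0 = l0 := by simp only [hl]; simp
  have er : l (r - 1) = lr := by
    have h3 : r - 1 ≠ 0 := by omega
    simp only [hl, if_neg h3, if_true]
  have ei : ∀ i, 1 ≤ i → i + 1 < r → l i = m i := by
    intro i h1 h2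
    simp only [hl]
    rw [if_neg (by omega), if_neg (by omega)]
  have hpts : ∀ i, 1 ≤ i → i + 1 < r → H.pts (l i) = {x (i - 1), x i, x (i + 1)} := by
    intro i h1 h2
    rw [ei i h1 h2]
    exact hm i h1 h2
  refine ⟨l, e, f, n0, n1, ?_⟩
  refine { toKPath := h, pts0 := ?_, ptsi := hpts, ptsr := ?_, lns0 := ?_, lnsi := ?_, lnsr := ?_ }
  · rw [e0, hpe]
    ext z
    simp only [mem_insert, mem_singleton]
    tauto
  · rw [er, hpf]
  · rw [e0, ei 1 le_rfl (by omega), hn0]
  · intro i h1 h2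
    have m1 : x (i - 1) ∈ H.pts (l (i - 1)) ∧ x i ∈ H.pts (l (i - 1)) := by
      by_cases hi : i = 1
      · subst hi
        rw [show 1 - 1 = 0 by rfl, e0]
        exact ⟨c0, c1⟩
      · rw [hpts (i - 1) (by omega) (by omega), show i - 1 + 1 = i by omega]
        constructor <;> simp
    have m3 : x i ∈ H.pts (l (i + 1)) ∧ x (i + 1) ∈ H.pts (l (i + 1)) := by
      by_cases hi : i + 1 = r - 1
      · rw [hi, er]
        have : i = r - 2 := by omega
        rw [this]
        exact ⟨d0, d1⟩
      · rw [hpts (i + 1) (by omega) (by omega), show i + 1 - 1 = i by omega]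
        constructor <;> simp
    have m2 : x i ∈ H.pts (l i) := by rw [hpts i h1 h2]; simp
    have n12 : l (i - 1) ≠ l i := by
      by_cases hi : i = 1
      · subst hi
        rw [show 1 - 1 = 0 by rfl, e0, ei 1 le_rfl (by omega)]
        exact hl0
      · intro heq
        have h5 : x (i - 1 - 1) ∈ H.pts (l (i - 1)) := by
          rw [hpts (i - 1) (by omega) (by omega)]; simp
        rw [heq, hpts i h1 h2] at h5
        simp only [mem_insert, mem_singleton] at h5
        rcases h5 with h5 | h5 | h5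
        · have := h.inj _ (by omega) _ (by omega) h5; omega
        · have := h.inj _ (by omega) _ (by omega) h5; omega
        · have := h.inj _ (by omega) _ (by omega) h5; omega
    have n23 : l i ≠ l (i + 1) := by
      by_cases hi : i + 1 = r - 1
      · rw [hi, er, ei i h1 h2]
        have : i = r - 2 := by omega
        rw [this]
        exact hlr.symm
      · intro heq
        have h5 : x (i + 1 + 1) ∈ H.pts (l (i + 1)) := by
          rw [hpts (i + 1) (by omega) (by omega)]; simp
        rw [← heq, hpts i h1 h2] at h5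
        simp only [mem_insert, mem_singleton] at h5
        rcases h5 with h5 | h5 | h5
        · have := h.inj _ (by omega) _ (by omega) h5; omega
        · have := h.inj _ (by omega) _ (by omega) h5; omega
        · have := h.inj _ (by omega) _ (by omega) h5; omega
    have n13 : l (i - 1) ≠ l (i + 1) := by
      intro heq
      have h6 : x (i - 1) ≠ x i := h.ne H (by omega) (by omega) (by omega)
      have h7 : x (i - 1) ≠ x (i + 1) := h.ne H (by omega) (by omega) (by omega)
      have h8 : x i ≠ x (i + 1) := h.ne H (by omega) (by omega) (by omega)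
      have h9 : x (i + 1) ∈ H.pts (l (i - 1)) := by rw [heq]; exact m3.2
      have h10 := H.pts_eq_of h6 h7 h8 m1.1 m1.2 h9
      rw [← hpts i h1 h2] at h10
      exact n12 (H.pts_inj _ _ h10)
    exact H.lns_eq_of n12 n13 n23 m1.2 m2 m3.1
  · rw [er, ei (r - 2) (by omega) (by omega), hn1]

theorem path_lines {r : ℕ} {x : ℕ → P} (h : KPath H r x) :
    ∃ (l : ℕ → L) (e f : P) (n0 n1 : L), PathCfg H r x l e f n0 n1 := by
  by_cases hr : 3 ≤ r
  · exact path_lines_ge H h hr
  · have h2 := h.two_le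
    have h3 : r = 2 := by omega
    subst h3
    exact path_lines_two H h

end Inc

end Pool.Agent.OLD57
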