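import Pool.Agent.OLD57.Classify
import Pool.Agent.OLD57.Deg3
import Pool.Agent.OLD57.PathLines
import Pool.Agent.OLD57.CycLines
import Pool.Agent.OLD57.CompSingle
import Pool.Agent.OLD57.CompP2
import Pool.Agent.OLD57.CompP3
import Pool.Agent.OLD57.CompP4
import Pool.Agent.OLD57.CompOdd
import Pool.Agent.OLD57.CompEven
import Pool.Agent.OLD57.CompStar
import Pool.Agent.OLD57.CompTri
import Pool.Agent.OLD57.CompPaw
import Pool.Agent.OLD57.CompCyc
import Pool.Agent.OLD57.Num

/-!
# Module OLD57/CompAll

The inequality holds for every component.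
-/

set_option autoImplicit false

namespace Pool.Agent.OLD57

open Finset

namespace Inc

variable {P L : Type*} [Fintype P] [DecidableEq P] [Fintype L] [DecidableEq L]
variable (H : Inc P L)

/-- Either the component has the inequality with the constant `143/500`, or it is a cycle with seven
points. -/
theorem comp_all {T : ℕ} (hN : NumOK T) (hc : H.NoCube) (x : P) :
    H.CompOKc T (143 / 500) (H.comp x) ∨
    ((∃ (z : ℤ → P) (l : ℤ → L), CycCfg H 7 z l) ∧ H.CompOKc T (2 / 7) (H.comp x)) := by
  by_cases hd : ∀ u ∈ H.comp x, ∀ a b c, a ≠ b → a ≠ c → b ≠ c → H.K u a → H.K u b → H.K u c →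
      False
  · rcases H.classify hd with ⟨h1, h2⟩ | ⟨r, y, h1, h2⟩ | ⟨k, z, h1, h2⟩
    · rw [h2]
      exact Or.inl (H.comp_single hN h1)
    · rw [h2]
      left
      obtain ⟨l, e, f, n0, n1, hp⟩ := H.path_lines h1
      have h22 := h1.two_le
      rcases Nat.lt_or_ge r 5 with hr | hr
      · interval_cases r
        · exact H.comp_P2 hN hp
        · exact H.comp_P3 hN hp
        · exact H.comp_P4 hN hp
      · rcases Nat.mod_two_eq_zero_or_one r with h0 | h0
        · exact H.comp_even hN hp (by omega) h0
        · exact H.comp_odd hN hp hr h0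
    · rw [h2]
      rcases Nat.lt_or_ge k 4 with hk | hk
      · have h3 := h1.three_le
        obtain rfl : k = 3 := by omega
        obtain ⟨e1, e2, e3, l, A, B, C, ht⟩ := H.tri_lines h1
        left
        have := H.comp_tri hN ht
        have e : ((range 3).image fun j : ℕ => z (j : ℤ)) = {z 0, z 1, z 2} := by
          ext y
          simp only [mem_image, mem_range, mem_insert, mem_singleton]
          constructor
          · rintro ⟨j, hj, rfl⟩
            interval_cases j <;> simp
          · rintro (rfl | rfl | rfl)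
            · exact ⟨0, by norm_num, rfl⟩
            · exact ⟨1, by norm_num, rfl⟩
            · exact ⟨2, by norm_num, rfl⟩
        rw [e]
        exact this
      · obtain ⟨l, hl⟩ := H.cyc_lines h1 hk
        by_cases h7 : k = 7
        · subst h7
          exact Or.inr ⟨⟨z, l, hl⟩, H.comp_cyc hN.pos hl⟩
        · exact Or.inl (H.comp_cyc' hN.pos hl h7)
  · push Not at hd
    obtain ⟨u, hu, a, b, c, hab, hac, hbc, ha, hb, hc', -⟩ := hd
    rw [H.comp_eq_of_mem hu]
    rcases H.deg3 hc hab hac hbc ha hb hc' with ⟨a, b, c, p1, p2, p3, na, nb, nc, h⟩ |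
      ⟨a, b, c, y, p1, p2, p3, n, nc, h⟩
    · rw [h.comp_eq]
      exact Or.inl (H.comp_star hN h)
    · rw [h.comp_eq]
      exact Or.inl (H.comp_paw hN h)

end Inc

end Pool.Agent.OLD57
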