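import Pool.Agent.OLD57.Basic

/-!
# Module OLD57/CompEq

The component of a point of a known configuration.

PROOF. `comp_eq`: `⊇`: `mem`: reachable. `⊆`: if `y` is reachable from `x` by a walk, induction on
the walk (`SimpleGraph.Walk.rec` in the form: `∀ u v, Walk u v → u ∈ S → v ∈ S`, `Adj = K`).
`comp_eq_single`: `S = {x}`. `KPath.comp_eq`: `S = image`, closed by `K_iff`; `x i` and `x j` are
reachable from each other: by induction `x 0` reaches `x j` for all `j < r` (`K (x j) (x (j+1))` by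
`K_iff`), symmetry, transitivity. `KCyc.comp_eq`: closed: `K (x i) y` gives `y = x (i ± 1)`, and
every `x i`, `i : ℤ`, equals `x (i % k)`, `0 ≤ i % k < k` (`eq_iff`); reachable: induction on `i`
(`K (x i) (x (i+1))`). Star, paw, triangle: all the points are K-adjacent to `x` (`x1`), closed by
`Kx`, `Ka`, ....
-/

set_option autoImplicit false

namespace Pool.Agent.OLD57

open Finset

namespace Inc

variable {P L : Type*} [Fintype P] [DecidableEq P] [Fintype L] [DecidableEq L]
variable (H : Inc P L)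

private theorem CompEq_walk {S : Finset P} (hcl : ∀ y ∈ S, ∀ z, H.K y z → z ∈ S) :
    ∀ {u v : P}, H.KG.Walk u v → u ∈ S → v ∈ S
  | _, _, .nil, h => h
  | _, _, .cons a w, h => CompEq_walk hcl w (hcl _ h _ a)

theorem comp_eq {x : P} {S : Finset P} (hx : x ∈ S) (hcl : ∀ y ∈ S, ∀ z, H.K y z → z ∈ S)
    (hr : ∀ y ∈ S, H.KG.Reachable x y) : H.comp x = S := by
  classical
  ext y
  simp only [comp, mem_filter, mem_univ, true_and]
  constructor
  · rintro ⟨w⟩
    exact CompEq_walk H hcl w hx
  · exact hr y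

theorem comp_eq_single {x : P} (h : ∀ y, ¬ H.K x y) : H.comp x = {x} := by
  refine comp_eq H (mem_singleton_self x) ?_ ?_
  · intro y hy z hz
    rw [mem_singleton] at hy
    subst hy
    exact absurd hz (h z)
  · intro y hy
    rw [mem_singleton] at hy
    subst hy
    exact SimpleGraph.Reachable.refl _

private theorem CompEq_adj {x y : P} (h : H.K x y) : H.KG.Reachable x y :=
  SimpleGraph.Adj.reachable (show H.KG.Adj x y from h)

theorem KPath.comp_eq {r : ℕ} {x : ℕ → P} (h : KPath H r x) {i : ℕ} (hi : i < r) :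
    H.comp (x i) = (range r).image x := by
  have h0 : ∀ j, j < r → H.KG.Reachable (x 0) (x j) := by
    intro j
    induction j with
    | zero => intro _; exact SimpleGraph.Reachable.refl _
    | succ j ih =>
      intro hj
      refine (ih (by omega)).trans (CompEq_adj H ?_)
      exact (h.K_iff j (by omega) _).2 ⟨j + 1, hj, Or.inl rfl, rfl⟩
  refine Inc.comp_eq H (mem_image.2 ⟨i, mem_range.2 hi, rfl⟩) ?_ ?_
  · intro y hy z hz
    obtain ⟨j, hj, rfl⟩ := mem_image.1 hy
    obtain ⟨k, hk, _, rfl⟩ := (h.K_iff j (mem_range.1 hj) z).1 hz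
    exact mem_image.2 ⟨k, mem_range.2 hk, rfl⟩
  · intro y hy
    obtain ⟨j, hj, rfl⟩ := mem_image.1 hy
    exact (h0 i hi).symm.trans (h0 j (mem_range.1 hj))

theorem KCyc.comp_eq {k : ℕ} {x : ℤ → P} (h : KCyc H k x) (i : ℤ) :
    H.comp (x i) = (range k).image fun j : ℕ => x (j : ℤ) := by
  have hk : (0 : ℤ) < k := by
    have := h.three_le
    omega
  have hmem : ∀ j : ℤ, x j ∈ (range k).image fun j : ℕ => x (j : ℤ) := by
    intro j
    have h1 : 0 ≤ j % (k : ℤ) := Int.emod_nonneg _ hk.ne'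
    have h2 : j % (k : ℤ) < k := Int.emod_lt_of_pos _ hk
    refine mem_image.2 ⟨(j % (k : ℤ)).toNat, mem_range.2 (by omega), ?_⟩
    have h3 : (((j % (k : ℤ)).toNat : ℕ) : ℤ) = j % (k : ℤ) := Int.toNat_of_nonneg h1
    show x (((j % (k : ℤ)).toNat : ℕ) : ℤ) = x j
    rw [h3, h.eq_iff]
    exact ⟨-(j / k), by have := Int.emod_add_mul_ediv j k; linarith⟩
  have hstep : ∀ j : ℤ, H.KG.Reachable (x j) (x (j + 1)) := fun j =>
    CompEq_adj H ((h.K_iff j _).2 (Or.inr rfl))
  have h0 : ∀ j : ℕ, H.KG.Reachable (x 0) (x (j : ℤ)) := by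
    intro j
    induction j with
    | zero => exact SimpleGraph.Reachable.refl _
    | succ j ih =>
      refine ih.trans ?_
      have := hstep (j : ℤ)
      rwa [show ((j : ℤ) + 1) = ((j + 1 : ℕ) : ℤ) by push_cast; rfl] at this
  have hr : ∀ y ∈ (range k).image fun j : ℕ => x (j : ℤ), H.KG.Reachable (x 0) y := by
    intro y hy
    obtain ⟨j, _, rfl⟩ := mem_image.1 hy
    exact h0 j
  refine Inc.comp_eq H (hmem i) ?_ ?_
  · intro y hy z hz
    obtain ⟨j, _, rfl⟩ := mem_image.1 hy
    rcases (h.K_iff j z).1 hz with rfl | rfl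
    · exact hmem _
    · exact hmem _
  · intro y hy
    exact (hr _ (hmem i)).symm.trans (hr y hy)

theorem StarCfg.comp_eq {x a b c : P} {p1 p2 p3 na nb nc : L}
    (h : StarCfg H x a b c p1 p2 p3 na nb nc) : H.comp x = {x, a, b, c} := by
  refine Inc.comp_eq H (by simp) ?_ ?_
  · intro y hy z hz
    simp only [mem_insert, mem_singleton] at hy ⊢
    rcases hy with rfl | rfl | rfl | rfl
    · exact Or.inr ((h.Kx z).1 hz)
    · exact Or.inl ((h.Ka z).1 hz)
    · exact Or.inl ((h.Kb z).1 hz)
    · exact Or.inl ((h.Kc z).1 hz)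
  · intro y hy
    simp only [mem_insert, mem_singleton] at hy
    rcases hy with rfl | hy
    · exact SimpleGraph.Reachable.refl _
    · exact CompEq_adj H ((h.Kx y).2 hy)

theorem PawCfg.comp_eq {x a b c y : P} {p1 p2 p3 n nc : L}
    (h : PawCfg H x a b c y p1 p2 p3 n nc) : H.comp x = {x, a, b, c} := by
  refine Inc.comp_eq H (by simp) ?_ ?_
  · intro u hu z hz
    simp only [mem_insert, mem_singleton] at hu ⊢
    rcases hu with rfl | rfl | rfl | rfl
    · exact Or.inr ((h.Kx z).1 hz)
    · rcases (h.Ka z).1 hz with h1 | h1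
      · exact Or.inl h1
      · exact Or.inr (Or.inr (Or.inl h1))
    · rcases (h.Kb z).1 hz with h1 | h1
      · exact Or.inl h1
      · exact Or.inr (Or.inl h1)
    · exact Or.inl ((h.Kc z).1 hz)
  · intro u hu
    simp only [mem_insert, mem_singleton] at hu
    rcases hu with rfl | hu
    · exact SimpleGraph.Reachable.refl _
    · exact CompEq_adj H ((h.Kx u).2 hu)

theorem TriCfg.comp_eq {x1 x2 x3 e1 e2 e3 : P} {l A B C : L}
    (h : TriCfg H x1 x2 x3 e1 e2 e3 l A B C) : H.comp x1 = {x1, x2, x3} := by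
  refine Inc.comp_eq H (by simp) ?_ ?_
  · intro u hu z hz
    simp only [mem_insert, mem_singleton] at hu ⊢
    rcases hu with rfl | rfl | rfl
    · exact Or.inr ((h.K1 z).1 hz)
    · rcases (h.K2 z).1 hz with h1 | h1
      · exact Or.inl h1
      · exact Or.inr (Or.inr h1)
    · rcases (h.K3 z).1 hz with h1 | h1
      · exact Or.inl h1
      · exact Or.inr (Or.inl h1)
  · intro u hu
    simp only [mem_insert, mem_singleton] at hu
    rcases hu with rfl | hu
    · exact SimpleGraph.Reachable.refl _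
    · exact CompEq_adj H ((h.K1 u).2 hu)

end Inc

end Pool.Agent.OLD57
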