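import Pool.Agent.OLD57.GValid

/-!
# Module OLD57/Cube

If the incidence structure contains a cube then `G` is the complete graph with four vertices or the
cube.

Setting `CubeCfg`: `a, b, c, d` different, `N(v1) = {a,b,c}`, `N(v2) = {a,b,d}`, `N(v3) = {a,c,d}`,
`N(v4) = {b,c,d}`.
PROOF. `cube_basic`: `v1, ..., v4` are different (different neighbourhoods, `d ∉ N(v1)` etc.);
`N(a) ⊇ {v1, v2, v3}` by symmetry of adjacency and `|N(a)| = 3`, so equality; same for `b, c, d`.
`cube_univ`: `S = {a, b, c, d, v1, v2, v3, v4}` is closed under adjacency: `closed_univ`.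
`cube_K4`: suppose `v1 ∈ {a, b, c, d}`; `v1` is adjacent to `a, b, c`, so `v1 = d`. Then
`N(d) = {a, b, c} = {v2, v3, v4}`. `v2 ∈ {a, b, c}` is adjacent to `a`, `b`, so `v2 = c`; similarly
`v3 = b`, `v4 = a`. So all vertices are `a, b, c, d` and any two different ones are adjacent:
`G = ⊤`, `card V = 4`; the isomorphism from `Fintype.equivFinOfCardEq` (`map_rel_iff'`: adjacency
is `≠` on both sides).
`cube_Q3`: suppose `v1 ∉ {a, b, c, d}`. Then `v2 ∉`: otherwise `v2 = c` (adjacent to `a, b, d`), so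
`N(c) = {v1, v3, v4} = {a, b, d}` and `v1 ∈ {a, b, d}`; similarly `v3 ∉`, `v4 ∉`. So the eight vertices
are different. Let `e = ![a, b, c, d, v1, v2, v3, v4] : Fin 8 → V` (bijective: injective, and
surjective by `cube_univ`) and `q = ![∅, {0,1}, {0,2}, {1,2}, {0}, {1}, {2}, {0,1,2}] :
Fin 8 → Finset (Fin 3)` (bijective: `decide`). `G.Adj (e i) (e j) ↔ Q3.Adj (q i) (q j)` for all
`i, j` (64 cases by `fin_cases`; the left side by the explicit neighbourhoods, the right side by
`decide`; define a Boolean 8 by 8 table in between if convenient). So `G ≃g Q3`.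
`noCube`: `NoCube` unfolds to: there are no four such vertices; `H.Line C` is `∃ v, C = N(v)`.
-/

set_option autoImplicit false

namespace Pool.Agent.OLD57

open Finset

variable {V : Type*} [Fintype V] [DecidableEq V]

structure CubeCfg (G : SimpleGraph V) [DecidableRel G.Adj] (a b c d v1 v2 v3 v4 : V) : Prop where
  ab : a ≠ b
  ac : a ≠ c
  ad : a ≠ d
  bc : b ≠ c
  bd : b ≠ d
  cd : c ≠ d
  n1 : G.neighborFinset v1 = {a, b, c}
  n2 : G.neighborFinset v2 = {a, b, d}
  n3 : G.neighborFinset v3 = {a, c, d}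
  n4 : G.neighborFinset v4 = {b, c, d}

variable {G : SimpleGraph V} [DecidableRel G.Adj] {a b c d v1 v2 v3 v4 : V}

theorem cube_basic (h3 : G.IsRegularOfDegree 3) (h : CubeCfg G a b c d v1 v2 v3 v4) :
    v1 ≠ v2 ∧ v1 ≠ v3 ∧ v1 ≠ v4 ∧ v2 ≠ v3 ∧ v2 ≠ v4 ∧ v3 ≠ v4 ∧
      G.neighborFinset a = {v1, v2, v3} ∧ G.neighborFinset b = {v1, v2, v4} ∧
      G.neighborFinset c = {v1, v3, v4} ∧ G.neighborFinset d = {v2, v3, v4} := by
  obtain ⟨ab, ac, ad, bc, bd, cd, n1, n2, n3, n4⟩ := h
  have hne : ∀ {u w : V} (x : V), x ∈ G.neighborFinset u → x ∉ G.neighborFinset w → u ≠ w := by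
    intro u w x h1 h2 h3
    exact h2 (h3 ▸ h1)
  have h12 : v1 ≠ v2 := hne c (by rw [n1]; simp) (by
    rw [n2]; simp only [mem_insert, mem_singleton, not_or]; exact ⟨ac.symm, bc.symm, cd⟩)
  have h13 : v1 ≠ v3 := hne b (by rw [n1]; simp) (by
    rw [n3]; simp only [mem_insert, mem_singleton, not_or]; exact ⟨ab.symm, bc, bd⟩)
  have h14 : v1 ≠ v4 := hne a (by rw [n1]; simp) (by
    rw [n4]; simp only [mem_insert, mem_singleton, not_or]; exact ⟨ab, ac, ad⟩)
  have h23 : v2 ≠ v3 := hne b (by rw [n2]; simp) (by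
    rw [n3]; simp only [mem_insert, mem_singleton, not_or]; exact ⟨ab.symm, bc, bd⟩)
  have h24 : v2 ≠ v4 := hne a (by rw [n2]; simp) (by
    rw [n4]; simp only [mem_insert, mem_singleton, not_or]; exact ⟨ab, ac, ad⟩)
  have h34 : v3 ≠ v4 := hne a (by rw [n3]; simp) (by
    rw [n4]; simp only [mem_insert, mem_singleton, not_or]; exact ⟨ab, ac, ad⟩)
  have hcard : ∀ x : V, (G.neighborFinset x).card = 3 := by
    intro x
    rw [SimpleGraph.card_neighborFinset_eq_degree]
    exact h3 x
  have hsym : ∀ {x y : V}, x ∈ G.neighborFinset y → y ∈ G.neighborFinset x := by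
    intro x y hxy
    rw [SimpleGraph.mem_neighborFinset] at hxy ⊢
    exact hxy.symm
  have hthree : ∀ {x u w z : V}, x ∈ G.neighborFinset u → x ∈ G.neighborFinset w →
      x ∈ G.neighborFinset z → u ≠ w → u ≠ z → w ≠ z → G.neighborFinset x = {u, w, z} := by
    intro x u w z h1 h2 h3' huw huz hwz
    symm
    apply eq_of_subset_of_card_le
    · intro y hy
      simp only [mem_insert, mem_singleton] at hy
      rcases hy with rfl | rfl | rfl
      · exact hsym h1
      · exact hsym h2
      · exact hsym h3'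
    · rw [hcard, card_insert_of_notMem, card_insert_of_notMem, card_singleton]
      · simpa using hwz
      · simp only [mem_insert, mem_singleton, not_or]
        exact ⟨huw, huz⟩
  refine ⟨h12, h13, h14, h23, h24, h34, ?_, ?_, ?_, ?_⟩
  · exact hthree (by rw [n1]; simp) (by rw [n2]; simp) (by rw [n3]; simp) h12 h13 h23
  · exact hthree (by rw [n1]; simp) (by rw [n2]; simp) (by rw [n4]; simp) h12 h14 h24
  · exact hthree (by rw [n1]; simp) (by rw [n3]; simp) (by rw [n4]; simp) h13 h14 h34
  · exact hthree (by rw [n2]; simp) (by rw [n3]; simp) (by rw [n4]; simp) h23 h24 h34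

theorem cube_univ (hG : G.Connected) (h3 : G.IsRegularOfDegree 3)
    (h : CubeCfg G a b c d v1 v2 v3 v4) (w : V) :
    w = a ∨ w = b ∨ w = c ∨ w = d ∨ w = v1 ∨ w = v2 ∨ w = v3 ∨ w = v4 := by
  obtain ⟨-, -, -, -, -, -, na, nb, nc, nd⟩ := cube_basic h3 h
  obtain ⟨-, -, -, -, -, -, n1, n2, n3, n4⟩ := h
  have key := closed_univ hG (S := {a, b, c, d, v1, v2, v3, v4}) ⟨a, by simp⟩ (by
    intro u hu w' hw
    rw [← SimpleGraph.mem_neighborFinset] at hw
    simp only [mem_insert, mem_singleton] at hu ⊢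
    rcases hu with rfl | rfl | rfl | rfl | rfl | rfl | rfl | rfl
    · rw [na] at hw; simp only [mem_insert, mem_singleton] at hw; tauto
    · rw [nb] at hw; simp only [mem_insert, mem_singleton] at hw; tauto
    · rw [nc] at hw; simp only [mem_insert, mem_singleton] at hw; tauto
    · rw [nd] at hw; simp only [mem_insert, mem_singleton] at hw; tauto
    · rw [n1] at hw; simp only [mem_insert, mem_singleton] at hw; tauto
    · rw [n2] at hw; simp only [mem_insert, mem_singleton] at hw; tauto
    · rw [n3] at hw; simp only [mem_insert, mem_singleton] at hw; tauto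
    · rw [n4] at hw; simp only [mem_insert, mem_singleton] at hw; tauto) w
  simpa only [mem_insert, mem_singleton] using key

theorem cube_K4 (hG : G.Connected) (h3 : G.IsRegularOfDegree 3)
    (h : CubeCfg G a b c d v1 v2 v3 v4) (h1 : v1 = a ∨ v1 = b ∨ v1 = c ∨ v1 = d) :
    Nonempty (G ≃g (⊤ : SimpleGraph (Fin 4))) := by
  obtain ⟨h12, h13, h14, h23, h24, h34, na, nb, nc, nd⟩ := cube_basic h3 h
  have huniv := cube_univ hG h3 h
  obtain ⟨ab, ac, ad, bc, bd, cd, n1, n2, n3, n4⟩ := h
  have hirr : ∀ x : V, x ∉ G.neighborFinset x := fun x => by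
    rw [SimpleGraph.mem_neighborFinset]; exact G.irrefl
  have e1 : v1 = d := by
    rcases h1 with h | h | h | h
    · exact absurd (show v1 ∈ G.neighborFinset v1 by rw [n1, h]; simp) (hirr _)
    · exact absurd (show v1 ∈ G.neighborFinset v1 by rw [n1, h]; simp) (hirr _)
    · exact absurd (show v1 ∈ G.neighborFinset v1 by rw [n1, h]; simp) (hirr _)
    · exact h
  have hset : ({a, b, c} : Finset V) = {v2, v3, v4} := by rw [← n1, ← nd, e1]
  have e2 : v2 = c := by
    have hm : v2 ∈ ({a, b, c} : Finset V) := by rw [hset]; simp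
    simp only [mem_insert, mem_singleton] at hm
    rcases hm with h | h | h
    · exact absurd (show v2 ∈ G.neighborFinset v2 by rw [n2, h]; simp) (hirr _)
    · exact absurd (show v2 ∈ G.neighborFinset v2 by rw [n2, h]; simp) (hirr _)
    · exact h
  have e3 : v3 = b := by
    have hm : v3 ∈ ({a, b, c} : Finset V) := by rw [hset]; simp
    simp only [mem_insert, mem_singleton] at hm
    rcases hm with h | h | h
    · exact absurd (show v3 ∈ G.neighborFinset v3 by rw [n3, h]; simp) (hirr _)
    · exact h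
    · exact absurd (show v3 ∈ G.neighborFinset v3 by rw [n3, h]; simp) (hirr _)
  have e4 : v4 = a := by
    have hm : v4 ∈ ({a, b, c} : Finset V) := by rw [hset]; simp
    simp only [mem_insert, mem_singleton] at hm
    rcases hm with h | h | h
    · exact h
    · exact absurd (show v4 ∈ G.neighborFinset v4 by rw [n4, h]; simp) (hirr _)
    · exact absurd (show v4 ∈ G.neighborFinset v4 by rw [n4, h]; simp) (hirr _)
  have hall : ∀ w : V, w = a ∨ w = b ∨ w = c ∨ w = d := by
    intro w
    have := huniv w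
    rw [e1, e2, e3, e4] at this
    tauto
  have hadj : ∀ x y : V, G.Adj x y ↔ x ≠ y := by
    intro x y
    refine ⟨fun hxy => hxy.ne, fun hxy => ?_⟩
    rw [← SimpleGraph.mem_neighborFinset]
    rcases hall x with rfl | rfl | rfl | rfl
    · rw [na, e1, e2, e3]
      simp only [mem_insert, mem_singleton]
      rcases hall y with h | h | h | h
      · exact absurd h.symm hxy
      · exact Or.inr (Or.inr h)
      · exact Or.inr (Or.inl h)
      · exact Or.inl h
    · rw [nb, e1, e2, e4]
      simp only [mem_insert, mem_singleton]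
      rcases hall y with h | h | h | h
      · exact Or.inr (Or.inr h)
      · exact absurd h.symm hxy
      · exact Or.inr (Or.inl h)
      · exact Or.inl h
    · rw [nc, e1, e3, e4]
      simp only [mem_insert, mem_singleton]
      rcases hall y with h | h | h | h
      · exact Or.inr (Or.inr h)
      · exact Or.inr (Or.inl h)
      · exact absurd h.symm hxy
      · exact Or.inl h
    · rw [nd, e2, e3, e4]
      simp only [mem_insert, mem_singleton]
      rcases hall y with h | h | h | h
      · exact Or.inr (Or.inr h)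
      · exact Or.inr (Or.inl h)
      · exact Or.inl h
      · exact absurd h.symm hxy
  have huni : (univ : Finset V) = {a, b, c, d} := by
    ext w
    simp only [mem_univ, mem_insert, mem_singleton, true_iff]
    exact hall w
  have hcard : Fintype.card V = 4 := by
    rw [← card_univ, huni, card_insert_of_notMem, card_insert_of_notMem, card_insert_of_notMem,
      card_singleton]
    · simpa using cd
    · simp only [mem_insert, mem_singleton, not_or]
      exact ⟨bc, bd⟩
    · simp only [mem_insert, mem_singleton, not_or]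
      exact ⟨ab, ac, ad⟩
  refine ⟨⟨Fintype.equivFinOfCardEq hcard, ?_⟩⟩
  intro x y
  rw [SimpleGraph.top_adj, hadj]
  exact (Fintype.equivFinOfCardEq hcard).injective.ne_iff

private def qF : Fin 8 → Finset (Fin 3) :=
  ![∅, {0, 1}, {0, 2}, {1, 2}, {0}, {1}, {2}, {0, 1, 2}]

theorem cube_Q3 (hG : G.Connected) (h3 : G.IsRegularOfDegree 3)
    (h : CubeCfg G a b c d v1 v2 v3 v4) (h1 : ¬ (v1 = a ∨ v1 = b ∨ v1 = c ∨ v1 = d)) :
    Nonempty (G ≃g Q3) := by
  obtain ⟨h12, h13, h14, h23, h24, h34, na, nb, nc, nd⟩ := cube_basic h3 h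
  have huniv := cube_univ hG h3 h
  obtain ⟨ab, ac, ad, bc, bd, cd, n1, n2, n3, n4⟩ := h
  simp only [not_or] at h1
  obtain ⟨h1a, h1b, h1c, h1d⟩ := h1
  have hirr : ∀ x : V, x ∉ G.neighborFinset x := fun x => by
    rw [SimpleGraph.mem_neighborFinset]; exact G.irrefl
  have h2a : v2 ≠ a := fun h => hirr v2 (by rw [n2, h]; simp)
  have h2b : v2 ≠ b := fun h => hirr v2 (by rw [n2, h]; simp)
  have h2d : v2 ≠ d := fun h => hirr v2 (by rw [n2, h]; simp)
  have h2c : v2 ≠ c := by
    intro h
    have hm : v1 ∈ G.neighborFinset v2 := by rw [h, nc]; simp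
    rw [n2] at hm
    simp only [mem_insert, mem_singleton] at hm
    tauto
  have h3a : v3 ≠ a := fun h => hirr v3 (by rw [n3, h]; simp)
  have h3c : v3 ≠ c := fun h => hirr v3 (by rw [n3, h]; simp)
  have h3d : v3 ≠ d := fun h => hirr v3 (by rw [n3, h]; simp)
  have h3b : v3 ≠ b := by
    intro h
    have hm : v1 ∈ G.neighborFinset v3 := by rw [h, nb]; simp
    rw [n3] at hm
    simp only [mem_insert, mem_singleton] at hm
    tauto
  have h4b : v4 ≠ b := fun h => hirr v4 (by rw [n4, h]; simp)
  have h4c : v4 ≠ c := fun h => hirr v4 (by rw [n4, h]; simp)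
  have h4d : v4 ≠ d := fun h => hirr v4 (by rw [n4, h]; simp)
  have h4a : v4 ≠ a := by
    intro h
    have hm : v1 ∈ G.neighborFinset v4 := by rw [h, na]; simp
    rw [n4] at hm
    simp only [mem_insert, mem_singleton] at hm
    tauto
  set e : Fin 8 → V := ![a, b, c, d, v1, v2, v3, v4] with he
  have e0 : e 0 = a := rfl
  have e1 : e 1 = b := rfl
  have e2 : e 2 = c := rfl
  have e3 : e 3 = d := rfl
  have e4 : e 4 = v1 := rfl
  have e5 : e 5 = v2 := rfl
  have e6 : e 6 = v3 := rfl
  have e7 : e 7 = v4 := rfl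
  have hinj : Function.Injective e := by
    have hlt : ∀ i j : Fin 8, i < j → e i ≠ e j := by
      intro i j hij
      fin_cases i <;> fin_cases j <;> first
        | exact absurd hij (by decide)
        | exact ab | exact ac | exact ad | exact bc | exact bd | exact cd
        | exact h12 | exact h13 | exact h14 | exact h23 | exact h24 | exact h34
        | exact Ne.symm h1a | exact Ne.symm h1b | exact Ne.symm h1c | exact Ne.symm h1d
        | exact Ne.symm h2a | exact Ne.symm h2b | exact Ne.symm h2c | exact Ne.symm h2d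
        | exact Ne.symm h3a | exact Ne.symm h3b | exact Ne.symm h3c | exact Ne.symm h3d
        | exact Ne.symm h4a | exact Ne.symm h4b | exact Ne.symm h4c | exact Ne.symm h4d
    intro i j hij
    rcases lt_trichotomy i j with h | h | h
    · exact absurd hij (hlt i j h)
    · exact h
    · exact absurd hij.symm (hlt j i h)
  have hsurj : Function.Surjective e := by
    intro w
    rcases huniv w with rfl | rfl | rfl | rfl | rfl | rfl | rfl | rfl
    · exact ⟨0, rfl⟩
    · exact ⟨1, rfl⟩
    · exact ⟨2, rfl⟩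
    · exact ⟨3, rfl⟩
    · exact ⟨4, rfl⟩
    · exact ⟨5, rfl⟩
    · exact ⟨6, rfl⟩
    · exact ⟨7, rfl⟩
  set nbh : Fin 8 → Finset (Fin 8) := ![{4, 5, 6}, {4, 5, 7}, {4, 6, 7}, {5, 6, 7}, {0, 1, 2},
    {0, 1, 3}, {0, 2, 3}, {1, 2, 3}] with hnbh
  have himg : ∀ i, G.neighborFinset (e i) = (nbh i).image e := by
    intro i
    fin_cases i
    · change G.neighborFinset a = image e {4, 5, 6}
      rw [na]; simp [e4, e5, e6]
    · change G.neighborFinset b = image e {4, 5, 7}
      rw [nb]; simp [e4, e5, e7]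
    · change G.neighborFinset c = image e {4, 6, 7}
      rw [nc]; simp [e4, e6, e7]
    · change G.neighborFinset d = image e {5, 6, 7}
      rw [nd]; simp [e5, e6, e7]
    · change G.neighborFinset v1 = image e {0, 1, 2}
      rw [n1]; simp [e0, e1, e2]
    · change G.neighborFinset v2 = image e {0, 1, 3}
      rw [n2]; simp [e0, e1, e3]
    · change G.neighborFinset v3 = image e {0, 2, 3}
      rw [n3]; simp [e0, e2, e3]
    · change G.neighborFinset v4 = image e {1, 2, 3}
      rw [n4]; simp [e1, e2, e3]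
  have hQ : ∀ i j : Fin 8, (symmDiff (qF i) (qF j)).card = 1 ↔ j ∈ nbh i := by
    rw [hnbh]
    decide
  let E : Fin 8 ≃ V := Equiv.ofBijective e ⟨hinj, hsurj⟩
  let Q : Fin 8 ≃ Finset (Fin 3) := Equiv.ofBijective qF (by decide)
  refine ⟨⟨E.symm.trans Q, ?_⟩⟩
  intro x y
  obtain ⟨i, rfl⟩ := hsurj x
  obtain ⟨j, rfl⟩ := hsurj y
  have hi : E.symm (e i) = i := E.symm_apply_apply i
  have hj : E.symm (e j) = j := E.symm_apply_apply j
  rw [Equiv.trans_apply, Equiv.trans_apply, hi, hj]
  change (symmDiff (qF i) (qF j)).card = 1 ↔ G.Adj (e i) (e j)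
  rw [hQ, ← SimpleGraph.mem_neighborFinset, himg]
  exact (hinj.mem_finset_image).symm

theorem noCube (hG : G.Connected) (h3 : G.IsRegularOfDegree 3)
    (htw : ∀ u v : V, G.neighborSet u = G.neighborSet v → u = v)
    (hK : ¬ Nonempty (G ≃g (⊤ : SimpleGraph (Fin 4)))) (hQ : ¬ Nonempty (G ≃g Q3)) :
    (gInc G h3 htw).NoCube := by
  intro a b c d ab ac ad bc bd cd hlines
  obtain ⟨⟨v1, n1⟩, ⟨v2, n2⟩, ⟨v3, n3⟩, ⟨v4, n4⟩⟩ := hlines
  have h : CubeCfg G a b c d v1 v2 v3 v4 :=
    ⟨ab, ac, ad, bc, bd, cd, n1.symm, n2.symm, n3.symm, n4.symm⟩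
  by_cases h1 : v1 = a ∨ v1 = b ∨ v1 = c ∨ v1 = d
  · exact hK (cube_K4 hG h3 h h1)
  · exact hQ (cube_Q3 hG h3 h h1)

end Pool.Agent.OLD57
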