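import Pool.Agent.OLD57.GValid

/-!
# Module OLD57/Cyc7

A cycle component with seven points: the graph has at most 14 vertices.

PROOF. `pts (l i) = {z (i-1), z i, z (i+1)}`, and `z` is periodic with period 7 (`eq_iff`), so
`l i = l (i % 7)` (`pts_inj`). Let `S` be the image of `j ↦ z j` and `j ↦ l j`, `j < 7`, of at most
14 elements; every `z i` and `l i`, `i : ℤ`, is in `S`. `S` is closed under adjacency: the
neighbourhood of `z i` is `lns (z i) = {l (i-1), l i, l (i+1)}`, the neighbourhood of `l i` is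
`pts (l i)` (`gInc`: both `pts` and `lns` are `neighborFinset`). `closed_univ`, so
`card V ≤ S.card ≤ 14`.
-/

set_option autoImplicit false

namespace Pool.Agent.OLD57

open Finset

variable {V : Type*} [Fintype V] [DecidableEq V]

theorem cyc7_card {G : SimpleGraph V} [DecidableRel G.Adj] (hG : G.Connected)
    (h3 : G.IsRegularOfDegree 3) (htw : ∀ u v : V, G.neighborSet u = G.neighborSet v → u = v)
    {z l : ℤ → V} (h : Inc.CycCfg (gInc G h3 htw) 7 z l) : Fintype.card V ≤ 14 := by
  have hz : ∀ i : ℤ, z i = z (i % 7) := by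
    intro i
    rw [h.eq_iff]
    have := Int.emod_add_mul_ediv i 7
    exact ⟨i / 7, by push_cast; linarith⟩
  have hz' : ∀ i k : ℤ, z (i % 7 + k) = z (i + k) := by
    intro i k
    rw [h.eq_iff]
    have := Int.emod_add_mul_ediv i 7
    exact ⟨-(i / 7), by push_cast; linarith⟩
  have hl : ∀ i : ℤ, l i = l (i % 7) := by
    intro i
    apply (gInc G h3 htw).pts_inj
    rw [h.pts i, h.pts (i % 7), ← hz i]
    have h1 := hz' i (-1)
    have h2 := hz' i 1
    rw [← sub_eq_add_neg, ← sub_eq_add_neg] at h1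
    rw [h1, h2]
  have hidx : ∀ i : ℤ, ∃ j : Fin 7, ((j : ℕ) : ℤ) = i % 7 := by
    intro i
    have h1 := Int.emod_nonneg i (by norm_num : (7 : ℤ) ≠ 0)
    have h2 := Int.emod_lt_of_pos i (by norm_num : (0 : ℤ) < 7)
    refine ⟨⟨(i % 7).toNat, by omega⟩, ?_⟩
    show (((i % 7).toNat : ℕ) : ℤ) = i % 7
    exact Int.toNat_of_nonneg h1
  set S : Finset V := (univ.image fun j : Fin 7 => z ((j : ℕ) : ℤ)) ∪
    (univ.image fun j : Fin 7 => l ((j : ℕ) : ℤ)) with hS
  have hzS : ∀ i : ℤ, z i ∈ S := by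
    intro i
    obtain ⟨j, hj⟩ := hidx i
    rw [hS, mem_union, mem_image]
    refine Or.inl ⟨j, mem_univ _, ?_⟩
    rw [hj, ← hz i]
  have hlS : ∀ i : ℤ, l i ∈ S := by
    intro i
    obtain ⟨j, hj⟩ := hidx i
    rw [hS, mem_union, mem_image, mem_image]
    refine Or.inr ⟨j, mem_univ _, ?_⟩
    rw [hj, ← hl i]
  have hcard : S.card ≤ 14 := by
    have h1 : S.card ≤ (univ.image fun j : Fin 7 => z ((j : ℕ) : ℤ)).card +
        (univ.image fun j : Fin 7 => l ((j : ℕ) : ℤ)).card := card_union_le _ _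
    have h2 : (univ.image fun j : Fin 7 => z ((j : ℕ) : ℤ)).card ≤ 7 :=
      card_image_le.trans (by simp)
    have h4 : (univ.image fun j : Fin 7 => l ((j : ℕ) : ℤ)).card ≤ 7 :=
      card_image_le.trans (by simp)
    omega
  have hcl : ∀ u ∈ S, ∀ w, G.Adj u w → w ∈ S := by
    intro u hu w hw
    rw [hS, mem_union, mem_image, mem_image] at hu
    rcases hu with ⟨j, -, rfl⟩ | ⟨j, -, rfl⟩
    · have h1 : w ∈ (gInc G h3 htw).lns (z ((j : ℕ) : ℤ)) := by
        show w ∈ G.neighborFinset _
        rw [SimpleGraph.mem_neighborFinset]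
        exact hw
      rw [h.lns] at h1
      simp only [mem_insert, mem_singleton] at h1
      rcases h1 with h1 | h1 | h1 <;> rw [h1] <;> exact hlS _
    · have h1 : w ∈ (gInc G h3 htw).pts (l ((j : ℕ) : ℤ)) := by
        show w ∈ G.neighborFinset _
        rw [SimpleGraph.mem_neighborFinset]
        exact hw
      rw [h.pts] at h1
      simp only [mem_insert, mem_singleton] at h1
      rcases h1 with h1 | h1 | h1 <;> rw [h1] <;> exact hzS _
  have huniv : (univ : Finset V) ⊆ S := fun w _ => closed_univ hG ⟨z 0, hzS 0⟩ hcl w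
  have h5 := card_le_card huniv
  rw [card_univ] at h5
  exact h5.trans hcard

end Pool.Agent.OLD57
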