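import Pool.Agent.OLD57.Cover

/-!
# Module OLD57/GeoCyc

Cycle component with at least five points; `C` contains all `x i`, `D` is a set of points.

PROOF. `x j ∉ D` implies that `x j` is in no `B ∈ bl C D z`. `cyc_bl`: `x i ∈ D`, then
`x (i-1), x (i+1) ∉ D`, `x (i-3), x (i+3) ∉ D` (hypothesis, also at `i - 1`, `i - 3`). `B` comes from
`l (i-1)`, `l i` or `l (i+1)`. `l (i-1) = {x i, x (i-2), x (i-1)}`: cases 1, 2 contain `x (i-1)`;
case 3: `m ∈ lns (x (i-1)) = {l (i-2), l (i-1), l i}`, `x (i-2), x i ∉ pts m`: none; case 4: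
`m ∋ x (i-2), x (i-1)`, `m ≠ l (i-1)`: `m = l (i-2)`, `B = {x (i-3)}`. `l i`: contain `x (i-1)` or
`x (i+1)`, or `K (x (i-1)) (x (i+1))`: then `x (i+1) = x (i-2)` or `x (i+1) = x i`, so `k ∣ 3` or
`k ∣ 1`, impossible for `k ≥ 5`. `l (i+1)`: symmetric. All distinctness from `eq_iff`, `k ≥ 5`.
`cyc5_bl0`, `cyc5_bl1`: `k = 5`, `D = {x 0, x 1}`: `x 2, x 3, x 4 = x (-1) ∉ D`. The same analysis at
`x 0`: `l (-1) = {x (-2), x (-1), x 0}` as before (`x (-1) ∉ D`, `x (-3) = x 2 ∉ D`);
`l 0 = {x (-1), x 0, x 1}`: cases 1, 3 contain `x (-1)` (write `p = x (-1)`, `q = x 1`: case 1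
contains `p`, case 3 contains `p`); case 2: `m ∈ lns (x (-1)) = {l (-2), l (-1), l 0}`,
`x 1, x 0 ∉ pts m`: `m = l (-2) = {x (-3), x (-2), x (-1)}`, `B = insert (x 1) {x 2, x 3}` contains
`x 2`; case 4: `K (x (-1)) (x 1)`, impossible. `l 1 = {x 0, x 1, x 2}`: cases 1, 2 contain `x 2`
(`p = x 1`, `q = x 2`: case 2 is `insert q ..`); case 3: `m ∈ lns (x 2) = {l 1, l 2, l 3}`,
`x 1, x 0 ∉ pts m`: `m = l 3 = {x 2, x 3, x 4}`, `B = insert (x 1) {x 3, x 4}` contains `x 3`;
case 4: `m = l 2`, `B = {x 3}`. At `x 1`: mirror image.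
-/

set_option autoImplicit false

namespace Pool.Agent.OLD57

open Finset

namespace Inc

variable {P L : Type*} [Fintype P] [DecidableEq P] [Fintype L] [DecidableEq L]
variable (H : Inc P L)

variable {k : ℕ} {x : ℤ → P} {l : ℤ → L}

private theorem nd {k : ℕ} (hk : 5 ≤ k) {n : ℤ} (h0 : n ≠ 0) (h1 : -4 ≤ n) (h2 : n ≤ 4) :
    ¬ (k : ℤ) ∣ n := by
  intro h
  have h3 := Int.le_of_dvd (a := (k : ℤ)) (b := |n|) (abs_pos.2 h0) ((dvd_abs _ _).2 h)
  have h4 : |n| ≤ 4 := abs_le.2 ⟨h1, h2⟩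
  have h5 : (5 : ℤ) ≤ (k : ℤ) := by exact_mod_cast hk
  omega

omit [Fintype P] [Fintype L] in
private theorem xne (h : CycCfg H k x l) {i j : ℤ} (h0 : i - j ≠ 0) (h1 : -4 ≤ i - j)
    (h2 : i - j ≤ 4) : x i ≠ x j := fun he => nd h.five_le h0 h1 h2 ((h.eq_iff i j).1 he)

omit [Fintype P] [Fintype L] in
private theorem refl_cfg (h : CycCfg H k x l) (c : ℤ) :
    CycCfg H k (fun j => x (c - j)) (fun j => l (c - j)) := by
  refine ⟨⟨h.three_le, ?_, ?_⟩, h.five_le, ?_, ?_⟩
  · intro i j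
    rw [h.eq_iff]
    have h1 : c - i - (c - j) = -(i - j) := by ring
    rw [h1, dvd_neg]
  · intro i y
    rw [h.K_iff]
    have h1 : c - (i - 1) = c - i + 1 := by ring
    have h2 : c - (i + 1) = c - i - 1 := by ring
    simp only [h1, h2]
    exact or_comm
  · intro i
    have h1 : c - (i - 1) = c - i + 1 := by ring
    have h2 : c - (i + 1) = c - i - 1 := by ring
    simp only [h1, h2]
    rw [h.pts]
    ext z
    simp only [mem_insert, mem_singleton]
    tauto
  · intro i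
    have h1 : c - (i - 1) = c - i + 1 := by ring
    have h2 : c - (i + 1) = c - i - 1 := by ring
    simp only [h1, h2]
    rw [h.lns]
    ext z
    simp only [mem_insert, mem_singleton]
    tauto

omit [Fintype P] [Fintype L] in
private theorem mem_lnsx (h : CycCfg H k x l) {i : ℤ} {m : L} (hm : m ∈ H.lns (x i)) :
    m = l (i - 1) ∨ m = l i ∨ m = l (i + 1) := by
  rw [h.lns] at hm
  simpa only [mem_insert, mem_singleton] using hm

omit [Fintype P] [Fintype L] in
private theorem mem_l (h : CycCfg H k x l) {i : ℤ} {z : P} :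
    z ∈ H.pts (l i) ↔ z = x (i - 1) ∨ z = x i ∨ z = x (i + 1) := by
  rw [h.pts]
  simp only [mem_insert, mem_singleton]

/-- the line with `x i` as last point -/
private theorem lemA (h : CycCfg H k x l) {i : ℤ} {B : Finset P} (h1 : x (i - 1) ∉ B)
    (h3 : x (i - 3) ∉ B) : B ∉ H.thr (x i) (l (i - 1)) := by
  intro hB
  have e1 : i - 1 - 1 = i - 2 := by ring
  have e2 : i - 1 + 1 = i := by ring
  have e3 : i - 2 - 1 = i - 3 := by ring
  have e4 : i - 2 + 1 = i - 1 := by ring
  have hl : H.pts (l (i - 1)) = {x i, x (i - 1), x (i - 2)} := by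
    rw [h.pts, e1, e2]
    ext z
    simp only [mem_insert, mem_singleton]
    tauto
  have n01 : x i ≠ x (i - 1) := xne H h (by omega) (by omega) (by omega)
  have n02 : x i ≠ x (i - 2) := xne H h (by omega) (by omega) (by omega)
  have n12 : x (i - 1) ≠ x (i - 2) := xne H h (by omega) (by omega) (by omega)
  rcases H.thr_cases hl n01 n02 n12 hB with h4 | ⟨m, hm, hml, hq, hx, h4⟩ |
      ⟨m, hm, hml, hq, hx, h4⟩ | ⟨m, y, hml, hpm, hyp, hyq, hyx, h4⟩
  · exact h1 (by rw [h4]; simp)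
  · rcases mem_lnsx H h hm with h5 | h5 | h5
    · rw [e1] at h5
      exact hq (by rw [h5, mem_l H h]; exact Or.inr (Or.inl rfl))
    · exact hml h5
    · rw [e2] at h5
      exact hx (by rw [h5, mem_l H h]; exact Or.inr (Or.inl rfl))
  · exact h1 (by rw [h4]; simp)
  · have hm : m ∈ H.lns (x (i - 1)) := (H.mem_iff _ _).1 (by rw [hpm]; simp)
    have hqm : x (i - 2) ∈ H.pts m := by rw [hpm]; simp
    have hym : y ∈ H.pts m := by rw [hpm]; simp
    rcases mem_lnsx H h hm with h5 | h5 | h5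
    · rw [e1] at h5
      rw [h5, mem_l H h, e3, e4] at hym
      rcases hym with h6 | h6 | h6
      · exact h3 (by rw [h4, h6]; simp)
      · exact hyq h6
      · exact hyp h6
    · exact hml h5
    · rw [e2] at h5
      rw [h5, mem_l H h] at hqm
      rcases hqm with h6 | h6 | h6
      · exact xne H h (by omega) (by omega) (by omega) h6
      · exact xne H h (by omega) (by omega) (by omega) h6
      · exact xne H h (by omega) (by omega) (by omega) h6

/-- the middle line: no line but `l i` contains both neighbours -/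
private theorem notK (h : CycCfg H k x l) {i : ℤ} {m : L} (hml : m ≠ l i)
    (h1 : x (i - 1) ∈ H.pts m) (h2 : x (i + 1) ∈ H.pts m) : False := by
  have n : x (i - 1) ≠ x (i + 1) := xne H h (by omega) (by omega) (by omega)
  have hK : H.K (x (i - 1)) (x (i + 1)) :=
    H.K_of n hml h1 h2 (by rw [mem_l H h]; exact Or.inl rfl)
      (by rw [mem_l H h]; exact Or.inr (Or.inr rfl))
  rcases (h.K_iff _ _).1 hK with h6 | h6
  · exact xne H h (by omega) (by omega) (by omega) h6
  · exact xne H h (by omega) (by omega) (by omega) h6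

omit [Fintype P] [Fintype L] in
private theorem hl_mid (h : CycCfg H k x l) (i : ℤ) :
    H.pts (l i) = {x i, x (i - 1), x (i + 1)} := by
  rw [h.pts]
  ext z
  simp only [mem_insert, mem_singleton]
  tauto

private theorem lemB (h : CycCfg H k x l) {i : ℤ} {B : Finset P} (h1 : x (i - 1) ∉ B)
    (h2 : x (i + 1) ∉ B) : B ∉ H.thr (x i) (l i) := by
  intro hB
  have n01 : x i ≠ x (i - 1) := xne H h (by omega) (by omega) (by omega)
  have n02 : x i ≠ x (i + 1) := xne H h (by omega) (by omega) (by omega)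
  have n12 : x (i - 1) ≠ x (i + 1) := xne H h (by omega) (by omega) (by omega)
  rcases H.thr_cases (hl_mid H h i) n01 n02 n12 hB with h4 | ⟨m, hm, hml, hq, hx, h4⟩ |
      ⟨m, hm, hml, hq, hx, h4⟩ | ⟨m, y, hml, hpm, hyp, hyq, hyx, h4⟩
  · exact h1 (by rw [h4]; simp)
  · exact h2 (by rw [h4]; simp)
  · exact h1 (by rw [h4]; simp)
  · exact notK H h hml (by rw [hpm]; simp) (by rw [hpm]; simp)

private theorem lemC (h : CycCfg H k x l) {i : ℤ} {B : Finset P} (h1 : x (i - 1) ∉ B)
    (h3 : x (i - 3) ∉ B) : B ∉ H.thr (x i) (l i) := by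
  intro hB
  have e1 : i - 1 - 1 = i - 2 := by ring
  have e2 : i - 1 + 1 = i := by ring
  have e3 : i - 2 - 1 = i - 3 := by ring
  have n01 : x i ≠ x (i - 1) := xne H h (by omega) (by omega) (by omega)
  have n02 : x i ≠ x (i + 1) := xne H h (by omega) (by omega) (by omega)
  have n12 : x (i - 1) ≠ x (i + 1) := xne H h (by omega) (by omega) (by omega)
  rcases H.thr_cases (hl_mid H h i) n01 n02 n12 hB with h4 | ⟨m, hm, hml, hq, hx, h4⟩ |
      ⟨m, hm, hml, hq, hx, h4⟩ | ⟨m, y, hml, hpm, hyp, hyq, hyx, h4⟩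
  · exact h1 (by rw [h4]; simp)
  · rcases mem_lnsx H h hm with h5 | h5 | h5
    · rw [e1] at h5
      apply h3
      rw [h4, mem_insert, mem_erase, h5, mem_l H h, e3]
      exact Or.inr ⟨xne H h (by omega) (by omega) (by omega), Or.inl rfl⟩
    · exact hx (by rw [h5, mem_l H h, e2]; exact Or.inr (Or.inr rfl))
    · rw [e2] at h5
      exact hml h5
  · exact h1 (by rw [h4]; simp)
  · exact notK H h hml (by rw [hpm]; simp) (by rw [hpm]; simp)

private theorem lemD (h : CycCfg H k x l) {i : ℤ} {B : Finset P} (h2 : x (i + 2) ∉ B)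
    (h3 : x (i + 3) ∉ B) : B ∉ H.thr (x i) (l (i + 1)) := by
  intro hB
  have e1 : i + 1 + 1 = i + 2 := by ring
  have e2 : i + 1 - 1 = i := by ring
  have e3 : i + 2 - 1 = i + 1 := by ring
  have e4 : i + 2 + 1 = i + 3 := by ring
  have e5 : i + 3 - 1 = i + 2 := by ring
  have hl : H.pts (l (i + 1)) = {x i, x (i + 1), x (i + 2)} := by
    rw [h.pts, e1, e2]
  have n01 : x i ≠ x (i + 1) := xne H h (by omega) (by omega) (by omega)
  have n02 : x i ≠ x (i + 2) := xne H h (by omega) (by omega) (by omega)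
  have n12 : x (i + 1) ≠ x (i + 2) := xne H h (by omega) (by omega) (by omega)
  rcases H.thr_cases hl n01 n02 n12 hB with h4 | ⟨m, hm, hml, hq, hx, h4⟩ |
      ⟨m, hm, hml, hq, hx, h4⟩ | ⟨m, y, hml, hpm, hyp, hyq, hyx, h4⟩
  · exact h2 (by rw [h4]; simp)
  · exact h2 (by rw [h4]; simp)
  · rcases mem_lnsx H h hm with h5 | h5 | h5
    · rw [e3] at h5
      exact hml h5
    · exact hq (by rw [h5, mem_l H h, e3]; exact Or.inl rfl)
    · rw [e4] at h5
      apply h3
      rw [h4, mem_insert, mem_erase, h5, mem_l H h]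
      exact Or.inr ⟨xne H h (by omega) (by omega) (by omega), Or.inr (Or.inl rfl)⟩
  · have hm : m ∈ H.lns (x (i + 2)) := (H.mem_iff _ _).1 (by rw [hpm]; simp)
    have hqm : x (i + 1) ∈ H.pts m := by rw [hpm]; simp
    have hym : y ∈ H.pts m := by rw [hpm]; simp
    rcases mem_lnsx H h hm with h5 | h5 | h5
    · rw [e3] at h5
      exact hml h5
    · rw [h5, mem_l H h, e3, e4] at hym
      rcases hym with h6 | h6 | h6
      · exact hyp h6
      · exact hyq h6
      · exact h3 (by rw [h4, h6]; simp)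
    · rw [e4] at h5
      rw [h5, mem_l H h, e5] at hqm
      rcases hqm with h6 | h6 | h6
      · exact xne H h (by omega) (by omega) (by omega) h6
      · exact xne H h (by omega) (by omega) (by omega) h6
      · exact xne H h (by omega) (by omega) (by omega) h6

/-- mirror image of `lemA` -/
private theorem lemA' (h : CycCfg H k x l) {i : ℤ} {B : Finset P} (h1 : x (i + 1) ∉ B)
    (h3 : x (i + 3) ∉ B) : B ∉ H.thr (x i) (l (i + 1)) := by
  have h' := refl_cfg H h 0
  have e0 : 0 - -i = i := by ring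
  have e1 : 0 - (-i - 1) = i + 1 := by ring
  have e3 : 0 - (-i - 3) = i + 3 := by ring
  have h5 := lemA H h' (i := -i) (B := B) (by simpa only [e1] using h1) (by simpa only [e3] using h3)
  simpa only [e0, e1] using h5

private theorem notB {C D B : Finset P} (hC : ∀ i, x i ∈ C) {z : P} (hB : B ∈ H.bl C D z) {j : ℤ}
    (hj : x j ∉ D) : x j ∉ B := by
  intro h
  rw [H.mem_bl] at hB
  exact hj (hB.2.2 (mem_inter.2 ⟨mem_insert_of_mem h, hC j⟩))

theorem cyc_bl (h : CycCfg H k x l) {C D : Finset P} (hC : ∀ i, x i ∈ C)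
    (h1 : ∀ i, x i ∈ D → x (i + 1) ∉ D) (h3 : ∀ i, x i ∈ D → x (i + 3) ∉ D) {i : ℤ}
    (hi : x i ∈ D) : H.bl C D (x i) = ∅ := by
  rw [eq_empty_iff_forall_notMem]
  intro B hB
  have a1 : x (i + 1) ∉ D := h1 i hi
  have a2 : x (i - 1) ∉ D := fun h4 => by
    have h5 := h1 _ h4
    rw [show i - 1 + 1 = i by ring] at h5
    exact h5 hi
  have a3 : x (i + 3) ∉ D := h3 i hi
  have a4 : x (i - 3) ∉ D := fun h4 => by
    have h5 := h3 _ h4
    rw [show i - 3 + 3 = i by ring] at h5
    exact h5 hi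
  have b1 := notB H hC hB a1
  have b2 := notB H hC hB a2
  have b3 := notB H hC hB a3
  have b4 := notB H hC hB a4
  obtain ⟨m, hm, hm2⟩ := H.bl_cover hB
  rcases mem_lnsx H h hm with h5 | h5 | h5
  · rw [h5] at hm2
    exact lemA H h b2 b4 hm2
  · rw [h5] at hm2
    exact lemB H h b2 b1 hm2
  · rw [h5] at hm2
    exact lemA' H h b1 b3 hm2

theorem cyc5_bl0 (h : CycCfg H 5 x l) {C : Finset P} (hC : ∀ i, x i ∈ C) :
    H.bl C {x 0, x 1} (x 0) = ∅ := by
  rw [eq_empty_iff_forall_notMem]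
  intro B hB
  have key : ∀ j : ℤ, ¬ (5 : ℤ) ∣ j → ¬ (5 : ℤ) ∣ j - 1 → x j ∉ B := by
    intro j h1 h2
    refine notB H hC hB ?_
    rw [mem_insert, mem_singleton, h.eq_iff, h.eq_iff]
    push_cast
    rw [sub_zero]
    tauto
  obtain ⟨m, hm, hm2⟩ := H.bl_cover hB
  rcases mem_lnsx H h hm with h5 | h5 | h5
  · rw [h5] at hm2
    exact lemA H h (key _ (by norm_num) (by norm_num)) (key _ (by norm_num) (by norm_num)) hm2
  · rw [h5] at hm2
    exact lemC H h (key _ (by norm_num) (by norm_num)) (key _ (by norm_num) (by norm_num)) hm2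
  · rw [h5] at hm2
    exact lemD H h (key _ (by norm_num) (by norm_num)) (key _ (by norm_num) (by norm_num)) hm2

theorem cyc5_bl1 (h : CycCfg H 5 x l) {C : Finset P} (hC : ∀ i, x i ∈ C) :
    H.bl C {x 0, x 1} (x 1) = ∅ := by
  have h1 := cyc5_bl0 H (refl_cfg H h 1) (C := C) (fun i => hC (1 - i))
  simp only [sub_zero, sub_self] at h1
  rwa [pair_comm] at h1

end Inc

end Pool.Agent.OLD57
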