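import Pool.Agent.OLD57.CompDefs
import Pool.Agent.OLD57.GeoCyc
import Pool.Agent.OLD57.Credit
import Pool.Agent.OLD57.GoodConst

/-!
# Module OLD57/CycFacts

PROOF. `cyc_inj`: for `0 ≤ i, j < k`: `x i = x j ↔ k ∣ i - j ↔ i = j`. `cyc_mem`: `x i = x (i % k)`
and `(i % k).toNat < k`. `cyc_net`: `kap (x i) = 2` (`kap_eq` with `{x (i-1), x (i+1)}`, which are
different, `k ∤ 2`), so `deb (x i) = 6/100` (`deb_eq`, `gw_eq_of_ne`); `crl (x i) (l (i-1)) ≥ 3/100`
(`pts (l (i-1)) = {x (i-2), x (i-1), x i}`, `K (x (i-2)) (x (i-1))`), `crl (x i) (l (i+1)) ≥ 3/100`;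
`cr_three`, `crl_nonneg`.
`cyc_sum`: `ρ` constant `D`; for `y ∈ D`: `y = x i` for some `i` (`cyc_mem`), `Pr_good_one` with
`cyc_bl` and `cyc_net`; for `y ∈ C`, `y ∉ D`: `≥ 0`. `compOKc_const` with
`v y = if y ∈ D then 1 else 0`, `∑ v = D.card`.
-/

set_option autoImplicit false

namespace Pool.Agent.OLD57

open Finset

namespace Inc

variable {P L : Type*} [Fintype P] [DecidableEq P] [Fintype L] [DecidableEq L]
variable (H : Inc P L)

variable {k : ℕ} {x : ℤ → P} {l : ℤ → L}

private theorem cycfacts_ne {H : Inc P L} (h : KCyc H k x) {a b : ℤ} (h0 : b < a)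
    (h1 : a < b + k) : x a ≠ x b := by
  intro he
  have hd := (h.eq_iff a b).1 he
  have := Int.le_of_dvd (by omega) hd
  omega

theorem KCyc.card_image (h : KCyc H k x) :
    ((range k).image fun j : ℕ => x (j : ℤ)).card = k := by
  rw [Finset.card_image_of_injOn, card_range]
  intro a ha b hb hab
  simp only [coe_range, Set.mem_Iio] at ha hb
  rcases lt_trichotomy a b with h' | h' | h'
  · exact absurd hab.symm (cycfacts_ne h (by exact_mod_cast h') (by omega))
  · exact h'
  · exact absurd hab (cycfacts_ne h (by exact_mod_cast h') (by omega))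

theorem KCyc.mem_image (h : KCyc H k x) (i : ℤ) : x i ∈ (range k).image fun j : ℕ => x (j : ℤ) := by
  have hk : (0 : ℤ) < k := by have := h.three_le; omega
  have h0 : 0 ≤ i % k := Int.emod_nonneg _ hk.ne'
  have h1 : i % k < k := Int.emod_lt_of_pos _ hk
  refine Finset.mem_image.2 ⟨(i % k).toNat, mem_range.2 (by omega), ?_⟩
  simp only [Int.toNat_of_nonneg h0]
  rw [h.eq_iff]
  exact ⟨-(i / k), by have := Int.emod_add_mul_ediv i k; linarith⟩

theorem KCyc.eq_mod (h : KCyc H k x) (i : ℤ) : x i = x (i % k) := by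
  rw [h.eq_iff]
  exact ⟨i / k, by have := Int.emod_add_mul_ediv i k; linarith⟩

theorem cyc_net (h : CycCfg H k x l) (i : ℤ) : 0 ≤ H.cr (x i) - H.deb (x i) := by
  have hk5 := h.five_le
  have hc := h.toKCyc
  have hS : ∀ y, H.K (x i) y ↔ y ∈ ({x (i - 1), x (i + 1)} : Finset P) := by
    intro y
    rw [hc.K_iff]
    simp
  have hne : x (i - 1) ≠ x (i + 1) := (cycfacts_ne hc (by omega) (by omega)).symm
  have hkap : H.kap (x i) = 2 := by rw [H.kap_eq hS, card_pair hne]
  have hkap1 : H.kap (x i) ≠ 1 := by rw [hkap]; norm_num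
  have hdeb : H.deb (x i) = 3 / 100 + 3 / 100 := by
    rw [H.deb_eq hS, sum_pair hne, H.gw_eq_of_ne (Or.inl hkap1), H.gw_eq_of_ne (Or.inl hkap1)]
  have n1 : x i ≠ x (i - 1) := cycfacts_ne hc (by omega) (by omega)
  have n2 : x i ≠ x (i - 2) := cycfacts_ne hc (by omega) (by omega)
  have n3 : x (i - 2) ≠ x (i - 1) := (cycfacts_ne hc (by omega) (by omega)).symm
  have n4 : x i ≠ x (i + 1) := (cycfacts_ne hc (by omega) (by omega)).symm
  have n5 : x i ≠ x (i + 2) := (cycfacts_ne hc (by omega) (by omega)).symm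
  have n6 : x (i + 1) ≠ x (i + 2) := (cycfacts_ne hc (by omega) (by omega)).symm
  have p1 : H.pts (l (i - 1)) = {x i, x (i - 2), x (i - 1)} := by
    rw [h.pts]
    have e1 : i - 1 - 1 = i - 2 := by ring
    have e2 : i - 1 + 1 = i := by ring
    rw [e1, e2]
    ext z
    simp only [mem_insert, mem_singleton]
    tauto
  have p2 : H.pts (l (i + 1)) = {x i, x (i + 1), x (i + 2)} := by
    rw [h.pts]
    have e1 : i + 1 - 1 = i := by ring
    have e2 : i + 1 + 1 = i + 2 := by ring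
    rw [e1, e2]
  have k1 : H.K (x (i - 2)) (x (i - 1)) := by
    rw [hc.K_iff]
    exact Or.inr (by congr 1; ring)
  have k2 : H.K (x (i + 1)) (x (i + 2)) := by
    rw [hc.K_iff]
    exact Or.inr (by congr 1; ring)
  have c1 := H.crl_ge p1 n2 n1 n3 k1
  have c2 := H.crl_ge p2 n4 n5 n6 k2
  have c3 := H.crl_nonneg (x i) (l i)
  rw [H.cr_three (h.lns i), hdeb]
  linarith

theorem cyc_sum {T : ℕ} (hT : 0 < T) (h : CycCfg H k x l) {c : ℝ} {D : Finset P}
    (hD : D ⊆ (range k).image fun j : ℕ => x (j : ℤ))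
    (h1 : ∀ i, x i ∈ D → x (i + 1) ∉ D) (h3 : ∀ i, x i ∈ D → x (i + 3) ∉ D)
    (hc : c * k ≤ D.card) : H.CompOKc T c ((range k).image fun j : ℕ => x (j : ℤ)) := by
  refine H.compOKc_const D (fun y => if y ∈ D then 1 else 0) ?_ ?_
  · intro y hy
    obtain ⟨j, -, rfl⟩ := Finset.mem_image.1 hy
    have hnet := H.cyc_net h (j : ℤ)
    by_cases hyD : x (j : ℤ) ∈ D
    · have hone := H.Pr_good_one hT (C := (range k).image fun j : ℕ => x (j : ℤ)) hyD
        (H.cyc_bl h (fun i => h.toKCyc.mem_image H i) h1 h3 hyD)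
      simp only [hyD, if_true]
      linarith
    · have hnn := H.Pr_good_nonneg ((range k).image fun j : ℕ => x (j : ℤ))
        (fun _ : P → Fin T => D) (x (j : ℤ))
      simp only [hyD, if_false]
      linarith
  · rw [h.toKCyc.card_image H, ← Finset.sum_filter, Finset.filter_mem_eq_inter,
      Finset.inter_eq_right.2 hD, Finset.sum_const, nsmul_eq_mul, mul_one]
    exact hc

end Inc

end Pool.Agent.OLD57
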