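import Mathlib

/-!
# Open locating-dominating sets of cubic graphs: the bound 5n/7 (MP_3363dc_co). Definitions.

`Inc P L`: points and lines; every line has three points, every point is on three lines, different
lines have different point sets, different points are on different sets of lines.  (For a cubic graph
without open twins, `P = L = V` and the line `v` is `N(v)`.)

* `H.K x y`: `x ≠ y` are on exactly two common lines (K-adjacent).
* `H.Mate M`: `M` is the symmetric difference of two lines that have two common points.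
* `H.Quad C`: `C` is the symmetric difference of two lines that have exactly one common point.
* `H.RC C` (reduced circuit): a mate pair, or a line or quad that contains no mate pair.
* `F p 𝓕`: the probability that no member of `𝓕` is contained in a `p`-random set.
* `Pr T Q`: the probability of `Q ω` for a uniformly random `ω : P → Fin T` (random times).
* `avg T f`: the average of `f (1/T), f (2/T), ..., f 1`.
* `H.Good C ρ x ω`: the point `x` of the component `C` is active (`x ∈ ρ ω`) and not the last point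
  of a reduced circuit all of whose points in `C` are active.
* `H.bl C D x`: the blocking sets of `x` when exactly the points of `D` are active in `C`.
* `H.thr x l`: the blocking sets of `x` that come from the line `l` through `x`.
* `H.crl`, `H.cr`, `H.deb`: credits and debits of the discharging.
-/

set_option autoImplicit false

namespace Pool.Agent.OLD57

open Finset

structure Inc (P L : Type*) [DecidableEq P] [DecidableEq L] where
  pts : L → Finset P
  lns : P → Finset L
  mem_iff : ∀ x l, x ∈ pts l ↔ l ∈ lns x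
  card_pts : ∀ l, (pts l).card = 3
  card_lns : ∀ x, (lns x).card = 3
  pts_inj : ∀ l m, pts l = pts m → l = m
  lns_inj : ∀ x y, lns x = lns y → x = y

section prob

variable {P : Type*} [Fintype P] [DecidableEq P]

/-- The weight of the set `E` under the product measure with parameter `p`. -/
noncomputable def wt (p : ℝ) (E : Finset P) : ℝ := ∏ x : P, if x ∈ E then p else 1 - p

/-- The probability that no member of `𝓕` is contained in the random set. -/
noncomputable def F (p : ℝ) (𝓕 : Finset (Finset P)) : ℝ :=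
  ∑ E : Finset P, if (∀ A ∈ 𝓕, ¬ A ⊆ E) then wt p E else 0

open scoped Classical in
/-- Probability for a uniformly random function `P → Fin T`. -/
noncomputable def Pr (T : ℕ) (Q : (P → Fin T) → Prop) : ℝ :=
  ((univ.filter Q).card : ℝ) / (T : ℝ) ^ Fintype.card P

end prob

/-- Average of `f` over `1/T, 2/T, ..., T/T`. -/
noncomputable def avg (T : ℕ) (f : ℝ → ℝ) : ℝ :=
  (∑ i ∈ range T, f (((i : ℝ) + 1) / T)) / T

namespace Inc

variable {P L : Type*} [Fintype P] [DecidableEq P] [Fintype L] [DecidableEq L] (H : Inc P L)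

/-- `x` and `y` are different and have exactly two common lines. -/
def K (x y : P) : Prop := x ≠ y ∧ (H.lns x ∩ H.lns y).card = 2

instance : DecidableRel H.K := fun x y =>
  inferInstanceAs (Decidable (x ≠ y ∧ (H.lns x ∩ H.lns y).card = 2))

omit [Fintype P] [Fintype L] in
theorem K_symm {x y : P} (h : H.K x y) : H.K y x :=
  ⟨h.1.symm, by rw [inter_comm]; exact h.2⟩

/-- The K-graph on the points. -/
def KG : SimpleGraph P where
  Adj := H.K
  symm := ⟨fun _ _ h => H.K_symm h⟩
  loopless := ⟨fun _ h => h.1 rfl⟩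

open scoped Classical in
/-- The component of `x` in the K-graph. -/
noncomputable def comp (x : P) : Finset P := univ.filter fun y => H.KG.Reachable x y

/-- The K-degree. -/
def kap (x : P) : ℕ := (univ.filter fun y => H.K x y).card

/-- `U` contains no line and no symmetric difference of two lines: the complement of `U` meets every
line, and meets different lines in different sets. -/
def Valid (U : Finset P) : Prop :=
  (∀ l, ¬ H.pts l ⊆ U) ∧ ∀ l m, l ≠ m → ¬ symmDiff (H.pts l) (H.pts m) ⊆ U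

def Mate (M : Finset P) : Prop :=
  ∃ l m, (H.pts l ∩ H.pts m).card = 2 ∧ M = symmDiff (H.pts l) (H.pts m)

def Quad (C : Finset P) : Prop :=
  ∃ l m, (H.pts l ∩ H.pts m).card = 1 ∧ C = symmDiff (H.pts l) (H.pts m)

def Line (C : Finset P) : Prop := ∃ l, C = H.pts l

/-- Reduced circuits. -/
def RC (C : Finset P) : Prop :=
  H.Mate C ∨ ((H.Line C ∨ H.Quad C) ∧ ∀ M, H.Mate M → ¬ M ⊆ C)

/-- No component is the cube: there are no four points all of whose triples are lines. -/
def NoCube : Prop :=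
  ∀ a b c d : P, a ≠ b → a ≠ c → a ≠ d → b ≠ c → b ≠ d → c ≠ d →
    ¬ (H.Line {a, b, c} ∧ H.Line {a, b, d} ∧ H.Line {a, c, d} ∧ H.Line {b, c, d})

/-- `x` is active and is not the last point of a reduced circuit all of whose points in `C` are
active. -/
def Good {T : ℕ} (C : Finset P) (ρ : (P → Fin T) → Finset P) (x : P) (ω : P → Fin T) : Prop :=
  x ∈ ρ ω ∧ ∀ B : Finset P, H.RC B → x ∈ B → B ∩ C ⊆ ρ ω → ∃ y ∈ B, ω x < ω y

open scoped Classical in
/-- Blocking sets of `x` when exactly the points of `D` are active in `C`. -/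
noncomputable def bl (C D : Finset P) (x : P) : Finset (Finset P) :=
  univ.filter fun B => x ∉ B ∧ H.RC (insert x B) ∧ insert x B ∩ C ⊆ D

open scoped Classical in
/-- Blocking sets of `x` that come from the line `l`. -/
noncomputable def thr (x : P) (l : L) : Finset (Finset P) :=
  univ.filter fun B => x ∉ B ∧ H.RC (insert x B) ∧
    (insert x B = H.pts l ∨
      ∃ m, x ∉ H.pts m ∧ insert x B = symmDiff (H.pts l) (H.pts m))

/-- The weight of a K-edge. -/
noncomputable def gw (x y : P) : ℝ := if H.kap x = 1 ∧ H.kap y = 1 then 9 / 250 else 3 / 100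

/-- Credit of the point `z` from the line `l`. -/
noncomputable def crl (z : P) (l : L) : ℝ :=
  (∑ p ∈ (H.pts l).erase z, ∑ q ∈ (H.pts l).erase z, if H.K p q then H.gw p q else 0) / 2

/-- Credit of the point `z`. -/
noncomputable def cr (z : P) : ℝ := ∑ l ∈ H.lns z, H.crl z l

/-- Debit of the point `z`. -/
noncomputable def deb (z : P) : ℝ := ∑ y : P, if H.K z y then H.gw z y else 0

/-- The inequality for one component. -/
def CompOK (T : ℕ) (C : Finset P) : Prop :=
  ∃ ρ : (P → Fin T) → Finset P,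
    (2 / 7 : ℝ) * C.card ≤ ∑ x ∈ C, (Pr T (H.Good C ρ x) + H.cr x - H.deb x)

/-! ## Types of components -/

/-- A path component of the K-graph with the points `x 0, ..., x (r-1)`. -/
structure KPath (r : ℕ) (x : ℕ → P) : Prop where
  two_le : 2 ≤ r
  inj : ∀ i < r, ∀ j < r, x i = x j → i = j
  K_iff : ∀ i < r, ∀ y, H.K (x i) y ↔ ∃ j < r, (j = i + 1 ∨ i = j + 1) ∧ y = x j

/-- The lines of a path component. -/
structure PathCfg (r : ℕ) (x : ℕ → P) (l : ℕ → L) (e f : P) (n0 n1 : L) : Prop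
    extends KPath H r x where
  pts0 : H.pts (l 0) = {e, x 0, x 1}
  ptsi : ∀ i, 1 ≤ i → i + 1 < r → H.pts (l i) = {x (i - 1), x i, x (i + 1)}
  ptsr : H.pts (l (r - 1)) = {x (r - 2), x (r - 1), f}
  lns0 : H.lns (x 0) = {l 0, l 1, n0}
  lnsi : ∀ i, 1 ≤ i → i + 1 < r → H.lns (x i) = {l (i - 1), l i, l (i + 1)}
  lnsr : H.lns (x (r - 1)) = {l (r - 2), l (r - 1), n1}

/-- A cycle component of the K-graph with the `k` points `x i`, `i : ℤ` (periodic with period
`k`). -/
structure KCyc (k : ℕ) (x : ℤ → P) : Prop where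
  three_le : 3 ≤ k
  eq_iff : ∀ i j, x i = x j ↔ (k : ℤ) ∣ i - j
  K_iff : ∀ i y, H.K (x i) y ↔ y = x (i - 1) ∨ y = x (i + 1)

/-- The lines of a cycle component with at least five points. -/
structure CycCfg (k : ℕ) (x : ℤ → P) (l : ℤ → L) : Prop extends KCyc H k x where
  five_le : 5 ≤ k
  pts : ∀ i, H.pts (l i) = {x (i - 1), x i, x (i + 1)}
  lns : ∀ i, H.lns (x i) = {l (i - 1), l i, l (i + 1)}

/-- The lines of a star component: the centre `x` and the leaves `a, b, c`. -/
structure StarCfg (x a b c : P) (p1 p2 p3 na nb nc : L) : Prop where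
  ptsp1 : H.pts p1 = {x, a, b}
  ptsp2 : H.pts p2 = {x, b, c}
  ptsp3 : H.pts p3 = {x, a, c}
  lnsx : H.lns x = {p1, p2, p3}
  lnsa : H.lns a = {p1, p3, na}
  lnsb : H.lns b = {p1, p2, nb}
  lnsc : H.lns c = {p2, p3, nc}
  Kx : ∀ y, H.K x y ↔ y = a ∨ y = b ∨ y = c
  Ka : ∀ y, H.K a y ↔ y = x
  Kb : ∀ y, H.K b y ↔ y = x
  Kc : ∀ y, H.K c y ↔ y = x

/-- The lines of a paw component: triangle `x, a, b`, pendant point `c` at `x`. -/
structure PawCfg (x a b c y : P) (p1 p2 p3 n nc : L) : Prop where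
  ptsp1 : H.pts p1 = {x, a, b}
  ptsp2 : H.pts p2 = {x, b, c}
  ptsp3 : H.pts p3 = {x, a, c}
  ptsn : H.pts n = {a, b, y}
  lnsx : H.lns x = {p1, p2, p3}
  lnsa : H.lns a = {p1, p3, n}
  lnsb : H.lns b = {p1, p2, n}
  lnsc : H.lns c = {p2, p3, nc}
  yc : y ≠ c
  Kx : ∀ z, H.K x z ↔ z = a ∨ z = b ∨ z = c
  Ka : ∀ z, H.K a z ↔ z = x ∨ z = b
  Kb : ∀ z, H.K b z ↔ z = x ∨ z = a
  Kc : ∀ z, H.K c z ↔ z = x

/-- The lines of a triangle component. -/
structure TriCfg (x1 x2 x3 e1 e2 e3 : P) (l A B C : L) : Prop where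
  ptsl : H.pts l = {x1, x2, x3}
  ptsA : H.pts A = {x1, x2, e3}
  ptsB : H.pts B = {x1, x3, e2}
  ptsC : H.pts C = {x2, x3, e1}
  lns1 : H.lns x1 = {l, A, B}
  lns2 : H.lns x2 = {l, A, C}
  lns3 : H.lns x3 = {l, B, C}
  K1 : ∀ y, H.K x1 y ↔ y = x2 ∨ y = x3
  K2 : ∀ y, H.K x2 y ↔ y = x1 ∨ y = x3
  K3 : ∀ y, H.K x3 y ↔ y = x1 ∨ y = x2

end Inc

/-! ## The polynomials -/

noncomputable def fN (t : ℝ) : ℝ := (1 - t) ^ 2 + 2 * t * (1 - t) * (1 - t ^ 2) ^ 2
noncomputable def fM (t : ℝ) : ℝ := (1 - t) * ((1 - t) ^ 2 + 2 * t * (1 - t) * (1 - t ^ 2))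
noncomputable def fM' (t : ℝ) : ℝ :=
  (1 - t) * ((1 - t) ^ 2 + t * (1 - t) * (1 - t ^ 2) + t * (1 - t))
noncomputable def fG2 (t : ℝ) : ℝ :=
  (1 - t) * (1 - t ^ 3) ^ 2 + t * (1 - t) ^ 2 * (1 - t ^ 2) ^ 4
noncomputable def fG33 (t : ℝ) : ℝ := (1 - t) * ((1 - t) + t * (1 - t) ^ 2 * (1 - t ^ 2) ^ 3)
noncomputable def fG32 (t : ℝ) : ℝ := (1 - t) * ((1 - t) + t * (1 - t) ^ 2 * (1 - t ^ 2) ^ 2)
noncomputable def fMid (t : ℝ) : ℝ :=
  (1 - t) ^ 2 * (1 - t ^ 3) ^ 2 + 2 * t * (1 - t) ^ 2 * (1 - t ^ 2) ^ 3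
noncomputable def fIn (t : ℝ) : ℝ := (1 - t) ^ 3 * ((1 - t ^ 3) + 2 * t * (1 - t ^ 2) ^ 2)
noncomputable def fTri (t : ℝ) : ℝ := (1 - t) ^ 3 * (1 + 2 * t * (1 - t ^ 2) ^ 2)
noncomputable def fLeaf (t : ℝ) : ℝ := (1 - t) ^ 2 * (1 - t ^ 3) ^ 2

end Pool.Agent.OLD57
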