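import Pool.Agent.OLD57.GeoEven
import Pool.Agent.OLD57.PathSum
import Pool.Agent.OLD57.GoodConst

/-!
# Module OLD57/EvDefs

The activity rule for a path with an even number `r ≥ 6` of points: if `ω (x 0) < ω (x (r - 1))` the
even positions are active, if `ω (x (r - 1)) < ω (x 0)` the odd positions, otherwise nothing.

PROOF. `ev_good`: on the event `ω (x 0) < ω (x (r-1))` we have `evR r x ω =` (even positions) `∋ x i`;
for `B'` with `RC B'`, `x i ∈ B'`, `B' ∩ C ⊆` (even positions) the set `B'.erase (x i)` is in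
`bl C A (x i)` (`mem_bl`), see `good_const_iff`. `ev_rev`: by `rev_image_even0`, `rev_image_even1`
the rule for the reversed path (whose first point is `x (r-1)` and last point is
`x (r - 1 - (r - 1)) = x 0`) is: if `ω (x (r-1)) < ω (x 0)` the odd positions, else if
`ω (x 0) < ω (x (r-1))` the even positions, else `∅`; the two conditions exclude each other.
-/

set_option autoImplicit false

namespace Pool.Agent.OLD57

open Finset

/-- The activity rule. -/
noncomputable def evR {P : Type*} [DecidableEq P] (r : ℕ) (x : ℕ → P) {T : ℕ} (ω : P → Fin T) :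
    Finset P :=
  if ω (x 0) < ω (x (r - 1)) then ((range r).filter fun j => j % 2 = 0).image x
  else if ω (x (r - 1)) < ω (x 0) then ((range r).filter fun j => j % 2 = 1).image x
  else ∅

theorem ev_rev {P : Type*} [DecidableEq P] {r : ℕ} (hr : r % 2 = 0) (h2 : 2 ≤ r) (x : ℕ → P)
    {T : ℕ} (ω : P → Fin T) : evR r (fun i => x (r - 1 - i)) ω = evR r x ω := by
  have e0 := rev_image_even0 hr x
  have e1 := rev_image_even1 hr x
  have h0 : r - 1 - 0 = r - 1 := by omega
  have h1 : r - 1 - (r - 1) = 0 := by omega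
  unfold evR
  simp only [h0, h1]
  rw [e0, e1]
  by_cases ha : ω (x 0) < ω (x (r - 1))
  · rw [if_neg (not_lt.2 ha.le), if_pos ha, if_pos ha]
  · by_cases hb : ω (x (r - 1)) < ω (x 0)
    · rw [if_pos hb, if_neg ha, if_pos hb]
    · rw [if_neg hb, if_neg ha, if_neg ha, if_neg hb]

namespace Inc

variable {P L : Type*} [Fintype P] [DecidableEq P] [Fintype L] [DecidableEq L]
variable (H : Inc P L)

variable {r : ℕ} {x : ℕ → P}

theorem ev_good {T : ℕ} {i : ℕ} (hi : i < r) (h2 : i % 2 = 0) {ω : P → Fin T}
    (h0 : ω (x 0) < ω (x (r - 1)))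
    (hB : ∀ B ∈ H.bl ((range r).image x) (((range r).filter fun j => j % 2 = 0).image x) (x i),
      ∃ y ∈ B, ω (x i) < ω y) :
    H.Good ((range r).image x) (evR r x) (x i) ω := by
  have hev : evR r x ω = ((range r).filter fun j => j % 2 = 0).image x := by
    unfold evR
    rw [if_pos h0]
  have hmem : x i ∈ ((range r).filter fun j => j % 2 = 0).image x :=
    mem_image.2 ⟨i, mem_filter.2 ⟨mem_range.2 hi, h2⟩, rfl⟩
  have key := (H.good_const_iff (C := (range r).image x) hmem ω).2 hB
  obtain ⟨k1, k2⟩ := key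
  refine ⟨by rw [hev]; exact k1, fun B' hRC hx hsub => ?_⟩
  rw [hev] at hsub
  exact k2 B' hRC hx hsub

end Inc

end Pool.Agent.OLD57
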