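import Pool.Agent.OLD57.Defs

/-!
# Module OLD57/FBasic

Basic properties of `F`.

PROOF. `sum_wt`: `∑ E, ∏ x, (if x ∈ E then p else 1 - p) = ∏ x, (p + (1 - p)) = 1`
(`Finset.prod_add` on `univ`, `Finset.prod_ite_mem` or `Finset.prod_ite`, powerset of `univ` is
`univ`). `F_anti`: termwise, `wt ≥ 0`: if no `B ∈ 𝓖` is `⊆ E` then no `A ∈ 𝓕` is `⊆ E`.
`F_empty`: the condition is void, so `F p ∅ = ∑ wt = 1`. `F_le_one`: `F_anti` with `F_empty`
(or termwise).
-/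

set_option autoImplicit false

namespace Pool.Agent.OLD57

open Finset

variable {P : Type*} [Fintype P] [DecidableEq P]

theorem wt_nonneg {p : ℝ} (h0 : 0 ≤ p) (h1 : p ≤ 1) (E : Finset P) : 0 ≤ wt p E := by
  unfold wt
  apply Finset.prod_nonneg
  intro x _
  split_ifs
  · exact h0
  · linarith

theorem sum_wt (p : ℝ) : ∑ E : Finset P, wt p E = 1 := by
  have h := Finset.prod_add (fun _ : P => p) (fun _ : P => 1 - p) univ
  rw [Finset.powerset_univ] at h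
  have h1 : ∏ _x : P, (p + (1 - p)) = 1 := by
    apply Finset.prod_eq_one
    intro x _
    ring
  rw [h1] at h
  rw [h]
  apply Finset.sum_congr rfl
  intro E _
  unfold wt
  rw [Finset.prod_ite]
  congr 1
  · apply Finset.prod_congr
    · ext x; simp
    · intros; rfl
  · apply Finset.prod_congr
    · ext x; simp
    · intros; rfl

theorem F_nonneg {p : ℝ} (h0 : 0 ≤ p) (h1 : p ≤ 1) (𝓕 : Finset (Finset P)) : 0 ≤ F p 𝓕 := by
  unfold F
  apply Finset.sum_nonneg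
  intro E _
  split_ifs
  · exact wt_nonneg h0 h1 E
  · exact le_refl _

/-- Domination. -/
theorem F_anti {p : ℝ} (h0 : 0 ≤ p) (h1 : p ≤ 1) {𝓕 𝓖 : Finset (Finset P)}
    (h : ∀ A ∈ 𝓕, ∃ B ∈ 𝓖, B ⊆ A) : F p 𝓖 ≤ F p 𝓕 := by
  unfold F
  apply Finset.sum_le_sum
  intro E _
  by_cases hG : ∀ A ∈ 𝓖, ¬ A ⊆ E
  · have hF : ∀ A ∈ 𝓕, ¬ A ⊆ E := by
      intro A hA hAE
      obtain ⟨B, hB, hBA⟩ := h A hA
      exact hG B hB (hBA.trans hAE)
    rw [if_pos hG, if_pos hF]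
  · rw [if_neg hG]
    split_ifs
    · exact wt_nonneg h0 h1 E
    · exact le_refl _

theorem F_empty (p : ℝ) : F p (∅ : Finset (Finset P)) = 1 := by
  unfold F
  rw [← sum_wt (P := P) p]
  apply Finset.sum_congr rfl
  intro E _
  rw [if_pos]
  intro A hA
  simp at hA

theorem F_le_one {p : ℝ} (h0 : 0 ≤ p) (h1 : p ≤ 1) (𝓕 : Finset (Finset P)) : F p 𝓕 ≤ 1 := by
  rw [← F_empty (P := P) p]
  apply F_anti h0 h1
  intro A hA
  simp at hA

theorem F_of_empty_mem (p : ℝ) {𝓕 : Finset (Finset P)} (h : ∅ ∈ 𝓕) : F p 𝓕 = 0 := by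
  unfold F
  apply Finset.sum_eq_zero
  intro E _
  rw [if_neg]
  intro hc
  exact hc ∅ h (Finset.empty_subset E)

end Pool.Agent.OLD57
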