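import Pool.Agent.OLD57.FBasic

/-!
# Module OLD57/FHarris

Harris (FKG) inequality for `F`.

PROOF. Mathlib: `fkg` (Mathlib.Combinatorics.SetFamily.FourFunctions) on the distributive lattice
`Finset P`, applied to `S = Eᶜ`: put `μ S = ∏ x, if x ∈ S then 1 - p else p = wt p Sᶜ`,
`f S = if ∀ A ∈ 𝓕, ¬ A ⊆ Sᶜ then 1 else 0`, the same `g` with `𝓖`. `f`, `g` are monotone, `μ` is
nonnegative and `μ a * μ b = μ (a ⊓ b) * μ (a ⊔ b)` (factor by factor), `∑ μ = 1` (`sum_wt` and the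
bijection `compl`), and `f * g` is the indicator for `𝓕 ∪ 𝓖`. Sum over `S` = sum over `E` by the
involution `compl` (`Equiv.sum_comp`, or `Finset.sum_bij`). Alternatively `fkg` on the order dual.
-/

set_option autoImplicit false

namespace Pool.Agent.OLD57

open Finset

variable {P : Type*} [Fintype P] [DecidableEq P]

/-- `F` as a sum over the complements. -/
private theorem F_eq_compl (p : ℝ) (𝓕 : Finset (Finset P)) :
    F p 𝓕 = ∑ S : Finset P, wt p Sᶜ * (if (∀ A ∈ 𝓕, ¬ A ⊆ Sᶜ) then (1 : ℝ) else 0) := by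
  unfold F
  rw [← Equiv.sum_comp (Function.Involutive.toPerm (fun S : Finset P => Sᶜ) compl_involutive)]
  refine Finset.sum_congr rfl fun S _ => ?_
  change (if (∀ A ∈ 𝓕, ¬ A ⊆ Sᶜ) then wt p Sᶜ else 0) = _
  by_cases h : ∀ A ∈ 𝓕, ¬ A ⊆ Sᶜ
  · rw [if_pos h, if_pos h, mul_one]
  · rw [if_neg h, if_neg h, mul_zero]

private theorem sum_wt_compl (p : ℝ) : ∑ S : Finset P, wt p Sᶜ = 1 := by
  have h := Equiv.sum_comp
    (Function.Involutive.toPerm (fun S : Finset P => Sᶜ) compl_involutive)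
    (fun S : Finset P => wt p S)
  simp only [Function.Involutive.coe_toPerm] at h
  rw [h]
  exact sum_wt p

private theorem wt_mul (p : ℝ) (a b : Finset P) :
    wt p aᶜ * wt p bᶜ = wt p (a ⊓ b)ᶜ * wt p (a ⊔ b)ᶜ := by
  unfold wt
  rw [← Finset.prod_mul_distrib, ← Finset.prod_mul_distrib]
  refine Finset.prod_congr rfl fun x _ => ?_
  by_cases hxa : x ∈ a <;> by_cases hxb : x ∈ b <;> simp [hxa, hxb, mul_comm]

private theorem ind_mono (𝓕 : Finset (Finset P)) :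
    Monotone fun S : Finset P => (if (∀ A ∈ 𝓕, ¬ A ⊆ Sᶜ) then (1 : ℝ) else 0) := by
  intro S T hST
  have hc : Tᶜ ⊆ Sᶜ := Finset.compl_subset_compl.mpr hST
  by_cases h : ∀ A ∈ 𝓕, ¬ A ⊆ Sᶜ
  · have h' : ∀ A ∈ 𝓕, ¬ A ⊆ Tᶜ := fun A hA hAT => h A hA (hAT.trans hc)
    simp only [if_pos h, if_pos h', le_refl]
  · simp only [if_neg h]
    split_ifs <;> norm_num

theorem F_mul_le {p : ℝ} (h0 : 0 ≤ p) (h1 : p ≤ 1) (𝓕 𝓖 : Finset (Finset P)) :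
    F p 𝓕 * F p 𝓖 ≤ F p (𝓕 ∪ 𝓖) := by
  have key := fkg (α := Finset P) (β := ℝ) (μ := fun S => wt p Sᶜ)
    (f := fun S => (if (∀ A ∈ 𝓕, ¬ A ⊆ Sᶜ) then (1 : ℝ) else 0))
    (g := fun S => (if (∀ A ∈ 𝓖, ¬ A ⊆ Sᶜ) then (1 : ℝ) else 0))
    (fun S => wt_nonneg h0 h1 _)
    (fun S => by dsimp only; split_ifs <;> simp)
    (fun S => by dsimp only; split_ifs <;> simp)
    (ind_mono 𝓕) (ind_mono 𝓖) (fun a b => (wt_mul p a b).le)
  rw [F_eq_compl p 𝓕, F_eq_compl p 𝓖, F_eq_compl p (𝓕 ∪ 𝓖)]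
  refine key.trans (le_of_eq ?_)
  rw [sum_wt_compl, one_mul]
  refine Finset.sum_congr rfl fun S _ => ?_
  congr 1
  by_cases hF : ∀ A ∈ 𝓕, ¬ A ⊆ Sᶜ <;> by_cases hG : ∀ A ∈ 𝓖, ¬ A ⊆ Sᶜ
  · have hU : ∀ A ∈ 𝓕 ∪ 𝓖, ¬ A ⊆ Sᶜ := fun A hA =>
      (Finset.mem_union.mp hA).elim (hF A) (hG A)
    rw [if_pos hF, if_pos hG, if_pos hU, one_mul]
  · have hU : ¬ ∀ A ∈ 𝓕 ∪ 𝓖, ¬ A ⊆ Sᶜ := fun h =>
      hG fun A hA => h A (Finset.mem_union_right _ hA)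
    rw [if_neg hG, if_neg hU, mul_zero]
  · have hU : ¬ ∀ A ∈ 𝓕 ∪ 𝓖, ¬ A ⊆ Sᶜ := fun h =>
      hF fun A hA => h A (Finset.mem_union_left _ hA)
    rw [if_neg hF, if_neg hU, zero_mul]
  · have hU : ¬ ∀ A ∈ 𝓕 ∪ 𝓖, ¬ A ⊆ Sᶜ := fun h =>
      hF fun A hA => h A (Finset.mem_union_left _ hA)
    rw [if_neg hF, if_neg hU, zero_mul]

end Pool.Agent.OLD57
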