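import Pool.Agent.OLD57.FIns

/-!
# Module OLD57/FamN

PROOF. Condition on `a` (`F_cond_ge`), `𝓛 = {insert b A1, insert b A2}`, `𝓔 = {{b}, B1, B2}`:
`({a, b}).erase a = {b}`, `(insert b A_i).erase a ⊇ {b}`, `(insert a B_i).erase a = B_i`.
`F p 𝓔 ≥ (1 - p) (1 - p^2)^2` by `F_insert` twice and `F_single`. For `𝓛` condition on `b`:
late: empty family (value 1), early: `{A1, A2}` (`b ∉ A_i`), so
`F p 𝓛 ≥ (1 - p) + p (1 - p^2)^2`. Total:
`(1 - p) ((1 - p) + p (1 - p^2)^2) + p (1 - p) (1 - p^2)^2 = fN p` (`ring`).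
(Sets may coincide, this does not matter: `F_insert` and `F_anti` hold anyway.)
-/

set_option autoImplicit false

namespace Pool.Agent.OLD57

open Finset

variable {P : Type*} [Fintype P] [DecidableEq P]

theorem F_fN {p : ℝ} (h0 : 0 ≤ p) (h1 : p ≤ 1) {a b : P} (hab : a ≠ b)
    {A1 A2 B1 B2 : Finset P} (cA1 : A1.card = 2) (cA2 : A2.card = 2) (cB1 : B1.card = 2)
    (cB2 : B2.card = 2) (hA1 : b ∉ A1) (hA2 : b ∉ A2) (hB1 : a ∉ B1) (hB2 : a ∉ B2) :
    fN p ≤ F p {{a, b}, insert b A1, insert b A2, insert a B1, insert a B2} := by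
  have hba : b ≠ a := hab.symm
  -- two pairs
  have hp2 : ∀ X Y : Finset P, X.card = 2 → Y.card = 2 → (1 - p ^ 2) ^ 2 ≤ F p {X, Y} := by
    intro X Y hX hY
    have h := F_insert h0 h1 X {Y}
    rw [F_single, hX, hY] at h
    calc (1 - p ^ 2) ^ 2 = (1 - p ^ 2) * (1 - p ^ 2) := by ring
      _ ≤ F p {X, Y} := h
  -- early family
  have hE : (1 - p) * (1 - p ^ 2) ^ 2 ≤ F p {{b}, B1, B2} := by
    have h := F_insert h0 h1 {b} {B1, B2}
    have h2 := hp2 B1 B2 cB1 cB2
    have h3 : (1 - p ^ ({b} : Finset P).card) = 1 - p := by simp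
    rw [h3] at h
    calc (1 - p) * (1 - p ^ 2) ^ 2 ≤ (1 - p) * F p {B1, B2} :=
          mul_le_mul_of_nonneg_left h2 (by linarith)
      _ ≤ F p {{b}, B1, B2} := h
  -- late family
  have hL : (1 - p) + p * (1 - p ^ 2) ^ 2 ≤ F p {insert b A1, insert b A2} := by
    have h := F_cond_ge h0 h1 b (𝓕 := {insert b A1, insert b A2}) (𝓛 := ∅) (𝓔 := {A1, A2})
      (by
        intro A hA hbA
        simp only [mem_insert, mem_singleton] at hA
        rcases hA with rfl | rfl
        · exact absurd (mem_insert_self _ _) hbA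
        · exact absurd (mem_insert_self _ _) hbA)
      (by
        intro A hA
        simp only [mem_insert, mem_singleton] at hA
        rcases hA with rfl | rfl
        · exact ⟨A1, by simp, by rw [erase_insert hA1]⟩
        · exact ⟨A2, by simp, by rw [erase_insert hA2]⟩)
    rw [F_empty] at h
    have h2 := mul_le_mul_of_nonneg_left (hp2 A1 A2 cA1 cA2) h0
    linarith
  have h := F_cond_ge h0 h1 a
    (𝓕 := {{a, b}, insert b A1, insert b A2, insert a B1, insert a B2})
    (𝓛 := {insert b A1, insert b A2}) (𝓔 := {{b}, B1, B2})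
    (by
      intro A hA haA
      simp only [mem_insert, mem_singleton] at hA
      rcases hA with rfl | rfl | rfl | rfl | rfl
      · exact absurd (mem_insert_self _ _) haA
      · exact ⟨insert b A1, by simp, Subset.refl _⟩
      · exact ⟨insert b A2, by simp, Subset.refl _⟩
      · exact absurd (mem_insert_self _ _) haA
      · exact absurd (mem_insert_self _ _) haA)
    (by
      intro A hA
      simp only [mem_insert, mem_singleton] at hA
      rcases hA with rfl | rfl | rfl | rfl | rfl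
      · exact ⟨{b}, by simp, by simp [singleton_subset_iff, mem_erase, hba]⟩
      · exact ⟨{b}, by simp, by simp [singleton_subset_iff, mem_erase, hba]⟩
      · exact ⟨{b}, by simp, by simp [singleton_subset_iff, mem_erase, hba]⟩
      · exact ⟨B1, by simp, by rw [erase_insert hB1]⟩
      · exact ⟨B2, by simp, by rw [erase_insert hB2]⟩)
  have h5 := mul_le_mul_of_nonneg_left hL (by linarith : (0 : ℝ) ≤ 1 - p)
  have h6 := mul_le_mul_of_nonneg_left hE h0
  have h7 : fN p = (1 - p) * ((1 - p) + p * (1 - p ^ 2) ^ 2)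
      + p * ((1 - p) * (1 - p ^ 2) ^ 2) := by
    unfold fN; ring
  rw [h7]
  linarith

end Pool.Agent.OLD57
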