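import Pool.Agent.OLD57.GraphDefs

/-!
# Module OLD57/Sharp

The Moebius ladder with 14 vertices: `N(i) = {i - 1, i + 1, i + 7}`.

PROOF. `M14_regular`: `decide` (or by `fin_cases`). `M14_connected`: every `i` is reachable from `0`
by steps `+1` (induction on the value, `Fin.induction`, or 13 explicit adjacencies). `M14_twin`: `i + 1`,
`i + 7`, `i - 1` determine `i`: `fin_cases u, v` and a distinguishing neighbour; or: turn the
equality of sets into `∀ w, M14.Adj u w ↔ M14.Adj v w` (`Set.ext_iff`) and `decide` over `u v`.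
`M14_lower`: put `c i = 1` if `i ∈ S`, otherwise `0`. Every neighbourhood meets `S`:
`c (i-1) + c (i+1) + c (i+7) ≥ 1`. `N(i)` and `N(i + 8) = {i + 7, i + 9, i + 1}` are different on `S`:
`c (i-1) + c (i+9) ≥ 1`. These inequalities concern the even and the odd vertices separately; in each
class of seven vertices at least five are in `S`: among seven Booleans `b 0, ..., b 6` (`b j` = the
vertex `8 j` or `8 j + 1` modulo 14; lines = three consecutive ones, mate pairs = difference 3) with
`b j || b (j+1) || b (j+2)` and `b j || b (j+3)` (indices modulo 7) at least five are true: `decide`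
over all Boolean assignments. Then sum over all 14 vertices (`S.card = ∑ i, if i ∈ S then 1 else 0`,
`Fin.sum_univ_succ`, or `omega` with the 28 inequalities directly).
-/

set_option autoImplicit false

namespace Pool.Agent.OLD57

open Finset

theorem M14_regular : M14.IsRegularOfDegree 3 := by
  intro v
  revert v
  decide

theorem M14_connected : M14.Connected := by
  have h : ∀ (n : ℕ) (hn : n < 14), M14.Reachable 0 ⟨n, hn⟩ := by
    intro n
    induction n with
    | zero => intro _; exact SimpleGraph.Reachable.refl _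
    | succ n ih =>
      intro hn
      refine (ih (by omega)).trans (SimpleGraph.Adj.reachable ?_)
      left
      apply Fin.ext
      rw [Fin.val_add_one_of_lt' (by simpa using hn)]
  exact (SimpleGraph.connected_iff_exists_forall_reachable _).2 ⟨0, fun w => h w.1 w.2⟩

private theorem Sharp_twin : ∀ u v : Fin 14, (∀ w, M14.Adj u w ↔ M14.Adj v w) → u = v := by
  decide

theorem M14_twin : ∀ u v : Fin 14, M14.neighborSet u = M14.neighborSet v → u = v :=
  fun u v h => Sharp_twin u v fun w => Set.ext_iff.1 h w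

private theorem Sharp_seven : ∀ b0 b1 b2 b3 b4 b5 b6 : Bool,
    (b0 || b1 || b2) = true → (b1 || b2 || b3) = true → (b2 || b3 || b4) = true →
    (b3 || b4 || b5) = true → (b4 || b5 || b6) = true → (b5 || b6 || b0) = true →
    (b6 || b0 || b1) = true → (b0 || b3) = true → (b1 || b4) = true → (b2 || b5) = true →
    (b3 || b6) = true → (b4 || b0) = true → (b5 || b1) = true → (b6 || b2) = true →
    5 ≤ b0.toNat + b1.toNat + b2.toNat + b3.toNat + b4.toNat + b5.toNat + b6.toNat := by
  decide

private theorem Sharp_aux1 : ∀ s : Fin 14, s = s + 1 + 13 := by decide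

private theorem Sharp_aux2 : ∀ i : Fin 14, i ≠ i + 8 := by decide

private theorem Sharp_aux3 : ∀ i w : Fin 14, M14.Adj i w → w ≠ i + 13 → M14.Adj (i + 8) w := by
  decide

private theorem Sharp_aux4 : ∀ i w : Fin 14, M14.Adj (i + 8) w → w ≠ i + 9 → M14.Adj i w := by
  decide

private theorem Sharp_line {S : Finset (Fin 14)} (hS : IsOLD M14 S) (i : Fin 14) :
    (decide (i + 13 ∈ S) || decide (i + 7 ∈ S) || decide (i + 1 ∈ S)) = true := by
  obtain ⟨s, hs, h⟩ := hS.1 i
  simp only [Bool.or_eq_true, decide_eq_true_eq]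
  rcases h with h | h | h
  · right; rw [← h]; exact hs
  · left; left
    have : s = i + 13 := by rw [h]; exact Sharp_aux1 s
    rw [← this]; exact hs
  · left; right; rw [← h]; exact hs

private theorem Sharp_pair {S : Finset (Fin 14)} (hS : IsOLD M14 S) (i : Fin 14) :
    (decide (i + 13 ∈ S) || decide (i + 9 ∈ S)) = true := by
  by_contra hcon
  simp only [Bool.or_eq_true, decide_eq_true_eq, not_or] at hcon
  obtain ⟨h1, h2⟩ := hcon
  refine hS.2 i (i + 8) (Sharp_aux2 i) ?_
  ext w
  simp only [Set.mem_inter_iff, SimpleGraph.mem_neighborSet, mem_coe]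
  constructor
  · rintro ⟨h, hw⟩
    exact ⟨Sharp_aux3 i w h fun e => h1 (e ▸ hw), hw⟩
  · rintro ⟨h, hw⟩
    exact ⟨Sharp_aux4 i w h fun e => h2 (e ▸ hw), hw⟩

private theorem Sharp_sum (f : Fin 14 → ℕ) : ∑ i, f i =
    f 0 + (f 1 + (f 2 + (f 3 + (f 4 + (f 5 + (f 6 + (f 7 + (f 8 + (f 9 + (f 10 + (f 11 +
      (f 12 + (f 13 + 0))))))))))))) := by
  simp only [Fin.sum_univ_succ, Fin.sum_univ_zero]
  rfl

theorem M14_lower {S : Finset (Fin 14)} (hS : IsOLD M14 S) : 10 ≤ S.card := by
  have hL := Sharp_line hS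
  have hP := Sharp_pair hS
  have hcard : S.card = ∑ i : Fin 14, (decide (i ∈ S)).toNat := by
    have h1 : ∀ i : Fin 14, (decide (i ∈ S)).toNat = if i ∈ S then 1 else 0 := by
      intro i
      by_cases hi : i ∈ S <;> simp [hi]
    simp only [h1, Finset.sum_ite_mem, Finset.univ_inter, Finset.sum_const, smul_eq_mul, mul_one]
  have hev := Sharp_seven (decide ((0 : Fin 14) ∈ S)) (decide ((8 : Fin 14) ∈ S))
    (decide ((2 : Fin 14) ∈ S)) (decide ((10 : Fin 14) ∈ S)) (decide ((4 : Fin 14) ∈ S))
    (decide ((12 : Fin 14) ∈ S)) (decide ((6 : Fin 14) ∈ S))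
    (hL 1) (hL 9) (hL 3) (hL 11) (hL 5) (hL 13) (hL 7)
    (hP 1) (hP 9) (hP 3) (hP 11) (hP 5) (hP 13) (hP 7)
  have hod := Sharp_seven (decide ((1 : Fin 14) ∈ S)) (decide ((9 : Fin 14) ∈ S))
    (decide ((3 : Fin 14) ∈ S)) (decide ((11 : Fin 14) ∈ S)) (decide ((5 : Fin 14) ∈ S))
    (decide ((13 : Fin 14) ∈ S)) (decide ((7 : Fin 14) ∈ S))
    (hL 2) (hL 10) (hL 4) (hL 12) (hL 6) (hL 0) (hL 8)
    (hP 2) (hP 10) (hP 4) (hP 12) (hP 6) (hP 0) (hP 8)
  rw [hcard, Sharp_sum]
  omega

end Pool.Agent.OLD57
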