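import Pool.Agent.OLD57.Main
import Pool.Agent.OLD57.Cube
import Pool.Agent.OLD57.Cyc7
import Pool.Agent.OLD57.Sharp

/-!
# Module OLD57/Final (complete)
-/

set_option autoImplicit false

namespace Pool.Agent.OLD57

open Finset

theorem upper {V : Type*} [Fintype V] [DecidableEq V] (G : SimpleGraph V) [DecidableRel G.Adj]
    (hG : G.Connected) (h3 : G.IsRegularOfDegree 3)
    (htw : ∀ u v : V, G.neighborSet u = G.neighborSet v → u = v)
    (hK : ¬ Nonempty (G ≃g (⊤ : SimpleGraph (Fin 4)))) (hQ : ¬ Nonempty (G ≃g Q3)) :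
    ∃ S : Finset V, IsOLD G S ∧ 7 * S.card ≤ 5 * Fintype.card V ∧
      (15 ≤ Fintype.card V → 500 * S.card ≤ 357 * Fintype.card V) := by
  have hc := noCube hG h3 htw hK hQ
  by_cases hn : 15 ≤ Fintype.card V
  · obtain ⟨U, h1, h2⟩ := (gInc G h3 htw).main_large hc (fun z l h => by
      have := cyc7_card hG h3 htw h
      omega)
    refine ⟨Uᶜ, isOLD_compl G h3 htw h1, ?_, fun _ => ?_⟩
    · have := card_compl_add_card U
      omega
    · have := card_compl_add_card U
      omega
  · obtain ⟨U, h1, h2⟩ := (gInc G h3 htw).main_all hc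
    refine ⟨Uᶜ, isOLD_compl G h3 htw h1, ?_, fun h => absurd h hn⟩
    have := card_compl_add_card U
    omega

end Pool.Agent.OLD57
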