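import Pool.Agent.OLD57.Thr
import Pool.Agent.OLD57.FamN

/-!
# Module OLD57/FreeN

A free line `l = {x, p, q}` (neither `p` nor `q` is K-adjacent to `x`) with `p`, `q` not K-adjacent.

PROOF. `lns p = {l, m1, m2}`, `lns q = {l, m3, m4}` (`exists_lns`). `q ∉ pts m1, pts m2` and
`p ∉ pts m3, pts m4`, otherwise `K p q` (`K_of` with `l`). Put `A_i = (pts m_i).erase p` (`i = 1, 2`),
`B_i = (pts m_i).erase q` (`i = 3, 4`), all of size 2. By `thr_cases` every member of `thr x l` is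
one of `{p, q}`, `insert q A_1`, `insert q A_2`, `insert p B_3`, `insert p B_4` (case 2: `m ∈ lns p`,
`m ≠ l`; case 4 gives `K p q` by `K_of` with `l`, `m`, contradiction). `F_anti` and `F_fN` with
`a = p`, `b = q`.
-/

set_option autoImplicit false

namespace Pool.Agent.OLD57

open Finset

namespace Inc

variable {P L : Type*} [Fintype P] [DecidableEq P] [Fintype L] [DecidableEq L]
variable (H : Inc P L)

theorem thr_free_N {t : ℝ} (h0 : 0 ≤ t) (h1 : t ≤ 1) {x p q : P} {l : L}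
    (hl : H.pts l = {x, p, q}) (hxp : x ≠ p) (hxq : x ≠ q) (hpq : p ≠ q) (hK : ¬ H.K p q) :
    fN t ≤ F t (H.thr x l) := by
  have hpl : p ∈ H.pts l := by rw [hl]; simp
  have hql : q ∈ H.pts l := by rw [hl]; simp
  obtain ⟨m1, m2, hlm1, hlm2, -, hlp⟩ := H.exists_lns ((H.mem_iff p l).1 hpl)
  obtain ⟨m3, m4, hlm3, hlm4, -, hlq⟩ := H.exists_lns ((H.mem_iff q l).1 hql)
  have hpm1 : p ∈ H.pts m1 := by rw [H.mem_iff, hlp]; simp
  have hpm2 : p ∈ H.pts m2 := by rw [H.mem_iff, hlp]; simp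
  have hqm3 : q ∈ H.pts m3 := by rw [H.mem_iff, hlq]; simp
  have hqm4 : q ∈ H.pts m4 := by rw [H.mem_iff, hlq]; simp
  have hq : ∀ m, l ≠ m → p ∈ H.pts m → q ∉ H.pts m := fun m hm h2 h3 =>
    hK (H.K_of hpq hm hpl hql h2 h3)
  have hcard : ∀ m (y : P), y ∈ H.pts m → ((H.pts m).erase y).card = 2 := by
    intro m y hy
    rw [card_erase_of_mem hy, H.card_pts]
  refine (F_fN h0 h1 hpq (hcard m1 p hpm1) (hcard m2 p hpm2) (hcard m3 q hqm3)
    (hcard m4 q hqm4) (fun h => hq m1 hlm1 hpm1 (mem_of_mem_erase h))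
    (fun h => hq m2 hlm2 hpm2 (mem_of_mem_erase h))
    (fun h => hq m3 hlm3 (mem_of_mem_erase h) hqm3)
    (fun h => hq m4 hlm4 (mem_of_mem_erase h) hqm4)).trans (F_anti h0 h1 ?_)
  intro A hA
  refine ⟨A, ?_, subset_rfl⟩
  simp only [mem_insert, mem_singleton]
  rcases H.thr_cases hl hxp hxq hpq hA with h | ⟨m, hm, hml, -, -, h⟩ | ⟨m, hm, hml, -, -, h⟩ |
    ⟨m, y, hml, hm, -, -, -, -⟩
  · exact Or.inl h
  · rw [hlp] at hm
    simp only [mem_insert, mem_singleton] at hm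
    rcases hm with rfl | rfl | rfl
    · exact absurd rfl hml
    · exact Or.inr (Or.inl h)
    · exact Or.inr (Or.inr (Or.inl h))
  · rw [hlq] at hm
    simp only [mem_insert, mem_singleton] at hm
    rcases hm with rfl | rfl | rfl
    · exact absurd rfl hml
    · exact Or.inr (Or.inr (Or.inr (Or.inl h)))
    · exact Or.inr (Or.inr (Or.inr (Or.inr h)))
  · exfalso
    exact hq m hml.symm (by rw [hm]; simp) (by rw [hm]; simp)

end Inc

end Pool.Agent.OLD57
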