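import Pool.Agent.OLD57.GraphDefs

/-!
# Module OLD57/GValid

PROOF. `isOLD_compl`: `hU.1 v`: `neighborFinset v` is not a subset of `U`, so `v` has a neighbour
outside `U`. If `u ≠ v` and `N(u) ∩ Uᶜ = N(v) ∩ Uᶜ` (as sets) then
`symmDiff (N u) (N v) ⊆ U`: a vertex `w ∉ U` is in `N(u)` iff it is in `N(v)`; contradiction to
`hU.2 u v`. `card_compl`: `Finset.card_compl`, `omega`.
`closed_univ`: a set closed under adjacency and nonempty contains everything (walk from an element
of `S`, `SimpleGraph.Connected.preconnected`, induction on the walk).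
-/

set_option autoImplicit false

namespace Pool.Agent.OLD57

open Finset

variable {V : Type*} [Fintype V] [DecidableEq V]

theorem isOLD_compl (G : SimpleGraph V) [DecidableRel G.Adj] (h3 : G.IsRegularOfDegree 3)
    (htw : ∀ u v : V, G.neighborSet u = G.neighborSet v → u = v) {U : Finset V}
    (hU : (gInc G h3 htw).Valid U) : IsOLD G Uᶜ := by
  constructor
  · intro v
    have h1 : ¬ G.neighborFinset v ⊆ U := hU.1 v
    obtain ⟨w, hw, hwU⟩ := Finset.not_subset.1 h1
    exact ⟨w, Finset.mem_compl.2 hwU, (G.mem_neighborFinset v w).1 hw⟩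
  · intro u v huv h
    have h1 : ¬ symmDiff (G.neighborFinset u) (G.neighborFinset v) ⊆ U := hU.2 u v huv
    apply h1
    intro w hw
    by_contra hwU
    have h2 : w ∈ G.neighborSet u ∩ ((Uᶜ : Finset V) : Set V) ↔
        w ∈ G.neighborSet v ∩ ((Uᶜ : Finset V) : Set V) := by rw [h]
    have h3' : G.Adj u w ↔ G.Adj v w := by
      constructor
      · intro h4
        exact (h2.1 ⟨h4, Finset.mem_coe.2 (Finset.mem_compl.2 hwU)⟩).1
      · intro h4
        exact (h2.2 ⟨h4, Finset.mem_coe.2 (Finset.mem_compl.2 hwU)⟩).1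
    rw [Finset.mem_symmDiff, G.mem_neighborFinset, G.mem_neighborFinset] at hw
    tauto

theorem closed_univ {G : SimpleGraph V} (hG : G.Connected) {S : Finset V} (hne : S.Nonempty)
    (hcl : ∀ u ∈ S, ∀ w, G.Adj u w → w ∈ S) (w : V) : w ∈ S := by
  obtain ⟨u, hu⟩ := hne
  obtain ⟨p⟩ := hG.preconnected u w
  induction p with
  | nil => exact hu
  | cons h _ ih => exact ih (hcl _ hu _ h)

end Pool.Agent.OLD57
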