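import Pool.Agent.OLD57.Cover
import Pool.Agent.OLD57.PathFacts
import Pool.Agent.OLD57.GeoOdd

/-!
# Module OLD57/GeoEven

Path with `r ≥ 6` points, `r` even, active points: the even positions. `C = {x j | j < r}`,
`A = {x j | j < r, j even}`. A point `x j` with `j < r` odd is in no `B ∈ bl C A z`.

PROOF. `even_end`: `B ∈ bl C A (x 0)` comes from `l 0`, `l 1` or `n0` (`bl_cover`). `l 0 =
{x 0, e, x 1}`: cases 1, 2 contain `x 1`; case 3: `m ∈ lns (x 1) = {l 0, l 1, l 2}`, `x 0 ∉ pts m`:
`m = l 2`, `B = insert e {x 2, x 3}` contains `x 3`; case 4: `K e (x 1)`: `e = x 0` or `e = x 2`,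
contradiction. `l 1 = {x 0, x 1, x 2}`: cases 1, 3 contain `x 1`; case 2: `m ∈ lns (x 1)`,
`x 0, x 2 ∉ pts m`: none; case 4: `m = l 2`, `B = {x 3}`. So it comes from `n0`.
`even_two`: `i = 2`: `l 1 = {x 2, x 0, x 1}`: cases 1, 2 contain `x 1`; case 3: `m ∈ lns (x 1)`,
`x 0, x 2 ∉ pts m`: none; case 4: `m = l 0`, `B = {e}`. `l 2 = {x 1, x 2, x 3}`: contain `x 1` or
`x 3`, or `K (x 1) (x 3)`. `l 3 = {x 2, x 3, x 4}`: cases 1, 3 contain `x 3`; case 2:
`m ∈ lns (x 3) = {l 2, l 3, l 4}`, `x 2, x 4 ∉ pts m`: none; case 4: `m = l 4`, `B = {x 5}`, odd.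
`even_last`: `i = r - 2`, lines `l (r-3), l (r-2), l (r-1)`, `l (r-1) = {x (r-2), x (r-1), f}`:
cases containing `x (r-1)` are impossible, remaining: `m ∈ lns (x (r-1)) = {l (r-2), l (r-1), n1}`,
`x (r-2) ∉ pts m`: `m = n1`, `B = insert f ((pts n1).erase (x (r-1)))`; case 4:
`K (x (r-1)) f`, contradiction. `l (r-2)`: contains odd points or `K (x (r-3)) (x (r-1))`.
`l (r-3) = {x (r-4), x (r-3), x (r-2)}`: cases containing `x (r-3)`, or `m ∈ lns (x (r-3))` with
`x (r-4), x (r-2) ∉ pts m`: none, or case 4: `m = l (r-4)`, `B = {x (r-5)}`, odd.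
`even_interior`: `4 ≤ i`, `i + 4 ≤ r`, `i` even: as in GeoOdd.
-/

set_option autoImplicit false

namespace Pool.Agent.OLD57

open Finset

namespace Inc

variable {P L : Type*} [Fintype P] [DecidableEq P] [Fintype L] [DecidableEq L]
variable (H : Inc P L)

variable {r : ℕ} {x : ℕ → P} {l : ℕ → L} {e f : P} {n0 n1 : L}

theorem even_end (h : PathCfg H r x l e f n0 n1) (hr : 6 ≤ r) {B : Finset P}
    (hB : B ∈ H.bl ((range r).image x) (((range r).filter fun j => j % 2 = 0).image x) (x 0)) :
    B ∈ H.thr (x 0) n0 := by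
  have hp := h.toKPath
  have N : ∀ a b : ℕ, a < r → b < r → a ≠ b → x a ≠ x b := fun a b ha hb hab =>
    hp.ne H ha hb hab
  obtain ⟨ne1, ne2, ne3, ne4, ne5, ne6⟩ := h.ne0 H
  have b1 : x 1 ∉ B := H.not_mem_of_pos hp hB (by omega) (by omega)
  have b3 : x 3 ∉ B := H.not_mem_of_pos hp hB (by omega) (by omega)
  obtain ⟨m', hm', hB'⟩ := H.bl_cover hB
  have P0 : H.pts (l 0) = {e, x 0, x 1} := h.pts0
  have P1 : H.pts (l 1) = {x 0, x 1, x 2} := h.ptsi 1 (by omega) (by omega)
  have P2 : H.pts (l 2) = {x 1, x 2, x 3} := h.ptsi 2 (by omega) (by omega)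
  have L0 : H.lns (x 0) = {l 0, l 1, n0} := h.lns0
  have L1 : H.lns (x 1) = {l 0, l 1, l 2} := h.lnsi 1 (by omega) (by omega)
  rw [L0] at hm'
  simp only [mem_insert, mem_singleton] at hm'
  rcases hm' with rfl | rfl | rfl
  · exfalso
    have P0' : H.pts (l 0) = {x 0, e, x 1} := by
      rw [P0]; ext z; simp only [mem_insert, mem_singleton]; tauto
    rcases H.thr_cases P0' ne1.symm ne3 ne2 hB' with
      hc | ⟨m, hm, hml, hq, hx, hc⟩ | ⟨m, hm, hml, hq, hx, hc⟩ | ⟨m, y, hml, hmp, hy1, hy2, hy3, hc⟩
    · exact b1 (by rw [hc]; simp)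
    · exact b1 (by rw [hc]; simp)
    · rw [L1] at hm
      simp only [mem_insert, mem_singleton] at hm
      rcases hm with rfl | rfl | rfl
      · exact hml rfl
      · exact hx (by rw [P1]; simp)
      · apply b3
        rw [hc]
        refine mem_insert_of_mem (mem_erase.2 ⟨N _ _ (by omega) (by omega) (by omega), ?_⟩)
        rw [P2]; simp
    · have hK : H.K (x 1) e := H.K_of ne2.symm hml (by rw [hmp]; simp) (by rw [hmp]; simp)
        (by rw [P0]; simp) (by rw [P0]; simp)
      rcases (hp.Ki H (i := 1) (by omega) (by omega) e).1 hK with h' | h'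
      · exact ne1 h'
      · exact h.e_ne2 H (by omega) h'
  · exfalso
    rcases H.thr_cases P1 (N _ _ (by omega) (by omega) (by omega))
      (N _ _ (by omega) (by omega) (by omega)) (N _ _ (by omega) (by omega) (by omega)) hB' with
      hc | ⟨m, hm, hml, hq, hx, hc⟩ | ⟨m, hm, hml, hq, hx, hc⟩ | ⟨m, y, hml, hmp, hy1, hy2, hy3, hc⟩
    · exact b1 (by rw [hc]; simp)
    · rw [L1] at hm
      simp only [mem_insert, mem_singleton] at hm
      rcases hm with rfl | rfl | rfl
      · exact hx (by rw [P0]; simp)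
      · exact hml rfl
      · exact hq (by rw [P2]; simp)
    · exact b1 (by rw [hc]; simp)
    · have hm : m ∈ H.lns (x 1) := by rw [← H.mem_iff, hmp]; simp
      rw [L1] at hm
      simp only [mem_insert, mem_singleton] at hm
      rcases hm with rfl | rfl | rfl
      · have : x 2 ∈ H.pts (l 0) := by rw [hmp]; simp
        rw [P0] at this
        simp only [mem_insert, mem_singleton] at this
        rcases this with h' | h' | h'
        · exact h.e_ne2 H (by omega) h'.symm
        · exact N _ _ (by omega) (by omega) (by omega) h'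
        · exact N _ _ (by omega) (by omega) (by omega) h'
      · exact hml rfl
      · have : y ∈ H.pts (l 2) := by rw [hmp]; simp
        rw [P2] at this
        simp only [mem_insert, mem_singleton] at this
        rcases this with h' | h' | h'
        · exact hy1 h'
        · exact hy2 h'
        · exact b3 (by rw [hc, ← h']; simp)
  · exact hB'

theorem even_two (h : PathCfg H r x l e f n0 n1) (hr : 6 ≤ r) {B : Finset P}
    (hB : B ∈ H.bl ((range r).image x) (((range r).filter fun j => j % 2 = 0).image x) (x 2)) :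
    B = {e} := by
  have hp := h.toKPath
  have N : ∀ a b : ℕ, a < r → b < r → a ≠ b → x a ≠ x b := fun a b ha hb hab =>
    hp.ne H ha hb hab
  obtain ⟨ne1, ne2, ne3, ne4, ne5, ne6⟩ := h.ne0 H
  have b1 : x 1 ∉ B := H.not_mem_of_pos hp hB (by omega) (by omega)
  have b3 : x 3 ∉ B := H.not_mem_of_pos hp hB (by omega) (by omega)
  have b5 : x 5 ∉ B := H.not_mem_of_pos hp hB (by omega) (by omega)
  obtain ⟨m', hm', hB'⟩ := H.bl_cover hB
  have P0 : H.pts (l 0) = {e, x 0, x 1} := h.pts0
  have P1 : H.pts (l 1) = {x 0, x 1, x 2} := h.ptsi 1 (by omega) (by omega)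
  have P2 : H.pts (l 2) = {x 1, x 2, x 3} := h.ptsi 2 (by omega) (by omega)
  have P3 : H.pts (l 3) = {x 2, x 3, x 4} := h.ptsi 3 (by omega) (by omega)
  have P4 : H.pts (l 4) = {x 3, x 4, x 5} := h.ptsi 4 (by omega) (by omega)
  have L1 : H.lns (x 1) = {l 0, l 1, l 2} := h.lnsi 1 (by omega) (by omega)
  have L2 : H.lns (x 2) = {l 1, l 2, l 3} := h.lnsi 2 (by omega) (by omega)
  have L3 : H.lns (x 3) = {l 2, l 3, l 4} := h.lnsi 3 (by omega) (by omega)
  rw [L2] at hm'
  simp only [mem_insert, mem_singleton] at hm'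
  rcases hm' with rfl | rfl | rfl
  · have P1' : H.pts (l 1) = {x 2, x 0, x 1} := by
      rw [P1]; ext z; simp only [mem_insert, mem_singleton]; tauto
    rcases H.thr_cases P1' (N _ _ (by omega) (by omega) (by omega))
      (N _ _ (by omega) (by omega) (by omega)) (N _ _ (by omega) (by omega) (by omega)) hB' with
      hc | ⟨m, hm, hml, hq, hx, hc⟩ | ⟨m, hm, hml, hq, hx, hc⟩ | ⟨m, y, hml, hmp, hy1, hy2, hy3, hc⟩
    · exact absurd (by rw [hc]; simp) b1
    · exact absurd (by rw [hc]; simp) b1
    · exfalso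
      rw [L1] at hm
      simp only [mem_insert, mem_singleton] at hm
      rcases hm with rfl | rfl | rfl
      · exact hq (by rw [P0]; simp)
      · exact hml rfl
      · exact hx (by rw [P2]; simp)
    · have hm : m ∈ H.lns (x 1) := by rw [← H.mem_iff, hmp]; simp
      rw [L1] at hm
      simp only [mem_insert, mem_singleton] at hm
      rcases hm with rfl | rfl | rfl
      · have : y ∈ H.pts (l 0) := by rw [hmp]; simp
        rw [P0] at this
        simp only [mem_insert, mem_singleton] at this
        rcases this with h' | h' | h'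
        · rw [hc, h']
        · exact absurd h' hy1
        · exact absurd h' hy2
      · exact absurd rfl hml
      · exfalso
        have : x 0 ∈ H.pts (l 2) := by rw [hmp]; simp
        rw [P2] at this
        simp only [mem_insert, mem_singleton] at this
        rcases this with h' | h' | h'
        · exact N _ _ (by omega) (by omega) (by omega) h'
        · exact N _ _ (by omega) (by omega) (by omega) h'
        · exact N _ _ (by omega) (by omega) (by omega) h'
  · exfalso
    have P2' : H.pts (l 2) = {x 2, x 1, x 3} := by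
      rw [P2]; ext z; simp only [mem_insert, mem_singleton]; tauto
    rcases H.thr_cases P2' (N _ _ (by omega) (by omega) (by omega))
      (N _ _ (by omega) (by omega) (by omega)) (N _ _ (by omega) (by omega) (by omega)) hB' with
      hc | ⟨m, hm, hml, hq, hx, hc⟩ | ⟨m, hm, hml, hq, hx, hc⟩ | ⟨m, y, hml, hmp, hy1, hy2, hy3, hc⟩
    · exact b1 (by rw [hc]; simp)
    · exact b3 (by rw [hc]; simp)
    · exact b1 (by rw [hc]; simp)
    · refine hp.not_K H (i := 1) (j := 3) (by omega) (by omega) (by omega) (by omega) ?_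
      refine H.K_of (N _ _ (by omega) (by omega) (by omega)) hml (by rw [hmp]; simp)
        (by rw [hmp]; simp) (by rw [P2]; simp) (by rw [P2]; simp)
  · exfalso
    rcases H.thr_cases P3 (N _ _ (by omega) (by omega) (by omega))
      (N _ _ (by omega) (by omega) (by omega)) (N _ _ (by omega) (by omega) (by omega)) hB' with
      hc | ⟨m, hm, hml, hq, hx, hc⟩ | ⟨m, hm, hml, hq, hx, hc⟩ | ⟨m, y, hml, hmp, hy1, hy2, hy3, hc⟩
    · exact b3 (by rw [hc]; simp)
    · rw [L3] at hm
      simp only [mem_insert, mem_singleton] at hm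
      rcases hm with rfl | rfl | rfl
      · exact hx (by rw [P2]; simp)
      · exact hml rfl
      · exact hq (by rw [P4]; simp)
    · exact b3 (by rw [hc]; simp)
    · have hm : m ∈ H.lns (x 3) := by rw [← H.mem_iff, hmp]; simp
      rw [L3] at hm
      simp only [mem_insert, mem_singleton] at hm
      rcases hm with rfl | rfl | rfl
      · have : x 4 ∈ H.pts (l 2) := by rw [hmp]; simp
        rw [P2] at this
        simp only [mem_insert, mem_singleton] at this
        rcases this with h' | h' | h'
        · exact N _ _ (by omega) (by omega) (by omega) h'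
        · exact N _ _ (by omega) (by omega) (by omega) h'
        · exact N _ _ (by omega) (by omega) (by omega) h'
      · exact hml rfl
      · have : y ∈ H.pts (l 4) := by rw [hmp]; simp
        rw [P4] at this
        simp only [mem_insert, mem_singleton] at this
        rcases this with h' | h' | h'
        · exact hy1 h'
        · exact hy2 h'
        · exact b5 (by rw [hc, ← h']; simp)

theorem even_last (h : PathCfg H r x l e f n0 n1) (hr : 6 ≤ r) (h2 : r % 2 = 0) {B : Finset P}
    (hB : B ∈ H.bl ((range r).image x) (((range r).filter fun j => j % 2 = 0).image x)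
      (x (r - 2))) :
    B = insert f ((H.pts n1).erase (x (r - 1))) := by
  have h' := h.rev H
  have e1 : (range r).image (fun i => x (r - 1 - i)) = (range r).image x := by
    ext z
    simp only [mem_image, mem_range]
    constructor
    · rintro ⟨a, ha, rfl⟩
      exact ⟨r - 1 - a, by omega, rfl⟩
    · rintro ⟨a, ha, rfl⟩
      exact ⟨r - 1 - a, by omega, by congr 1; omega⟩
  have e2 : ((range r).filter fun j => j % 2 = 1).image (fun i => x (r - 1 - i)) =
      ((range r).filter fun j => j % 2 = 0).image x := by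
    ext z
    simp only [mem_image, mem_range, mem_filter]
    constructor
    · rintro ⟨a, ⟨ha, hb⟩, rfl⟩
      exact ⟨r - 1 - a, ⟨by omega, by omega⟩, rfl⟩
    · rintro ⟨a, ⟨ha, hb⟩, rfl⟩
      exact ⟨r - 1 - a, ⟨by omega, by omega⟩, by congr 1; omega⟩
  have e3 : r - 1 - 1 = r - 2 := by omega
  have key := H.odd_one h' (by omega) (B := B)
  simp only [e1, e2, e3, Nat.sub_zero] at key
  exact key hB

theorem even_interior (h : PathCfg H r x l e f n0 n1) {i : ℕ} (hi : i % 2 = 0) (h3 : 4 ≤ i)
    (h4 : i + 4 ≤ r) :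
    H.bl ((range r).image x) (((range r).filter fun j => j % 2 = 0).image x) (x i) = ∅ := by
  rw [eq_empty_iff_forall_notMem]
  intro B hB
  have hp := h.toKPath
  exact H.interior_gen h (by omega) h4 hB (H.not_mem_of_pos hp hB (by omega) (by omega))
    (H.not_mem_of_pos hp hB (by omega) (by omega)) (H.not_mem_of_pos hp hB (by omega) (by omega))
    (H.not_mem_of_pos hp hB (by omega) (by omega))

end Inc

end Pool.Agent.OLD57
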