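import Pool.Agent.OLD57.Defs

/-!
# Module OLD57/GraphDefs (complete, do not edit)

The incidence structure of a cubic graph without open twins; the cube; the Moebius ladder with 14
vertices.
-/

set_option autoImplicit false

namespace Pool.Agent.OLD57

open Finset

section

variable {V : Type*} [Fintype V] [DecidableEq V]

theorem nbset_eq_of {G : SimpleGraph V} [DecidableRel G.Adj] {u v : V}
    (h : G.neighborFinset u = G.neighborFinset v) : G.neighborSet u = G.neighborSet v := by
  ext w
  have : w ∈ G.neighborFinset u ↔ w ∈ G.neighborFinset v := by rw [h]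
  simpa [SimpleGraph.mem_neighborFinset] using this

/-- Points and lines are the vertices; the line `v` is the neighbourhood of `v`. -/
def gInc (G : SimpleGraph V) [DecidableRel G.Adj] (h3 : G.IsRegularOfDegree 3)
    (htw : ∀ u v : V, G.neighborSet u = G.neighborSet v → u = v) : Inc V V where
  pts v := G.neighborFinset v
  lns v := G.neighborFinset v
  mem_iff x l := by simp [SimpleGraph.mem_neighborFinset, SimpleGraph.adj_comm]
  card_pts v := by rw [SimpleGraph.card_neighborFinset_eq_degree]; exact h3 v
  card_lns v := by rw [SimpleGraph.card_neighborFinset_eq_degree]; exact h3 v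
  pts_inj u v h := htw u v (nbset_eq_of h)
  lns_inj u v h := htw u v (nbset_eq_of h)

/-- Open locating-dominating sets. -/
def IsOLD (G : SimpleGraph V) (S : Finset V) : Prop :=
  (∀ v : V, ∃ s ∈ S, G.Adj v s) ∧
    ∀ u v : V, u ≠ v → G.neighborSet u ∩ (S : Set V) ≠ G.neighborSet v ∩ (S : Set V)

end

/-- The cube graph: vertices are the subsets of a set with three elements, adjacent if they differ in
exactly one element. -/
def Q3 : SimpleGraph (Finset (Fin 3)) where
  Adj s t := (symmDiff s t).card = 1
  symm := ⟨fun s t h => by rw [symmDiff_comm]; exact h⟩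
  loopless := ⟨fun s h => by simp at h⟩

/-- The Moebius ladder with 14 vertices: the cycle `0, 1, ..., 13` with the seven long diagonals. -/
def M14 : SimpleGraph (Fin 14) where
  Adj i j := j = i + 1 ∨ i = j + 1 ∨ j = i + 7
  symm := ⟨fun i j h => by
    rcases h with h | h | h
    · exact Or.inr (Or.inl h)
    · exact Or.inl h
    · refine Or.inr (Or.inr ?_)
      subst h
      revert i; decide⟩
  loopless := ⟨fun i => by revert i; decide⟩

instance : DecidableRel M14.Adj := fun i j =>
  inferInstanceAs (Decidable (j = i + 1 ∨ i = j + 1 ∨ j = i + 7))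

end Pool.Agent.OLD57
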