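import Pool.Agent.OLD57.Basic

/-!
# Module OLD57/KBasic

Lines through K-adjacent points.

PROOF. `lns_eq_of`: `{a, b, c} ⊆ lns x` and both have three elements (`mem_iff`,
`Finset.eq_of_subset_of_card_le`). `pts_eq_of`: dual. `mid_line`: `lns q ∩ lns p` and
`lns q ∩ lns s` are two-element subsets of the three-element set `lns q`, so they have a common
element `m`; `p, q, s ∈ pts m`, all different (`K` gives `q ≠ p`, `q ≠ s`). `other_line`:
`lns p ∩ lns q` has two elements and contains `m` (`Finset.card_eq_two`, erase `m`).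
`two_lines`: the two elements of `lns p ∩ lns q`.
-/

set_option autoImplicit false

namespace Pool.Agent.OLD57

open Finset

namespace Inc

variable {P L : Type*} [Fintype P] [DecidableEq P] [Fintype L] [DecidableEq L]
variable (H : Inc P L)

theorem lns_eq_of {x : P} {a b c : L} (hab : a ≠ b) (hac : a ≠ c) (hbc : b ≠ c)
    (ha : x ∈ H.pts a) (hb : x ∈ H.pts b) (hc : x ∈ H.pts c) : H.lns x = {a, b, c} := by
  symm
  apply Finset.eq_of_subset_of_card_le
  · intro k hk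
    simp only [mem_insert, mem_singleton] at hk
    rcases hk with rfl | rfl | rfl
    · exact (H.mem_iff _ _).1 ha
    · exact (H.mem_iff _ _).1 hb
    · exact (H.mem_iff _ _).1 hc
  · rw [H.card_lns, Finset.card_eq_three.2 ⟨a, b, c, hab, hac, hbc, rfl⟩]

theorem pts_eq_of {l : L} {a b c : P} (hab : a ≠ b) (hac : a ≠ c) (hbc : b ≠ c)
    (ha : a ∈ H.pts l) (hb : b ∈ H.pts l) (hc : c ∈ H.pts l) : H.pts l = {a, b, c} := by
  symm
  apply Finset.eq_of_subset_of_card_le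
  · intro k hk
    simp only [mem_insert, mem_singleton] at hk
    rcases hk with rfl | rfl | rfl
    · exact ha
    · exact hb
    · exact hc
  · rw [H.card_pts, Finset.card_eq_three.2 ⟨a, b, c, hab, hac, hbc, rfl⟩]

theorem mid_line {p q s : P} (h1 : H.K q p) (h2 : H.K q s) (hps : p ≠ s) :
    ∃ m, H.pts m = {p, q, s} := by
  have hne : ((H.lns q ∩ H.lns p) ∩ (H.lns q ∩ H.lns s)).Nonempty := by
    apply Finset.inter_nonempty_of_card_lt_card_add_card (s := H.lns q)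
    · exact Finset.inter_subset_left
    · exact Finset.inter_subset_left
    · rw [H.card_lns, h1.2, h2.2]; norm_num
  obtain ⟨m, hm⟩ := hne
  simp only [mem_inter] at hm
  exact ⟨m, H.pts_eq_of h1.1.symm hps h2.1 ((H.mem_iff _ _).2 hm.1.2) ((H.mem_iff _ _).2 hm.1.1)
    ((H.mem_iff _ _).2 hm.2.2)⟩

theorem other_line {p q : P} (h : H.K p q) {m : L} (hp : p ∈ H.pts m) (hq : q ∈ H.pts m) :
    ∃ m', m' ≠ m ∧ p ∈ H.pts m' ∧ q ∈ H.pts m' ∧
      ∀ k, p ∈ H.pts k → q ∈ H.pts k → k = m ∨ k = m' := by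
  have hm : m ∈ H.lns p ∩ H.lns q :=
    mem_inter.2 ⟨(H.mem_iff _ _).1 hp, (H.mem_iff _ _).1 hq⟩
  obtain ⟨a, b, hab, he⟩ := Finset.card_eq_two.1 h.2
  have key : ∀ k, p ∈ H.pts k → q ∈ H.pts k → k = a ∨ k = b := by
    intro k h1 h2
    have h3 : k ∈ H.lns p ∩ H.lns q :=
      mem_inter.2 ⟨(H.mem_iff _ _).1 h1, (H.mem_iff _ _).1 h2⟩
    rw [he] at h3
    simpa using h3
  have hin : ∀ k, k = a ∨ k = b → p ∈ H.pts k ∧ q ∈ H.pts k := by
    intro k hk
    have h3 : k ∈ H.lns p ∩ H.lns q := by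
      rw [he]; simpa using hk
    rw [mem_inter] at h3
    exact ⟨(H.mem_iff _ _).2 h3.1, (H.mem_iff _ _).2 h3.2⟩
  rcases key m hp hq with rfl | rfl
  · exact ⟨b, hab.symm, (hin b (Or.inr rfl)).1, (hin b (Or.inr rfl)).2, key⟩
  · exact ⟨a, hab, (hin a (Or.inl rfl)).1, (hin a (Or.inl rfl)).2,
      fun k h1 h2 => (key k h1 h2).symm⟩

theorem two_lines {p q : P} (h : H.K p q) :
    ∃ m m', m ≠ m' ∧ p ∈ H.pts m ∧ q ∈ H.pts m ∧ p ∈ H.pts m' ∧ q ∈ H.pts m' ∧
      ∀ k, p ∈ H.pts k → q ∈ H.pts k → k = m ∨ k = m' := by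
  obtain ⟨a, b, hab, he⟩ := Finset.card_eq_two.1 h.2
  have hin : ∀ k, k ∈ H.lns p ∩ H.lns q ↔ k = a ∨ k = b := by
    intro k
    rw [he]; simp
  have ha := (hin a).2 (Or.inl rfl)
  have hb := (hin b).2 (Or.inr rfl)
  rw [mem_inter] at ha hb
  refine ⟨a, b, hab, (H.mem_iff _ _).2 ha.1, (H.mem_iff _ _).2 ha.2, (H.mem_iff _ _).2 hb.1,
    (H.mem_iff _ _).2 hb.2, fun k h1 h2 => (hin k).1 ?_⟩
  exact mem_inter.2 ⟨(H.mem_iff _ _).1 h1, (H.mem_iff _ _).1 h2⟩

end Inc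

end Pool.Agent.OLD57
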