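import Pool.Agent.OLD57.FBasic

/-!
# Module OLD57/Link0

For the level `i : Fin T` put `p = (i + 1)/T`.

PROOF. For `E : Finset P` let `Ω E = {ω | ∀ y, ω y ≤ i ↔ y ∈ E}`; this is `Fintype.piFinset` of
`if y ∈ E then Iic i else Ioi i`, of cardinality `∏ y, if y ∈ E then i + 1 else T - (i + 1)`, that is
`T ^ card P * wt p E`. The sets `Ω E` partition all `ω`, and on `Ω E` the condition
`∀ A ∈ 𝓕, ∃ y ∈ A, i < ω y` is `∀ A ∈ 𝓕, ¬ A ⊆ E`. Sum over `E`
(`Finset.card_eq_sum_card_fiberwise` with the map `ω ↦ univ.filter (ω · ≤ i)`).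
-/

set_option autoImplicit false

namespace Pool.Agent.OLD57

open Finset

variable {P : Type*} [Fintype P] [DecidableEq P]

theorem Pr_level {T : ℕ} (hT : 0 < T) (i : Fin T) (𝓕 : Finset (Finset P)) :
    Pr T (fun ω : P → Fin T => ∀ A ∈ 𝓕, ∃ y ∈ A, i < ω y) =
      F (((i : ℕ) + 1 : ℝ) / T) 𝓕 := by
  classical
  have hT' : (T : ℝ) ≠ 0 := by positivity
  have hmem : ∀ (E : Finset P) (ω : P → Fin T), univ.filter (fun y => ω y ≤ i) = E ↔
      ω ∈ Fintype.piFinset (fun y => if y ∈ E then Finset.Iic i else Finset.Ioi i) := by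
    intro E ω
    rw [Fintype.mem_piFinset]
    constructor
    · rintro rfl y
      by_cases hy : ω y ≤ i
      · simp [hy]
      · simp [hy, not_le.1 hy]
    · intro h
      ext y
      have := h y
      by_cases hy : y ∈ E
      · simp only [hy, if_true, mem_Iic] at this
        simp [hy, this]
      · simp only [hy, if_false, mem_Ioi] at this
        simp [hy, not_le.2 this]
  have hcard : ∀ E : Finset P,
      ((Fintype.piFinset (fun y : P => if y ∈ E then Finset.Iic i else Finset.Ioi i)).card : ℝ) =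
        wt (((i : ℕ) + 1 : ℝ) / T) E * (T : ℝ) ^ Fintype.card P := by
    intro E
    rw [Fintype.card_piFinset, wt, ← Finset.card_univ, ← Finset.prod_const, ← Finset.prod_mul_distrib]
    push_cast
    refine Finset.prod_congr rfl fun y _ => ?_
    by_cases hy : y ∈ E
    · simp only [hy, if_true, Fin.card_Iic]
      push_cast
      field_simp
    · simp only [hy, if_false, Fin.card_Ioi]
      have h1 : (i : ℕ) + 1 ≤ T := i.2
      have h2 : T - 1 - (i : ℕ) = T - ((i : ℕ) + 1) := by omega
      rw [h2, Nat.cast_sub h1]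
      push_cast
      field_simp
  unfold Pr F
  rw [div_eq_iff (by positivity), Finset.sum_mul]
  rw [Finset.card_eq_sum_card_fiberwise
    (f := fun ω : P → Fin T => univ.filter (fun y => ω y ≤ i)) (t := univ) (fun _ _ => by simp)]
  push_cast
  refine Finset.sum_congr rfl fun E _ => ?_
  by_cases hE : ∀ A ∈ 𝓕, ¬ A ⊆ E
  · rw [if_pos hE, ← hcard]
    congr 2
    ext ω
    rw [← hmem]
    simp only [mem_filter, mem_univ, true_and, and_iff_right_iff_imp]
    rintro rfl A hA
    have := hE A hA
    rw [Finset.not_subset] at this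
    obtain ⟨y, hy, hy'⟩ := this
    exact ⟨y, hy, by simpa using hy'⟩
  · rw [if_neg hE, zero_mul]
    norm_cast
    rw [Finset.card_eq_zero, Finset.filter_eq_empty_iff]
    rintro ω hω rfl
    apply hE
    intro A hA hsub
    simp only [mem_filter, mem_univ, true_and] at hω
    obtain ⟨y, hy, hlt⟩ := hω A hA
    have := hsub hy
    simp only [mem_filter, mem_univ, true_and] at this
    exact absurd hlt (not_lt.2 this)

end Pool.Agent.OLD57
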