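import Pool.Agent.OLD57.CompEq

/-!
# Module OLD57/LongPath

A longest K-path in the component of `x`, if all K-degrees in the component are at most two.

PROOF. `LP H x r y` says: `y 0, ..., y (r-1)` are different points, consecutive ones are K-adjacent,
`y 0` is in the component of `x`. `lp_bound`: `r ≤ card P` (injection of `range r`). `lp_one`:
`r = 1`, `y = fun _ => x`. `lp_exists`: the set of lengths is nonempty and bounded, take the largest
(`Nat.findGreatest` or `Nat.sSup_mem`, or induction on `card P - r`).
`lp_end`: if `K (y (r-1)) z` and `z` is not one of the `y j` then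
`y' i = if i < r then y i else z` is an `LP` of length `r + 1`. `lp_begin`: if `K (y 0) z` and `z` is
not one of the `y j` then `y' i = if i = 0 then z else y (i - 1)` is an `LP` of length `r + 1`
(`z` is reachable from `x` by `y 0`).
-/

set_option autoImplicit false

namespace Pool.Agent.OLD57

open Finset

namespace Inc

variable {P L : Type*} [Fintype P] [DecidableEq P] [Fintype L] [DecidableEq L]
variable (H : Inc P L)

structure LP (x : P) (r : ℕ) (y : ℕ → P) : Prop where
  pos : 1 ≤ r
  inj : ∀ i < r, ∀ j < r, y i = y j → i = j
  adj : ∀ i, i + 1 < r → H.K (y i) (y (i + 1))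
  mem : y 0 ∈ H.comp x

theorem lp_one (x : P) : LP H x 1 (fun _ => x) := by
  classical
  refine ⟨le_refl 1, fun i hi j hj _ => by omega, fun i hi => absurd hi (by omega), ?_⟩
  simp only [comp, mem_filter, mem_univ, true_and]
  exact SimpleGraph.Reachable.refl _

theorem lp_bound {x : P} {r : ℕ} {y : ℕ → P} (h : LP H x r y) : r ≤ Fintype.card P := by
  have h1 : ((range r).image y).card = r := by
    rw [card_image_of_injOn, card_range]
    intro i hi j hj e
    exact h.inj i (by simpa using hi) j (by simpa using hj) e
  rw [← h1]
  exact card_le_univ _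

theorem lp_exists (x : P) : ∃ r y, LP H x r y ∧ ∀ s z, LP H x s z → s ≤ r := by
  classical
  have hex : ∃ r, ∃ y, LP H x r y := ⟨1, _, lp_one H x⟩
  let S : Set ℕ := {r | ∃ y, LP H x r y}
  have hne : S.Nonempty := hex
  have hb : BddAbove S := ⟨Fintype.card P, by
    rintro r ⟨y, hy⟩
    exact lp_bound H hy⟩
  obtain ⟨y, hy⟩ : sSup S ∈ S := Nat.sSup_mem hne hb
  exact ⟨sSup S, y, hy, fun s z hz => le_csSup hb ⟨z, hz⟩⟩

theorem lp_end {x : P} {r : ℕ} {y : ℕ → P} (h : LP H x r y)
    (hmax : ∀ s z, LP H x s z → s ≤ r) {z : P} (hz : H.K (y (r - 1)) z) : ∃ j < r, z = y j := by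
  classical
  by_contra hno
  push Not at hno
  have hr := h.pos
  have hp : LP H x (r + 1) (fun i => if i < r then y i else z) := by
    refine ⟨by omega, ?_, ?_, ?_⟩
    · intro i hi j hj e
      by_cases h1 : i < r <;> by_cases h2 : j < r
      · simp only [h1, h2, if_true] at e
        exact h.inj i h1 j h2 e
      · simp only [h1, h2, if_true, if_false] at e
        exact absurd e.symm (hno i h1)
      · simp only [h1, h2, if_true, if_false] at e
        exact absurd e (hno j h2)
      · omega
    · intro i hi
      by_cases h1 : i + 1 < r
      · simp only [h1, show i < r by omega, if_true]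
        exact h.adj i h1
      · have h2 : i = r - 1 := by omega
        simp only [h1, show i < r by omega, if_true, if_false]
        rw [h2]
        exact hz
    · simp only [show 0 < r by omega, if_true]
      exact h.mem
  have := hmax _ _ hp
  omega

theorem lp_begin {x : P} {r : ℕ} {y : ℕ → P} (h : LP H x r y)
    (hmax : ∀ s z, LP H x s z → s ≤ r) {z : P} (hz : H.K (y 0) z) : ∃ j < r, z = y j := by
  classical
  by_contra hno
  push Not at hno
  have hr := h.pos
  have hp : LP H x (r + 1) (fun i => if i = 0 then z else y (i - 1)) := by
    refine ⟨by omega, ?_, ?_, ?_⟩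
    · intro i hi j hj e
      by_cases h1 : i = 0 <;> by_cases h2 : j = 0
      · omega
      · simp only [h1, h2, if_true, if_false] at e
        exact absurd e (hno (j - 1) (by omega))
      · simp only [h1, h2, if_true, if_false] at e
        exact absurd e.symm (hno (i - 1) (by omega))
      · simp only [h1, h2, if_false] at e
        have := h.inj (i - 1) (by omega) (j - 1) (by omega) e
        omega
    · intro i hi
      by_cases h1 : i = 0
      · subst h1
        simpa using H.K_symm hz
      · simp only [h1, if_false, show i + 1 ≠ 0 by omega, Nat.add_sub_cancel]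
        have := h.adj (i - 1) (by omega)
        rwa [Nat.sub_add_cancel (by omega)] at this
    · simp only [if_true]
      have h3 := h.mem
      simp only [comp, mem_filter, mem_univ, true_and] at h3 ⊢
      exact h3.trans (SimpleGraph.Adj.reachable (show H.KG.Adj (y 0) z from hz))
  have := hmax _ _ hp
  omega

theorem lp_reach {x : P} {r : ℕ} {y : ℕ → P} (h : LP H x r y) {i : ℕ} (hi : i < r) :
    y i ∈ H.comp x := by
  classical
  induction i with
  | zero => exact h.mem
  | succ i ih =>
    have h1 := ih (by omega)
    simp only [comp, mem_filter, mem_univ, true_and] at h1 ⊢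
    exact h1.trans (SimpleGraph.Adj.reachable (show H.KG.Adj (y i) (y (i + 1)) from h.adj i hi))

end Inc

end Pool.Agent.OLD57
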