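import Pool.Agent.OLD57.CompAll
import Pool.Agent.OLD57.Assemble2

/-!
# Module OLD57/Main (complete)
-/

set_option autoImplicit false

namespace Pool.Agent.OLD57

open Finset

namespace Inc

variable {P L : Type*} [Fintype P] [DecidableEq P] [Fintype L] [DecidableEq L]
variable (H : Inc P L)

theorem main_all (hc : H.NoCube) :
    ∃ U : Finset P, H.Valid U ∧ 2 * Fintype.card P ≤ 7 * U.card := by
  obtain ⟨U, h1, h2⟩ := H.assemble2 (T := 4096) (c := 2 / 7) (by norm_num) (fun x => by
    rcases H.comp_all numOK hc x with h | ⟨-, h⟩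
    · exact h.mono H (by norm_num)
    · exact h)
  refine ⟨U, h1, ?_⟩
  have : (2 : ℝ) * Fintype.card P ≤ 7 * U.card := by linarith
  exact_mod_cast this

theorem main_large (hc : H.NoCube) (h7 : ∀ (z : ℤ → P) (l : ℤ → L), ¬ CycCfg H 7 z l) :
    ∃ U : Finset P, H.Valid U ∧ 143 * Fintype.card P ≤ 500 * U.card := by
  obtain ⟨U, h1, h2⟩ := H.assemble2 (T := 4096) (c := 143 / 500) (by norm_num) (fun x => by
    rcases H.comp_all numOK hc x with h | ⟨⟨z, l, h⟩, -⟩
    · exact h
    · exact absurd h (h7 z l))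
  refine ⟨U, h1, ?_⟩
  have : (143 : ℝ) * Fintype.card P ≤ 500 * U.card := by linarith
  exact_mod_cast this

end Inc

end Pool.Agent.OLD57
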