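import Pool.Agent.OLD57.CompDefs

/-!
# Module OLD57/NumGen (for the numerical facts)

PROOF. `sumBin_eq`: induction on `k` (`Finset.sum_range_add`, `pow_succ`). `avg_ge`: by definition
`avg T f = (∑ i ∈ range T, f ((i + 1) / T)) / T`; by `hN` (at `j = i + 1 ≤ T`) each term is
`N (i + 1) / T ^ d`; so `avg T f = (∑ i ∈ range T, N (1 + i)) / T ^ (d + 1)` and `h` (cast to `ℝ`,
with `sumBin_eq`) is the claim (`div_le_div_iff₀`).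
The ten lemmas `nN_spec`, ...: with `t = j / 4096`: `Nat.cast_sub` for `j ≤ 4096` and
`j ^ 2 ≤ 4096 ^ 2`, `j ^ 3 ≤ 4096 ^ 3`; unfold `fN` etc., `field_simp`, `ring` (it may help to
generalize `(4096 : ℝ)` to a variable `T ≠ 0` first).
-/

set_option autoImplicit false

namespace Pool.Agent.OLD57

open Finset

/-- Sum of `f a, f (a + 1), ..., f (a + 2 ^ k - 1)` by binary splitting. -/
def sumBin (f : ℕ → ℕ) : ℕ → ℕ → ℕ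
  | 0, a => f a
  | k + 1, a => sumBin f k a + sumBin f k (a + 2 ^ k)

theorem sumBin_eq (f : ℕ → ℕ) (k a : ℕ) : sumBin f k a = ∑ i ∈ range (2 ^ k), f (a + i) := by
  induction k generalizing a with
  | zero => simp [sumBin]
  | succ k ih =>
    rw [sumBin, ih, ih, pow_succ, mul_two, Finset.sum_range_add]
    congr 1
    refine Finset.sum_congr rfl fun i _ => ?_
    rw [add_assoc]

theorem avg_ge {T : ℕ} (k d a b : ℕ) (hT : T = 2 ^ k) (hb : 0 < b) (f : ℝ → ℝ) (N : ℕ → ℕ)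
    (hN : ∀ j : ℕ, j ≤ T → f ((j : ℝ) / T) * (T : ℝ) ^ d = N j)
    (h : a * T ^ (d + 1) ≤ b * sumBin N k 1) : (a : ℝ) / b ≤ avg T f := by
  have hT0 : 0 < T := by
    rw [hT]
    positivity
  have hTr : (0 : ℝ) < T := by exact_mod_cast hT0
  have hbr : (0 : ℝ) < b := by exact_mod_cast hb
  have h1 : ∀ i ∈ range T, f (((i : ℝ) + 1) / T) = (N (1 + i) : ℝ) / (T : ℝ) ^ d := by
    intro i hi
    have h2 := hN (i + 1) (by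
      have := Finset.mem_range.1 hi
      omega)
    push_cast at h2
    rw [eq_div_iff (by positivity), h2, add_comm 1 i]
  unfold avg
  rw [Finset.sum_congr rfl h1, ← Finset.sum_div, div_div, ← pow_succ]
  have h3 : (∑ i ∈ range T, (N (1 + i) : ℝ)) = ((sumBin N k 1 : ℕ) : ℝ) := by
    rw [sumBin_eq, hT]
    push_cast
    rfl
  rw [h3, div_le_div_iff₀ hbr (by positivity)]
  have h4 : ((a * T ^ (d + 1) : ℕ) : ℝ) ≤ ((b * sumBin N k 1 : ℕ) : ℝ) := by exact_mod_cast h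
  push_cast at h4
  linarith

def nN (j : ℕ) : ℕ :=
  (4096 - j) ^ 2 * 4096 ^ 4 + 2 * j * (4096 - j) * (4096 ^ 2 - j ^ 2) ^ 2
def nM (j : ℕ) : ℕ :=
  (4096 - j) * ((4096 - j) ^ 2 * 4096 ^ 2 + 2 * j * (4096 - j) * (4096 ^ 2 - j ^ 2))
def nM' (j : ℕ) : ℕ :=
  (4096 - j) * ((4096 - j) ^ 2 * 4096 ^ 2 + j * (4096 - j) * (4096 ^ 2 - j ^ 2) +
    j * (4096 - j) * 4096 ^ 2)
def nG2 (j : ℕ) : ℕ :=
  (4096 - j) * (4096 ^ 3 - j ^ 3) ^ 2 * 4096 ^ 4 + j * (4096 - j) ^ 2 * (4096 ^ 2 - j ^ 2) ^ 4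
def nG33 (j : ℕ) : ℕ :=
  (4096 - j) * ((4096 - j) * 4096 ^ 8 + j * (4096 - j) ^ 2 * (4096 ^ 2 - j ^ 2) ^ 3)
def nG32 (j : ℕ) : ℕ :=
  (4096 - j) * ((4096 - j) * 4096 ^ 6 + j * (4096 - j) ^ 2 * (4096 ^ 2 - j ^ 2) ^ 2)
def nMid (j : ℕ) : ℕ :=
  (4096 - j) ^ 2 * (4096 ^ 3 - j ^ 3) ^ 2 * 4096 +
    2 * j * (4096 - j) ^ 2 * (4096 ^ 2 - j ^ 2) ^ 3
def nIn (j : ℕ) : ℕ :=
  (4096 - j) ^ 3 * ((4096 ^ 3 - j ^ 3) * 4096 ^ 2 + 2 * j * (4096 ^ 2 - j ^ 2) ^ 2)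
def nTri (j : ℕ) : ℕ :=
  (4096 - j) ^ 3 * (4096 ^ 5 + 2 * j * (4096 ^ 2 - j ^ 2) ^ 2)
def nLeaf (j : ℕ) : ℕ := (4096 - j) ^ 2 * (4096 ^ 3 - j ^ 3) ^ 2

theorem nN_spec {j : ℕ} (hj : j ≤ 4096) : fN ((j : ℝ) / 4096) * 4096 ^ 6 = nN j := by
  have h1 : ((4096 - j : ℕ) : ℝ) = 4096 - j := by
    rw [Nat.cast_sub hj]
    norm_num
  have h2 : ((4096 ^ 2 - j ^ 2 : ℕ) : ℝ) = 4096 ^ 2 - (j : ℝ) ^ 2 := by
    rw [Nat.cast_sub (Nat.pow_le_pow_left hj 2)]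
    norm_num
  have h3 : ((4096 ^ 3 - j ^ 3 : ℕ) : ℝ) = 4096 ^ 3 - (j : ℝ) ^ 3 := by
    rw [Nat.cast_sub (Nat.pow_le_pow_left hj 3)]
    norm_num
  unfold fN nN
  simp only [Nat.cast_add, Nat.cast_mul, Nat.cast_pow, h1, h2, h3, Nat.cast_ofNat]
  ring
theorem nM_spec {j : ℕ} (hj : j ≤ 4096) : fM ((j : ℝ) / 4096) * 4096 ^ 5 = nM j := by
  have h1 : ((4096 - j : ℕ) : ℝ) = 4096 - j := by
    rw [Nat.cast_sub hj]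
    norm_num
  have h2 : ((4096 ^ 2 - j ^ 2 : ℕ) : ℝ) = 4096 ^ 2 - (j : ℝ) ^ 2 := by
    rw [Nat.cast_sub (Nat.pow_le_pow_left hj 2)]
    norm_num
  have h3 : ((4096 ^ 3 - j ^ 3 : ℕ) : ℝ) = 4096 ^ 3 - (j : ℝ) ^ 3 := by
    rw [Nat.cast_sub (Nat.pow_le_pow_left hj 3)]
    norm_num
  unfold fM nM
  simp only [Nat.cast_add, Nat.cast_mul, Nat.cast_pow, h1, h2, h3, Nat.cast_ofNat]
  ring
theorem nM'_spec {j : ℕ} (hj : j ≤ 4096) : fM' ((j : ℝ) / 4096) * 4096 ^ 5 = nM' j := by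
  have h1 : ((4096 - j : ℕ) : ℝ) = 4096 - j := by
    rw [Nat.cast_sub hj]
    norm_num
  have h2 : ((4096 ^ 2 - j ^ 2 : ℕ) : ℝ) = 4096 ^ 2 - (j : ℝ) ^ 2 := by
    rw [Nat.cast_sub (Nat.pow_le_pow_left hj 2)]
    norm_num
  have h3 : ((4096 ^ 3 - j ^ 3 : ℕ) : ℝ) = 4096 ^ 3 - (j : ℝ) ^ 3 := by
    rw [Nat.cast_sub (Nat.pow_le_pow_left hj 3)]
    norm_num
  unfold fM' nM'
  simp only [Nat.cast_add, Nat.cast_mul, Nat.cast_pow, h1, h2, h3, Nat.cast_ofNat]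
  ring
theorem nG2_spec {j : ℕ} (hj : j ≤ 4096) : fG2 ((j : ℝ) / 4096) * 4096 ^ 11 = nG2 j := by
  have h1 : ((4096 - j : ℕ) : ℝ) = 4096 - j := by
    rw [Nat.cast_sub hj]
    norm_num
  have h2 : ((4096 ^ 2 - j ^ 2 : ℕ) : ℝ) = 4096 ^ 2 - (j : ℝ) ^ 2 := by
    rw [Nat.cast_sub (Nat.pow_le_pow_left hj 2)]
    norm_num
  have h3 : ((4096 ^ 3 - j ^ 3 : ℕ) : ℝ) = 4096 ^ 3 - (j : ℝ) ^ 3 := by
    rw [Nat.cast_sub (Nat.pow_le_pow_left hj 3)]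
    norm_num
  unfold fG2 nG2
  simp only [Nat.cast_add, Nat.cast_mul, Nat.cast_pow, h1, h2, h3, Nat.cast_ofNat]
  ring
theorem nG33_spec {j : ℕ} (hj : j ≤ 4096) : fG33 ((j : ℝ) / 4096) * 4096 ^ 10 = nG33 j := by
  have h1 : ((4096 - j : ℕ) : ℝ) = 4096 - j := by
    rw [Nat.cast_sub hj]
    norm_num
  have h2 : ((4096 ^ 2 - j ^ 2 : ℕ) : ℝ) = 4096 ^ 2 - (j : ℝ) ^ 2 := by
    rw [Nat.cast_sub (Nat.pow_le_pow_left hj 2)]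
    norm_num
  have h3 : ((4096 ^ 3 - j ^ 3 : ℕ) : ℝ) = 4096 ^ 3 - (j : ℝ) ^ 3 := by
    rw [Nat.cast_sub (Nat.pow_le_pow_left hj 3)]
    norm_num
  unfold fG33 nG33
  simp only [Nat.cast_add, Nat.cast_mul, Nat.cast_pow, h1, h2, h3, Nat.cast_ofNat]
  ring
theorem nG32_spec {j : ℕ} (hj : j ≤ 4096) : fG32 ((j : ℝ) / 4096) * 4096 ^ 8 = nG32 j := by
  have h1 : ((4096 - j : ℕ) : ℝ) = 4096 - j := by
    rw [Nat.cast_sub hj]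
    norm_num
  have h2 : ((4096 ^ 2 - j ^ 2 : ℕ) : ℝ) = 4096 ^ 2 - (j : ℝ) ^ 2 := by
    rw [Nat.cast_sub (Nat.pow_le_pow_left hj 2)]
    norm_num
  have h3 : ((4096 ^ 3 - j ^ 3 : ℕ) : ℝ) = 4096 ^ 3 - (j : ℝ) ^ 3 := by
    rw [Nat.cast_sub (Nat.pow_le_pow_left hj 3)]
    norm_num
  unfold fG32 nG32
  simp only [Nat.cast_add, Nat.cast_mul, Nat.cast_pow, h1, h2, h3, Nat.cast_ofNat]
  ring
theorem nMid_spec {j : ℕ} (hj : j ≤ 4096) : fMid ((j : ℝ) / 4096) * 4096 ^ 9 = nMid j := by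
  have h1 : ((4096 - j : ℕ) : ℝ) = 4096 - j := by
    rw [Nat.cast_sub hj]
    norm_num
  have h2 : ((4096 ^ 2 - j ^ 2 : ℕ) : ℝ) = 4096 ^ 2 - (j : ℝ) ^ 2 := by
    rw [Nat.cast_sub (Nat.pow_le_pow_left hj 2)]
    norm_num
  have h3 : ((4096 ^ 3 - j ^ 3 : ℕ) : ℝ) = 4096 ^ 3 - (j : ℝ) ^ 3 := by
    rw [Nat.cast_sub (Nat.pow_le_pow_left hj 3)]
    norm_num
  unfold fMid nMid
  simp only [Nat.cast_add, Nat.cast_mul, Nat.cast_pow, h1, h2, h3, Nat.cast_ofNat]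
  ring
theorem nIn_spec {j : ℕ} (hj : j ≤ 4096) : fIn ((j : ℝ) / 4096) * 4096 ^ 8 = nIn j := by
  have h1 : ((4096 - j : ℕ) : ℝ) = 4096 - j := by
    rw [Nat.cast_sub hj]
    norm_num
  have h2 : ((4096 ^ 2 - j ^ 2 : ℕ) : ℝ) = 4096 ^ 2 - (j : ℝ) ^ 2 := by
    rw [Nat.cast_sub (Nat.pow_le_pow_left hj 2)]
    norm_num
  have h3 : ((4096 ^ 3 - j ^ 3 : ℕ) : ℝ) = 4096 ^ 3 - (j : ℝ) ^ 3 := by
    rw [Nat.cast_sub (Nat.pow_le_pow_left hj 3)]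
    norm_num
  unfold fIn nIn
  simp only [Nat.cast_add, Nat.cast_mul, Nat.cast_pow, h1, h2, h3, Nat.cast_ofNat]
  ring
theorem nTri_spec {j : ℕ} (hj : j ≤ 4096) : fTri ((j : ℝ) / 4096) * 4096 ^ 8 = nTri j := by
  have h1 : ((4096 - j : ℕ) : ℝ) = 4096 - j := by
    rw [Nat.cast_sub hj]
    norm_num
  have h2 : ((4096 ^ 2 - j ^ 2 : ℕ) : ℝ) = 4096 ^ 2 - (j : ℝ) ^ 2 := by
    rw [Nat.cast_sub (Nat.pow_le_pow_left hj 2)]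
    norm_num
  have h3 : ((4096 ^ 3 - j ^ 3 : ℕ) : ℝ) = 4096 ^ 3 - (j : ℝ) ^ 3 := by
    rw [Nat.cast_sub (Nat.pow_le_pow_left hj 3)]
    norm_num
  unfold fTri nTri
  simp only [Nat.cast_add, Nat.cast_mul, Nat.cast_pow, h1, h2, h3, Nat.cast_ofNat]
  ring
theorem nLeaf_spec {j : ℕ} (hj : j ≤ 4096) : fLeaf ((j : ℝ) / 4096) * 4096 ^ 8 = nLeaf j := by
  have h1 : ((4096 - j : ℕ) : ℝ) = 4096 - j := by
    rw [Nat.cast_sub hj]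
    norm_num
  have h2 : ((4096 ^ 2 - j ^ 2 : ℕ) : ℝ) = 4096 ^ 2 - (j : ℝ) ^ 2 := by
    rw [Nat.cast_sub (Nat.pow_le_pow_left hj 2)]
    norm_num
  have h3 : ((4096 ^ 3 - j ^ 3 : ℕ) : ℝ) = 4096 ^ 3 - (j : ℝ) ^ 3 := by
    rw [Nat.cast_sub (Nat.pow_le_pow_left hj 3)]
    norm_num
  unfold fLeaf nLeaf
  simp only [Nat.cast_add, Nat.cast_mul, Nat.cast_pow, h1, h2, h3, Nat.cast_ofNat]
  ring

end Pool.Agent.OLD57
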