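import Pool.Agent.OLD57.Basic

/-!
# Module OLD57/Thr

The blocking sets of `x` that come from the line `l = {x, p, q}`.

PROOF. `mem_thr`, `mem_bl`: unfold. `thr_cases`: let `B ∈ thr x l`. If `insert x B = pts l` then
`B = {p, q}` (erase `x`). Otherwise `x ∉ pts m` and `insert x B = symmDiff (pts l) (pts m)`; then
`m ≠ l`. The size of `insert x B` is at most 4 (`card_RC`), so `pts l ∩ pts m` is not empty (empty
would give 6), and it has at most 2 elements (`inter_pts_le`), it does not contain `x`, so it is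
`{p}`, `{q}` or `{p, q}`. `{p}`: `insert x B = {x, q} ∪ (pts m).erase p`, so
`B = insert q ((pts m).erase p)` (`x ∉ pts m`, `x ≠ q`). `{q}`: symmetric. `{p, q}`:
`pts m = {p, q, y}`, `insert x B = {x, y}`, `B = {y}`.
-/

set_option autoImplicit false

namespace Pool.Agent.OLD57

open Finset

namespace Inc

variable {P L : Type*} [Fintype P] [DecidableEq P] [Fintype L] [DecidableEq L]
variable (H : Inc P L)

theorem mem_bl {C D B : Finset P} {x : P} :
    B ∈ H.bl C D x ↔ x ∉ B ∧ H.RC (insert x B) ∧ insert x B ∩ C ⊆ D := by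
  simp [bl]

theorem mem_thr {B : Finset P} {x : P} {l : L} : B ∈ H.thr x l ↔
    x ∉ B ∧ H.RC (insert x B) ∧ (insert x B = H.pts l ∨
      ∃ m, x ∉ H.pts m ∧ insert x B = symmDiff (H.pts l) (H.pts m)) := by
  simp [thr]

theorem thr_cases {x p q : P} {l : L} (hl : H.pts l = {x, p, q}) (hxp : x ≠ p) (hxq : x ≠ q)
    (hpq : p ≠ q) {B : Finset P} (hB : B ∈ H.thr x l) :
    B = {p, q} ∨
    (∃ m ∈ H.lns p, m ≠ l ∧ q ∉ H.pts m ∧ x ∉ H.pts m ∧ B = insert q ((H.pts m).erase p)) ∨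
    (∃ m ∈ H.lns q, m ≠ l ∧ p ∉ H.pts m ∧ x ∉ H.pts m ∧ B = insert p ((H.pts m).erase q)) ∨
    (∃ m y, m ≠ l ∧ H.pts m = {p, q, y} ∧ y ≠ p ∧ y ≠ q ∧ y ≠ x ∧ B = {y}) := by
  obtain ⟨hxB, hRC, h | ⟨m, hxm, h⟩⟩ := H.mem_thr.1 hB
  · left
    rw [← erase_insert hxB, h, hl]
    ext y
    simp only [mem_erase, mem_insert, mem_singleton]
    constructor
    · rintro ⟨h1, h2 | h2 | h2⟩
      · exact absurd h2 h1
      · exact Or.inl h2
      · exact Or.inr h2
    · rintro (h2 | h2)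
      · rw [h2]; exact ⟨hxp.symm, Or.inr (Or.inl rfl)⟩
      · rw [h2]; exact ⟨hxq.symm, Or.inr (Or.inr rfl)⟩
  right
  have hml : m ≠ l := by
    rintro rfl
    apply hxm
    rw [hl]; simp
  have hmemB : ∀ y, y ∈ B ↔ y ≠ x ∧ (((y = x ∨ y = p ∨ y = q) ∧ y ∉ H.pts m) ∨
      (y ∈ H.pts m ∧ ¬(y = x ∨ y = p ∨ y = q))) := by
    intro y
    rw [← erase_insert hxB, h, hl]
    simp only [mem_erase, mem_symmDiff, mem_insert, mem_singleton]
  have hcard : (insert x B).card + 2 * (H.pts l ∩ H.pts m).card = 6 := by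
    have h1 : (symmDiff (H.pts l) (H.pts m)).card =
        (H.pts l \ H.pts m).card + (H.pts m \ H.pts l).card :=
      card_union_of_disjoint disjoint_sdiff_sdiff
    have h2 := card_sdiff_add_card_inter (H.pts l) (H.pts m)
    have h5 := card_sdiff_add_card_inter (H.pts m) (H.pts l)
    rw [inter_comm (H.pts m)] at h5
    have h3 := H.card_pts l
    have h4 := H.card_pts m
    rw [h]
    omega
  have hc4 : (insert x B).card ≤ 4 := by
    rcases H.card_RC hRC with h1 | h1 | h1 <;> omega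
  by_cases hp : p ∈ H.pts m <;> by_cases hq : q ∈ H.pts m
  · right; right
    obtain ⟨z, hzp, hzq, hz⟩ := H.exists_pts2 hpq hp hq
    have hzm : z ∈ H.pts m := by rw [hz]; simp
    have hzx : z ≠ x := fun h1 => hxm (h1 ▸ hzm)
    refine ⟨m, z, hml, hz, hzp, hzq, hzx, ?_⟩
    ext y
    rw [hmemB, hz]
    simp only [mem_insert, mem_singleton]
    constructor
    · rintro ⟨h1, ⟨h2 | h2 | h2, h3⟩ | ⟨h2 | h2 | h2, h3⟩⟩
      · exact absurd h2 h1
      · exact absurd (Or.inl h2) h3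
      · exact absurd (Or.inr (Or.inl h2)) h3
      · exact absurd (Or.inr (Or.inl h2)) h3
      · exact absurd (Or.inr (Or.inr h2)) h3
      · exact h2
    · rintro rfl
      exact ⟨hzx, Or.inr ⟨Or.inr (Or.inr rfl), fun h1 => by
        rcases h1 with h1 | h1 | h1
        · exact hzx h1
        · exact hzp h1
        · exact hzq h1⟩⟩
  · left
    refine ⟨m, (H.mem_iff _ _).1 hp, hml, hq, hxm, ?_⟩
    ext y
    rw [hmemB, mem_insert, mem_erase]
    constructor
    · rintro ⟨h1, ⟨h2 | h2 | h2, h3⟩ | ⟨h2, h3⟩⟩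
      · exact absurd h2 h1
      · exact absurd (h2 ▸ hp) h3
      · exact Or.inl h2
      · exact Or.inr ⟨fun h4 => h3 (Or.inr (Or.inl h4)), h2⟩
    · rintro (h2 | ⟨h2, h3⟩)
      · rw [h2]
        exact ⟨hxq.symm, Or.inl ⟨Or.inr (Or.inr rfl), hq⟩⟩
      · refine ⟨fun h4 => hxm (h4 ▸ h3), Or.inr ⟨h3, ?_⟩⟩
        rintro (h4 | h4 | h4)
        · exact hxm (h4 ▸ h3)
        · exact h2 h4
        · exact hq (h4 ▸ h3)
  · right; left
    refine ⟨m, (H.mem_iff _ _).1 hq, hml, hp, hxm, ?_⟩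
    ext y
    rw [hmemB, mem_insert, mem_erase]
    constructor
    · rintro ⟨h1, ⟨h2 | h2 | h2, h3⟩ | ⟨h2, h3⟩⟩
      · exact absurd h2 h1
      · exact Or.inl h2
      · exact absurd (h2 ▸ hq) h3
      · exact Or.inr ⟨fun h4 => h3 (Or.inr (Or.inr h4)), h2⟩
    · rintro (h2 | ⟨h2, h3⟩)
      · rw [h2]
        exact ⟨hxp.symm, Or.inl ⟨Or.inr (Or.inl rfl), hp⟩⟩
      · refine ⟨fun h4 => hxm (h4 ▸ h3), Or.inr ⟨h3, ?_⟩⟩
        rintro (h4 | h4 | h4)
        · exact hxm (h4 ▸ h3)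
        · exact hp (h4 ▸ h3)
        · exact h2 h4
  · exfalso
    have h1 : H.pts l ∩ H.pts m = ∅ := by
      rw [hl]
      ext y
      simp only [mem_inter, mem_insert, mem_singleton, notMem_empty, iff_false]
      rintro ⟨h2 | h2 | h2, h3⟩
      · exact hxm (h2 ▸ h3)
      · exact hp (h2 ▸ h3)
      · exact hq (h2 ▸ h3)
    rw [h1, card_empty] at hcard
    omega

end Inc

end Pool.Agent.OLD57
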