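import Pool.Agent.OLD57.Basic

/-!
# Module OLD57/ValidRC

PROOF. First: a circuit contains a reduced circuit. If `pts l ⊆ U`: if some mate pair `M ⊆ pts l`,
then `RC M` and `M ⊆ U`, contradiction; otherwise `RC (pts l)`. If `l ≠ m` and
`symmDiff (pts l) (pts m) ⊆ U`: the intersection has 0, 1 or 2 elements (`inter_pts_le`). 2: mate
pair. 0: the symmetric difference contains `pts l`, previous case. 1: a quad; if it contains a mate
pair then as before, otherwise `RC`.
-/

set_option autoImplicit false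

namespace Pool.Agent.OLD57

open Finset

namespace Inc

variable {P L : Type*} [Fintype P] [DecidableEq P] [Fintype L] [DecidableEq L]
variable (H : Inc P L)

theorem valid_of_RC {U : Finset P} (h : ∀ C, H.RC C → ¬ C ⊆ U) : H.Valid U := by
  have key : ∀ C, (H.Line C ∨ H.Quad C) → ¬ C ⊆ U := by
    intro C hC hCU
    by_cases hM : ∃ M, H.Mate M ∧ M ⊆ C
    · obtain ⟨M, hM, hMC⟩ := hM
      exact h M (Or.inl hM) (hMC.trans hCU)
    · exact h C (Or.inr ⟨hC, fun M hM1 hMC => hM ⟨M, hM1, hMC⟩⟩) hCU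
  have hline : ∀ l, ¬ H.pts l ⊆ U := fun l => key _ (Or.inl ⟨l, rfl⟩)
  refine ⟨hline, fun l m hlm hU => ?_⟩
  have hle := H.inter_pts_le hlm
  have hcases : (H.pts l ∩ H.pts m).card = 0 ∨ (H.pts l ∩ H.pts m).card = 1 ∨
      (H.pts l ∩ H.pts m).card = 2 := by omega
  rcases hcases with h0 | h1 | h2
  · refine hline l fun x hx => hU ?_
    rw [mem_symmDiff]
    refine Or.inl ⟨hx, fun hx' => ?_⟩
    rw [card_eq_zero] at h0
    have : x ∈ H.pts l ∩ H.pts m := mem_inter.2 ⟨hx, hx'⟩
    rw [h0] at this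
    exact notMem_empty x this
  · exact key _ (Or.inr ⟨l, m, h1, rfl⟩) hU
  · exact h _ (Or.inl ⟨l, m, h2, rfl⟩) hU

end Inc

end Pool.Agent.OLD57
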